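import Pool.Agent.Lib.MP_08beec_co.AvgUpper

/-!
Positivity, cone property and exponential lower bound for the comparison solution.
-/

namespace Pool.Agent.Lib.MP_08beec_co

open Finset

variable {q : ℝ} {y u : ℕ → ℕ → ℝ}

lemma IsU.nonneg (hu : IsU q y u) (hy : IsY q y) (hq : 6 < q) (hq7 : q < 7) :
    ∀ n j, 0 ≤ u n j := by
  intro n
  induction n with
  | zero =>
    intro j
    rcases lt_or_ge j 7 with h | h
    · rw [hu.low _ _ h]
    · rw [hu.init _ h]; exact hy.zero_nonneg hq j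
  | succ n ihn =>
    intro j
    induction j using Nat.strong_induction_on with
    | _ j ih =>
      rcases lt_or_ge j 7 with h | h
      · rw [hu.low _ _ h]
      · obtain ⟨i, rfl⟩ : ∃ i, j = i + 2 := ⟨j - 2, by omega⟩
        have e := hu.r n i (by omega)
        have hn : (0 : ℝ) ≤ n := Nat.cast_nonneg n
        have hi : (0 : ℝ) ≤ i := Nat.cast_nonneg i
        have hA : 0 < 3 * ((n : ℝ) + 1) + i + q - 1 := by linarith
        have hb := bb_pos hq7 h
        have a1 := ih i (by omega)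
        have a2 := ihn (i + 3)
        have a3 := ihn (i + 1)
        have : 0 ≤ (3 * ((n : ℝ) + 1) + i + q - 1) * u (n + 1) (i + 2) := by
          rw [e]; positivity
        exact (mul_nonneg_iff_of_pos_left hA).mp this

lemma IsU.cone (hu : IsU q y u) (hy : IsY q y) (hq : 6 < q) (hq7 : q < 7) :
    ∀ n j : ℕ, ((j : ℝ) + 1) * u n j ≤ ((j : ℝ) + q - 1) * u n (j + 2) := by
  have hpos := hu.nonneg hy hq hq7
  have hlow : ∀ n j : ℕ, j < 7 → ((j : ℝ) + 1) * u n j ≤ ((j : ℝ) + q - 1) * u n (j + 2) := by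
    intro n j hj
    rw [hu.low _ _ hj, mul_zero]
    have hi : (0 : ℝ) ≤ j := Nat.cast_nonneg j
    exact mul_nonneg (by linarith) (hpos _ _)
  intro n
  induction n with
  | zero =>
    intro j
    rcases lt_or_ge j 7 with h | h
    · exact hlow _ _ h
    · rw [hu.init _ h, hu.init _ (by omega), hy.r0]
  | succ n ihn =>
    intro j
    induction j using Nat.strong_induction_on with
    | _ j ih =>
      rcases lt_or_ge j 7 with h | h
      · exact hlow _ _ h
      · obtain ⟨i, rfl⟩ : ∃ i, j = i + 2 := ⟨j - 2, by omega⟩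
        have e1 := hu.r n i (by omega)
        have e2 := hu.r n (i + 2) (by omega)
        have hn : (0 : ℝ) ≤ n := Nat.cast_nonneg n
        have hi : (5 : ℝ) ≤ i := by exact_mod_cast (by omega : 5 ≤ i)
        have k0 := ih i (by omega)
        have k1 := ihn (i + 1)
        have k2 := ihn (i + 3)
        simp only [Nat.cast_add, Nat.cast_ofNat, Nat.cast_one, add_assoc, Nat.reduceAdd]
          at e1 e2 k0 k1 k2 ⊢
        have hb2 : bb q (i + 2) = ((i : ℝ) + 2 - q) / (i + 2) := by simp [bb]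
        have hb4 : bb q (i + 4) = ((i : ℝ) + 4 - q) / (i + 4) := by simp [bb]
        set v0 := u (n + 1) i
        set v := u (n + 1) (i + 2)
        set v' := u (n + 1) (i + 4)
        set w0 := u n (i + 1)
        set w := u n (i + 3)
        set w' := u n (i + 5)
        have hw : 0 ≤ w := hpos _ _
        have hN : (0 : ℝ) < 3 * ((n : ℝ) + 1) := by linarith
        have hv : v ≤ bb q (i + 2) * w + w0 := by
          have : 3 * ((n : ℝ) + 1) * v ≤ 3 * ((n : ℝ) + 1) * (bb q (i + 2) * w + w0) := by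
            linarith
          exact le_of_mul_le_mul_left this hN
        have hR1 : ((i : ℝ) + 2) * (bb q (i + 2) * w + w0) ≤ (2 * i + 2) * w := by
          have : ((i : ℝ) + 2) * (bb q (i + 2) * w) = ((i : ℝ) + 2 - q) * w := by
            rw [hb2]; field_simp
          linarith
        have hR2 : (2 * (i : ℝ) + 6) * w ≤ ((i : ℝ) + q + 2) * (bb q (i + 4) * w' + w) := by
          have h4 : (0 : ℝ) < i + 4 := by linarith
          have hb : 0 ≤ bb q (i + 4) := (bb_pos hq7 (by omega)).le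
          have : ((i : ℝ) + 4 - q) * w ≤ ((i : ℝ) + q + 2) * (bb q (i + 4) * w') := by
            calc ((i : ℝ) + 4 - q) * w = bb q (i + 4) * (((i : ℝ) + 4) * w) := by
                  rw [hb4]; field_simp
              _ ≤ bb q (i + 4) * (((i : ℝ) + q + 2) * w') := by
                  apply mul_le_mul_of_nonneg_left _ hb; linarith
              _ = _ := by ring
          linarith
        have hkey : ((i : ℝ) + 3) * v ≤ ((i : ℝ) + q + 1) * (bb q (i + 4) * w' + w) := by
          have p1 : (0 : ℝ) < (i + 2) * (i + q + 2) := by positivity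
          apply le_of_mul_le_mul_left _ p1
          calc ((i : ℝ) + 2) * (i + q + 2) * (((i : ℝ) + 3) * v)
              = ((i : ℝ) + q + 2) * (i + 3) * ((i + 2) * v) := by ring
            _ ≤ ((i : ℝ) + q + 2) * (i + 3) * ((2 * i + 2) * w) := by
                apply mul_le_mul_of_nonneg_left _ (by positivity)
                calc ((i : ℝ) + 2) * v ≤ ((i : ℝ) + 2) * (bb q (i + 2) * w + w0) := by gcongr
                  _ ≤ _ := hR1
            _ = ((i + 1) * (i + q + 2)) * ((2 * (i : ℝ) + 6) * w) := by ring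
            _ ≤ ((i + 2) * (i + q + 1)) * ((2 * (i : ℝ) + 6) * w) := by
                apply mul_le_mul_of_nonneg_right _ (by positivity); nlinarith
            _ ≤ ((i + 2) * (i + q + 1)) * (((i : ℝ) + q + 2) * (bb q (i + 4) * w' + w)) := by
                gcongr
            _ = _ := by ring
        have hA : (0 : ℝ) < 3 * ((n : ℝ) + 1) + i + q + 1 := by linarith
        apply le_of_mul_le_mul_left _ hA
        have e3 : (3 * ((n : ℝ) + 1) + i + q + 1) * v' =
            ((i : ℝ) + 3) * v + 3 * ((n : ℝ) + 1) * (bb q (i + 4) * w' + w) := by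
          linarith
        calc (3 * ((n : ℝ) + 1) + i + q + 1) * (((i : ℝ) + (2 + 1)) * v)
            = ((i : ℝ) + q + 1) * (((i : ℝ) + 3) * v) +
                3 * ((n : ℝ) + 1) * (((i : ℝ) + 3) * v) := by ring
          _ ≤ ((i : ℝ) + q + 1) * (((i : ℝ) + 3) * v) +
                3 * ((n : ℝ) + 1) * (((i : ℝ) + q + 1) * (bb q (i + 4) * w' + w)) := by gcongr
          _ = ((i : ℝ) + q + 1) * ((3 * ((n : ℝ) + 1) + i + q + 1) * v') := by rw [e3]; ring
          _ = _ := by ring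

lemma IsU.down (hu : IsU q y u) (hy : IsY q y) (hq : 6 < q) (hq7 : q < 7) (n i : ℕ)
    (hi : 5 ≤ i) :
    3 * ((n : ℝ) + 1) / (3 * ((n : ℝ) + 1) + i + q - 1) * bb q (i + 2) *
      (u n (i + 3) + u n (i + 1)) ≤ u (n + 1) (i + 2) := by
  have hpos := hu.nonneg hy hq hq7
  have e := hu.r n i hi
  have hn : (0 : ℝ) ≤ n := Nat.cast_nonneg n
  have hi' : (0 : ℝ) ≤ i := Nat.cast_nonneg i
  have hA : 0 < 3 * ((n : ℝ) + 1) + i + q - 1 := by linarith
  have hb := bb_le_one hq (j := i + 2) (by omega)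
  have a1 := hpos (n + 1) i
  have a3 := hpos n (i + 1)
  rw [div_mul_eq_mul_div, div_mul_eq_mul_div, div_le_iff₀ hA, mul_comm (u _ _), e]
  have : 0 ≤ ((i : ℝ) + 1) * u (n + 1) i := by positivity
  have h2 : bb q (i + 2) * u n (i + 1) ≤ u n (i + 1) := by nlinarith
  nlinarith

lemma IsU.pos (hu : IsU q y u) (hy : IsY q y) (hq : 6 < q) (hq7 : q < 7) :
    ∀ n j, 7 ≤ j → Even (n + j) → 0 < u n j := by
  intro n
  induction n with
  | zero =>
    intro j hj he
    obtain ⟨k, hk⟩ := he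
    rw [hu.init _ hj, show j = 2 * k by omega]
    exact hy.zero_pos hq k
  | succ n ihn =>
    intro j hj he
    obtain ⟨i, rfl⟩ : ∃ i, j = i + 2 := ⟨j - 2, by omega⟩
    have h := hu.down hy hq hq7 n i (by omega)
    have hn : (0 : ℝ) ≤ n := Nat.cast_nonneg n
    have hi' : (0 : ℝ) ≤ i := Nat.cast_nonneg i
    have hA : 0 < 3 * ((n : ℝ) + 1) + i + q - 1 := by linarith
    have hb := bb_pos hq7 hj
    have a1 := ihn (i + 3) (by omega) (by obtain ⟨k, hk⟩ := he; exact ⟨k, by omega⟩)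
    have a2 := hu.nonneg hy hq hq7 n (i + 1)
    refine lt_of_lt_of_le ?_ h
    positivity

lemma exists_lower_of_finite (P : ℕ → Prop) (f : ℕ → ℝ) (hf : ∀ j, P j → 0 < f j) (K : ℕ) :
    ∃ c > 0, ∀ j < K, P j → c ≤ f j := by
  induction K with
  | zero => exact ⟨1, one_pos, by simp⟩
  | succ K ih =>
    obtain ⟨c, hc, h⟩ := ih
    by_cases hK : P K
    · refine ⟨min c (f K), lt_min hc (hf K hK), ?_⟩
      intro j hj hP
      rcases Nat.lt_succ_iff_lt_or_eq.mp hj with h1 | h1
      · exact (min_le_left _ _).trans (h j h1 hP)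
      · subst h1; exact min_le_right _ _
    · refine ⟨c, hc, ?_⟩
      intro j hj hP
      rcases Nat.lt_succ_iff_lt_or_eq.mp hj with h1 | h1
      · exact h j h1 hP
      · subst h1; exact absurd hP hK

lemma IsU.window (hu : IsU q y u) (hy : IsY q y) (hq : 6 < q) (hq7 : q < 7) {E : ℝ}
    (hE1 : 1 ≤ E) (hE2 : E < 2) :
    ∃ j0, 8 ≤ j0 ∧ ∃ c > 0, ∀ n, Even (n + j0) → c * E ^ n ≤ u n j0 := by
  have hpos := hu.nonneg hy hq hq7
  set η := 2 - E with hη
  have hη0 : 0 < η := by linarith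
  have hη1 : η ≤ 1 := by linarith
  obtain ⟨m, hm⟩ := exists_nat_ge (4 / η + 1)
  obtain ⟨L, hL⟩ := exists_nat_ge (112 / η)
  obtain ⟨n0, hn0⟩ := exists_nat_ge (16 * ((L : ℝ) + m + 4) / η)
  have hm' : 4 ≤ η * ((m : ℝ) - 1) := by
    have : 4 / η ≤ (m : ℝ) - 1 := by linarith
    rw [div_le_iff₀ hη0] at this; linarith
  have hL' : 112 ≤ η * L := by rw [div_le_iff₀ hη0] at hL; linarith
  have hn0' : 16 * ((L : ℝ) + m + 4) ≤ η * n0 := by rw [div_le_iff₀ hη0] at hn0; linarith
  have hm5 : (5 : ℝ) ≤ m := by nlinarith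
  have hL7 : (112 : ℝ) ≤ L := by nlinarith [Nat.cast_nonneg (α := ℝ) L]
  have hL7' : 112 ≤ L := by exact_mod_cast hL7
  obtain ⟨c0, hc0, hc⟩ := exists_lower_of_finite (fun j => 7 ≤ j ∧ Even (n0 + j)) (u n0)
    (fun j hj => hu.pos hy hq hq7 n0 j hj.1 hj.2) (L + m + 1)
  have hmpos : (0 : ℝ) < (m : ℝ) ^ 2 := by positivity
  have key : ∀ k a b : ℕ, a + b = m → Even (n0 + k + (L + a)) →
      c0 / (m : ℝ) ^ 2 * E ^ k * ((a : ℝ) * b) ≤ u (n0 + k) (L + a) := by
    intro k
    induction k with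
    | zero =>
      intro a b hab he
      have h1 := hc (L + a) (by omega) ⟨by omega, by simpa using he⟩
      have ha : (a : ℝ) ≤ m := by exact_mod_cast (by omega : a ≤ m)
      have hb : (b : ℝ) ≤ m := by exact_mod_cast (by omega : b ≤ m)
      have : (a : ℝ) * b ≤ (m : ℝ) ^ 2 := by rw [sq]; gcongr
      calc c0 / (m : ℝ) ^ 2 * E ^ 0 * ((a : ℝ) * b) ≤ c0 / (m : ℝ) ^ 2 * E ^ 0 * (m : ℝ) ^ 2 := by
            gcongr
        _ = c0 := by field_simp
        _ ≤ _ := h1
    | succ k ih =>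
      intro a b hab he
      rcases Nat.eq_zero_or_pos a with rfl | ha
      · simpa using hpos _ _
      rcases Nat.eq_zero_or_pos b with rfl | hb
      · simpa using hpos _ _
      obtain ⟨a, rfl⟩ : ∃ a', a = a' + 1 := ⟨a - 1, by omega⟩
      obtain ⟨b, rfl⟩ : ∃ b', b = b' + 1 := ⟨b - 1, by omega⟩
      have i1 := ih (a + 2) b (by omega) (by obtain ⟨r, hr⟩ := he; exact ⟨r, by omega⟩)
      have i2 := ih a (b + 2) (by omega) (by obtain ⟨r, hr⟩ := he; exact ⟨r - 1, by omega⟩)
      obtain ⟨i, hi⟩ : ∃ i, L + a = i + 1 := ⟨L + a - 1, by omega⟩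
      have h := hu.down hy hq hq7 (n0 + k) i (by omega)
      rw [show L + (a + 2) = i + 3 by omega] at i1
      rw [hi] at i2
      rw [show L + (a + 1) = i + 2 by omega, show n0 + (k + 1) = n0 + k + 1 by omega]
      refine le_trans ?_ h
      have hab' : (a : ℝ) + 1 + (b + 1) = m := by exact_mod_cast hab
      have hi' : (L : ℝ) + a = i + 1 := by exact_mod_cast hi
      have ha0 : (0 : ℝ) ≤ a := Nat.cast_nonneg a
      have hb0 : (0 : ℝ) ≤ b := Nat.cast_nonneg b
      have hk0 : (0 : ℝ) ≤ k := Nat.cast_nonneg k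
      have hn00 : (0 : ℝ) ≤ n0 := Nat.cast_nonneg n0
      have hW : 1 - η / 16 ≤ 3 * (((n0 + k : ℕ) : ℝ) + 1) /
          (3 * (((n0 + k : ℕ) : ℝ) + 1) + i + q - 1) := by
        push_cast
        rw [le_div_iff₀ (by linarith)]
        nlinarith
      have hB : 1 - η / 16 ≤ bb q (i + 2) := by
        unfold bb
        push_cast
        rw [le_div_iff₀ (by linarith)]
        nlinarith
      set K := c0 / (m : ℝ) ^ 2 * E ^ k with hK
      have hK0 : 0 ≤ K := by positivity
      have hψ : (m : ℝ) - 1 ≤ ((a : ℝ) + 1) * (b + 1) := by nlinarith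
      have hs : K * ((2 - η / 2) * (((a : ℝ) + 1) * (b + 1))) ≤
          u (n0 + k) (i + 3) + u (n0 + k) (i + 1) := by
        push_cast at i1 i2
        have : (2 - η / 2) * (((a : ℝ) + 1) * (b + 1)) ≤ ((a : ℝ) + 2) * b + a * (b + 2) := by
          nlinarith
        calc _ ≤ K * (((a : ℝ) + 2) * b + a * (b + 2)) := by gcongr
          _ ≤ _ := by linarith
      have h16 : 0 ≤ 1 - η / 16 := by linarith
      calc c0 / (m : ℝ) ^ 2 * E ^ (k + 1) * (((a + 1 : ℕ) : ℝ) * ((b + 1 : ℕ) : ℝ))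
          = E * (K * (((a : ℝ) + 1) * (b + 1))) := by rw [hK]; push_cast; ring
        _ ≤ ((1 - η / 16) * (1 - η / 16) * (2 - η / 2)) * (K * (((a : ℝ) + 1) * (b + 1))) := by
            gcongr
            have h1 : 1 - η / 8 ≤ (1 - η / 16) * (1 - η / 16) := by nlinarith [sq_nonneg η]
            have h2 : 0 ≤ 2 - η / 2 := by linarith
            have h3 := mul_le_mul_of_nonneg_right h1 h2
            have h4 : 2 - η ≤ (1 - η / 8) * (2 - η / 2) := by nlinarith [sq_nonneg η]
            linarith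
        _ = (1 - η / 16) * (1 - η / 16) * (K * ((2 - η / 2) * (((a : ℝ) + 1) * (b + 1)))) := by
            ring
        _ ≤ _ := by
            have : 0 ≤ 2 - η / 2 := by linarith
            have := h16.trans hW
            have := h16.trans hB
            gcongr
  obtain ⟨c1, hc1, hc1'⟩ := exists_lower_of_finite (fun n => Even (n + (L + 1)))
    (fun n => u n (L + 1) / E ^ n)
    (fun n hn => div_pos (hu.pos hy hq hq7 n _ (by omega) hn) (by positivity)) n0
  refine ⟨L + 1, by omega, min c1 (c0 / (m : ℝ) ^ 2 / E ^ n0), lt_min hc1 (by positivity), ?_⟩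
  intro n hn
  have hEn : 0 < E ^ n := by positivity
  rcases lt_or_ge n n0 with h | h
  · have := hc1' n h hn
    rw [le_div_iff₀ hEn] at this
    exact le_trans (by gcongr; exact min_le_left _ _) this
  · obtain ⟨k, rfl⟩ : ∃ k, n = n0 + k := ⟨n - n0, by omega⟩
    have hm5' : 5 ≤ m := by exact_mod_cast hm5
    have := key k 1 (m - 1) (by omega) hn
    refine le_trans ?_ this
    have h1 : (1 : ℝ) ≤ ((1 : ℕ) : ℝ) * ((m - 1 : ℕ) : ℝ) := by
      have : 1 ≤ m - 1 := by omega
      simpa using (by exact_mod_cast this : (1 : ℝ) ≤ ((m - 1 : ℕ) : ℝ))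
    calc min c1 (c0 / (m : ℝ) ^ 2 / E ^ n0) * E ^ (n0 + k)
        ≤ (c0 / (m : ℝ) ^ 2 / E ^ n0) * E ^ (n0 + k) := by gcongr; exact min_le_right _ _
      _ = c0 / (m : ℝ) ^ 2 * E ^ k * 1 := by rw [pow_add]; field_simp
      _ ≤ _ := by gcongr

lemma IsU.lower (hu : IsU q y u) (hy : IsY q y) (hq : 6 < q) (hq7 : q < 7) {E : ℝ}
    (hE1 : 1 ≤ E) (hE2 : E < 2) :
    ∃ c > 0, ∀ n j, (j = 7 ∨ j = 8) → Even (n + j) → c * E ^ n ≤ u n j := by
  have hpos := hu.nonneg hy hq hq7
  have step : ∀ j, 7 ≤ j → (∃ c > 0, ∀ n, Even (n + (j + 1)) → c * E ^ n ≤ u n (j + 1)) →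
      ∃ c > 0, ∀ n, Even (n + j) → c * E ^ n ≤ u n j := by
    intro j hj ⟨c, hc, h⟩
    obtain ⟨i, rfl⟩ : ∃ i, j = i + 2 := ⟨j - 2, by omega⟩
    have hi' : (0 : ℝ) ≤ i := Nat.cast_nonneg i
    have hb := bb_pos hq7 hj
    obtain ⟨c1, hc1, hc1'⟩ := exists_lower_of_finite (fun n => Even (n + (i + 2)))
      (fun n => u n (i + 2)) (fun n hn => hu.pos hy hq hq7 n _ hj hn) 1
    refine ⟨min c1 (3 / ((i : ℝ) + 9) * bb q (i + 2) * c / E), lt_min hc1 (by positivity), ?_⟩
    intro n hn
    cases n with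
    | zero =>
      simp only [pow_zero, mul_one]
      exact (min_le_left _ _).trans (hc1' 0 (by omega) hn)
    | succ n =>
      have h1 := h n (by obtain ⟨r, hr⟩ := hn; exact ⟨r, by omega⟩)
      have h2 := hu.down hy hq hq7 n i (by omega)
      have hn0 : (0 : ℝ) ≤ n := Nat.cast_nonneg n
      have hW : 3 / ((i : ℝ) + 9) ≤ 3 * ((n : ℝ) + 1) / (3 * ((n : ℝ) + 1) + i + q - 1) := by
        rw [div_le_div_iff₀ (by linarith) (by linarith)]
        nlinarith
      have a3 := hpos n (i + 1)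
      refine le_trans ?_ h2
      calc min c1 (3 / ((i : ℝ) + 9) * bb q (i + 2) * c / E) * E ^ (n + 1)
          ≤ (3 / ((i : ℝ) + 9) * bb q (i + 2) * c / E) * E ^ (n + 1) := by
            gcongr; exact min_le_right _ _
        _ = 3 / ((i : ℝ) + 9) * bb q (i + 2) * (c * E ^ n) := by rw [pow_succ]; field_simp
        _ ≤ _ := by
            have : 0 ≤ 3 * ((n : ℝ) + 1) / (3 * ((n : ℝ) + 1) + i + q - 1) :=
              le_trans (by positivity) hW
            have h3 : c * E ^ n ≤ u n (i + 3) + u n (i + 1) := by linarith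
            gcongr
  obtain ⟨j0, hj0, hw⟩ := hu.window hy hq hq7 hE1 hE2
  have all : ∀ d j, 7 ≤ j → j + d = j0 → ∃ c > 0, ∀ n, Even (n + j) → c * E ^ n ≤ u n j := by
    intro d
    induction d with
    | zero => intro j _ h; simp at h; subst h; exact hw
    | succ d ih => intro j hj h; exact step j hj (ih (j + 1) (by omega) (by omega))
  obtain ⟨c7, h7, h7'⟩ := all (j0 - 7) 7 le_rfl (by omega)
  obtain ⟨c8, h8, h8'⟩ := all (j0 - 8) 8 (by omega) (by omega)
  refine ⟨min c7 c8, lt_min h7 h8, ?_⟩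
  intro n j hj he
  have hEn : 0 < E ^ n := by positivity
  rcases hj with rfl | rfl
  · exact le_trans (by gcongr; exact min_le_left _ _) (h7' n he)
  · exact le_trans (by gcongr; exact min_le_right _ _) (h8' n he)

lemma IsU.climb (hu : IsU q y u) (hy : IsY q y) (hq : 6 < q) (hq7 : q < 7) (n j : ℕ)
    (hj : 7 ≤ j) : ∀ k, (1 / 2 : ℝ) ^ k * u n j ≤ u n (j + 2 * k) := by
  intro k
  induction k with
  | zero => simp
  | succ k ih =>
    have h := hu.cone hy hq hq7 n (j + 2 * k)
    have hp := hu.nonneg hy hq hq7 n (j + 2 * k + 2)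
    have hj' : (7 : ℝ) ≤ ((j + 2 * k : ℕ) : ℝ) := by exact_mod_cast (by omega : 7 ≤ j + 2 * k)
    rw [show j + 2 * (k + 1) = j + 2 * k + 2 by ring, pow_succ]
    have : u n (j + 2 * k) ≤ 2 * u n (j + 2 * k + 2) := by
      apply le_of_mul_le_mul_left _ (by linarith : (0 : ℝ) < ((j + 2 * k : ℕ) : ℝ) + 1)
      nlinarith
    linarith

end Pool.Agent.Lib.MP_08beec_co
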