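import Pool.Agent.Lib.MP_08beec_co.AvgCone

/-!
The solution of the positively signed recurrence cannot grow at a rate below two.
-/

namespace Pool.Agent.Lib.MP_08beec_co

open Finset

noncomputable def GG : ℕ → ℝ
  | 0 => 1
  | (n + 1) => GG n * (4 * ((n : ℝ) + 1) / (4 * n + 1))

lemma GG_ge_one : ∀ n, 1 ≤ GG n := by
  intro n
  induction n with
  | zero => simp [GG]
  | succ n ih =>
    have hn : (0 : ℝ) ≤ n := Nat.cast_nonneg n
    have : 1 ≤ 4 * ((n : ℝ) + 1) / (4 * n + 1) := by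
      rw [le_div_iff₀ (by linarith)]; linarith
    rw [GG]
    nlinarith

lemma GG_sq : ∀ n : ℕ, (n : ℝ) + 1 ≤ GG (n + 1) ^ 2 := by
  intro n
  induction n with
  | zero => norm_num [GG]
  | succ n ih =>
    have hn : (0 : ℝ) ≤ n := Nat.cast_nonneg n
    rw [GG, mul_pow]
    push_cast
    have h : ((n : ℝ) + 1 + 1) ≤ ((n : ℝ) + 1) * (4 * ((n : ℝ) + 1 + 1) / (4 * (n + 1) + 1)) ^ 2 := by
      rw [div_pow, ← mul_div_assoc, le_div_iff₀ (by positivity)]
      nlinarith [mul_nonneg hn hn, mul_nonneg (mul_nonneg hn hn) hn]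
    calc _ ≤ _ := h
      _ ≤ _ := by gcongr

lemma GG_four : ∀ n : ℕ, GG (n + 1) ^ 4 ≤ 256 * ((n : ℝ) + 1) ^ 3 := by
  intro n
  induction n with
  | zero => simp [GG]; norm_num
  | succ n ih =>
    have hn : (0 : ℝ) ≤ n := Nat.cast_nonneg n
    rw [GG, mul_pow]
    push_cast
    have h : ((n : ℝ) + 1) ^ 3 * (4 * ((n : ℝ) + 1 + 1) / (4 * (n + 1) + 1)) ^ 4 ≤
        ((n : ℝ) + 1 + 1) ^ 3 := by
      rw [div_pow, ← mul_div_assoc, div_le_iff₀ (by positivity)]
      have h2 : 256 * ((n : ℝ) + 1) ^ 3 * (n + 2) ≤ (4 * (n + 1) + 1) ^ 4 := by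
        nlinarith [mul_nonneg hn hn, mul_nonneg (mul_nonneg hn hn) hn]
      calc ((n : ℝ) + 1) ^ 3 * (4 * ((n : ℝ) + 1 + 1)) ^ 4
          = ((n : ℝ) + 1 + 1) ^ 3 * (256 * ((n : ℝ) + 1) ^ 3 * (n + 2)) := by ring
        _ ≤ _ := by gcongr
    calc GG (n + 1) ^ 4 * (4 * ((n : ℝ) + 1 + 1) / (4 * (n + 1) + 1)) ^ 4
        ≤ 256 * ((n : ℝ) + 1) ^ 3 * (4 * ((n : ℝ) + 1 + 1) / (4 * (n + 1) + 1)) ^ 4 := by gcongr
      _ = 256 * (((n : ℝ) + 1) ^ 3 * (4 * ((n : ℝ) + 1 + 1) / (4 * (n + 1) + 1)) ^ 4) := by ring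
      _ ≤ _ := by gcongr

noncomputable def ff (q : ℝ) (n j : ℕ) : ℝ := min 1 (20 * GG n / ((j : ℝ) + q - 1))

variable {q : ℝ} {y u : ℕ → ℕ → ℝ}

lemma ff_nonneg (hq : 6 < q) (n j : ℕ) : 0 ≤ ff q n j := by
  have := GG_ge_one n
  have hj : (0 : ℝ) ≤ j := Nat.cast_nonneg j
  apply le_min zero_le_one
  apply div_nonneg <;> linarith

lemma ff_le_one (n j : ℕ) : ff q n j ≤ 1 := min_le_left _ _

lemma ff_le (n j : ℕ) : ff q n j ≤ 20 * GG n / ((j : ℝ) + q - 1) := min_le_right _ _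

lemma ff_eq_one (hq : 6 < q) (hq7 : q < 7) (n j : ℕ) (hj : j ≤ 8) : ff q n j = 1 := by
  have := GG_ge_one n
  have hj0 : (0 : ℝ) ≤ j := Nat.cast_nonneg j
  have hj' : (j : ℝ) ≤ 8 := by exact_mod_cast hj
  apply min_eq_left
  rw [le_div_iff₀ (by linarith)]
  linarith

lemma IsU.super (hu : IsU q y u) (hy : IsY q y) (hq : 6 < q) (hq7 : q < 7) (n i : ℕ)
    (hi : 5 ≤ i) :
    ((i : ℝ) + 1) * (u (n + 1) i * ff q (n + 1) i) +
      3 * ((n : ℝ) + 1) * (bb q (i + 2) * (u n (i + 3) * ff q n (i + 3)) +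
        u n (i + 1) * ff q n (i + 1)) ≤
    (3 * ((n : ℝ) + 1) + i + q - 1) * (u (n + 1) (i + 2) * ff q (n + 1) (i + 2)) := by
  have hpos := hu.nonneg hy hq hq7
  have e := hu.r n i hi
  have hn : (0 : ℝ) ≤ n := Nat.cast_nonneg n
  have hi' : (5 : ℝ) ≤ i := by exact_mod_cast hi
  have hb := (bb_pos hq7 (j := i + 2) (by omega)).le
  have p0 := hpos (n + 1) i
  have p1 := hpos n (i + 3)
  have p2 := hpos n (i + 1)
  have p3 := hpos (n + 1) (i + 2)
  by_cases hc : 1 ≤ 20 * GG (n + 1) / (((i + 2 : ℕ) : ℝ) + q - 1)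
  · have : ff q (n + 1) (i + 2) = 1 := min_eq_left hc
    rw [this, mul_one, e]
    have a0 : u (n + 1) i * ff q (n + 1) i ≤ u (n + 1) i :=
      mul_le_of_le_one_right p0 (ff_le_one _ _)
    have a1 : u n (i + 3) * ff q n (i + 3) ≤ u n (i + 3) :=
      mul_le_of_le_one_right p1 (ff_le_one _ _)
    have a2 : u n (i + 1) * ff q n (i + 1) ≤ u n (i + 1) :=
      mul_le_of_le_one_right p2 (ff_le_one _ _)
    gcongr
  · push Not at hc
    have hf : ff q (n + 1) (i + 2) = 20 * GG (n + 1) / ((i : ℝ) + q + 1) := by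
      rw [ff, min_eq_right hc.le]; push_cast; ring_nf
    have hlt : 20 * GG (n + 1) < (i : ℝ) + q + 1 := by
      push_cast at hc
      rw [div_lt_one (by linarith)] at hc
      linarith
    have k0 := hu.cone hy hq hq7 (n + 1) i
    have k1 := hu.cone hy hq hq7 n (i + 1)
    push_cast at k1
    rw [show i + 1 + 2 = i + 3 by ring] at k1
    have f0 := ff_le (q := q) (n + 1) i
    have f1 := ff_le (q := q) n (i + 3)
    have f2 := ff_le (q := q) n (i + 1)
    push_cast at f1 f2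
    have hb2 : bb q (i + 2) = ((i : ℝ) + 2 - q) / (i + 2) := by simp [bb]
    set v0 := u (n + 1) i
    set v := u (n + 1) (i + 2)
    set w0 := u n (i + 1)
    set w := u n (i + 3)
    set F := 20 * GG n with hF
    set F' := 20 * GG (n + 1) with hF'
    have hF1 : 20 ≤ F := by have := GG_ge_one n; linarith
    have hF'1 : 20 ≤ F' := by have := GG_ge_one (n + 1); linarith
    have hFF : F' * (4 * n + 1) = F * (4 * ((n : ℝ) + 1)) := by
      rw [hF, hF', GG]; field_simp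
    have hF2 : 400 * ((n : ℝ) + 1) ≤ F' ^ 2 := by
      have := GG_sq n; rw [hF']; nlinarith
    set R := bb q (i + 2) * w + w0 with hR
    have hR0 : 0 ≤ R := by positivity
    have hN : (0 : ℝ) < 3 * ((n : ℝ) + 1) := by linarith
    have hv : v ≤ R := by
      have : 3 * ((n : ℝ) + 1) * v ≤ 3 * ((n : ℝ) + 1) * R := by linarith
      exact le_of_mul_le_mul_left this hN
    have hX : ((i : ℝ) + 1) * v0 ≤ ((i : ℝ) + q - 1) * R := by
      calc _ ≤ _ := k0
        _ ≤ _ := by gcongr; linarith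
    -- mixing estimate
    have hmix : bb q (i + 2) * w / ((i : ℝ) + q + 2) + w0 / ((i : ℝ) + q) ≤
        R * ((i : ℝ) + 2) / (((i : ℝ) + 1) * (i + q + 2)) := by
      rw [hR, hb2, div_add_div _ _ (by linarith) (by linarith),
        div_le_div_iff₀ (by positivity) (by positivity)]
      have h2 : (0 : ℝ) < i + 2 := by linarith
      have : 0 ≤ ((i : ℝ) + 2 - q) * ((i : ℝ) + q + 2) * (((i : ℝ) + q) * w - (i + 2) * w0) := by
        apply mul_nonneg (mul_nonneg (by linarith) (by linarith)); linarith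
      have e5 : (((i : ℝ) + 2 - q) / (i + 2) * w + w0) * ((i : ℝ) + 2) * ((i + q + 2) * (i + q)) -
          (((i : ℝ) + 2 - q) / (i + 2) * w * (i + q) + (i + q + 2) * w0) * ((i + 1) * (i + q + 2))
          = ((i : ℝ) + 2 - q) * ((i : ℝ) + q + 2) * (((i : ℝ) + q) * w - (i + 2) * w0) / (i + 2) := by
        field_simp; ring
      have : 0 ≤ ((i : ℝ) + 2 - q) * ((i : ℝ) + q + 2) * (((i : ℝ) + q) * w - (i + 2) * w0) /
        (i + 2) := by positivity
      linarith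
    have hnum : 3 * ((n : ℝ) + 1) * F * (((i : ℝ) + 2) / (((i : ℝ) + 1) * (i + q + 2))) ≤
        (3 * n + 1) * F' / ((i : ℝ) + q + 1) := by
      have hF3 : F = F' * (4 * n + 1) / (4 * ((n : ℝ) + 1)) := by
        rw [hFF]; field_simp
      have hbig : q * (12 * n + 3) ≤ ((i : ℝ) + 1) * (i + q + 2) := by
        have : F' / 2 ≤ (i : ℝ) + 1 := by linarith
        have h3 : F' / 2 * F' ≤ ((i : ℝ) + 1) * (i + q + 2) := by
          apply mul_le_mul this (by linarith) (by linarith) (by linarith)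
        nlinarith
      rw [hF3, le_div_iff₀ (by linarith)]
      have : 3 * ((n : ℝ) + 1) * (F' * (4 * n + 1) / (4 * ((n : ℝ) + 1))) *
          (((i : ℝ) + 2) / (((i : ℝ) + 1) * (i + q + 2))) * (i + q + 1) =
          F' * ((12 * n + 3) * ((i + 1) * (i + q + 2) + q) / (4 * (((i : ℝ) + 1) * (i + q + 2)))) := by
        field_simp; ring
      rw [this, mul_comm (3 * (n : ℝ) + 1)]
      apply mul_le_mul_of_nonneg_left _ (by linarith)
      rw [div_le_iff₀ (by positivity)]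
      linarith
    rw [hf]
    have hq1 : (0 : ℝ) < i + q - 1 := by linarith
    calc ((i : ℝ) + 1) * (v0 * ff q (n + 1) i) +
          3 * ((n : ℝ) + 1) * (bb q (i + 2) * (w * ff q n (i + 3)) + w0 * ff q n (i + 1))
        ≤ ((i : ℝ) + 1) * (v0 * (F' / ((i : ℝ) + q - 1))) +
          3 * ((n : ℝ) + 1) * (bb q (i + 2) * (w * (F / ((i : ℝ) + 3 + q - 1))) +
            w0 * (F / ((i : ℝ) + 1 + q - 1))) := by gcongr
      _ = ((i : ℝ) + 1) * v0 * F' / ((i : ℝ) + q + 1) +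
            (((i : ℝ) + 1) * v0) * (2 * F' / (((i : ℝ) + q - 1) * (i + q + 1))) +
          3 * ((n : ℝ) + 1) * F *
            (bb q (i + 2) * w / ((i : ℝ) + q + 2) + w0 / ((i : ℝ) + q)) := by
          rw [show (i : ℝ) + 3 + q - 1 = i + q + 2 by ring, show (i : ℝ) + 1 + q - 1 = i + q by ring]
          field_simp; ring
      _ ≤ ((i : ℝ) + 1) * v0 * F' / ((i : ℝ) + q + 1) +
            (((i : ℝ) + q - 1) * R) * (2 * F' / (((i : ℝ) + q - 1) * (i + q + 1))) +
          3 * ((n : ℝ) + 1) * F * (R * ((i : ℝ) + 2) / (((i : ℝ) + 1) * (i + q + 2))) := by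
          gcongr
      _ = ((i : ℝ) + 1) * v0 * F' / ((i : ℝ) + q + 1) + R * (2 * F' / (i + q + 1)) +
          R * (3 * ((n : ℝ) + 1) * F * (((i : ℝ) + 2) / (((i : ℝ) + 1) * (i + q + 2)))) := by
          field_simp
      _ ≤ ((i : ℝ) + 1) * v0 * F' / ((i : ℝ) + q + 1) + R * (2 * F' / (i + q + 1)) +
          R * ((3 * n + 1) * F' / ((i : ℝ) + q + 1)) := by gcongr
      _ = (((i : ℝ) + 1) * v0 + 3 * ((n : ℝ) + 1) * R) * (F' / ((i : ℝ) + q + 1)) := by
          field_simp; ring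
      _ = _ := by rw [← e]; ring

lemma IsU.compare (hu : IsU q y u) (hy : IsY q y) (hq : 6 < q) (hq7 : q < 7) {S ρ : ℝ}
    (hS : 0 ≤ S) (hρ0 : 0 < ρ) (hρ1 : ρ < 1)
    (h7 : ∀ n, |y (n + 1) 5| + |y n 6| ≤ S * ρ ^ n * u (n + 1) 7)
    (h8 : ∀ n, |y (n + 1) 6| ≤ S * ρ ^ n * u (n + 1) 8) :
    ∀ n j, 7 ≤ j → |y n j - u n j| ≤ S / (1 - ρ) * (1 - ρ ^ n) * (u n j * ff q n j) := by
  have hpos := hu.nonneg hy hq hq7
  set K := S / (1 - ρ) with hK
  have hK0 : 0 ≤ K := div_nonneg hS (by linarith)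
  intro n
  induction n with
  | zero => intro j hj; rw [hu.init _ hj]; simp
  | succ n ihn =>
    have hn : (0 : ℝ) ≤ n := Nat.cast_nonneg n
    have hρn : 0 < ρ ^ n := by positivity
    have hρn1 : ρ ^ n ≤ 1 := pow_le_one₀ hρ0.le hρ1.le
    have hdiff : K * (1 - ρ ^ (n + 1)) = K * (1 - ρ ^ n) + S * ρ ^ n := by
      have : 1 - ρ ≠ 0 := by linarith
      rw [hK, pow_succ]; field_simp; ring
    have hC0 : 0 ≤ K * (1 - ρ ^ n) := mul_nonneg hK0 (by linarith)
    have hN : (0 : ℝ) < 3 * ((n : ℝ) + 1) := by linarith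
    intro j
    induction j using Nat.strong_induction_on with
    | _ j ih =>
      intro hj
      obtain ⟨i, rfl⟩ : ∃ i, j = i + 2 := ⟨j - 2, by omega⟩
      have hi : 5 ≤ i := by omega
      have hi' : (5 : ℝ) ≤ i := by exact_mod_cast hi
      have hA : 0 < 3 * ((n : ℝ) + 1) + i + q - 1 := by linarith
      have e1 := hy.r n i
      have e2 := hu.r n i hi
      have hs := hu.super hy hq hq7 n i hi
      have hb := (bb_pos hq7 (j := i + 2) (by omega)).le
      have a1 := ihn (i + 3) (by omega)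
      have base : (3 * ((n : ℝ) + 1) + i + q - 1) * |y (n + 1) (i + 2) - u (n + 1) (i + 2)| ≤
          ((i : ℝ) + 1) * |y (n + 1) i - u (n + 1) i| + 3 * ((n : ℝ) + 1) *
            (bb q (i + 2) * |y n (i + 3) - u n (i + 3)| + |y n (i + 1) - u n (i + 1)|) := by
        calc _ = |(3 * ((n : ℝ) + 1) + i + q - 1) * (y (n + 1) (i + 2) - u (n + 1) (i + 2))| := by
              rw [abs_mul, abs_of_pos hA]
          _ = |((i : ℝ) + 1) * (y (n + 1) i - u (n + 1) i) + 3 * ((n : ℝ) + 1) *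
              (bb q (i + 2) * (y n (i + 3) - u n (i + 3)) + (y n (i + 1) - u n (i + 1)))| := by
              congr 1; linarith
          _ ≤ |((i : ℝ) + 1) * (y (n + 1) i - u (n + 1) i)| + |3 * ((n : ℝ) + 1) *
              (bb q (i + 2) * (y n (i + 3) - u n (i + 3)) + (y n (i + 1) - u n (i + 1)))| :=
              abs_add_le _ _
          _ ≤ _ := by
              rw [abs_mul, abs_mul (3 * _), abs_of_pos hN,
                abs_of_pos (by linarith : 0 < (i : ℝ) + 1)]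
              gcongr
              refine (abs_add_le _ _).trans ?_
              rw [abs_mul, abs_of_nonneg hb]
      apply le_of_mul_le_mul_left _ hA
      refine base.trans ?_
      have q1 : 0 ≤ u n (i + 3) * ff q n (i + 3) := mul_nonneg (hpos _ _) (ff_nonneg hq _ _)
      have q2 : 0 ≤ u n (i + 1) * ff q n (i + 1) := mul_nonneg (hpos _ _) (ff_nonneg hq _ _)
      have q0 : 0 ≤ u (n + 1) i * ff q (n + 1) i := mul_nonneg (hpos _ _) (ff_nonneg hq _ _)
      have hSρ : 0 ≤ S * ρ ^ n := by positivity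
      rcases (by omega : i = 5 ∨ i = 6 ∨ 7 ≤ i) with rfl | rfl | h
      · have z1 := hu.low (n + 1) 5 (by omega)
        have z2 := hu.low n (5 + 1) (by omega)
        have f1 := ff_eq_one hq hq7 (n + 1) (5 + 2) (by omega)
        have t := h7 n
        rw [z1, z2, f1] at hs
        rw [z1, z2, f1]
        simp only [zero_mul, mul_zero, zero_add, add_zero, mul_one, sub_zero, Nat.cast_ofNat,
          Nat.reduceAdd] at hs a1 hA ⊢
        rw [hdiff]
        have t1 := abs_nonneg (y (n + 1) 5)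
        have t2 := abs_nonneg (y n 6)
        have t3 : 3 * ((n : ℝ) + 1) * (bb q 7 * |y n 8 - u n 8|) ≤
            K * (1 - ρ ^ n) * (3 * ((n : ℝ) + 1) * (bb q 7 * (u n 8 * ff q n 8))) := by
          calc _ ≤ 3 * ((n : ℝ) + 1) * (bb q 7 * (K * (1 - ρ ^ n) * (u n 8 * ff q n 8))) := by
                gcongr
            _ = _ := by ring
        have t4 := mul_le_mul_of_nonneg_left hs hC0
        have t5 := mul_le_mul_of_nonneg_left t hA.le
        have t6 := mul_nonneg hn t1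
        have t7 := mul_nonneg (by linarith : 0 ≤ q - 6) t1
        have t8 := mul_nonneg (by linarith : 0 ≤ q - 6) t2
        linarith
      · have z1 := hu.low (n + 1) 6 (by omega)
        have f1 := ff_eq_one hq hq7 (n + 1) (6 + 2) (by omega)
        have t := h8 n
        have a2 := ihn (6 + 1) (by omega)
        rw [z1, f1] at hs
        rw [z1, f1]
        simp only [zero_mul, mul_zero, zero_add, add_zero, mul_one, sub_zero, Nat.cast_ofNat,
          Nat.reduceAdd] at hs a1 a2 hA ⊢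
        rw [hdiff]
        have t1 := abs_nonneg (y (n + 1) 6)
        have t3 : 3 * ((n : ℝ) + 1) * (bb q 8 * |y n 9 - u n 9| + |y n 7 - u n 7|) ≤
            K * (1 - ρ ^ n) * (3 * ((n : ℝ) + 1) *
              (bb q 8 * (u n 9 * ff q n 9) + u n 7 * ff q n 7)) := by
          calc _ ≤ 3 * ((n : ℝ) + 1) * (bb q 8 * (K * (1 - ρ ^ n) * (u n 9 * ff q n 9)) +
                K * (1 - ρ ^ n) * (u n 7 * ff q n 7)) := by gcongr
            _ = _ := by ring
        have t4 := mul_le_mul_of_nonneg_left hs hC0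
        have t5 := mul_le_mul_of_nonneg_left t hA.le
        have t6 := mul_nonneg hn t1
        have t7 := mul_nonneg (by linarith : 0 ≤ q - 6) t1
        linarith
      · have a0 := ih i (by omega) h
        have a2 := ihn (i + 1) (by omega)
        have hle : K * (1 - ρ ^ n) ≤ K * (1 - ρ ^ (n + 1)) := by rw [hdiff]; linarith
        have hC1 : 0 ≤ K * (1 - ρ ^ (n + 1)) := hC0.trans hle
        calc _ ≤ ((i : ℝ) + 1) * (K * (1 - ρ ^ (n + 1)) * (u (n + 1) i * ff q (n + 1) i)) +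
              3 * ((n : ℝ) + 1) *
              (bb q (i + 2) * (K * (1 - ρ ^ (n + 1)) * (u n (i + 3) * ff q n (i + 3))) +
                K * (1 - ρ ^ (n + 1)) * (u n (i + 1) * ff q n (i + 1))) := by
              gcongr
              · exact a1.trans (by gcongr)
              · exact a2.trans (by gcongr)
          _ = K * (1 - ρ ^ (n + 1)) * (((i : ℝ) + 1) * (u (n + 1) i * ff q (n + 1) i) +
              3 * ((n : ℝ) + 1) * (bb q (i + 2) * (u n (i + 3) * ff q n (i + 3)) +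
                u n (i + 1) * ff q n (i + 1))) := by ring
          _ ≤ K * (1 - ρ ^ (n + 1)) * ((3 * ((n : ℝ) + 1) + i + q - 1) *
              (u (n + 1) (i + 2) * ff q (n + 1) (i + 2))) := by gcongr
          _ = _ := by ring

theorem IsY.not_subexp (hy : IsY q y) (hq : 6 < q) (hq7 : q < 7) {C γ : ℝ} (hγ1 : 1 ≤ γ)
    (hγ2 : γ < 2) (hC : ∀ n, |y n 2| ≤ C * γ ^ n) : False := by
  obtain ⟨u, hu⟩ := exists_isU hq y
  have hpos := hu.nonneg hy hq hq7
  obtain ⟨X, hX1, hX⟩ := hy.forward hq hq7 hγ1 hC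
  have hC0 : 0 ≤ C := by
    have := hC 0
    simp at this
    exact le_trans (abs_nonneg _) this
  set E := (γ + 2) / 2 with hE
  have hE1 : 1 ≤ E := by linarith
  have hE2 : E < 2 := by linarith
  have hγE : γ < E := by linarith
  obtain ⟨c, hc, hlow⟩ := hu.lower hy hq hq7 hE1 hE2
  set ρ := γ / E with hρ
  have hρ0 : 0 < ρ := by positivity
  have hρ1 : ρ < 1 := by rw [hρ, div_lt_one (by linarith)]; exact hγE
  set D := 6 * C * X ^ 6 with hD
  have hD0 : 0 ≤ D := by positivity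
  have hy5 : ∀ n j, j ≤ 6 → |y n j| ≤ D * γ ^ n := by
    intro n j hj
    calc _ ≤ _ := hX j n (by omega)
      _ ≤ 6 * C * γ ^ n * X ^ 6 := by gcongr
      _ = _ := by rw [hD]; ring
  have hγn : ∀ n, γ ^ n = ρ ^ n * E ^ n := by
    intro n; rw [← mul_pow, hρ]; congr 1; field_simp
  set S := 3 * D / c with hS
  have hS0 : 0 ≤ S := by positivity
  have hmain : ∀ n j, (j = 7 ∨ j = 8) → Even (n + 1 + j) →
      3 * D * γ ^ n ≤ S * ρ ^ n * u (n + 1) j := by
    intro n j hj he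
    have h1 := hlow (n + 1) j hj he
    have hEn : 0 < E ^ n := by positivity
    calc 3 * D * γ ^ n = S * ρ ^ n * (c * E ^ n) := by rw [hγn, hS]; field_simp
      _ ≤ S * ρ ^ n * (c * E ^ (n + 1)) := by gcongr; omega
      _ ≤ _ := by gcongr
  have h7 : ∀ n, |y (n + 1) 5| + |y n 6| ≤ S * ρ ^ n * u (n + 1) 7 := by
    intro n
    rcases Nat.even_or_odd (n + 1 + 7) with he | ho
    · refine le_trans ?_ (hmain n 7 (Or.inl rfl) he)
      have a1 := hy5 (n + 1) 5 (by omega)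
      have a2 := hy5 n 6 (by omega)
      have : 0 ≤ D * γ ^ n := by positivity
      rw [pow_succ] at a1
      nlinarith
    · rw [hy.odd_zero hq (n + 1) 5 (by obtain ⟨k, hk⟩ := ho; exact ⟨k - 1, by omega⟩),
        hy.odd_zero hq n 6 (by obtain ⟨k, hk⟩ := ho; exact ⟨k - 1, by omega⟩)]
      have := hpos (n + 1) 7
      simp only [abs_zero, add_zero]; positivity
  have h8 : ∀ n, |y (n + 1) 6| ≤ S * ρ ^ n * u (n + 1) 8 := by
    intro n
    rcases Nat.even_or_odd (n + 1 + 8) with he | ho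
    · refine le_trans ?_ (hmain n 8 (Or.inr rfl) he)
      have a1 := hy5 (n + 1) 6 (by omega)
      have : 0 ≤ D * γ ^ n := by positivity
      rw [pow_succ] at a1
      nlinarith
    · rw [hy.odd_zero hq (n + 1) 6 (by obtain ⟨k, hk⟩ := ho; exact ⟨k - 1, by omega⟩)]
      have := hpos (n + 1) 8
      simp only [abs_zero]; positivity
  have hcmp := hu.compare hy hq hq7 hS0 hρ0 hρ1 h7 h8
  set K := S / (1 - ρ) with hK
  have hK0 : 0 ≤ K := div_nonneg hS0 (by linarith)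
  have hEγ1 : 1 < E / γ := (one_lt_div (by linarith : 0 < γ)).mpr hγE
  obtain ⟨a0, ha0⟩ := pow_unbounded_of_one_lt (4 * X ^ 2) hEγ1
  set a := a0 + 3 with ha
  have haX : 4 * X ^ 2 ≤ (E / γ) ^ a := by
    refine ha0.le.trans ?_
    apply pow_le_pow_right₀ hEγ1.le; omega
  obtain ⟨k0, hk0⟩ := exists_nat_ge (K ^ 4 * 20 ^ 4 * 256 * (a : ℝ) ^ 3)
  obtain ⟨k1, hk1⟩ := pow_unbounded_of_one_lt (12 * C * X ^ 8 / c) (one_lt_two : (1 : ℝ) < 2)
  set k := k0 + k1 + 1 with hk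
  obtain ⟨N, hN⟩ : ∃ N, a * k = N + 1 := ⟨a * k - 1, by
    have : 0 < a * k := Nat.mul_pos (by omega) (by omega)
    omega⟩
  obtain ⟨j0, hj0, he⟩ : ∃ j0, (j0 = 7 ∨ j0 = 8) ∧ Even (N + 1 + j0) := by
    rcases Nat.even_or_odd (N + 1) with h | h
    · exact ⟨8, Or.inr rfl, by obtain ⟨r, hr⟩ := h; exact ⟨r + 4, by omega⟩⟩
    · exact ⟨7, Or.inl rfl, by obtain ⟨r, hr⟩ := h; exact ⟨r + 4, by omega⟩⟩
  have hj7 : 7 ≤ j0 := by omega
  have hj8 : j0 ≤ 8 := by omega
  have hkN : 3 * k ≤ N + 1 := by rw [← hN]; apply Nat.mul_le_mul_right; omega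
  have u1 := hlow (N + 1) j0 hj0 he
  have u2 := hu.climb hy hq hq7 (N + 1) j0 hj7 k
  have u3 := hcmp (N + 1) (j0 + 2 * k) (by omega)
  have u4 := hX (j0 + 2 * k) (N + 1) (by omega)
  have hkpos : (1 : ℝ) ≤ k := by exact_mod_cast (by omega : 1 ≤ k)
  have hKF : K * (20 * GG (N + 1)) ≤ k := by
    have g := GG_four N
    have g1 := GG_ge_one (N + 1)
    have hN' : (N : ℝ) + 1 = a * k := by exact_mod_cast hN.symm
    have hk0' : (k0 : ℝ) ≤ k := by exact_mod_cast (by omega : k0 ≤ k)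
    apply le_of_pow_le_pow_left₀ (n := 4) (by norm_num) (by linarith)
    calc (K * (20 * GG (N + 1))) ^ 4 = K ^ 4 * 20 ^ 4 * GG (N + 1) ^ 4 := by ring
      _ ≤ K ^ 4 * 20 ^ 4 * (256 * ((N : ℝ) + 1) ^ 3) := by gcongr
      _ = (K ^ 4 * 20 ^ 4 * 256 * (a : ℝ) ^ 3) * (k : ℝ) ^ 3 := by rw [hN']; ring
      _ ≤ (k : ℝ) * (k : ℝ) ^ 3 := by gcongr; linarith
      _ = _ := by ring
  have hf : K * ff q (N + 1) (j0 + 2 * k) ≤ 1 / 2 := by
    have f1 := ff_le (q := q) (N + 1) (j0 + 2 * k)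
    have hj0' : (0 : ℝ) ≤ j0 := Nat.cast_nonneg _
    push_cast at f1
    calc K * ff q (N + 1) (j0 + 2 * k) ≤ K * (20 * GG (N + 1) / ((j0 : ℝ) + 2 * k + q - 1)) := by
          gcongr
      _ = K * (20 * GG (N + 1)) / ((j0 : ℝ) + 2 * k + q - 1) := by ring
      _ ≤ 1 / 2 := by rw [div_le_iff₀ (by linarith)]; linarith
  have hU := hpos (N + 1) (j0 + 2 * k)
  have hF := ff_nonneg hq (N + 1) (j0 + 2 * k)
  have hρn : 0 < ρ ^ (N + 1) := by positivity
  have u5 : |y (N + 1) (j0 + 2 * k) - u (N + 1) (j0 + 2 * k)| ≤ u (N + 1) (j0 + 2 * k) / 2 := by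
    calc _ ≤ _ := u3
      _ ≤ K * 1 * (u (N + 1) (j0 + 2 * k) * ff q (N + 1) (j0 + 2 * k)) := by
          gcongr; linarith
      _ = u (N + 1) (j0 + 2 * k) * (K * ff q (N + 1) (j0 + 2 * k)) := by ring
      _ ≤ u (N + 1) (j0 + 2 * k) * (1 / 2) := by gcongr
      _ = _ := by ring
  have u6 : u (N + 1) (j0 + 2 * k) / 2 ≤ |y (N + 1) (j0 + 2 * k)| := by
    have := (abs_le.mp u5).1
    exact le_trans (by linarith) (le_abs_self _)
  have u7 : (1 / 2 : ℝ) ^ k * (c * E ^ (N + 1)) / 2 ≤ 6 * C * γ ^ (N + 1) * X ^ (8 + 2 * k) := by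
    calc _ ≤ (1 / 2 : ℝ) ^ k * u (N + 1) j0 / 2 := by gcongr
      _ ≤ u (N + 1) (j0 + 2 * k) / 2 := by gcongr
      _ ≤ _ := u6
      _ ≤ _ := u4
      _ ≤ _ := by gcongr
  have hEγ : E ^ (N + 1) = ((E / γ) ^ a) ^ k * γ ^ (N + 1) := by
    rw [← pow_mul, hN, ← mul_pow]; congr 1; field_simp
  have hγN : 0 < γ ^ (N + 1) := by positivity
  have hX2 : 0 < (X ^ 2) ^ k := by positivity
  have u8 : c * 2 ^ k ≤ 12 * C * X ^ 8 := by
    have h1 : (1 / 2 : ℝ) ^ k * (c * ((4 * X ^ 2) ^ k * γ ^ (N + 1))) / 2 ≤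
        6 * C * γ ^ (N + 1) * X ^ (8 + 2 * k) := by
      refine le_trans ?_ u7
      rw [hEγ]; gcongr
    have h2 : (1 / 2 : ℝ) ^ k * (c * ((4 * X ^ 2) ^ k * γ ^ (N + 1))) / 2 =
        (c * 2 ^ k / 2) * (γ ^ (N + 1) * (X ^ 2) ^ k) := by
      rw [mul_pow, show (4 : ℝ) ^ k = 2 ^ k * 2 ^ k by rw [← mul_pow]; norm_num, one_div, inv_pow]
      field_simp
    have h3 : 6 * C * γ ^ (N + 1) * X ^ (8 + 2 * k) =
        (6 * C * X ^ 8) * (γ ^ (N + 1) * (X ^ 2) ^ k) := by rw [pow_add X, pow_mul]; ring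
    rw [h2, h3] at h1
    have := le_of_mul_le_mul_right h1 (by positivity)
    linarith
  have h9 : (2 : ℝ) ^ k1 ≤ 2 ^ k := pow_le_pow_right₀ (by norm_num) (by omega)
  rw [div_lt_iff₀ hc] at hk1
  nlinarith

end Pool.Agent.Lib.MP_08beec_co
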