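import Pool.Agent.Lib.MP_08beec_co.AvgResolvent
import Pool.Agent.Lib.MP_08beec_co.AvgGrowth

/-!
If the averaged sequence were nonnegative, its growth rate could be improved below two.
-/

namespace Pool.Agent.Lib.MP_08beec_co

open Finset

structure IsT (q : ℝ) (t : ℕ → ℕ → ℝ) : Prop where
  h00 : t 0 0 = 1
  h1 : ∀ n, t n 1 = 0
  h0 : ∀ n, t n 0 = - (q - 1) * t n 2
  r0 : ∀ j : ℕ, ((j : ℝ) + q - 1) * t 0 (j + 2) = - ((j : ℝ) + 1) * t 0 j
  r : ∀ n j : ℕ, (3 * ((n : ℝ) + 1) + j + q - 1) * t (n + 1) (j + 2) =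
    - ((j : ℝ) + 1) * t (n + 1) j + 3 * ((n : ℝ) + 1) * JJ q (t n) j

variable {q : ℝ} {t : ℕ → ℕ → ℝ}

lemma IsT.isY (ht : IsT q t) : IsY q (fun n j => (-1) ^ ((n + j) / 2 + j) * t n j) := by
  refine ⟨by simp [ht.h00], fun n => by simp [ht.h1], fun n => ?_, fun j => ?_, fun n j => ?_⟩
  · rw [ht.h0, show (n + 2) / 2 + 2 = (n + 0) / 2 + 0 + 3 by omega, pow_add _ _ 3]; ring
  · have := ht.r0 j
    rw [show (0 + (j + 2)) / 2 + (j + 2) = (0 + j) / 2 + j + 3 by omega, pow_add _ _ 3]
    generalize (-1 : ℝ) ^ ((0 + j) / 2 + j) = s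
    linear_combination (-s) * this
  · have := ht.r n j
    unfold JJ at this
    rw [show (n + 1 + (j + 2)) / 2 + (j + 2) = (n + 1 + j) / 2 + j + 3 by omega,
      show (n + (j + 3)) / 2 + (j + 3) = (n + 1 + j) / 2 + j + 4 by omega,
      show (n + (j + 1)) / 2 + (j + 1) = (n + 1 + j) / 2 + j + 1 by omega,
      pow_add (-1 : ℝ) ((n + 1 + j) / 2 + j) 3, pow_add (-1 : ℝ) ((n + 1 + j) / 2 + j) 4,
      pow_add (-1 : ℝ) ((n + 1 + j) / 2 + j) 1]
    generalize (-1 : ℝ) ^ ((n + 1 + j) / 2 + j) = s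
    linear_combination (-s) * this

lemma choose_id1 (n m : ℕ) :
    (n : ℝ) * n.choose m = ((m : ℝ) + 1) * n.choose (m + 1) + m * n.choose m := by
  rcases le_or_gt m n with h | h
  · have := Nat.choose_succ_right_eq n m
    have h2 : ((n.choose (m + 1) * (m + 1) : ℕ) : ℝ) = ((n.choose m * (n - m) : ℕ) : ℝ) := by
      rw [this]
    push_cast [Nat.cast_sub h] at h2
    linarith
  · rw [Nat.choose_eq_zero_of_lt h, Nat.choose_eq_zero_of_lt (by omega)]; simp

lemma choose_id2 (n m : ℕ) :
    ((n : ℝ) + 1) * (n + 1).choose m = ((m : ℝ) + 1) * n.choose (m + 1) +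
      (2 * m + 1) * n.choose m + m * n.choose (m - 1) := by
  have h := choose_id1 (n + 1) m
  cases m with
  | zero => simp
  | succ m =>
    rw [Nat.choose_succ_succ' n (m + 1), Nat.choose_succ_succ' n m] at h
    rw [Nat.choose_succ_succ' n m, Nat.add_sub_cancel]
    push_cast at h ⊢
    linarith

lemma geom_aux {s : ℝ} (h0 : 0 ≤ s) (h1 : s < 1) (k : ℕ) : ((k : ℝ) + 1) * s ^ k ≤ 1 / (1 - s) := by
  rw [le_div_iff₀ (by linarith)]
  have h2 : ((k : ℝ) + 1) * s ^ k ≤ ∑ i ∈ range (k + 1), s ^ i := by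
    have : ∑ i ∈ range (k + 1), s ^ k ≤ ∑ i ∈ range (k + 1), s ^ i :=
      sum_le_sum fun i hi => pow_le_pow_of_le_one h0 h1.le (by simpa [Nat.lt_succ_iff] using hi)
    simpa using this
  have h3 := mul_neg_geom_sum s (k + 1)
  have h4 : 0 ≤ s ^ (k + 1) := by positivity
  have h5 : ((k : ℝ) + 1) * s ^ k * (1 - s) ≤ (∑ i ∈ range (k + 1), s ^ i) * (1 - s) :=
    mul_le_mul_of_nonneg_right h2 (by linarith)
  linarith

lemma one_add_inv_pow_le (m : ℕ) (hm : 1 ≤ m) : (((m : ℝ) + 1) / m) ^ m ≤ 3 := by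
  have hm' : (0 : ℝ) < m := by exact_mod_cast hm
  have h1 : ((m : ℝ) + 1) / m ≤ Real.exp (1 / m) := by
    have := Real.add_one_le_exp (1 / (m : ℝ))
    rw [add_div, div_self hm'.ne']; linarith
  calc (((m : ℝ) + 1) / m) ^ m ≤ (Real.exp (1 / m)) ^ m := by gcongr
    _ = Real.exp 1 := by rw [← Real.exp_nat_mul]; congr 1; field_simp
    _ ≤ 3 := by linarith [Real.exp_one_lt_d9]

theorem IsT.improve (ht : IsT q t) (hq : 6 < q) (hq7 : q < 7) (hr : (q - 2) ^ 2 < 4 * (q - 1))
    (hpos : ∀ n, 0 ≤ t n 0) :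
    ∃ h : ℝ, 0 < h ∧ ∀ C β x : ℝ, 0 < x → x ≤ 1 / 2 → 0 ≤ β → β * x < 1 →
      (∀ n j, |t n j| ≤ C * β ^ n) → ∃ C' : ℝ, ∀ n, t n 0 * (x * (1 + h)) ^ n ≤ C' := by
  obtain ⟨C1, hC1, hres⟩ := resolvent hq hq7 hr
  set B := 6 * C1 with hB
  have hB1 : 1 ≤ B := by linarith
  refine ⟨1 / (8 * B), by positivity, ?_⟩
  intro C β x hx0 hx1 hβ hβx hC
  have hC0 : 0 ≤ C := by
    have := hC 0 0
    simp at this
    exact le_trans (abs_nonneg _) this
  have hsum0 : ∀ m : ℕ, Summable (fun n : ℕ => C * ((n : ℝ) ^ m * (β * x) ^ n)) := fun m =>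
    (summable_pow_mul_geometric_of_norm_lt_one m
      (by rw [Real.norm_eq_abs, abs_of_nonneg (by positivity)]; exact hβx)).mul_left C
  have hle : ∀ m j n : ℕ, ‖(n.choose m : ℝ) * t n j * x ^ n‖ ≤ C * ((n : ℝ) ^ m * (β * x) ^ n) := by
    intro m j n
    rw [Real.norm_eq_abs, abs_mul, abs_mul, abs_of_nonneg (Nat.cast_nonneg _),
      abs_of_nonneg (by positivity : 0 ≤ x ^ n)]
    have : (n.choose m : ℝ) ≤ (n : ℝ) ^ m := by exact_mod_cast Nat.choose_le_pow n m
    calc (n.choose m : ℝ) * |t n j| * x ^ n ≤ (n : ℝ) ^ m * (C * β ^ n) * x ^ n := by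
          gcongr; exact hC n j
      _ = _ := by rw [mul_pow]; ring
  set U : ℕ → ℕ → ℝ := fun m j => ∑' n, (n.choose m : ℝ) * t n j * x ^ n with hU
  have hs : ∀ m j, HasSum (fun n => (n.choose m : ℝ) * t n j * x ^ n) (U m j) := fun m j =>
    (Summable.of_norm_bounded (hsum0 m) (hle m j)).hasSum
  have hUb : ∀ m, ∃ M : ℝ, 0 ≤ M ∧ ∀ j, |U m j| ≤ M := by
    intro m
    refine ⟨∑' n : ℕ, C * ((n : ℝ) ^ m * (β * x) ^ n), tsum_nonneg fun n => by positivity, ?_⟩
    intro j
    exact tsum_of_norm_bounded (hsum0 m).hasSum (hle m j)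
  have hU1 : ∀ m, U m 1 = 0 := fun m => by simp [hU, ht.h1]
  have hU0 : ∀ m, U m 0 = - (q - 1) * U m 2 := by
    intro m
    refine (hs m 0).unique ?_
    have := (hs m 2).mul_left (- (q - 1))
    refine this.congr_fun fun n => ?_
    rw [ht.h0]; ring
  have hrec : ∀ m j : ℕ, ((m : ℝ) + 1) * (U (m + 1) (j + 2) - x * JJ q (U (m + 1)) j) =
      x * ((2 * m + 1) * JJ q (U m) j + m * JJ q (U (m - 1)) j) - m * U m (j + 2) -
        (((j : ℝ) + q - 1) * U m (j + 2) + ((j : ℝ) + 1) * U m j) / 3 := by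
    intro m j
    have sJ : ∀ m : ℕ, HasSum (fun n => (n.choose m : ℝ) * JJ q (t n) j * x ^ n) (JJ q (U m) j) := by
      intro m
      have := ((hs m (j + 3)).mul_left (- bb q (j + 2))).add (hs m (j + 1))
      refine this.congr_fun fun n => ?_
      unfold JJ; ring
    have L : HasSum (fun n : ℕ => (n.choose m : ℝ) * x ^ n *
        ((3 * n + j + q - 1) * t n (j + 2) + ((j : ℝ) + 1) * t n j))
        (3 * (((m : ℝ) + 1) * U (m + 1) (j + 2) + m * U m (j + 2)) +
          (((j : ℝ) + q - 1) * U m (j + 2) + ((j : ℝ) + 1) * U m j)) := by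
      have := ((((hs (m + 1) (j + 2)).mul_left ((m : ℝ) + 1)).add
        ((hs m (j + 2)).mul_left (m : ℝ))).mul_left 3).add
        (((hs m (j + 2)).mul_left ((j : ℝ) + q - 1)).add ((hs m j).mul_left ((j : ℝ) + 1)))
      refine this.congr_fun fun n => ?_
      have := choose_id1 n m
      linear_combination (3 * t n (j + 2) * x ^ n) * this
    have R : HasSum (fun n : ℕ => (n.choose m : ℝ) * x ^ n *
        ((3 * n + j + q - 1) * t n (j + 2) + ((j : ℝ) + 1) * t n j))
        (3 * x * (((m : ℝ) + 1) * JJ q (U (m + 1)) j + (2 * m + 1) * JJ q (U m) j +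
          m * JJ q (U (m - 1)) j)) := by
      rw [← hasSum_nat_add_iff' 1]
      have z := ht.r0 j
      have z2 : ((3 * ((0 : ℕ) : ℝ) + j + q - 1) * t 0 (j + 2) + ((j : ℝ) + 1) * t 0 j) = 0 := by
        push_cast; linarith
      rw [sum_range_one, z2, mul_zero, sub_zero]
      have := ((((sJ (m + 1)).mul_left ((m : ℝ) + 1)).add
        ((sJ m).mul_left (2 * (m : ℝ) + 1))).add ((sJ (m - 1)).mul_left (m : ℝ))).mul_left (3 * x)
      refine this.congr_fun fun n => ?_
      have a := choose_id2 n m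
      have b := ht.r n j
      push_cast
      rw [pow_succ]
      linear_combination ((n + 1).choose m * x ^ n * x) * b + (3 * x * x ^ n * JJ q (t n) j) * a
    have := L.unique R
    linarith
  obtain ⟨M0, hM00, hM0⟩ := hUb 0
  obtain ⟨M1, hM10, hM1⟩ := hUb 1
  set M := M0 + M1 with hM
  have hMn : 0 ≤ M := by linarith
  have nag : ∀ m : ℕ, ∀ l : ℝ, 1 < l → l ≤ 5 / 4 → ∀ j, 1 ≤ j →
      |U m j| ≤ M * (B / (l - 1)) ^ m * l ^ j := by
    intro m
    induction m using Nat.strong_induction_on with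
    | _ m ih =>
      intro l hl1 hl2
      have hl0 : 0 < l - 1 := by linarith
      have hBl : 4 ≤ B / (l - 1) := by rw [le_div_iff₀ hl0]; linarith
      have base : ∀ j, M ≤ M * (B / (l - 1)) ^ m * l ^ j := by
        intro j
        have h1 : 1 ≤ (B / (l - 1)) ^ m := one_le_pow₀ (by linarith)
        have h2 : 1 ≤ l ^ j := one_le_pow₀ hl1.le
        calc M = M * 1 * 1 := by ring
          _ ≤ _ := by gcongr
      match m, ih, base with
      | 0, _, base => exact fun j _ => (hM0 j).trans (le_trans (by linarith) (base j))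
      | 1, _, base => exact fun j _ => (hM1 j).trans (le_trans (by linarith) (base j))
      | (k + 2), ih, _ =>
        have i1 := ih (k + 1) (by omega)
        have i0 := ih k (by omega)
        obtain ⟨M', hM'0, hM'⟩ := hUb (k + 2)
        have hk : (0 : ℝ) ≤ k := Nat.cast_nonneg k
        set A := M * (B / (l - 1)) ^ (k + 1) / (l - 1) with hA
        have hA0 : 0 ≤ A := by positivity
        have hA1 : M * (B / (l - 1)) ^ (k + 1) ≤ A / 4 := by
          have : M * (B / (l - 1)) ^ (k + 1) = A * (l - 1) := by rw [hA]; field_simp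
          rw [this]; nlinarith
        have hA2 : M * (B / (l - 1)) ^ k ≤ A / 16 := by
          have h0 : 0 ≤ M * (B / (l - 1)) ^ k := by positivity
          have : M * (B / (l - 1)) ^ (k + 1) = M * (B / (l - 1)) ^ k * (B / (l - 1)) := by ring
          nlinarith
        have j1 : ∀ j, 1 ≤ j → |U (k + 1) j| ≤ A / 4 * l ^ j := fun j hj =>
          (i1 l hl1 hl2 j hj).trans (by gcongr)
        have j0 : ∀ j, 1 ≤ j → |U k j| ≤ A / 16 * l ^ j := fun j hj =>
          (i0 l hl1 hl2 j hj).trans (by gcongr)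
        set l' := 1 + (l - 1) * (k + 1) / (k + 2) with hl'
        have hl'1 : 1 < l' := by
          have : 0 < (l - 1) * (k + 1) / (k + 2) := by positivity
          linarith
        have hll : l - l' = (l - 1) / (k + 2) := by rw [hl']; field_simp; ring
        have hl'l : l' < l := by
          have : 0 < (l - 1) / (k + 2) := by positivity
          linarith
        have j2 : ∀ j, 1 ≤ j → |U (k + 1) j| ≤ 3 * (A * (l - 1)) * l' ^ j := by
          intro j hj
          refine (i1 l' hl'1 (by linarith) j hj).trans ?_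
          refine mul_le_mul_of_nonneg_right ?_ (by positivity)
          have e : B / (l' - 1) = B / (l - 1) * ((((k + 1 : ℕ) : ℝ) + 1) / ((k + 1 : ℕ) : ℝ)) := by
            rw [hl']; push_cast; field_simp; ring
          have := one_add_inv_pow_le (k + 1) (by omega)
          have h2 : A * (l - 1) = M * (B / (l - 1)) ^ (k + 1) := by rw [hA]; field_simp
          rw [e, mul_pow, h2, ← mul_assoc, mul_comm 3]
          exact mul_le_mul_of_nonneg_left this (by positivity)
        have j3 : ∀ j : ℕ, ((j : ℝ) + 3) * l' ^ (j + 2) ≤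
            5 / 4 * ((k : ℝ) + 2) / (l - 1) * l ^ (j + 2) := by
          intro j
          have hl : 0 < l := by linarith
          have g := geom_aux (s := l' / l) (by positivity) (by rw [div_lt_one hl]; exact hl'l) (j + 2)
          have e : 1 / (1 - l' / l) = l * ((k : ℝ) + 2) / (l - 1) := by
            have : 1 - l' / l = (l - 1) / (k + 2) / l := by rw [← hll]; field_simp
            rw [this]; field_simp
          rw [e, div_pow, ← mul_div_assoc, div_le_iff₀ (by positivity)] at g
          push_cast at g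
          calc ((j : ℝ) + 3) * l' ^ (j + 2) = ((j : ℝ) + 2 + 1) * l' ^ (j + 2) := by ring
            _ ≤ _ := g
            _ ≤ _ := by gcongr
        have hDS : ∀ j : ℕ, |((j : ℝ) + q - 1) * U (k + 1) (j + 2) + ((j : ℝ) + 1) * U (k + 1) j| ≤
            45 / 4 * ((k : ℝ) + 2) * A * l ^ (j + 2) := by
          intro j
          rcases Nat.eq_zero_or_pos j with rfl | hj
          · rw [hU0]
            have : (((0 : ℕ) : ℝ) + q - 1) * U (k + 1) (0 + 2) +
              (((0 : ℕ) : ℝ) + 1) * (- (q - 1) * U (k + 1) 2) = 0 := by push_cast; ring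
            rw [this, abs_zero]; positivity
          · have hj0 : (0 : ℝ) ≤ j := Nat.cast_nonneg j
            have a1 := j2 (j + 2) (by omega)
            have a2 : |U (k + 1) j| ≤ 3 * (A * (l - 1)) * l' ^ (j + 2) :=
              (j2 j hj).trans (by gcongr; exacts [hl'1.le, by omega])
            have hP : 0 ≤ 3 * (A * (l - 1)) * l' ^ (j + 2) := by positivity
            calc _ ≤ |((j : ℝ) + q - 1) * U (k + 1) (j + 2)| + |((j : ℝ) + 1) * U (k + 1) j| :=
                  abs_add_le _ _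
              _ = ((j : ℝ) + q - 1) * |U (k + 1) (j + 2)| + ((j : ℝ) + 1) * |U (k + 1) j| := by
                  rw [abs_mul, abs_mul, abs_of_pos (by linarith : 0 < (j : ℝ) + q - 1),
                    abs_of_pos (by linarith : 0 < (j : ℝ) + 1)]
              _ ≤ ((j : ℝ) + q - 1) * (3 * (A * (l - 1)) * l' ^ (j + 2)) +
                  ((j : ℝ) + 1) * (3 * (A * (l - 1)) * l' ^ (j + 2)) := by gcongr; linarith
              _ ≤ 3 * ((j : ℝ) + 3) * (3 * (A * (l - 1)) * l' ^ (j + 2)) := by nlinarith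
              _ = 9 * (A * (l - 1)) * (((j : ℝ) + 3) * l' ^ (j + 2)) := by ring
              _ ≤ 9 * (A * (l - 1)) * (5 / 4 * ((k : ℝ) + 2) / (l - 1) * l ^ (j + 2)) :=
                  mul_le_mul_of_nonneg_left (j3 j) (by positivity)
              _ = _ := by field_simp; ring
        have main := hres x l (6 * A) M' (U (k + 2))
          (fun i => U (k + 2) i - x * JJ q (U (k + 2)) (i - 2)) hx0.le hx1 hl1.le hl2 (hU1 _)
          (fun j _ => (hM' j).trans (le_mul_of_one_le_right hM'0 (one_le_pow₀ hl1.le)))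
          (fun j => by simp) (fun j => by
            have e := hrec (k + 1) j
            simp only [Nat.add_sub_cancel] at e ⊢
            push_cast at e
            have b1 := JJ_bound hq hq7 hl1.le hl2 j (j1 (j + 3) (by omega)) (j1 (j + 1) (by omega))
            have b0 := JJ_bound hq hq7 hl1.le hl2 j (j0 (j + 3) (by omega)) (j0 (j + 1) (by omega))
            have b2 := j1 (j + 2) (by omega)
            have b3 := hDS j
            have hP : 0 ≤ A * l ^ (j + 2) := by positivity
            have hk2 : (0 : ℝ) < (k : ℝ) + 1 + 1 := by linarith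
            apply le_of_mul_le_mul_left _ hk2
            calc ((k : ℝ) + 1 + 1) * |U (k + 2) (j + 2) - x * JJ q (U (k + 2)) j|
                = |((k : ℝ) + 1 + 1) * (U (k + 2) (j + 2) - x * JJ q (U (k + 2)) j)| := by
                  rw [abs_mul, abs_of_pos hk2]
              _ ≤ |x * ((2 * ((k : ℝ) + 1) + 1) * JJ q (U (k + 1)) j + (k + 1) * JJ q (U k) j)| +
                  |((k : ℝ) + 1) * U (k + 1) (j + 2)| +
                  |(((j : ℝ) + q - 1) * U (k + 1) (j + 2) + ((j : ℝ) + 1) * U (k + 1) j) / 3| := by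
                  rw [e]
                  exact (abs_sub _ _).trans (by gcongr; exact abs_sub _ _)
              _ ≤ 1 / 2 * ((2 * ((k : ℝ) + 1) + 1) * (33 / 8 * (A / 4) * l ^ (j + 2)) +
                    (k + 1) * (33 / 8 * (A / 16) * l ^ (j + 2))) +
                  ((k : ℝ) + 1) * (A / 4 * l ^ (j + 2)) +
                  (45 / 4 * ((k : ℝ) + 2) * A * l ^ (j + 2)) / 3 := by
                  rw [abs_mul x, abs_mul ((k : ℝ) + 1), abs_div, abs_of_pos hx0,
                    abs_of_pos (by linarith : 0 < (k : ℝ) + 1), abs_of_pos (by norm_num : (0 : ℝ) < 3)]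
                  gcongr
                  refine (abs_add_le _ _).trans ?_
                  rw [abs_mul, abs_mul, abs_of_pos (by linarith : 0 < 2 * ((k : ℝ) + 1) + 1),
                    abs_of_pos (by linarith : 0 < (k : ℝ) + 1)]
                  gcongr
              _ ≤ _ := by nlinarith [mul_nonneg hk hP])
        intro j hj
        refine (main j hj).trans (le_of_eq ?_)
        rw [hA, pow_succ _ (k + 1), hB]; field_simp
  have hU0b : ∀ m, U m 0 ≤ 10 * M * (4 * B) ^ m := by
    intro m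
    have := nag m (5 / 4) (by norm_num) le_rfl 2 (by omega)
    rw [show B / (5 / 4 - 1) = 4 * B by ring] at this
    have h0 : 0 ≤ M * (4 * B) ^ m := by positivity
    have h1 := neg_abs_le (U m 2)
    have h2 := abs_nonneg (U m 2)
    rw [hU0]
    nlinarith
  refine ⟨20 * M, fun n => ?_⟩
  have hterm : ∀ m, (n.choose m : ℝ) * t n 0 * x ^ n ≤ U m 0 := fun m =>
    le_hasSum (hs m 0) n fun i _ => by have := hpos i; positivity
  rw [mul_pow, add_comm (1 : ℝ), add_pow, Finset.mul_sum, Finset.mul_sum]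
  calc ∑ m ∈ range (n + 1), t n 0 * (x ^ n * ((1 / (8 * B)) ^ m * 1 ^ (n - m) * n.choose m))
      ≤ ∑ m ∈ range (n + 1), 10 * M * (1 / 2 : ℝ) ^ m := by
        refine sum_le_sum fun m _ => ?_
        calc t n 0 * (x ^ n * ((1 / (8 * B)) ^ m * 1 ^ (n - m) * n.choose m))
            = ((n.choose m : ℝ) * t n 0 * x ^ n) * (1 / (8 * B)) ^ m := by ring
          _ ≤ (10 * M * (4 * B) ^ m) * (1 / (8 * B)) ^ m :=
              mul_le_mul_of_nonneg_right ((hterm m).trans (hU0b m)) (by positivity)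
          _ = 10 * M * (1 / 2 : ℝ) ^ m := by
              rw [mul_assoc (10 * M), ← mul_pow]; congr 2; field_simp; norm_num
    _ = 10 * M * ∑ m ∈ range (n + 1), (1 / 2 : ℝ) ^ m := by rw [Finset.mul_sum]
    _ ≤ 10 * M * 2 := by gcongr; exact sum_geometric_two_le _
    _ = 20 * M := by ring

theorem IsT.exists_neg (ht : IsT q t) (hq : 6 < q) (hq7 : q < 7)
    (hr : (q - 2) ^ 2 < 4 * (q - 1)) : ∃ n, t n 0 < 0 := by
  by_contra hneg
  push Not at hneg
  obtain ⟨h, hh, himp⟩ := ht.improve hq hq7 hr hneg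
  have hy := ht.isY
  set y : ℕ → ℕ → ℝ := fun n j => (-1) ^ ((n + j) / 2 + j) * t n j with hydef
  have habs : ∀ n j, |y n j| = |t n j| := fun n j => by simp [hydef, abs_mul]
  set τ := (1 + h / 2) / (1 + h) with hτ
  have hτ0 : 0 < τ := by positivity
  have hτ1 : τ < 1 := by rw [hτ, div_lt_one (by linarith)]; linarith
  have small : ∀ γ C : ℝ, 0 ≤ γ → γ < 2 → (∀ n, |y n 2| ≤ C * γ ^ n) → False := by
    intro γ C h0 h2 hC
    have hC0 : 0 ≤ C := by
      have := hC 0
      simp at this
      exact le_trans (abs_nonneg _) this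
    refine hy.not_subexp hq hq7 (C := C) (γ := max γ 1) (le_max_right _ _)
      (max_lt h2 (by norm_num)) fun n => (hC n).trans ?_
    gcongr; exact le_max_left _ _
  have all : ∀ k : ℕ, ∃ C : ℝ, ∀ n, |y n 2| ≤ C * (4 * τ ^ k) ^ n := by
    intro k
    induction k with
    | zero => exact ⟨1, fun n => by simpa using hy.crude hq hq7 n 2 (by omega)⟩
    | succ k ih =>
      obtain ⟨C, hC⟩ := ih
      set β := 4 * τ ^ k with hβ
      have hβ0 : 0 < β := by positivity
      rcases lt_or_ge β 2 with h2 | h2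
      · exact (small β C hβ0.le h2 hC).elim
      · obtain ⟨C', hC'⟩ := hy.sup_bound hq hq7 h2 hC
        obtain ⟨C'', hC''⟩ := himp C' β (1 / (β * (1 + h / 2))) (by positivity)
          (by apply one_div_le_one_div_of_le (by norm_num); nlinarith) hβ0.le
          (by rw [mul_one_div, div_lt_one (by positivity)]; nlinarith)
          (fun n j => by rw [← habs]; exact hC' n j)
        refine ⟨C'', fun n => ?_⟩
        have e : 4 * τ ^ (k + 1) * (1 / (β * (1 + h / 2)) * (1 + h)) = 1 := by
          rw [pow_succ, ← mul_assoc 4, ← hβ, hτ]; field_simp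
        have h3 : |y n 2| ≤ t n 0 := by
          rw [habs]
          have a := ht.h0 n
          have b := hneg n
          have : t n 2 ≤ 0 := by nlinarith
          rw [abs_of_nonpos this]; nlinarith
        calc |y n 2| ≤ t n 0 := h3
          _ = t n 0 * (1 / (β * (1 + h / 2)) * (1 + h)) ^ n * (4 * τ ^ (k + 1)) ^ n := by
              rw [mul_assoc, ← mul_pow, mul_comm _ (4 * τ ^ (k + 1)), e, one_pow, mul_one]
          _ ≤ _ := by gcongr; exact hC'' n
  obtain ⟨k, hk⟩ := exists_pow_lt_of_lt_one (by norm_num : (0 : ℝ) < 1 / 2) hτ1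
  obtain ⟨C, hC⟩ := all k
  exact small _ C (by positivity) (by linarith) hC

end Pool.Agent.Lib.MP_08beec_co
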