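import Pool.Agent.Lib.MP_08beec_co.AvgUpper

/-!
A resolvent bound for the limiting three term operator in exponentially weighted norms.
-/

namespace Pool.Agent.Lib.MP_08beec_co

open Finset

/-- the limiting three term operator, evaluated at height `j + 2` -/
noncomputable def JJ (q : ℝ) (u : ℕ → ℝ) (j : ℕ) : ℝ := - bb q (j + 2) * u (j + 3) + u (j + 1)

variable {q : ℝ}

lemma JJ_bound (hq : 6 < q) (hq7 : q < 7) {u : ℕ → ℝ} {φ l : ℝ} (hl1 : 1 ≤ l) (hl2 : l ≤ 5 / 4)
    (j : ℕ) (h1 : |u (j + 3)| ≤ φ * l ^ (j + 3)) (h2 : |u (j + 1)| ≤ φ * l ^ (j + 1)) :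
    |JJ q u j| ≤ 33 / 8 * φ * l ^ (j + 2) := by
  have hb := abs_bb_le hq hq7 (j := j + 2) (by omega)
  have hl : 0 < l ^ (j + 1) := by positivity
  have hφ : 0 ≤ φ := by
    by_contra h
    push Not at h
    have := mul_neg_of_neg_of_pos h hl
    linarith [abs_nonneg (u (j + 1))]
  have hP : 0 ≤ φ * l ^ (j + 2) := by positivity
  have a1 : |u (j + 3)| ≤ 5 / 4 * (φ * l ^ (j + 2)) := by
    calc _ ≤ _ := h1
      _ = l * (φ * l ^ (j + 2)) := by ring
      _ ≤ _ := by gcongr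
  have a2 : |u (j + 1)| ≤ φ * l ^ (j + 2) := by
    calc _ ≤ _ := h2
      _ ≤ _ := by gcongr; omega
  calc |JJ q u j| ≤ |- bb q (j + 2) * u (j + 3)| + |u (j + 1)| := abs_add_le _ _
    _ = |bb q (j + 2)| * |u (j + 3)| + |u (j + 1)| := by rw [abs_mul, abs_neg]
    _ ≤ 5 / 2 * (5 / 4 * (φ * l ^ (j + 2))) + φ * l ^ (j + 2) := by gcongr
    _ = _ := by ring

lemma bb_mul_nonneg (hq : 6 < q) (hq7 : q < 7) (i : ℕ) :
    0 ≤ bb q (2 * i + 3) * bb q (2 * i + 4) := by
  rcases le_or_gt 2 i with h | h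
  · exact mul_nonneg (bb_pos hq7 (by omega)).le (bb_pos hq7 (by omega)).le
  · have h1 : (i : ℝ) ≤ 1 := by exact_mod_cast (by omega : i ≤ 1)
    have h0 : (0 : ℝ) ≤ i := Nat.cast_nonneg i
    apply mul_nonneg_of_nonpos_of_nonpos
    · unfold bb; push_cast; apply div_nonpos_of_nonpos_of_nonneg <;> linarith
    · unfold bb; push_cast; apply div_nonpos_of_nonpos_of_nonneg <;> linarith

noncomputable def eta (q : ℝ) (i : ℕ) : ℝ := 2 * i * (1 / (q - 1)) ^ i

lemma eta_eigen (hq : 6 < q) (i : ℕ) :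
    - (bb q (2 * i + 3) + bb q (2 * i + 2)) * eta q (i + 1) +
      bb q (2 * i + 3) * bb q (2 * i + 4) * eta q (i + 2) + eta q i =
      (q - 2) ^ 2 / (q - 1) * eta q (i + 1) := by
  have h0 : (0 : ℝ) ≤ i := Nat.cast_nonneg i
  have h1 : q - 1 ≠ 0 := by linarith
  unfold bb eta
  push_cast
  rw [pow_succ _ (i + 1), pow_succ _ i]
  generalize (1 / (q - 1)) ^ i = s
  field_simp
  ring

lemma eta_nonneg (hq : 6 < q) (i : ℕ) : 0 ≤ eta q i := by
  have : 0 < q - 1 := by linarith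
  unfold eta; positivity

lemma eta_le_one (hq : 6 < q) (i : ℕ) : eta q i ≤ 1 := by
  have h1 : 1 / (q - 1) ≤ 1 / 5 := by
    apply one_div_le_one_div_of_le <;> linarith
  have h0 : 0 ≤ 1 / (q - 1) := by
    have : 0 < q - 1 := by linarith
    positivity
  have h2 : ∀ i : ℕ, 2 * (i : ℝ) ≤ 5 ^ i := by
    intro i
    induction i with
    | zero => simp
    | succ i ih =>
      have : (1 : ℝ) ≤ 5 ^ i := one_le_pow₀ (by norm_num)
      push_cast; rw [pow_succ]; linarith
  calc eta q i ≤ 5 ^ i * (1 / 5) ^ i := by unfold eta; gcongr; exact h2 i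
    _ = 1 := by rw [← mul_pow]; norm_num

lemma eta_ge (hq : 6 < q) (hq7 : q < 7) (i : ℕ) (hi : i ≤ 2) : 1 / 108 ≤ eta q (i + 1) := by
  have h1 : 1 / 6 ≤ 1 / (q - 1) := by
    apply one_div_le_one_div_of_le <;> linarith
  have h0 : (0 : ℝ) ≤ i := Nat.cast_nonneg i
  calc (1 : ℝ) / 108 = 2 * 1 * (1 / 6) ^ 3 := by norm_num
    _ ≤ 2 * 1 * (1 / 6) ^ (i + 1) := by
        gcongr 2 * 1 * ?_
        apply pow_le_pow_of_le_one <;> [norm_num; norm_num; omega]
    _ ≤ eta q (i + 1) := by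
        unfold eta; push_cast; gcongr; linarith

theorem resolvent (hq : 6 < q) (hq7 : q < 7) (hr : (q - 2) ^ 2 < 4 * (q - 1)) :
    ∃ C1 : ℝ, 1 ≤ C1 ∧ ∀ (x l φ M : ℝ) (u f : ℕ → ℝ), 0 ≤ x → x ≤ 1 / 2 → 1 ≤ l → l ≤ 5 / 4 →
      u 1 = 0 → (∀ j, 1 ≤ j → |u j| ≤ M * l ^ j) →
      (∀ j, u (j + 2) - x * JJ q u j = f (j + 2)) → (∀ j, |f (j + 2)| ≤ φ * l ^ (j + 2)) →
      ∀ j, 1 ≤ j → |u j| ≤ C1 * φ * l ^ j := by
  set g0 := 1 - (q - 2) ^ 2 / (q - 1) / 4 with hg0
  have hq1 : 0 < q - 1 := by linarith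
  have hr0 : 0 ≤ (q - 2) ^ 2 / (q - 1) := by positivity
  have hg0pos : 0 < g0 := by
    have : (q - 2) ^ 2 / (q - 1) < 4 := by rw [div_lt_iff₀ hq1]; exact hr
    linarith
  have hg01 : g0 ≤ 1 := by linarith
  set ε := g0 / 2700 with hε
  have hε0 : 0 < ε := by positivity
  have hε1 : ε ≤ 1 := by linarith
  set κ := ε / 3 with hκ
  have hκ0 : 0 < κ := by positivity
  have hκ1 : κ ≤ 1 := by linarith
  refine ⟨1 + 24 / κ, by linarith [div_pos (by norm_num : (0 : ℝ) < 24) hκ0], ?_⟩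
  intro x l φ M u f hx0 hx1 hl1 hl2 hu1 hM hrec hf
  have hl0 : 0 < l := by linarith
  have hφ : 0 ≤ φ := by
    by_contra h
    push Not at h
    have := mul_neg_of_neg_of_pos h (pow_pos hl0 (0 + 2))
    linarith [abs_nonneg (f (0 + 2)), hf 0]
  have hM0 : 0 ≤ M := by
    by_contra h
    push Not at h
    have := mul_neg_of_neg_of_pos h (pow_pos hl0 1)
    linarith [abs_nonneg (u 1), hM 1 le_rfl]
  have hx2 : x ^ 2 ≤ 1 / 4 := by nlinarith
  have hx20 : 0 ≤ x ^ 2 := sq_nonneg x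
  set ω : ℕ → ℝ := fun i => eta q i + ε * l ^ (2 * i + 1) with hω
  have hωpos : ∀ i, 0 < ω i := fun i => by
    have := eta_nonneg hq i
    simp only [hω]; positivity
  have hωle : ∀ i, ω i ≤ 2 * l ^ (2 * i + 1) := fun i => by
    have := eta_le_one hq i
    have h2 : 1 ≤ l ^ (2 * i + 1) := one_le_pow₀ hl1
    simp only [hω]; nlinarith
  -- two step identity
  have two : ∀ i, (1 + x ^ 2 * (bb q (2 * i + 3) + bb q (2 * i + 2))) * u (2 * i + 3) =
      (f (2 * i + 3) + x * JJ q f (2 * i + 1)) +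
        x ^ 2 * (bb q (2 * i + 3) * bb q (2 * i + 4) * u (2 * i + 5) + u (2 * i + 1)) := by
    intro i
    have a1 := hrec (2 * i + 1)
    have a2 := hrec (2 * i + 2)
    have a3 := hrec (2 * i)
    simp only [JJ, add_assoc, Nat.reduceAdd] at a1 a2 a3 ⊢
    rw [← a1, ← a2, ← a3]; ring
  have hg : ∀ i, |f (2 * i + 3) + x * JJ q f (2 * i + 1)| ≤ 4 * φ * l ^ (2 * i + 3) := by
    intro i
    have a1 := hf (2 * i + 1)
    have a2 := JJ_bound hq hq7 hl1 hl2 (u := f) (φ := φ) (2 * i + 1) (hf (2 * i + 2)) (hf (2 * i))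
    have hP : 0 ≤ φ * l ^ (2 * i + 3) := by positivity
    simp only [add_assoc, Nat.reduceAdd] at a1 a2
    calc _ ≤ |f (2 * i + 3)| + |x * JJ q f (2 * i + 1)| := abs_add_le _ _
      _ = |f (2 * i + 3)| + x * |JJ q f (2 * i + 1)| := by rw [abs_mul, abs_of_nonneg hx0]
      _ ≤ φ * l ^ (2 * i + 3) + 1 / 2 * (33 / 8 * φ * l ^ (2 * i + 3)) := by gcongr
      _ ≤ _ := by linarith
  -- supersolution
  have sup : ∀ i, κ * l ^ (2 * i + 3) +
      x ^ 2 * (bb q (2 * i + 3) * bb q (2 * i + 4) * ω (i + 2) + ω i) ≤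
      (1 + x ^ 2 * (bb q (2 * i + 3) + bb q (2 * i + 2))) * ω (i + 1) := by
    intro i
    have e := eta_eigen hq i
    have hη := eta_nonneg hq (i + 1)
    have hP := bb_mul_nonneg hq hq7 i
    set b3 := bb q (2 * i + 3)
    set b2 := bb q (2 * i + 2)
    set P := b3 * bb q (2 * i + 4)
    set L := l ^ (2 * i + 3) with hL
    have hL0 : 0 < L := by positivity
    have l1 : l ^ (2 * i + 1) ≤ L := by rw [hL]; gcongr; omega
    have l2 : l ^ (2 * (i + 2) + 1) ≤ 25 / 16 * L := by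
      rw [hL, show 2 * (i + 2) + 1 = 2 + (2 * i + 3) by ring, pow_add]
      gcongr; nlinarith
    have l3 : l ^ (2 * (i + 1) + 1) = L := by rw [hL]; ring
    have hη2 : g0 * eta q (i + 1) + x ^ 2 * (P * eta q (i + 2) + eta q i) ≤
        (1 + x ^ 2 * (b3 + b2)) * eta q (i + 1) := by
      have : x ^ 2 * ((q - 2) ^ 2 / (q - 1) * eta q (i + 1)) ≤
          1 / 4 * ((q - 2) ^ 2 / (q - 1) * eta q (i + 1)) := by gcongr
      have e2 : x ^ 2 * (P * eta q (i + 2) + eta q i) =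
          x ^ 2 * ((q - 2) ^ 2 / (q - 1) * eta q (i + 1)) + x ^ 2 * (b3 + b2) * eta q (i + 1) := by
        rw [← e]; ring
      rw [e2, hg0]; linarith
    have hχ : x ^ 2 * (P * l ^ (2 * (i + 2) + 1) + l ^ (2 * i + 1)) ≤
        x ^ 2 * (P * (25 / 16) + 1) * L := by
      calc _ ≤ x ^ 2 * (P * (25 / 16 * L) + L) := by gcongr
        _ = _ := by ring
    have hfin : κ * L + ε * (x ^ 2 * (P * (25 / 16) + 1) * L) ≤
        g0 * eta q (i + 1) + ε * ((1 + x ^ 2 * (b3 + b2)) * L) := by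
      rcases le_or_gt 3 i with h | h
      · have c1 : 0 ≤ b3 := (bb_pos hq7 (by omega)).le
        have c2 : 0 ≤ b2 := (bb_pos hq7 (by omega)).le
        have c3 : P ≤ 1 := mul_le_one₀ (bb_le_one hq (by omega)) (bb_pos hq7 (by omega)).le
          (bb_le_one hq (by omega))
        have c4 : x ^ 2 * (P * (25 / 16) + 1) ≤ 1 / 4 * (1 * (25 / 16) + 1) := by gcongr
        have c5 : 0 ≤ x ^ 2 * (b3 + b2) := by positivity
        have c6 : 1 / 3 + x ^ 2 * (P * (25 / 16) + 1) ≤ 1 + x ^ 2 * (b3 + b2) := by linarith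
        have c7 := mul_le_mul_of_nonneg_left c6 (mul_pos hε0 hL0).le
        have : 0 ≤ g0 * eta q (i + 1) := by positivity
        rw [hκ]; linarith
      · have c1 := abs_le.mp (abs_bb_le hq hq7 (j := 2 * i + 3) (by omega))
        have c2 := abs_le.mp (abs_bb_le hq hq7 (j := 2 * i + 2) (by omega))
        have c3 : P ≤ 25 / 4 := by
          calc P ≤ |P| := le_abs_self _
            _ = |b3| * |bb q (2 * i + 4)| := abs_mul _ _
            _ ≤ 5 / 2 * (5 / 2) := by
                gcongr <;> exact abs_bb_le hq hq7 (by omega)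
            _ = 25 / 4 := by norm_num
        have c4 : x ^ 2 * (P * (25 / 16) + 1) ≤ 1 / 4 * (25 / 4 * (25 / 16) + 1) := by gcongr
        have c5 : - (5 / 4) ≤ x ^ 2 * (b3 + b2) := by nlinarith [c1.1, c2.1]
        have c6 : x ^ 2 * (P * (25 / 16) + 1) ≤ 3 + (1 + x ^ 2 * (b3 + b2)) := by linarith
        have c7 := mul_le_mul_of_nonneg_left c6 (mul_pos hε0 hL0).le
        have c8 : L ≤ 5 := by
          calc L ≤ l ^ 7 := by rw [hL]; gcongr; omega
            _ ≤ (5 / 4) ^ 7 := by gcongr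
            _ ≤ 5 := by norm_num
        have c9 := eta_ge hq hq7 i (by omega)
        have c10 : g0 * (1 / 108) ≤ g0 * eta q (i + 1) := by gcongr
        have c11 : ε * L ≤ ε * 5 := by gcongr
        rw [hκ]; linarith
    simp only [hω]
    rw [l3]
    have := mul_le_mul_of_nonneg_left hχ hε0.le
    linarith
  have hD : ∀ i, 0 < 1 + x ^ 2 * (bb q (2 * i + 3) + bb q (2 * i + 2)) := by
    intro i
    have h := sup i
    have hP := bb_mul_nonneg hq hq7 i
    have := hωpos (i + 2)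
    have := hωpos i
    have h2 : 0 < (1 + x ^ 2 * (bb q (2 * i + 3) + bb q (2 * i + 2))) * ω (i + 1) :=
      lt_of_lt_of_le (by positivity) h
    exact (pos_iff_pos_of_mul_pos h2).mpr (hωpos _)
  have hD2 : ∀ i, 1 + x ^ 2 * (bb q (2 * i + 3) + bb q (2 * i + 2)) ≤ 2 := by
    intro i
    have b1 : ∀ j : ℕ, 2 ≤ j → bb q j ≤ 1 := by
      intro j hj
      have : (2 : ℝ) ≤ j := by exact_mod_cast hj
      unfold bb
      rw [div_le_one (by linarith)]
      linarith
    have := b1 (2 * i + 3) (by omega)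
    have := b1 (2 * i + 2) (by omega)
    nlinarith
  have improve : ∀ N : ℝ, 0 ≤ N → (∀ i, |u (2 * i + 1)| ≤ (4 * φ / κ + N) * ω i) →
      ∀ i, |u (2 * i + 1)| ≤ (4 * φ / κ + N * (1 - κ / 4)) * ω i := by
    intro N hN h i
    have hφκ : 0 ≤ 4 * φ / κ := by positivity
    cases i with
    | zero =>
      simp only [mul_zero, zero_add, hu1, abs_zero]
      have := hωpos 0
      have : 0 ≤ N * (1 - κ / 4) := mul_nonneg hN (by linarith)
      positivity
    | succ i =>
      have d := hD i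
      have d2 := hD2 i
      have s := sup i
      have hP := bb_mul_nonneg hq hq7 i
      set D := 1 + x ^ 2 * (bb q (2 * i + 3) + bb q (2 * i + 2))
      set P := bb q (2 * i + 3) * bb q (2 * i + 4)
      rw [show 2 * (i + 1) + 1 = 2 * i + 3 by ring]
      have a1 := h (i + 2)
      rw [show 2 * (i + 2) + 1 = 2 * i + 5 by ring] at a1
      have a2 := h i
      have w := hωle (i + 1)
      rw [show 2 * (i + 1) + 1 = 2 * i + 3 by ring] at w
      have w0 := hωpos (i + 1)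
      apply le_of_mul_le_mul_left _ d
      calc D * |u (2 * i + 3)| = |D * u (2 * i + 3)| := by rw [abs_mul, abs_of_pos d]
        _ ≤ |f (2 * i + 3) + x * JJ q f (2 * i + 1)| +
              |x ^ 2 * (P * u (2 * i + 5) + u (2 * i + 1))| := by
            rw [two i]; exact abs_add_le _ _
        _ ≤ 4 * φ * l ^ (2 * i + 3) +
              x ^ 2 * (P * ((4 * φ / κ + N) * ω (i + 2)) + (4 * φ / κ + N) * ω i) := by
            rw [abs_mul, abs_of_nonneg hx20]
            gcongr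
            · exact hg i
            · refine (abs_add_le _ _).trans ?_
              rw [abs_mul, abs_of_nonneg hP]
              gcongr
        _ = (4 * φ / κ + N) * (κ * l ^ (2 * i + 3) + x ^ 2 * (P * ω (i + 2) + ω i)) -
              N * κ * l ^ (2 * i + 3) := by field_simp; ring
        _ ≤ (4 * φ / κ + N) * (D * ω (i + 1)) - N * κ * (D * ω (i + 1) / 4) := by
            gcongr
            nlinarith
        _ = _ := by ring
  have iter : ∀ k : ℕ, ∀ i, |u (2 * i + 1)| ≤ (4 * φ / κ + M / ε * (1 - κ / 4) ^ k) * ω i := by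
    intro k
    induction k with
    | zero =>
      intro i
      have hφκ : 0 ≤ 4 * φ / κ := by positivity
      have := hM (2 * i + 1) (by omega)
      have h2 := eta_nonneg hq i
      have h3 := hωpos i
      calc _ ≤ _ := this
        _ = M / ε * (ε * l ^ (2 * i + 1)) := by field_simp
        _ ≤ M / ε * ω i := by gcongr; simp only [hω]; linarith
        _ ≤ _ := by gcongr; simp; linarith
    | succ k ih =>
      have := improve (M / ε * (1 - κ / 4) ^ k)
        (mul_nonneg (by positivity) (pow_nonneg (by linarith) _)) ih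
      intro i
      rw [pow_succ, ← mul_assoc]
      exact this i
  have odd : ∀ i, |u (2 * i + 1)| ≤ 8 * φ / κ * l ^ (2 * i + 1) := by
    intro i
    have lim : Filter.Tendsto (fun k : ℕ => (4 * φ / κ + M / ε * (1 - κ / 4) ^ k) * ω i)
        Filter.atTop (nhds ((4 * φ / κ + M / ε * 0) * ω i)) := by
      apply Filter.Tendsto.mul_const
      apply Filter.Tendsto.const_add
      apply Filter.Tendsto.const_mul
      exact tendsto_pow_atTop_nhds_zero_of_lt_one (by linarith) (by linarith)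
    have := ge_of_tendsto' lim (fun k => iter k i)
    calc _ ≤ _ := this
      _ = 4 * φ / κ * ω i := by ring
      _ ≤ 4 * φ / κ * (2 * l ^ (2 * i + 1)) := by gcongr; exact hωle i
      _ = _ := by ring
  intro j hj
  have hφκ : 0 ≤ φ / κ * l ^ j := by positivity
  have hφl : 0 ≤ φ * l ^ j := by positivity
  rcases Nat.even_or_odd' j with ⟨i, rfl | rfl⟩
  · obtain ⟨i, rfl⟩ : ∃ i', i = i' + 1 := ⟨i - 1, by omega⟩
    have a := hrec (2 * i)
    have b := JJ_bound hq hq7 hl1 hl2 (u := u) (φ := 8 * φ / κ) (2 * i) (odd (i + 1)) (odd i)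
    have c := hf (2 * i)
    rw [show 2 * (i + 1) = 2 * i + 2 by ring] at *
    calc |u (2 * i + 2)| = |f (2 * i + 2) + x * JJ q u (2 * i)| := by rw [← a]; ring_nf
      _ ≤ |f (2 * i + 2)| + |x * JJ q u (2 * i)| := abs_add_le _ _
      _ = |f (2 * i + 2)| + x * |JJ q u (2 * i)| := by rw [abs_mul, abs_of_nonneg hx0]
      _ ≤ φ * l ^ (2 * i + 2) + 1 / 2 * (33 / 8 * (8 * φ / κ) * l ^ (2 * i + 2)) := by gcongr
      _ = φ * l ^ (2 * i + 2) + 33 / 2 * (φ / κ * l ^ (2 * i + 2)) := by ring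
      _ ≤ φ * l ^ (2 * i + 2) + 24 * (φ / κ * l ^ (2 * i + 2)) := by linarith
      _ = _ := by ring
  · calc _ ≤ _ := odd i
      _ = 8 * (φ / κ * l ^ (2 * i + 1)) := by ring
      _ ≤ φ * l ^ (2 * i + 1) + 24 * (φ / κ * l ^ (2 * i + 1)) := by linarith
      _ = _ := by ring

end Pool.Agent.Lib.MP_08beec_co
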