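import Mathlib

/-!
The positively signed recurrence and the comparison solution above height seven.
-/

namespace Pool.Agent.Lib.MP_08beec_co

open Finset

/-- coefficient of the down step -/
noncomputable def bb (q : ℝ) (j : ℕ) : ℝ := ((j : ℝ) - q) / j

structure IsY (q : ℝ) (y : ℕ → ℕ → ℝ) : Prop where
  h00 : y 0 0 = 1
  h1 : ∀ n, y n 1 = 0
  h0 : ∀ n, y n 0 = (q - 1) * y n 2
  r0 : ∀ j : ℕ, ((j : ℝ) + q - 1) * y 0 (j + 2) = ((j : ℝ) + 1) * y 0 j
  r : ∀ n j : ℕ, (3 * ((n : ℝ) + 1) + j + q - 1) * y (n + 1) (j + 2) =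
    ((j : ℝ) + 1) * y (n + 1) j +
      3 * ((n : ℝ) + 1) * (bb q (j + 2) * y n (j + 3) + y n (j + 1))

structure IsU (q : ℝ) (y u : ℕ → ℕ → ℝ) : Prop where
  low : ∀ n j, j < 7 → u n j = 0
  init : ∀ j, 7 ≤ j → u 0 j = y 0 j
  r : ∀ n j : ℕ, 5 ≤ j → (3 * ((n : ℝ) + 1) + j + q - 1) * u (n + 1) (j + 2) =
    ((j : ℝ) + 1) * u (n + 1) j +
      3 * ((n : ℝ) + 1) * (bb q (j + 2) * u n (j + 3) + u n (j + 1))

noncomputable def urow (q : ℝ) (prev : ℕ → ℝ) (n : ℕ) : ℕ → ℝ
  | 0 => 0
  | 1 => 0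
  | (j + 2) => if j < 5 then 0 else
      (((j : ℝ) + 1) * urow q prev n j +
        3 * ((n : ℝ) + 1) * (bb q (j + 2) * prev (j + 3) + prev (j + 1))) /
        (3 * ((n : ℝ) + 1) + j + q - 1)

noncomputable def useq (q : ℝ) (g : ℕ → ℝ) : ℕ → ℕ → ℝ
  | 0 => fun j => if j < 7 then 0 else g j
  | (n + 1) => urow q (useq q g n) n

lemma exists_isU {q : ℝ} (hq : 6 < q) (y : ℕ → ℕ → ℝ) : ∃ u, IsU q y u := by
  refine ⟨useq q (y 0), ?_, ?_, ?_⟩
  · intro n j hj
    cases n with
    | zero => simp [useq, hj]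
    | succ n =>
      match j, hj with
      | 0, _ => simp [useq, urow]
      | 1, _ => simp [useq, urow]
      | (j + 2), hj =>
        have : j < 5 := by omega
        simp [useq, urow, this]
  · intro j hj
    have : ¬ j < 7 := by omega
    simp [useq, this]
  · intro n j hj
    have h5 : ¬ j < 5 := by omega
    have hA : (3 * ((n : ℝ) + 1) + j + q - 1) ≠ 0 := by
      have : (0 : ℝ) ≤ n := Nat.cast_nonneg n
      have : (0 : ℝ) ≤ j := Nat.cast_nonneg j
      linarith
    show _ * urow q (useq q (y 0) n) n (j + 2) = _ * urow q (useq q (y 0) n) n j + _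
    rw [urow, if_neg h5]
    field_simp

section basic
variable {q : ℝ} {y : ℕ → ℕ → ℝ}

lemma bb_pos (hq7 : q < 7) {j : ℕ} (hj : 7 ≤ j) : 0 < bb q j := by
  have : (7 : ℝ) ≤ j := by exact_mod_cast hj
  unfold bb
  apply div_pos <;> linarith

lemma bb_le_one (hq : 6 < q) {j : ℕ} (hj : 7 ≤ j) : bb q j ≤ 1 := by
  have : (7 : ℝ) ≤ j := by exact_mod_cast hj
  unfold bb
  rw [div_le_one (by linarith)]
  linarith

lemma bb_ge (hq : 6 < q) (hq7 : q < 7) {j : ℕ} (hj : 7 ≤ j) : (7 - q) / 7 ≤ bb q j := by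
  have : (7 : ℝ) ≤ j := by exact_mod_cast hj
  unfold bb
  rw [div_le_div_iff₀ (by norm_num) (by linarith)]
  nlinarith

lemma abs_bb_le (hq : 6 < q) (hq7 : q < 7) {j : ℕ} (hj : 2 ≤ j) : |bb q j| ≤ 5 / 2 := by
  have : (2 : ℝ) ≤ j := by exact_mod_cast hj
  unfold bb
  rw [abs_le]
  constructor
  · rw [le_div_iff₀ (by linarith)]; linarith
  · rw [div_le_iff₀ (by linarith)]; linarith

lemma abs_bb_ge (hq : 6 < q) (hq7 : q < 7) {j : ℕ} (hj : 2 ≤ j) :
    min (q - 6) (7 - q) / 7 ≤ |bb q j| := by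
  rcases le_or_gt 7 j with h | h
  · calc min (q - 6) (7 - q) / 7 ≤ (7 - q) / 7 := by
          gcongr; exact min_le_right _ _
      _ ≤ bb q j := bb_ge hq hq7 h
      _ ≤ |bb q j| := le_abs_self _
  · have h2 : (2 : ℝ) ≤ j := by exact_mod_cast hj
    have h6 : (j : ℝ) ≤ 6 := by exact_mod_cast (by omega : j ≤ 6)
    calc min (q - 6) (7 - q) / 7 ≤ (q - 6) / 7 := by
          gcongr; exact min_le_left _ _
      _ ≤ - bb q j := by
          unfold bb
          rw [← neg_div, div_le_div_iff₀ (by norm_num) (by linarith)]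
          nlinarith
      _ ≤ |bb q j| := neg_le_abs _

lemma IsY.zero_nonneg (hy : IsY q y) (hq : 6 < q) : ∀ j, 0 ≤ y 0 j := by
  intro j
  induction j using Nat.strong_induction_on with
  | _ j ih =>
    match j with
    | 0 => rw [hy.h00]; norm_num
    | 1 => rw [hy.h1]
    | (j + 2) =>
      have h := hy.r0 j
      have h0 := ih j (by omega)
      have hj : (0 : ℝ) ≤ j := Nat.cast_nonneg j
      have hA : 0 < (j : ℝ) + q - 1 := by linarith
      by_contra hneg
      push Not at hneg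
      nlinarith [mul_nonneg (by linarith : (0 : ℝ) ≤ (j : ℝ) + 1) h0]

lemma IsY.zero_pos (hy : IsY q y) (hq : 6 < q) : ∀ k, 0 < y 0 (2 * k) := by
  intro k
  induction k with
  | zero => simp [hy.h00]
  | succ k ih =>
    have h := hy.r0 (2 * k)
    have hj : (0 : ℝ) ≤ ((2 * k : ℕ) : ℝ) := Nat.cast_nonneg _
    have hA : 0 < ((2 * k : ℕ) : ℝ) + q - 1 := by linarith
    have e : 2 * (k + 1) = 2 * k + 2 := by ring
    rw [e]
    by_contra hneg
    push Not at hneg
    nlinarith [mul_pos (by linarith : (0 : ℝ) < ((2 * k : ℕ) : ℝ) + 1) ih]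

lemma IsY.odd_zero (hy : IsY q y) (hq : 6 < q) : ∀ n j, Odd (n + j) → y n j = 0 := by
  intro n
  induction n with
  | zero =>
    intro j
    induction j using Nat.strong_induction_on with
    | _ j ih =>
      intro hj
      match j, hj with
      | 0, hj => simp at hj
      | 1, _ => exact hy.h1 0
      | (j + 2), hj =>
        have h := hy.r0 j
        have h0 := ih j (by omega) (by rcases hj with ⟨k, hk⟩; exact ⟨k - 1, by omega⟩)
        have hj' : (0 : ℝ) ≤ j := Nat.cast_nonneg j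
        have hA : (j : ℝ) + q - 1 ≠ 0 := by linarith
        rw [h0, mul_zero] at h
        exact (mul_eq_zero.mp h).resolve_left hA
  | succ n ihn =>
    have hn : (0 : ℝ) ≤ n := Nat.cast_nonneg n
    have h2 : Odd (n + 1 + 2) → y (n + 1) 2 = 0 := by
      intro hj
      have h := hy.r n 0
      have a1 := ihn 3 (by rcases hj with ⟨k, hk⟩; exact ⟨k, by omega⟩)
      have a2 := hy.h1 n
      have a3 := hy.h0 (n + 1)
      simp only [zero_add, Nat.cast_zero, add_zero] at h
      rw [a1, a2, a3] at h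
      have : (3 * ((n : ℝ) + 1)) * y (n + 1) 2 = 0 := by linarith
      exact (mul_eq_zero.mp this).resolve_left (by linarith)
    intro j
    induction j using Nat.strong_induction_on with
    | _ j ih =>
      intro hj
      match j, hj with
      | 0, hj =>
        rw [hy.h0, h2 (by rcases hj with ⟨k, hk⟩; exact ⟨k + 1, by omega⟩), mul_zero]
      | 1, _ => exact hy.h1 _
      | (j + 2), hj =>
        have h := hy.r n j
        have h0 := ih j (by omega) (by rcases hj with ⟨k, hk⟩; exact ⟨k - 1, by omega⟩)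
        have a1 := ihn (j + 3) (by rcases hj with ⟨k, hk⟩; exact ⟨k, by omega⟩)
        have a2 := ihn (j + 1) (by rcases hj with ⟨k, hk⟩; exact ⟨k - 1, by omega⟩)
        have hj' : (0 : ℝ) ≤ j := Nat.cast_nonneg j
        have hA : 3 * ((n : ℝ) + 1) + j + q - 1 ≠ 0 := by linarith
        rw [h0, a1, a2] at h
        simp only [mul_zero, add_zero] at h
        exact (mul_eq_zero.mp h).resolve_left hA

/-- forward bound in the height -/
lemma IsY.forward (hy : IsY q y) (hq : 6 < q) (hq7 : q < 7) {C γ : ℝ} (hγ : 1 ≤ γ)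
    (hC : ∀ n, |y n 2| ≤ C * γ ^ n) :
    ∃ X : ℝ, 1 ≤ X ∧ ∀ j n, j ≤ n + 8 → |y n j| ≤ 6 * C * γ ^ n * X ^ j := by
  set μ := min (q - 6) (7 - q) / 7 with hμ
  have hμ0 : 0 < μ := by
    rw [hμ]; apply div_pos _ (by norm_num); apply lt_min <;> linarith
  have hC0 : 0 ≤ C := by
    have := hC 0
    simp at this
    exact le_trans (abs_nonneg _) this
  set X := max 1 ((7 * γ + 1) / μ) with hX
  have hX1 : 1 ≤ X := le_max_left _ _
  have hXμ : 7 * γ + 1 ≤ μ * X := by
    have : (7 * γ + 1) / μ ≤ X := le_max_right _ _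
    rw [div_le_iff₀ hμ0] at this
    linarith
  refine ⟨X, hX1, ?_⟩
  intro j
  induction j using Nat.strong_induction_on with
  | _ j ih =>
    intro n hj
    have hg : 0 ≤ C * γ ^ n := by positivity
    match j, hj with
    | 0, _ =>
      rw [hy.h0, abs_mul, abs_of_pos (by linarith : 0 < q - 1)]
      have := hC n
      simp only [pow_zero, mul_one]
      nlinarith [abs_nonneg (y n 2)]
    | 1, _ => rw [hy.h1]; simp only [abs_zero]; positivity
    | 2, _ =>
      have := hC n
      have h2 : 1 ≤ X ^ 2 := one_le_pow₀ hX1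
      nlinarith
    | (i + 3), hj =>
      have h := hy.r n i
      have a1 := ih (i + 2) (by omega) (n + 1) (by omega)
      have a2 := ih i (by omega) (n + 1) (by omega)
      have a3 := ih (i + 1) (by omega) n (by omega)
      have hb := abs_bb_ge hq hq7 (j := i + 2) (by omega)
      rw [← hμ] at hb
      have hn : (0 : ℝ) ≤ n := Nat.cast_nonneg n
      have hi : (0 : ℝ) ≤ i := Nat.cast_nonneg i
      have hin : (i : ℝ) + 3 ≤ n + 8 := by exact_mod_cast hj
      set P := 6 * C * γ ^ n * X ^ (i + 2) with hP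
      have hP0 : 0 ≤ P := by positivity
      have b1 : |y (n + 1) (i + 2)| ≤ γ * P := by
        rw [hP]; calc _ ≤ _ := a1
          _ = _ := by ring
      have b2 : |y (n + 1) i| ≤ γ * P := by
        calc _ ≤ _ := a2
          _ ≤ 6 * C * γ ^ (n + 1) * X ^ (i + 2) := by
            gcongr
            omega
          _ = _ := by rw [hP]; ring
      have b3 : |y n (i + 1)| ≤ P := by
        calc _ ≤ _ := a3
          _ ≤ 6 * C * γ ^ n * X ^ (i + 2) := by
            gcongr
            omega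
      have e : 3 * ((n : ℝ) + 1) * (bb q (i + 2) * y n (i + 3)) =
          (3 * ((n : ℝ) + 1) + i + q - 1) * y (n + 1) (i + 2) - ((i : ℝ) + 1) * y (n + 1) i
            - 3 * ((n : ℝ) + 1) * y n (i + 1) := by linarith
      have hN : (0 : ℝ) < 3 * ((n : ℝ) + 1) := by linarith
      have e2 : 3 * ((n : ℝ) + 1) * (|bb q (i + 2)| * |y n (i + 3)|) ≤
          3 * ((n : ℝ) + 1) * ((7 * γ + 1) * P) := by
        have hγP : 0 ≤ γ * P := by positivity
        calc 3 * ((n : ℝ) + 1) * (|bb q (i + 2)| * |y n (i + 3)|)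
            = |3 * ((n : ℝ) + 1) * (bb q (i + 2) * y n (i + 3))| := by
              rw [abs_mul (3 * _), abs_mul (bb q _), abs_of_pos hN]
          _ ≤ |(3 * ((n : ℝ) + 1) + i + q - 1) * y (n + 1) (i + 2)| +
                |((i : ℝ) + 1) * y (n + 1) i| + |3 * ((n : ℝ) + 1) * y n (i + 1)| := by
              rw [e]
              exact (abs_sub _ _).trans (by gcongr; exact abs_sub _ _)
          _ = (3 * ((n : ℝ) + 1) + i + q - 1) * |y (n + 1) (i + 2)| +
                ((i : ℝ) + 1) * |y (n + 1) i| + 3 * ((n : ℝ) + 1) * |y n (i + 1)| := by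
              rw [abs_mul, abs_mul, abs_mul (3 * _), abs_of_pos hN,
                abs_of_pos (by linarith : 0 < 3 * ((n : ℝ) + 1) + i + q - 1),
                abs_of_pos (by linarith : 0 < (i : ℝ) + 1)]
          _ ≤ (5 * (3 * ((n : ℝ) + 1))) * (γ * P) +
                (2 * (3 * ((n : ℝ) + 1))) * (γ * P) + 3 * ((n : ℝ) + 1) * P := by
              gcongr <;> linarith
          _ = _ := by ring
      have e3 : |bb q (i + 2)| * |y n (i + 3)| ≤ (7 * γ + 1) * P := le_of_mul_le_mul_left e2 hN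
      have e4 : μ * |y n (i + 3)| ≤ μ * (X * P) := by
        calc μ * |y n (i + 3)| ≤ |bb q (i + 2)| * |y n (i + 3)| := by gcongr
          _ ≤ (7 * γ + 1) * P := e3
          _ ≤ μ * X * P := by gcongr
          _ = _ := by ring
      calc |y n (i + 3)| ≤ X * P := le_of_mul_le_mul_left e4 hμ0
        _ = _ := by rw [hP]; ring

/-- one step of the sup bound -/
lemma IsY.step_bound (hy : IsY q y) (hq : 6 < q) (n j : ℕ) {M M' B : ℝ}
    (hb : |bb q (j + 2)| ≤ B) (hM' : (B + 1) * M ≤ M')
    (h1 : |y (n + 1) j| ≤ M') (h2 : |y n (j + 3)| ≤ M) (h3 : |y n (j + 1)| ≤ M) :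
    |y (n + 1) (j + 2)| ≤ M' := by
  have h := hy.r n j
  have hn : (0 : ℝ) ≤ n := Nat.cast_nonneg n
  have hj : (0 : ℝ) ≤ j := Nat.cast_nonneg j
  have hA : 0 < 3 * ((n : ℝ) + 1) + j + q - 1 := by linarith
  have hM0 : 0 ≤ M := le_trans (abs_nonneg _) h2
  have hM'0 : 0 ≤ M' := le_trans (abs_nonneg _) h1
  have hB0 : 0 ≤ B := le_trans (abs_nonneg _) hb
  have e : (3 * ((n : ℝ) + 1) + j + q - 1) * |y (n + 1) (j + 2)| ≤
      (3 * ((n : ℝ) + 1) + j + q - 1) * M' := by
    calc (3 * ((n : ℝ) + 1) + j + q - 1) * |y (n + 1) (j + 2)|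
        = |(3 * ((n : ℝ) + 1) + j + q - 1) * y (n + 1) (j + 2)| := by
          rw [abs_mul, abs_of_pos hA]
      _ ≤ |((j : ℝ) + 1) * y (n + 1) j| +
          |3 * ((n : ℝ) + 1) * (bb q (j + 2) * y n (j + 3) + y n (j + 1))| := by
          rw [h]; exact abs_add_le _ _
      _ = ((j : ℝ) + 1) * |y (n + 1) j| +
          3 * ((n : ℝ) + 1) * |bb q (j + 2) * y n (j + 3) + y n (j + 1)| := by
          rw [abs_mul, abs_mul (3 * _), abs_of_pos (by linarith : 0 < (j : ℝ) + 1),
            abs_of_pos (by linarith : 0 < 3 * ((n : ℝ) + 1))]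
      _ ≤ ((j : ℝ) + 1) * M' + 3 * ((n : ℝ) + 1) * M' := by
          gcongr
          calc _ ≤ |bb q (j + 2) * y n (j + 3)| + |y n (j + 1)| := abs_add_le _ _
            _ = |bb q (j + 2)| * |y n (j + 3)| + |y n (j + 1)| := by rw [abs_mul]
            _ ≤ B * M + M := by gcongr
            _ ≤ M' := by linarith
      _ ≤ _ := by nlinarith
  exact le_of_mul_le_mul_left e hA

lemma IsY.zero_step (hy : IsY q y) (hq : 6 < q) (j : ℕ) : |y 0 (j + 2)| ≤ |y 0 j| := by
  have h := hy.r0 j
  have a := hy.zero_nonneg hq j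
  have b := hy.zero_nonneg hq (j + 2)
  have hj : (0 : ℝ) ≤ j := Nat.cast_nonneg j
  rw [abs_of_nonneg a, abs_of_nonneg b]
  by_contra hneg
  push Not at hneg
  nlinarith

lemma IsY.crude (hy : IsY q y) (hq : 6 < q) (hq7 : q < 7) :
    ∀ n j, 1 ≤ j → |y n j| ≤ 4 ^ n := by
  intro n
  induction n with
  | zero =>
    have : ∀ j, |y 0 j| ≤ 1 := by
      intro j
      induction j using Nat.strong_induction_on with
      | _ j ih =>
        match j with
        | 0 => simp [hy.h00]
        | 1 => simp [hy.h1]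
        | (j + 2) => exact (hy.zero_step hq j).trans (ih j (by omega))
    intro j _
    simpa using this j
  | succ n ihn =>
    have hn : (0 : ℝ) ≤ n := Nat.cast_nonneg n
    have h4 : (0 : ℝ) < 4 ^ n := by positivity
    intro j
    induction j using Nat.strong_induction_on with
    | _ j ih =>
      intro hj
      match j, hj with
      | 1, _ => rw [hy.h1]; simp only [abs_zero]; positivity
      | 2, _ =>
        have h := hy.r n 0
        have a2 := hy.h1 n
        have a3 := hy.h0 (n + 1)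
        simp only [zero_add, Nat.cast_zero, add_zero] at h
        rw [a2, a3] at h
        have e : (3 * ((n : ℝ) + 1)) * y (n + 1) 2 = (3 * ((n : ℝ) + 1)) * (bb q 2 * y n 3) := by
          linarith
        have e2 := mul_left_cancel₀ (by linarith : 3 * ((n : ℝ) + 1) ≠ 0) e
        rw [e2, abs_mul]
        have := abs_bb_le hq hq7 (j := 2) le_rfl
        have := ihn 3 (by omega)
        calc |bb q 2| * |y n 3| ≤ 5 / 2 * 4 ^ n := by gcongr
          _ ≤ 4 ^ (n + 1) := by rw [pow_succ]; linarith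
      | (j + 3), _ =>
        apply hy.step_bound hq n (j + 1) (M := 4 ^ n) (B := 5 / 2) (abs_bb_le hq hq7 (by omega))
        · rw [pow_succ]; linarith
        · exact ih (j + 1) (by omega) (by omega)
        · exact ihn _ (by omega)
        · exact ihn _ (by omega)

lemma IsY.sup_bound (hy : IsY q y) (hq : 6 < q) (hq7 : q < 7) {C β : ℝ} (hβ : 2 ≤ β)
    (hC : ∀ n, |y n 2| ≤ C * β ^ n) : ∃ C' : ℝ, ∀ n j, |y n j| ≤ C' * β ^ n := by
  obtain ⟨X, hX1, hX⟩ := hy.forward hq hq7 (by linarith : 1 ≤ β) hC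
  have hC0 : 0 ≤ C := by
    have := hC 0
    simp at this
    exact le_trans (abs_nonneg _) this
  refine ⟨6 * C * X ^ 8, ?_⟩
  have hlow : ∀ n j, j ≤ 8 → |y n j| ≤ 6 * C * X ^ 8 * β ^ n := by
    intro n j hj
    calc _ ≤ _ := hX j n (by omega)
      _ ≤ 6 * C * β ^ n * X ^ 8 := by gcongr
      _ = _ := by ring
  intro n
  induction n with
  | zero =>
    intro j
    induction j using Nat.strong_induction_on with
    | _ j ih =>
      match j with
      | 0 => exact hlow _ _ (by omega)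
      | 1 => exact hlow _ _ (by omega)
      | (j + 2) => exact (hy.zero_step hq j).trans (ih j (by omega))
  | succ n ihn =>
    intro j
    induction j using Nat.strong_induction_on with
    | _ j ih =>
      rcases le_or_gt j 8 with h | h
      · exact hlow _ _ h
      · obtain ⟨i, rfl⟩ : ∃ i, j = i + 2 := ⟨j - 2, by omega⟩
        apply hy.step_bound hq n i (M := 6 * C * X ^ 8 * β ^ n) (B := 1)
        · rw [abs_of_pos (bb_pos hq7 (by omega))]; exact bb_le_one hq (by omega)
        · have : 0 ≤ 6 * C * X ^ 8 * β ^ n := by positivity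
          rw [pow_succ β]; nlinarith
        · exact ih i (by omega)
        · exact ihn _
        · exact ihn _

end basic

end Pool.Agent.Lib.MP_08beec_co
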