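import Mathlib

/-!
Finite multigraphs (loops and parallel edges allowed) with a fixed orientation are given by a
finite vertex type `V`, a finite edge type `E` and the maps `src tgt : E → V`.
-/

namespace Pool.Agent.Lib.MP_08beec_co

open Finset Polynomial

variable {V E : Type} [Fintype V] [DecidableEq V] [Fintype E] [DecidableEq E]

/-- Conservation at every vertex: inflow equals outflow. -/
def IsFlow {A : Type} [AddCommGroup A] (src tgt : E → V) (f : E → A) : Prop :=
  ∀ v : V, ∑ e with tgt e = v, f e = ∑ e with src e = v, f e

/-- The number of nowhere-zero `ZMod q`-flows. -/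
noncomputable def nzFlowCount (src tgt : E → V) (q : ℕ) : ℕ :=
  Nat.card {f : E → ZMod q // (∀ e, f e ≠ 0) ∧ IsFlow src tgt f}

/-- No edge is a bridge: the two ends of each edge are joined by a walk (ignoring
orientations) that avoids this edge. -/
def Bridgeless (src tgt : E → V) : Prop :=
  ∀ e : E, Relation.EqvGen (fun a b : V => ∃ e' : E, e' ≠ e ∧ src e' = a ∧ tgt e' = b)
    (src e) (tgt e)

/-- `F` is the flow polynomial: its value at each positive integer `q` is the number of
nowhere-zero `ZMod q`-flows. -/
def IsFlowPolynomial (src tgt : E → V) (F : ℤ[X]) : Prop :=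
  ∀ q : ℕ, 0 < q → F.eval (q : ℤ) = nzFlowCount src tgt q

/-- Every vertex has degree three (a loop counts twice). -/
def Cubic (src tgt : E → V) : Prop :=
  ∀ v : V, #{e | src e = v} + #{e | tgt e = v} = 3

end Pool.Agent.Lib.MP_08beec_co
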