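import Mathlib

/-! Counting nowhere-zero flows with prescribed boundary on edge lists; deletion-contraction. -/

namespace Pool.Agent.Lib.MP_08beec_co

open Finset Polynomial

section

variable {V : Type} [DecidableEq V] {Γ : Type} [AddCommGroup Γ] [Fintype Γ] [DecidableEq Γ]

/-- Adding an edge from `a` to `b` that carries a nonzero value. -/
def T (a b : V) : ((V → Γ) → ℤ) →ₗ[ℤ] ((V → Γ) → ℤ) where
  toFun φ := fun β => ∑ c ∈ univ.erase (0 : Γ), φ (β - Pi.single a c + Pi.single b c)
  map_add' φ ψ := by ext β; simp [sum_add_distrib]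
  map_smul' r φ := by ext β; simp only [Pi.smul_apply, smul_eq_mul, mul_sum, RingHom.id_apply]

lemma T_apply (a b : V) (φ : (V → Γ) → ℤ) (β : V → Γ) :
    T a b φ β = ∑ c ∈ univ.erase (0 : Γ), φ (β - Pi.single a c + Pi.single b c) := rfl

lemma T_symm (a b : V) (φ : (V → Γ) → ℤ) : T a b φ = T b a φ := by
  ext β
  rw [T_apply, T_apply]
  refine sum_bij' (fun c _ => -c) (fun c _ => -c) ?_ ?_ ?_ ?_ ?_
  · intro c hc; simpa using hc
  · intro c hc; simpa using hc
  · intro c _; simp
  · intro c _; simp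
  · intro c _
    congr 1
    rw [Pi.single_neg, Pi.single_neg]; abel

lemma T_comm (a b u w : V) (φ : (V → Γ) → ℤ) : T a b (T u w φ) = T u w (T a b φ) := by
  ext β
  simp only [T_apply]
  rw [sum_comm]
  refine sum_congr rfl fun c _ => sum_congr rfl fun d _ => ?_
  congr 1; abel

lemma T_loop (a : V) (φ : (V → Γ) → ℤ) (β : V → Γ) :
    T a a φ β = ((Fintype.card Γ : ℤ) - 1) * φ β := by
  rw [T_apply]
  simp only [sub_add_cancel, sum_const, card_erase_of_mem (mem_univ _), card_univ, nsmul_eq_mul]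
  have : 1 ≤ Fintype.card Γ := Fintype.card_pos
  push_cast [Nat.cast_sub this]
  ring

open Classical in
/-- The empty graph. -/
noncomputable def delta : (V → Γ) → ℤ := fun β => if β = 0 then 1 else 0

/-- Number of nowhere-zero assignments on the edge list with boundary `β`. -/
noncomputable def N : List (V × V) → (V → Γ) → ℤ
  | [] => delta
  | e :: E => T e.1 e.2 (N E)

/-- Replace the vertex `a` by `b`. -/
def repl (a b : V) : V → V := fun u => if u = a then b else u

/-- Move the boundary value at `a` to `b`. -/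
def mu (a b : V) (β : V → Γ) : V → Γ := β - Pi.single a (β a) + Pi.single b (β a)

omit [Fintype Γ] [DecidableEq Γ] in
lemma mu_zero (a b : V) : mu a b (0 : V → Γ) = 0 := by simp [mu]

omit [Fintype Γ] [DecidableEq Γ] in
lemma mu_step (a b u w : V) (β : V → Γ) (c : Γ) :
    mu a b (β - Pi.single u c + Pi.single w c) =
      mu a b β - Pi.single (repl a b u) c + Pi.single (repl a b w) c := by
  have key : ∀ x : V, (Pi.single x c : V → Γ) - Pi.single a ((Pi.single x c : V → Γ) a)
      + Pi.single b ((Pi.single x c : V → Γ) a) = Pi.single (repl a b x) c := by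
    intro x
    by_cases h : x = a
    · subst h; simp [repl]
    · simp [repl, h]
  rw [← key u, ← key w]
  simp only [mu, Pi.add_apply, Pi.sub_apply, Pi.single_add, Pi.single_sub]
  abel

/-- `ψ` is obtained from `φ` by identifying `a` with `b`. -/
def Ctr (a b : V) (φ ψ : (V → Γ) → ℤ) : Prop :=
  ∀ β, ∑ c : Γ, φ (β - Pi.single a c + Pi.single b c) = ψ (mu a b β)

omit [DecidableEq Γ] in
lemma Ctr.delta {a b : V} (h : a ≠ b) : Ctr a b (delta : (V → Γ) → ℤ) delta := by
  intro β
  rw [sum_eq_single (β a)]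
  · rfl
  · intro c _ hc
    unfold MP_08beec_co.delta
    rw [if_neg]
    intro h0
    have := congrFun h0 a
    simp [Pi.single_eq_of_ne h] at this
    exact hc (sub_eq_zero.mp this).symm
  · simp

lemma Ctr.T {a b : V} {φ ψ : (V → Γ) → ℤ} (h : Ctr a b φ ψ) (u w : V) :
    Ctr a b (T u w φ) (T (repl a b u) (repl a b w) ψ) := by
  intro β
  simp only [T_apply]
  rw [sum_comm]
  refine sum_congr rfl fun d _ => ?_
  rw [← mu_step, ← h]
  refine sum_congr rfl fun c _ => ?_
  congr 1; abel

omit [DecidableEq Γ] in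
lemma Ctr.sum {ι : Type} {a b : V} (s : Multiset ι) (φ ψ : ι → (V → Γ) → ℤ)
    (h : ∀ i ∈ s, Ctr a b (φ i) (ψ i)) : Ctr a b (s.map φ).sum (s.map ψ).sum := by
  induction s using Multiset.induction_on with
  | empty => intro β; simp
  | cons x t ih =>
    intro β
    simp only [Multiset.map_cons, Multiset.sum_cons, Pi.add_apply, sum_add_distrib]
    rw [h x (Multiset.mem_cons_self _ _), ih (fun i hi => h i (Multiset.mem_cons_of_mem hi))]

lemma Ctr.eval {a b : V} {φ ψ : (V → Γ) → ℤ} (h : Ctr a b φ ψ) : MP_08beec_co.T a b φ 0 = ψ 0 - φ 0 := by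
  have := h 0
  rw [mu_zero, ← add_sum_erase _ _ (mem_univ (0 : Γ))] at this
  rw [T_apply, ← this]
  simp

lemma ctr_N {a b : V} (h : a ≠ b) (E : List (V × V)) :
    Ctr a b (N E : (V → Γ) → ℤ) (N (E.map (Prod.map (repl a b) (repl a b)))) := by
  induction E with
  | nil => exact Ctr.delta h
  | cons e E ih => exact ih.T e.1 e.2

/-- The flow polynomial of an edge list, by deletion-contraction. -/
noncomputable def F : ℕ → List (V × V) → ℤ[X]
  | 0, _ => 1
  | _ + 1, [] => 1
  | m + 1, e :: E => if e.1 = e.2 then (X - 1) * F m E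
      else F m (E.map (Prod.map (repl e.1 e.2) (repl e.1 e.2))) - F m E

lemma F_eval : ∀ (m : ℕ) (E : List (V × V)), E.length ≤ m →
    (F m E).eval (Fintype.card Γ : ℤ) = (N E : (V → Γ) → ℤ) 0
  | 0, E, h => by
    obtain rfl : E = [] := List.eq_nil_of_length_eq_zero (by omega)
    simp [F, N, delta]
  | _ + 1, [], _ => by simp [F, N, delta]
  | m + 1, e :: E, h => by
    have hE : E.length ≤ m := by simpa using h
    by_cases he : e.1 = e.2
    · simp only [F, N, he, if_true, eval_mul, eval_sub, eval_X, eval_one, T_loop]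
      rw [F_eval m E hE]
    · simp only [F, N, he, if_false, eval_sub]
      rw [F_eval m E hE, F_eval m _ (by simpa using hE), (ctr_N he E).eval]

open Classical in
lemma N_ofFn : ∀ (m : ℕ) (ε : Fin m → V × V) (β : V → Γ),
    N (List.ofFn ε) β = ∑ f : Fin m → Γ, if (∀ e, f e ≠ 0) ∧
      ∑ e, ((Pi.single (ε e).1 (f e) : V → Γ) - Pi.single (ε e).2 (f e)) = β then 1 else 0
  | 0, ε, β => by simp [N, delta, eq_comm]
  | m + 1, ε, β => by
    rw [List.ofFn_succ, N, T_apply, ← (Fin.consEquiv (fun _ => Γ)).sum_comp, Fintype.sum_prod_type,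
      ← add_sum_erase _ _ (mem_univ (0 : Γ))]
    rw [sum_eq_zero (s := univ) (fun g _ => if_neg (fun h => h.1 0 (by simp))), zero_add]
    refine sum_congr rfl fun c hc => ?_
    rw [N_ofFn m]
    refine sum_congr rfl fun g _ => ?_
    have hc0 : c ≠ 0 := (mem_erase.mp hc).1
    refine if_congr ?_ rfl rfl
    simp only [Fin.consEquiv_apply, Fin.forall_fin_succ, Fin.sum_univ_succ, Fin.cons_zero,
      Fin.cons_succ]
    refine ⟨fun h => ⟨⟨hc0, h.1⟩, ?_⟩, fun h => ⟨h.1.2, ?_⟩⟩
    · rw [h.2]; abel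
    · rw [← h.2]; abel

end

end Pool.Agent.Lib.MP_08beec_co
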