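import Pool.Agent.Lib.MP_08beec_co.Defs

/-!
Basic theory of the flow polynomial: the Potts (character sum) formula, the subset expansion,
existence and uniqueness, vanishing in the presence of a bridge.
-/

namespace Pool.Agent.Lib.MP_08beec_co

open Finset Polynomial

set_option linter.unusedSectionVars false

variable {V E : Type} [Fintype V] [DecidableEq V] [Fintype E] [DecidableEq E]

lemma sum_char (q : ℕ) [NeZero q] (b : ZMod q) :
    ∑ x : ZMod q, ZMod.stdAddChar (x * b) = if b = 0 then (q : ℂ) else 0 := by
  have := AddChar.sum_mulShift b (ZMod.isPrimitive_stdAddChar q)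
  rw [this, ZMod.card]
  split_ifs <;> simp

lemma char_sum {ι : Type} (q : ℕ) [NeZero q] (s : Finset ι) (g : ι → ZMod q) :
    ZMod.stdAddChar (∑ i ∈ s, g i) = ∏ i ∈ s, ZMod.stdAddChar (g i) := by
  classical
  induction s using Finset.induction_on with
  | empty => simp
  | insert a s ha ih => rw [sum_insert ha, prod_insert ha, AddChar.map_add_eq_mul, ih]

/-- The Potts formula. -/
theorem potts (src tgt : E → V) (q : ℕ) [NeZero q] :
    (q : ℤ) ^ Fintype.card V * nzFlowCount src tgt q =
      ∑ σ : V → ZMod q, ∏ e : E, ((if σ (src e) = σ (tgt e) then (q : ℤ) else 0) - 1) := by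
  classical
  have key : ((q : ℂ) ^ Fintype.card V * nzFlowCount src tgt q) =
      ∑ σ : V → ZMod q, ∏ e : E, ((if σ (src e) = σ (tgt e) then (q : ℂ) else 0) - 1) := by
    have h1 : ∀ (σ : V → ZMod q) (e : E),
        ((if σ (src e) = σ (tgt e) then (q : ℂ) else 0) - 1) =
          ∑ x : ZMod q, if x ≠ 0 then ZMod.stdAddChar (x * (σ (tgt e) - σ (src e))) else 0 := by
      intro σ e
      have := sum_char q (σ (tgt e) - σ (src e))
      rw [← Finset.sum_filter, Finset.filter_ne' univ (0 : ZMod q)]
      rw [← Finset.add_sum_erase _ _ (mem_univ (0 : ZMod q))] at this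
      simp only [zero_mul, AddChar.map_zero_eq_one, sub_eq_zero] at this
      simp only [eq_comm (a := σ (src e))]
      rw [← this]; ring
    simp_rw [h1]
    simp_rw [Finset.prod_univ_sum, Fintype.piFinset_univ]
    rw [Finset.sum_comm]
    have h2 : ∀ f : E → ZMod q, (∑ σ : V → ZMod q, ∏ e : E,
        if f e ≠ 0 then ZMod.stdAddChar (f e * (σ (tgt e) - σ (src e))) else 0) =
        if (∀ e, f e ≠ 0) ∧ IsFlow src tgt f then (q : ℂ) ^ Fintype.card V else 0 := by
      intro f
      by_cases hf : ∀ e, f e ≠ 0
      · simp only [hf, ne_eq, not_false_eq_true, if_true, implies_true, true_and]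
        have h3 : ∀ σ : V → ZMod q, (∏ e : E, ZMod.stdAddChar (f e * (σ (tgt e) - σ (src e)))) =
            ∏ v : V, ZMod.stdAddChar (σ v *
              (∑ e with tgt e = v, f e - ∑ e with src e = v, f e)) := by
          intro σ
          rw [← char_sum, ← char_sum]
          congr 1
          simp only [mul_sub, Finset.sum_sub_distrib, Finset.mul_sum]
          congr 1
          · rw [← Finset.sum_fiberwise univ tgt]
            refine sum_congr rfl fun v _ => sum_congr rfl fun e he => ?_
            rw [(mem_filter.mp he).2, mul_comm]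
          · rw [← Finset.sum_fiberwise univ src]
            refine sum_congr rfl fun v _ => sum_congr rfl fun e he => ?_
            rw [(mem_filter.mp he).2, mul_comm]
        simp_rw [h3]
        have h4 := Finset.prod_univ_sum (fun _ : V => (univ : Finset (ZMod q)))
          (fun v x => ZMod.stdAddChar (x * (∑ e with tgt e = v, f e - ∑ e with src e = v, f e)))
        rw [Fintype.piFinset_univ] at h4
        rw [← h4]
        simp_rw [sum_char]
        by_cases hfl : IsFlow src tgt f
        · rw [if_pos hfl]
          have : ∀ v, (∑ e with tgt e = v, f e - ∑ e with src e = v, f e) = 0 :=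
            fun v => sub_eq_zero.mpr (hfl v)
          simp [this]
        · rw [if_neg hfl]
          unfold IsFlow at hfl
          push Not at hfl
          obtain ⟨v, hv⟩ := hfl
          exact Finset.prod_eq_zero (mem_univ v) (if_neg (sub_ne_zero.mpr hv))
      · rw [if_neg (fun h => hf h.1)]
        push Not at hf
        obtain ⟨e, he⟩ := hf
        refine Finset.sum_eq_zero fun σ _ => Finset.prod_eq_zero (mem_univ e) ?_
        simp [he]
    simp_rw [h2]
    rw [← Finset.sum_filter, Finset.sum_const, nzFlowCount, Nat.card_eq_fintype_card,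
      Fintype.card_subtype, nsmul_eq_mul, mul_comm]
  have : (((q : ℤ) ^ Fintype.card V * nzFlowCount src tgt q : ℤ) : ℂ) =
      ((∑ σ : V → ZMod q, ∏ e : E,
        ((if σ (src e) = σ (tgt e) then (q : ℤ) else 0) - 1) : ℤ) : ℂ) := by
    push_cast
    exact key
  exact_mod_cast this

/-- connectivity relation of the spanning subgraph with edge set `A` -/
def conn (src tgt : E → V) (A : Finset E) : Setoid V :=
  Relation.EqvGen.setoid (fun a b : V => ∃ e ∈ A, src e = a ∧ tgt e = b)

/-- number of components of the spanning subgraph with edge set `A` -/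
noncomputable def comps (src tgt : E → V) (A : Finset E) : ℕ :=
  Nat.card (Quotient (conn src tgt A))

lemma conn_lift {α : Type} (src tgt : E → V) (A : Finset E) (σ : V → α)
    (h : ∀ e ∈ A, σ (src e) = σ (tgt e)) {a b : V} (hab : conn src tgt A a b) : σ a = σ b := by
  have hab' : Relation.EqvGen (fun a b : V => ∃ e ∈ A, src e = a ∧ tgt e = b) a b := hab
  induction hab' with
  | rel a b h' => obtain ⟨e, he, rfl, rfl⟩ := h'; exact h e he
  | refl a => rfl
  | symm a b h' ih => exact (ih h').symm
  | trans a b c h1 h2 ih1 ih2 => exact (ih1 h1).trans (ih2 h2)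

lemma conn_edge (src tgt : E → V) (A : Finset E) {e : E} (he : e ∈ A) :
    conn src tgt A (src e) (tgt e) :=
  Relation.EqvGen.rel _ _ ⟨e, he, rfl, rfl⟩

lemma card_const (src tgt : E → V) (A : Finset E) (α : Type) [Fintype α] [DecidableEq α] :
    #{σ : V → α | ∀ e ∈ A, σ (src e) = σ (tgt e)} = Fintype.card α ^ comps src tgt A := by
  classical
  have eqv : {σ : V → α // ∀ e ∈ A, σ (src e) = σ (tgt e)} ≃ (Quotient (conn src tgt A) → α) :=
    { toFun := fun σ => Quotient.lift σ.1 (fun a b hab => conn_lift src tgt A σ.1 σ.2 hab)
      invFun := fun g => ⟨fun v => g (Quotient.mk _ v), fun e he => by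
        have : Quotient.mk (conn src tgt A) (src e) = Quotient.mk _ (tgt e) :=
          Quotient.sound (conn_edge src tgt A he)
        simp only [this]⟩
      left_inv := fun σ => by ext v; rfl
      right_inv := fun g => by ext c; induction c using Quotient.inductionOn; rfl }
  rw [← Fintype.card_subtype, Fintype.card_congr eqv, Fintype.card_fun, comps,
    Nat.card_eq_fintype_card]

lemma comps_insert (src tgt : E → V) (A : Finset E) (e : E) :
    comps src tgt A ≤ comps src tgt (insert e A) + 1 := by
  classical
  let g : V → Quotient (conn src tgt A) := fun v =>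
    if Quotient.mk (conn src tgt A) v = Quotient.mk _ (tgt e) then Quotient.mk _ (src e)
    else Quotient.mk _ v
  have hg : ∀ e' ∈ insert e A, g (src e') = g (tgt e') := by
    intro e' he'
    rcases mem_insert.mp he' with rfl | h
    · simp only [g]
      split_ifs <;> simp_all
    · have : Quotient.mk (conn src tgt A) (src e') = Quotient.mk _ (tgt e') :=
        Quotient.sound (conn_edge src tgt A h)
      simp only [g, this]
  let G : Option (Quotient (conn src tgt (insert e A))) → Quotient (conn src tgt A) := fun o =>
    match o with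
    | none => Quotient.mk _ (tgt e)
    | some c => Quotient.lift g (fun a b hab => conn_lift src tgt _ g hg hab) c
  have hG : Function.Surjective G := by
    intro c
    induction c using Quotient.inductionOn with
    | h v =>
      by_cases h : Quotient.mk (conn src tgt A) v = Quotient.mk _ (tgt e)
      · exact ⟨none, h.symm⟩
      · exact ⟨some (Quotient.mk _ v), by simp [G, g, h]⟩
  have := Nat.card_le_card_of_surjective G hG
  rw [Finite.card_option] at this
  exact this

lemma card_le_comps (src tgt : E → V) (A : Finset E) :
    Fintype.card V ≤ #A + comps src tgt A := by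
  classical
  induction A using Finset.induction_on with
  | empty =>
    have : Function.Injective (Quotient.mk (conn src tgt ∅)) := by
      intro a b hab
      exact conn_lift src tgt ∅ id (by simp) (Quotient.exact hab)
    have := Nat.card_le_card_of_injective _ this
    rw [Nat.card_eq_fintype_card] at this
    simpa [comps] using this
  | insert e A he ih =>
    have := comps_insert src tgt A e
    rw [card_insert_of_notMem he]
    omega

/-- The flow polynomial by the subset expansion. -/
noncomputable def flowPoly (src tgt : E → V) : ℤ[X] :=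
  ∑ A : Finset E, (-1) ^ (Fintype.card E - #A) * X ^ (#A + comps src tgt A - Fintype.card V)

theorem isFlowPolynomial_flowPoly (src tgt : E → V) :
    IsFlowPolynomial src tgt (flowPoly src tgt) := by
  classical
  intro q hq
  have : NeZero q := ⟨hq.ne'⟩
  have hq0 : (q : ℤ) ^ Fintype.card V ≠ 0 := by positivity
  apply mul_left_cancel₀ hq0
  rw [potts, flowPoly, eval_finsetSum, Finset.mul_sum]
  simp_rw [sub_eq_add_neg, Finset.prod_add, Finset.powerset_univ]
  rw [Finset.sum_comm]
  refine sum_congr rfl fun A _ => ?_
  have h1 : ∀ σ : V → ZMod q, (∏ e ∈ A, if σ (src e) = σ (tgt e) then (q : ℤ) else 0) =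
      if ∀ e ∈ A, σ (src e) = σ (tgt e) then (q : ℤ) ^ #A else 0 := by
    intro σ
    rw [Finset.prod_ite_zero]; simp
  simp_rw [h1]
  rw [← Finset.sum_mul, ← Finset.sum_filter, Finset.sum_const, card_const, ZMod.card]
  have := card_le_comps src tgt A
  simp only [eval_mul, eval_pow, eval_neg, eval_one, eval_X, prod_const, card_univ_sdiff,
    nsmul_eq_mul, Nat.cast_pow]
  obtain ⟨d, hd⟩ := Nat.exists_eq_add_of_le this
  rw [hd, Nat.add_sub_cancel_left, ← pow_add, add_comm (comps _ _ _), hd, pow_add]
  ring

theorem IsFlowPolynomial.unique {src tgt : E → V} {F G : ℤ[X]} (hF : IsFlowPolynomial src tgt F)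
    (hG : IsFlowPolynomial src tgt G) : F = G := by
  apply Polynomial.eq_of_infinite_eval_eq
  apply Set.infinite_of_injective_forall_mem (f := fun n : ℕ => ((n + 1 : ℕ) : ℤ))
  · intro a b h; simpa using h
  · intro n
    simp only [Set.mem_ofPred_eq]
    rw [hF _ (Nat.succ_pos n), hG _ (Nat.succ_pos n)]

theorem nzFlowCount_eq_zero_of_bridge (src tgt : E → V) (h : ¬ Bridgeless src tgt) (q : ℕ) :
    nzFlowCount src tgt q = 0 := by
  classical
  unfold Bridgeless at h
  push Not at h
  obtain ⟨e, he⟩ := h
  set r := Relation.EqvGen (fun a b : V => ∃ e' : E, e' ≠ e ∧ src e' = a ∧ tgt e' = b) with hr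
  rw [nzFlowCount, Nat.card_eq_zero]
  left
  refine ⟨fun ⟨f, hf0, hf⟩ => hf0 e ?_⟩
  have h1 : ∑ v with r (src e) v, ∑ e' with tgt e' = v, f e' =
      ∑ v with r (src e) v, ∑ e' with src e' = v, f e' := sum_congr rfl fun v _ => hf v
  rw [Finset.sum_fiberwise_eq_sum_filter, Finset.sum_fiberwise_eq_sum_filter] at h1
  have h2 : univ.filter (fun e' => src e' ∈ univ.filter (fun v => r (src e) v)) =
      insert e (univ.filter (fun e' => tgt e' ∈ univ.filter (fun v => r (src e) v))) := by
    ext e'
    simp only [mem_filter, mem_univ, true_and, mem_insert]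
    by_cases hee : e' = e
    · subst hee
      simp only [true_or, iff_true]
      exact Relation.EqvGen.refl _
    · have hrel : r (src e') (tgt e') := Relation.EqvGen.rel _ _ ⟨e', hee, rfl, rfl⟩
      simp only [hee, false_or]
      exact ⟨fun h => Relation.EqvGen.trans _ _ _ h hrel,
        fun h => Relation.EqvGen.trans _ _ _ h (Relation.EqvGen.symm _ _ hrel)⟩
  rw [h2, sum_insert (by simpa using he)] at h1
  simpa using h1

theorem IsFlowPolynomial.eq_zero_of_bridge {src tgt : E → V} {F : ℤ[X]}
    (hF : IsFlowPolynomial src tgt F) (h : ¬ Bridgeless src tgt) : F = 0 :=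
  hF.unique fun q _ => by simp [nzFlowCount_eq_zero_of_bridge src tgt h q]

end Pool.Agent.Lib.MP_08beec_co
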