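import Mathlib
import Pool.Agent.Lib.MP_08beec_co.Flow

/-! Sums of flow counts over all pairings of a multiset of half-edges. -/

namespace Pool.Agent.Lib.MP_08beec_co

open Finset Polynomial

section

variable {V : Type} [DecidableEq V]

open Classical in
/-- All ways to pair up the half-edges in `s` (each half-edge is recorded by its vertex). -/
noncomputable def pairs : ℕ → Multiset V → Multiset (List (V × V))
  | 0, _ => {[]}
  | m + 1, s => if h : s = 0 then 0 else
      (s.erase (Multiset.exists_mem_of_ne_zero h).choose).bind fun b =>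
        (pairs m ((s.erase (Multiset.exists_mem_of_ne_zero h).choose).erase b)).map
          fun E => ((Multiset.exists_mem_of_ne_zero h).choose, b) :: E

lemma pairs_length : ∀ (m : ℕ) (s : Multiset V), ∀ E ∈ pairs m s, E.length = m
  | 0, _, E, h => by
    simp only [pairs, Multiset.mem_singleton] at h
    simp [h]
  | m + 1, s, E, h => by
    unfold pairs at h
    split_ifs at h with hs
    · simp at h
    · simp only [Multiset.mem_bind, Multiset.mem_map] at h
      obtain ⟨b, _, E', hE', rfl⟩ := h
      simp [pairs_length m _ E' hE']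

lemma sum_swap {M : Type} [AddCommMonoid M] (s : Multiset V) (f : V → V → M) :
    (s.map fun b => ((s.erase b).map (f b)).sum).sum =
      (s.map fun c => ((s.erase c).map (fun b => f b c)).sum).sum := by
  induction s using Multiset.induction_on with
  | empty => simp
  | cons x t ih =>
    simp only [Multiset.map_cons, Multiset.sum_cons, Multiset.erase_cons_head]
    rw [Multiset.map_congr rfl (f := fun b => (((x ::ₘ t).erase b).map (f b)).sum)
        (g := fun b => f b x + ((t.erase b).map (f b)).sum)
        (fun b hb => by rw [Multiset.erase_cons_tail_of_mem hb]; simp),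
      Multiset.map_congr rfl (f := fun c => (((x ::ₘ t).erase c).map (fun b => f b c)).sum)
        (g := fun c => f x c + ((t.erase c).map (fun b => f b c)).sum)
        (fun b hb => by rw [Multiset.erase_cons_tail_of_mem hb]; simp),
      Multiset.sum_map_add, Multiset.sum_map_add, ih]
    abel

variable {Γ : Type} [AddCommGroup Γ] [Fintype Γ] [DecidableEq Γ]

/-- Total number of nowhere-zero assignments with given boundary over all pairings. -/
noncomputable def W (m : ℕ) (s : Multiset V) : (V → Γ) → ℤ := ((pairs m s).map N).sum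

lemma W_zero (s : Multiset V) : (W 0 s : (V → Γ) → ℤ) = delta := by simp [W, pairs, N]

lemma W_succ (m : ℕ) (s : Multiset V) (h : s ≠ 0) : ∃ a ∈ s, (W (m + 1) s : (V → Γ) → ℤ) =
    ((s.erase a).map fun b => T a b (W m ((s.erase a).erase b))).sum := by
  refine ⟨_, (Multiset.exists_mem_of_ne_zero h).choose_spec, ?_⟩
  unfold W
  rw [pairs, dif_neg h, Multiset.map_bind, Multiset.sum_bind]
  congr 1
  refine Multiset.map_congr rfl fun b _ => ?_
  rw [map_multiset_sum, Multiset.map_map, Multiset.map_map]
  rfl

lemma peel : ∀ (m : ℕ) (a : V) (s : Multiset V), s.card = 2 * m + 1 →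
    (W (m + 1) (a ::ₘ s) : (V → Γ) → ℤ) = (s.map fun b => T a b (W m (s.erase b))).sum
  | m, a, s, hs => by
    obtain ⟨a0, ha0, e⟩ := W_succ (Γ := Γ) m (a ::ₘ s) (by simp)
    by_cases h : a0 = a
    · subst h
      rw [e, Multiset.erase_cons_head]
    · have hm : a0 ∈ s := by simpa [h] using ha0
      obtain ⟨t, rfl⟩ := Multiset.exists_cons_of_mem hm
      rw [e, Multiset.erase_cons_tail_of_mem hm, Multiset.erase_cons_head]
      simp only [Multiset.map_cons, Multiset.sum_cons, Multiset.erase_cons_head]
      rw [T_symm a0 a]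
      congr 1
      have ht : t.card = 2 * m := by simpa using hs
      match m, ht with
      | 0, ht =>
        obtain rfl : t = 0 := by simpa using ht
        simp
      | k + 1, ht =>
        have aux : ∀ x y : V, (t.map fun b => T x b (W (k + 1) ((y ::ₘ t).erase b) : (V → Γ) → ℤ)) =
            t.map fun b => ((t.erase b).map fun c =>
              T x b (T y c (W k ((t.erase b).erase c) : (V → Γ) → ℤ))).sum := by
          intro x y
          refine Multiset.map_congr rfl fun b hb => ?_
          rw [Multiset.erase_cons_tail_of_mem hb, peel k y (t.erase b)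
            (by rw [Multiset.card_erase_of_mem hb, ht]; rfl), map_multiset_sum, Multiset.map_map]
          rfl
        rw [aux a0 a, aux a a0, sum_swap]
        congr 1
        refine Multiset.map_congr rfl fun c _ => ?_
        congr 1
        refine Multiset.map_congr rfl fun b _ => ?_
        rw [T_comm, Multiset.erase_comm]

lemma ctr_W {a b : V} (h : a ≠ b) : ∀ (m : ℕ) (s : Multiset V), s.card = 2 * m →
    Ctr a b (W m s : (V → Γ) → ℤ) (W m (s.map (repl a b)))
  | 0, s, _ => by rw [W_zero, W_zero]; exact Ctr.delta h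
  | m + 1, s, hs => by
    obtain ⟨x, hx⟩ : ∃ x, x ∈ s := Multiset.card_pos_iff_exists_mem.mp (by omega)
    obtain ⟨t, rfl⟩ := Multiset.exists_cons_of_mem hx
    have ht : t.card = 2 * m + 1 := by simp at hs; omega
    rw [Multiset.map_cons, peel m x t ht, peel m _ _ (by simpa using ht), Multiset.map_map]
    refine Ctr.sum t _ _ fun y hy => ?_
    simp only [Function.comp]
    rw [← Multiset.map_erase_of_mem _ _ hy]
    exact (ctr_W h m _ (by rw [Multiset.card_erase_of_mem hy, ht]; rfl)).T x y

lemma map_repl {a : V} (b : V) {s : Multiset V} (h : a ∉ s) : s.map (repl a b) = s := by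
  conv_rhs => rw [← Multiset.map_id s]
  refine Multiset.map_congr rfl fun x hx => ?_
  simp only [repl, id]
  rw [if_neg]
  rintro rfl
  exact h hx

omit [DecidableEq V] [AddCommGroup Γ] [Fintype Γ] [DecidableEq Γ] in
lemma sum_apply' {ι : Type} (s : Multiset ι) (φ : ι → (V → Γ) → ℤ) (β : V → Γ) :
    (s.map φ).sum β = (s.map fun i => φ i β).sum := by
  induction s using Multiset.induction_on with
  | empty => simp
  | cons x t ih => simp [ih]

lemma deg1 (m : ℕ) (d : V) (s : Multiset V) (hd : d ∉ s) (hs : s.card = 2 * m + 1) :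
    (W (m + 1) (d ::ₘ s) : (V → Γ) → ℤ) 0 = 0 := by
  rw [peel m d s hs, sum_apply']
  refine Multiset.sum_eq_zero fun z hz => ?_
  obtain ⟨b, hb, rfl⟩ := Multiset.mem_map.mp hz
  have hdb : d ≠ b := fun e => hd (e ▸ hb)
  rw [(ctr_W hdb m _ (by rw [Multiset.card_erase_of_mem hb, hs]; rfl)).eval,
    map_repl b (fun h => hd (Multiset.mem_of_mem_erase h)), sub_self]

lemma deg2 (m : ℕ) (d : V) (s : Multiset V) (hd : d ∉ s) (hs : s.card = 2 * m) :
    (W (m + 1) (d ::ₘ d ::ₘ s) : (V → Γ) → ℤ) 0 =
      ((Fintype.card Γ : ℤ) - 1 + 2 * m) * (W m s : (V → Γ) → ℤ) 0 := by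
  rw [peel m d _ (by simp [hs]), sum_apply', Multiset.map_cons, Multiset.sum_cons,
    Multiset.erase_cons_head, T_loop]
  rw [Multiset.map_congr rfl (g := fun _ => (W m s : (V → Γ) → ℤ) 0)]
  · simp only [Multiset.map_const', Multiset.sum_replicate, hs, nsmul_eq_mul]
    push_cast
    ring
  · intro b hb
    have hdb : d ≠ b := fun e => hd (e ▸ hb)
    have hd' : d ∉ s.erase b := fun h => hd (Multiset.mem_of_mem_erase h)
    obtain ⟨k, rfl⟩ : ∃ k, m = k + 1 := by
      have := Multiset.card_pos_iff_exists_mem.mpr ⟨b, hb⟩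
      exact ⟨m - 1, by omega⟩
    have hc : (s.erase b).card = 2 * k + 1 := by rw [Multiset.card_erase_of_mem hb, hs]; rfl
    rw [Multiset.erase_cons_tail_of_mem hb, (ctr_W hdb _ _ (by simp [hc]; ring)).eval,
      deg1 k d _ hd' hc, Multiset.map_cons, map_repl b hd']
    simp [repl, Multiset.cons_erase hb]

end

/-- The solution of the peeling recurrence: `n` cubic vertices and one vertex of degree `k`. -/
def hh {R : Type} [CommRing R] (q : R) : ℕ → ℕ → R
  | 0, 0 => 1
  | n + 1, 0 => hh q n 3
  | 0, k + 1 => (k : R) * (q - 1) * hh q 0 (k - 1)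
  | n + 1, k + 1 => (k : R) * (q - 1) * hh q (n + 1) (k - 1) +
      3 * ((n : R) + 1) * (hh q n (k + 2) - (q + 3 * (n : R) + (k : R) - 1) * hh q n k)
termination_by n k => (n, k)
decreasing_by all_goals first
  | exact Prod.Lex.left _ _ (Nat.lt_succ_self _)
  | exact Prod.Lex.right _ (by omega)

lemma hh_map {R S : Type} [CommRing R] [CommRing S] (φ : R →+* S) (q : R) (n k : ℕ) :
    φ (hh q n k) = hh (φ q) n k := by
  fun_induction hh q n k with
  | case1 => simp [hh]
  | case2 n ih => rw [ih, hh]
  | case3 k ih => rw [hh, ← ih]; simp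
  | case4 n k ih1 ih2 ih3 => rw [hh, ← ih1, ← ih2, ← ih3]; simp [map_ofNat]

section

variable {V : Type} [DecidableEq V] {Γ : Type} [AddCommGroup Γ] [Fintype Γ] [DecidableEq Γ]

/-- half-edges: `k` at the vertex `a`, three at each vertex of `B` -/
def hs (a : V) (k : ℕ) (B : Finset V) : Multiset V := Multiset.replicate k a + 3 • B.val

omit [DecidableEq V] in
lemma hs_card (a : V) (k : ℕ) (B : Finset V) : (hs a k B).card = k + 3 * B.card := by
  simp [hs]

omit [DecidableEq V] in
lemma hs_succ (a : V) (k : ℕ) (B : Finset V) : hs a (k + 1) B = a ::ₘ hs a k B := by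
  simp [hs, Multiset.replicate_succ]

lemma hs_split (a : V) (k : ℕ) {B : Finset V} {b : V} (hb : b ∈ B) :
    hs a k B = b ::ₘ b ::ₘ b ::ₘ hs a k (B.erase b) := by
  have : B.val = b ::ₘ (B.erase b).val := by
    rw [erase_val, Multiset.cons_erase hb]
  unfold hs
  rw [this]
  simp only [← Multiset.singleton_add]
  rw [smul_add]
  have h3 : 3 • ({b} : Multiset V) = {b} + ({b} + {b}) := by
    rw [show (3 : ℕ) = 1 + (1 + 1) from rfl, add_smul, add_smul, one_smul]
  rw [h3]
  abel

omit [DecidableEq V] in
lemma not_mem_hs {a b : V} (k : ℕ) {B : Finset V} (h : b ≠ a) (hb : b ∉ B) : b ∉ hs a k B := by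
  unfold hs
  simp only [Multiset.mem_add, not_or]
  exact ⟨fun h' => h (Multiset.eq_of_mem_replicate h'),
    fun h' => hb (Multiset.mem_of_mem_nsmul h')⟩

lemma W_step (m : ℕ) (ih : ∀ j ≤ m, ∀ (a : V) (k : ℕ) (B : Finset V), a ∉ B → k + 3 * B.card = 2 * j →
      (W j (hs a k B) : (V → Γ) → ℤ) 0 = hh (Fintype.card Γ : ℤ) B.card k)
    (a : V) (k : ℕ) (B : Finset V) (ha : a ∉ B) (hc : k + 1 + 3 * B.card = 2 * (m + 1)) :
    (W (m + 1) (hs a (k + 1) B) : (V → Γ) → ℤ) 0 = hh (Fintype.card Γ : ℤ) B.card (k + 1) := by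
  rw [hs_succ, peel m a _ (by rw [hs_card]; omega), sum_apply']
  have e1 : ((Multiset.replicate k a).map fun b =>
      T a b (W m ((hs a k B).erase b) : (V → Γ) → ℤ) 0).sum =
      (k : ℤ) * ((Fintype.card Γ : ℤ) - 1) * hh (Fintype.card Γ : ℤ) B.card (k - 1) := by
    cases k with
    | zero => simp
    | succ k =>
      rw [Multiset.map_replicate, Multiset.sum_replicate, T_loop, hs_succ,
        Multiset.erase_cons_head, ih m le_rfl a k B ha (by omega)]
      simp only [nsmul_eq_mul, Nat.add_sub_cancel]
      ring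
  have e2 : ∀ n, B.card = n + 1 → ∀ b ∈ B, T a b (W m ((hs a k B).erase b) : (V → Γ) → ℤ) 0 =
      hh (Fintype.card Γ : ℤ) n (k + 2) -
        ((Fintype.card Γ : ℤ) + 3 * (n : ℤ) + (k : ℤ) - 1) * hh (Fintype.card Γ : ℤ) n k := by
    intro n hn b hb
    have hba : b ≠ a := fun e => ha (e ▸ hb)
    have hb' : b ∉ hs a k (B.erase b) := not_mem_hs k hba (notMem_erase b B)
    have ha' : a ∉ B.erase b := fun h => ha (mem_of_mem_erase h)
    have hn' : (B.erase b).card = n := by rw [card_erase_of_mem hb, hn]; rfl
    obtain ⟨j, rfl⟩ : ∃ j, m = j + 1 := ⟨m - 1, by omega⟩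
    rw [hs_split a k hb, Multiset.erase_cons_head, T_symm,
      (ctr_W hba _ _ (by simp [hs_card, hn']; omega)).eval,
      deg2 j b _ hb' (by rw [hs_card, hn']; omega), Multiset.map_cons, Multiset.map_cons,
      map_repl a hb', ih j (by omega) a k _ ha' (by omega)]
    have : repl b a b = a := by simp [repl]
    rw [this, ← hs_succ, ← hs_succ, ih (j + 1) le_rfl a (k + 2) _ ha' (by omega), hn']
    have hj : (2 * (j : ℤ)) = 3 * n + k := by omega
    rw [hj]
    ring
  conv_lhs => enter [1, 2]; unfold hs
  rw [Multiset.map_add, Multiset.sum_add, e1, Multiset.map_nsmul, Multiset.sum_nsmul]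
  rcases hB : B.card with _ | n
  · obtain rfl : B = ∅ := card_eq_zero.mp hB
    rw [hh]
    simp
  · rw [Multiset.map_congr rfl (fun b hb => e2 n hB b hb), hh]
    simp only [Multiset.map_const', Multiset.sum_replicate, card_val, hB, nsmul_eq_mul]
    push_cast
    ring

lemma W_eq : ∀ (m : ℕ) (a : V) (k : ℕ) (B : Finset V), a ∉ B → k + 3 * B.card = 2 * m →
    (W m (hs a k B) : (V → Γ) → ℤ) 0 = hh (Fintype.card Γ : ℤ) B.card k := by
  intro m
  induction m using Nat.strong_induction_on with
  | _ m ih =>
    intro a k B ha hc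
    cases m with
    | zero =>
      have h1 : k = 0 := by omega
      have h2 : B.card = 0 := by omega
      rw [W_zero, h1, h2, hh]
      simp [delta]
    | succ m =>
      have ih' := W_step (V := V) (Γ := Γ) m (fun j hj => ih j (by omega))
      cases k with
      | succ k => exact ih' a k B ha hc
      | zero =>
        obtain ⟨b, hb⟩ : B.Nonempty := card_pos.mp (by omega)
        have hn : B.card = (B.erase b).card + 1 := (card_erase_add_one hb).symm
        have e : hs a 0 B = hs b 3 (B.erase b) := by
          rw [hs_split a 0 hb, hs_succ, hs_succ, hs_succ]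
          simp [hs]
        rw [e, ih' b 2 _ (notMem_erase b B) (by omega), hn, hh]

end

/-- The sum of the flow polynomials over all pairings is given by the recurrence. -/
lemma sum_F {V : Type} [DecidableEq V] (m : ℕ) (a : V) (k : ℕ) (B : Finset V) (ha : a ∉ B)
    (hc : k + 3 * B.card = 2 * m) :
    ((pairs m (hs a k B)).map (F m)).sum = hh (X : ℤ[X]) B.card k := by
  apply Polynomial.eq_of_infinite_eval_eq
  refine Set.infinite_of_injective_forall_mem (f := fun j : ℕ => ((j + 1 : ℕ) : ℤ))
    (fun i j h => by simpa using h) fun j => ?_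
  have h1 := W_eq (Γ := ZMod (j + 1)) m a k B ha hc
  have h2 := hh_map (evalRingHom ((j + 1 : ℕ) : ℤ)) X B.card k
  simp only [coe_evalRingHom, eval_X] at h2
  simp only [Set.mem_ofPred_eq]
  rw [ZMod.card] at h1
  rw [h2, ← h1, W, sum_apply', ← coe_evalRingHom, map_multiset_sum, Multiset.map_map]
  congr 1
  refine Multiset.map_congr rfl fun E hE => ?_
  have := F_eval (Γ := ZMod (j + 1)) m E (pairs_length m _ E hE).le
  rw [ZMod.card] at this
  exact this

end Pool.Agent.Lib.MP_08beec_co
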