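import Pool.Agent.Lib.MP_08beec_co.UbMesh

/-!
Counting cuts in graphs of bounded effective resistance.
-/

namespace Pool.Agent.Lib.MP_08beec_co.Ub

open Finset Matrix

set_option linter.unusedSectionVars false

variable {V E : Type} [Fintype V] [DecidableEq V] [Fintype E] [DecidableEq E]

namespace Gr

/-- functions of energy at most one oscillate by at most `ρ0` -/
def Res (H : Gr V E) (ρ0 : ℝ) : Prop :=
  ∀ w : V → ℝ, ∑ e, (w (H.s e) - w (H.t e)) ^ 2 ≤ 1 → ∀ a b, w a - w b ≤ ρ0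

/-- edge multiplicities -/
def cA (H : Gr V E) (A : Finset E) (a b : V) : ℝ :=
  ∑ e ∈ A, ((if H.s e = a ∧ H.t e = b then 1 else 0) + if H.s e = b ∧ H.t e = a then 1 else 0)

variable {H : Gr V E}

lemma cA_nonneg (A : Finset E) (a b : V) : 0 ≤ H.cA A a b :=
  sum_nonneg fun e _ => by positivity

lemma cA_symm (A : Finset E) (a b : V) : H.cA A a b = H.cA A b a :=
  sum_congr rfl fun e _ => add_comm _ _

lemma sum_cA (A : Finset E) (g : V → V → ℝ) :
    ∑ a, ∑ b, H.cA A a b * g a b = ∑ e ∈ A, (g (H.s e) (H.t e) + g (H.t e) (H.s e)) := by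
  simp only [cA, sum_mul]
  rw [sum_congr rfl fun a _ => sum_comm, sum_comm]
  refine sum_congr rfl fun e _ => ?_
  simp only [add_mul, sum_add_distrib, ite_mul, one_mul, zero_mul, ite_and, sum_ite_eq,
    mem_univ, if_true, sum_ite_irrel, sum_const_zero]

lemma En_cA (A : Finset E) (w : V → ℝ) :
    En (H.cA A) w = 2 * ∑ e ∈ A, (w (H.s e) - w (H.t e)) ^ 2 := by
  rw [En, sum_cA, mul_sum]
  exact sum_congr rfl fun e _ => by ring

lemma Res.conn {ρ0 : ℝ} (h : H.Res ρ0) : H.Conn := by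
  intro Z hZ
  by_contra hn
  push Not at hn
  obtain ⟨a, ha⟩ := hn.1
  obtain ⟨b, hb⟩ : ∃ b, b ∉ Z := by
    by_contra h'
    push Not at h'
    exact hn.2 (eq_univ_of_forall h')
  have := h (fun v => if v ∈ Z then ρ0 + 1 else 0) (by
    rw [sum_eq_zero]
    · norm_num
    · intro e _
      have : e ∉ H.btw Z Zᶜ := hZ ▸ notMem_empty e
      simp only [mem_btw, mem_compl] at this
      by_cases h1 : H.s e ∈ Z <;> by_cases h2 : H.t e ∈ Z <;> simp_all) a b
  simp only [ha, hb, if_true, if_false] at this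
  linarith

/-- the end of an edge in `Y` -/
def yend (H : Gr V E) (Y : Finset V) (e : E) : V := if H.s e ∈ Y then H.s e else H.t e

/-- the network with pendant nodes for the cut edges -/
def pend (H : Gr V E) (Y W : Finset V) : V ⊕ E → V ⊕ E → ℝ
  | .inl a, .inl b => H.cA (H.inn W) a b
  | .inl a, .inr e => if e ∈ H.btw Y Wᶜ ∧ H.yend Y e = a then 1 else 0
  | .inr e, .inl a => if e ∈ H.btw Y Wᶜ ∧ H.yend Y e = a then 1 else 0
  | .inr _, .inr _ => 0

lemma cA_inn {W : Finset V} {i : V} (hi : i ∈ W) (b : V) :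
    H.cA (H.inn W) i b = res (H.cA univ) W i b := by
  unfold res cA
  split_ifs with hb
  · refine sum_subset (subset_univ _) fun e _ he => ?_
    rw [mem_inn] at he
    grind
  · refine sum_eq_zero fun e he => ?_
    rw [mem_inn] at he
    grind

lemma sum_cA_row {Y W : Finset V} (hY : Y ⊆ W) {i : V} (hi : i ∈ Y) :
    ∑ b, H.cA univ i b = ∑ b, res (H.cA univ) W i b +
      ∑ e, if e ∈ H.btw Y Wᶜ ∧ H.yend Y e = i then (1 : ℝ) else 0 := by
  have h1 : ∀ b, res (H.cA univ) W i b = ∑ e, ((if H.s e = i ∧ H.t e = b ∧ b ∈ W then 1 else 0) +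
      if H.t e = i ∧ H.s e = b ∧ b ∈ W then (1 : ℝ) else 0) := by
    intro b
    unfold res cA
    split_ifs with hb
    · exact sum_congr rfl fun e _ => by simp [hb, and_comm]
    · simp [hb]
  simp only [h1, cA]
  rw [sum_comm, sum_comm (s := (univ : Finset V)), ← sum_add_distrib]
  refine sum_congr rfl fun e _ => ?_
  have h2 : ∀ v, v ∈ Y → v ∈ W := fun v hv => hY hv
  simp only [sum_add_distrib, ite_and, sum_ite_eq, mem_univ, if_true, sum_ite_irrel,
    sum_const_zero, mem_btw, mem_compl, yend]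
  grind

lemma yend_mem {Y W : Finset V} (hY : Y ⊆ W) {e : E} (he : e ∈ H.btw Y Wᶜ) : H.yend Y e ∈ Y := by
  simp only [mem_btw, mem_compl] at he
  unfold yend
  grind

lemma tau_pend1 {Y W : Finset V} (hY : Y ⊆ W) :
    tau (Y.disjSum ∅) (H.pend Y W) = tau Y (H.cA univ) := by
  have : Lp (Y.disjSum ∅) (H.pend Y W) = fromBlocks (Lp Y (H.cA univ)) 0 0 1 := by
    ext (i | i) (j | j)
    · simp only [Lp, of_apply, inl_mem_disjSum, fromBlocks_apply₁₁, Sum.inl.injEq,
        Fintype.sum_sum_type, pend]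
      by_cases hi : i ∈ Y
      · simp only [hi, if_true, cA_inn (hY hi), ← sum_cA_row hY hi]
        by_cases hj : j ∈ Y
        · simp [res, hj, hY hj]
        · simp [hj]
      · simp [hi]
    · simp [Lp]
    · simp [Lp]
    · simp [Lp, one_apply]
  rw [tau, this, det_fromBlocks_zero₂₁, det_one, mul_one, tau]

lemma tau_pend2 {Y W : Finset V} (hY : Y ⊆ W) :
    tau (Y.disjSum (H.btw Y Wᶜ)) (H.pend Y W) = tau Y (res (H.cA univ) W) := by
  have : Lp (Y.disjSum (H.btw Y Wᶜ)) (H.pend Y W) = fromBlocks (Lp Y (H.cA univ))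
      (Matrix.of fun i e => -if e ∈ H.btw Y Wᶜ ∧ H.yend Y e = i then 1 else 0)
      (Matrix.of fun e i => -if e ∈ H.btw Y Wᶜ ∧ H.yend Y e = i then 1 else 0) 1 := by
    ext (i | i) (j | j)
    · simp only [Lp, of_apply, inl_mem_disjSum, fromBlocks_apply₁₁, Sum.inl.injEq,
        Fintype.sum_sum_type, pend]
      by_cases hi : i ∈ Y
      · simp only [hi, if_true, cA_inn (hY hi), ← sum_cA_row hY hi]
        by_cases hj : j ∈ Y
        · simp [res, hj, hY hj]
        · simp [hj]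
      · simp [hi]
    · have := yend_mem (H := H) hY (e := j)
      simp only [Lp, of_apply, inl_mem_disjSum, inr_mem_disjSum, fromBlocks_apply₁₂, pend]
      grind
    · have := yend_mem (H := H) hY (e := i)
      simp only [Lp, of_apply, inl_mem_disjSum, inr_mem_disjSum, fromBlocks_apply₂₁, pend]
      grind
    · simp only [Lp, of_apply, inr_mem_disjSum, fromBlocks_apply₂₂, pend, Fintype.sum_sum_type,
        one_apply, Sum.inr.injEq, sum_const_zero, ite_and, sum_ite_irrel, sum_ite_eq, mem_univ]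
      grind
  rw [tau, this, det_fromBlocks_one₂₂, tau]
  congr 1
  ext i j
  simp only [Matrix.sub_apply, Matrix.mul_apply, of_apply, neg_mul_neg, Lp]
  have hz : (i = j → i ∉ Y) → ∑ e, (if e ∈ H.btw Y Wᶜ ∧ H.yend Y e = i then (1 : ℝ) else 0) *
      (if e ∈ H.btw Y Wᶜ ∧ H.yend Y e = j then (1 : ℝ) else 0) = 0 := fun h =>
    sum_eq_zero fun e _ => by
      have := yend_mem (H := H) hY (e := e)
      grind
  by_cases hi : i ∈ Y
  · simp only [hi, if_true, sum_cA_row hY hi]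
    by_cases hij : i = j
    · subst hij
      simp only [if_true, hi, res, hY hi]
      rw [sum_congr rfl fun e _ => show (if e ∈ H.btw Y Wᶜ ∧ H.yend Y e = i then (1 : ℝ) else 0) *
        (if e ∈ H.btw Y Wᶜ ∧ H.yend Y e = i then (1 : ℝ) else 0) =
        if e ∈ H.btw Y Wᶜ ∧ H.yend Y e = i then (1 : ℝ) else 0 by split_ifs <;> simp]
      ring
    · rw [hz fun h => absurd h hij]
      by_cases hj : j ∈ Y
      · simp [hij, res, hj, hY hj]
      · simp [hij, hj]
  · rw [hz fun _ => hi]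
    simp [hi]

lemma En_pend (Y W : Finset V) (w : V ⊕ E → ℝ) :
    En (H.pend Y W) w = 2 * (∑ e ∈ H.inn W, (w (.inl (H.s e)) - w (.inl (H.t e))) ^ 2 +
      ∑ e ∈ H.btw Y Wᶜ, (w (.inl (H.yend Y e)) - w (.inr e)) ^ 2) := by
  have h1 := En_cA (H := H) (H.inn W) fun v => w (.inl v)
  simp only [En] at h1
  simp only [En, Fintype.sum_sum_type, pend, sum_add_distrib, h1, zero_mul, sum_const_zero,
    add_zero]
  rw [sum_comm (s := (univ : Finset V))]
  simp only [ite_and, ite_mul, one_mul, zero_mul, sum_ite_irrel, sum_ite_eq, mem_univ, if_true,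
    sum_const_zero, sum_ite_mem_eq]
  rw [sum_congr rfl fun e _ => show (w (.inr e) - w (.inl (H.yend Y e))) ^ 2 =
    (w (.inl (H.yend Y e)) - w (.inr e)) ^ 2 by ring]
  ring

/-- a tent function -/
noncomputable def tent (t : ℝ) : ℝ := max 0 (min t (1 - t))

lemma tent_sq (a b : ℝ) : (tent a - tent b) ^ 2 ≤ (a - b) ^ 2 := by
  rw [sq_le_sq]
  unfold tent
  rw [abs_le]
  constructor <;> simp only [max_def, min_def] <;> split_ifs <;>
    linarith [le_abs_self (a - b), neg_abs_le (a - b), abs_nonneg (a - b)]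

lemma cutC_pend {ρ0 : ℝ} (h1 : 1 ≤ ρ0) (hR : H.Res ρ0) {Y P : Finset V} (hd : Disjoint Y P)
    (hg : H.Good P Y) : CutC (H.pend Y (Y ∪ P)) (Y.disjSum ∅)
      ((∅ : Finset V).disjSum (H.btw Y (Y ∪ P)ᶜ)) ((8 * ρ0)⁻¹ ^ 2) := by
  intro I hI hne w w1 w0
  set η := (8 * ρ0)⁻¹ with hη
  have η0 : 0 < η := by positivity
  have η1 : η ≤ 1 / 8 := by
    rw [hη, one_div]; exact inv_anti₀ (by norm_num) (by linarith)
  rw [En_pend]
  refine mul_le_mul_of_nonneg_left ?_ (by norm_num)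
  by_contra hlt
  push Not at hlt
  have n1 : 0 ≤ ∑ e ∈ H.inn (Y ∪ P), (w (.inl (H.s e)) - w (.inl (H.t e))) ^ 2 :=
    sum_nonneg fun _ _ => sq_nonneg _
  have n2 : 0 ≤ ∑ e ∈ H.btw Y (Y ∪ P)ᶜ, (w (.inl (H.yend Y e)) - w (.inr e)) ^ 2 :=
    sum_nonneg fun _ _ => sq_nonneg _
  have wz : ∀ v, v ∉ Y → w (.inl v) = 0 := fun v hv =>
    w0 _ (by simpa using hv) fun h => by simpa using hI h
  obtain ⟨x0, hx0⟩ := hne
  obtain ⟨e0, he0, rfl⟩ : ∃ e0 ∈ H.btw Y (Y ∪ P)ᶜ, x0 = .inr e0 := by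
    have := hI hx0
    rcases x0 with v | e
    · simp at this
    · exact ⟨e, inr_mem_disjSum.mp this, rfl⟩
  have b0 : 3 / 4 < w (.inl (H.yend Y e0)) := by
    have := single_le_sum (f := fun e => (w (.inl (H.yend Y e)) - w (.inr e)) ^ 2)
      (fun _ _ => sq_nonneg _) he0
    simp only [w1 _ hx0] at this
    have h2 : (w (.inl (H.yend Y e0)) - 1) ^ 2 ≤ η ^ 2 := by linarith
    have := (abs_le.mp (abs_le_of_sq_le_sq' h2 η0.le |> abs_le.mpr)).1
    linarith
  have key : ∀ v, H.Gd (H.inn (Y ∪ P)) P v → 3 / 4 < w (.inl v) →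
      ∃ z, 1 / 2 ≤ w (.inl z) ∧ w (.inl z) ≤ 3 / 4 := by
    intro v hv
    induction hv with
    | base v hv => intro h; rw [wz v (disjoint_right.mp hd hv)] at h; linarith
    | step v u e he hj _ ih =>
      intro h
      by_cases hu : 3 / 4 < w (.inl u)
      · exact ih hu
      · refine ⟨u, ?_, not_lt.mp hu⟩
        have := single_le_sum (f := fun e => (w (.inl (H.s e)) - w (.inl (H.t e))) ^ 2)
          (fun _ _ => sq_nonneg _) he
        have h2 : (w (.inl v) - w (.inl u)) ^ 2 ≤ η ^ 2 := by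
          rcases hj with ⟨rfl, rfl⟩ | ⟨rfl, rfl⟩ <;> nlinarith
        have := (abs_le_of_sq_le_sq' h2 η0.le).2
        linarith
  obtain ⟨z, z1, z2⟩ := key _ (hg _ (yend_mem subset_union_left he0)) b0
  obtain ⟨g, hg'⟩ : ∃ g, g ∉ Y := by
    simp only [mem_btw, mem_compl, mem_union] at he0
    grind
  have t0 : tent 0 = 0 := by simp [tent]
  have t1 : tent 1 = 0 := by simp [tent]
  have hE : ∑ e, (tent (w (.inl (H.s e))) / η - tent (w (.inl (H.t e))) / η) ^ 2 ≤ 1 := by
    simp only [← sub_div, div_pow, ← sum_div]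
    rw [div_le_one (by positivity)]
    refine le_trans ?_ hlt.le
    rw [← sum_ite_mem_eq (H.inn (Y ∪ P)), ← sum_ite_mem_eq (H.btw Y (Y ∪ P)ᶜ), ← sum_add_distrib]
    refine sum_le_sum fun e _ => ?_
    by_cases a1 : e ∈ H.inn (Y ∪ P)
    · rw [if_pos a1]
      have := tent_sq (w (.inl (H.s e))) (w (.inl (H.t e)))
      have : 0 ≤ if e ∈ H.btw Y (Y ∪ P)ᶜ then (w (.inl (H.yend Y e)) - w (.inr e)) ^ 2 else 0 := by
        positivity
      linarith
    · rw [if_neg a1, zero_add]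
      by_cases a2 : e ∈ H.btw Y (Y ∪ P)ᶜ
      · rw [if_pos a2]
        have a3 : tent (w (.inr e)) = 0 := by
          by_cases a4 : Sum.inr e ∈ I
          · rw [w1 _ a4, t1]
          · rw [w0 _ (by simp) a4, t0]
        have a5 := tent_sq (w (.inl (H.yend Y e))) (w (.inr e))
        rw [a3] at a5
        simp only [mem_btw, mem_compl, mem_union, not_or] at a2
        rcases a2 with ⟨a6, a7⟩ | ⟨a6, a7⟩
        · rw [wz _ a7.1, t0]
          simpa [yend, a6] using a5
        · rw [wz _ a6.1, t0]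
          simpa [yend, a6.1] using a5
      · rw [if_neg a2]
        simp only [mem_btw, mem_compl, mem_union, mem_inn] at a1 a2
        rw [wz (H.s e) (by grind), wz (H.t e) (by grind)]
        simp
  have := hR (fun v => tent (w (.inl v)) / η) hE z g
  simp only [wz g hg', t0, zero_div, sub_zero] at this
  have t2 : 1 / 4 ≤ tent (w (.inl z)) := le_max_of_le_right (le_min (by linarith) (by linarith))
  rw [hη, div_inv_eq_mul] at this
  nlinarith

lemma side {ρ0 : ℝ} (h1 : 1 ≤ ρ0) (hR : H.Res ρ0) {Y P : Finset V} (hd : Disjoint Y P)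
    (hg : H.Good P Y) : ((8 * ρ0)⁻¹ ^ 2 / 2) ^ (H.btw Y (Y ∪ P)ᶜ).card * tau Y (H.cA univ) ≤
      tau Y (res (H.cA univ) (Y ∪ P)) := by
  have := tau_ge_of_cutC (by positivity) _ _ _ (disjoint_left.mpr fun v h h' => by
      rcases v with v | v
      · simp at h'
      · simp at h) (fun i j => by
      rcases i with i | i <;> rcases j with j | j <;> simp only [pend]
      · exact cA_nonneg _ _ _
      · positivity
      · positivity
      · exact le_rfl) (fun i j => by
      rcases i with i | i <;> rcases j with j | j <;> simp only [pend]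
      exact cA_symm _ _ _) (cutC_pend h1 hR hd hg)
  have e1 : Y.disjSum ∅ ∪ (∅ : Finset V).disjSum (H.btw Y (Y ∪ P)ᶜ) =
      Y.disjSum (H.btw Y (Y ∪ P)ᶜ) := by
    ext (v | v)
    · simp only [mem_union, inl_mem_disjSum, notMem_empty, or_false]
    · simp only [mem_union, inr_mem_disjSum, notMem_empty, false_or]
  rwa [e1, tau_pend1 subset_union_left, tau_pend2 subset_union_left, card_disjSum, card_empty,
    zero_add] at this

theorem Res.bc {ρ0 : ℝ} (h1 : 1 ≤ ρ0) (hR : H.Res ρ0) : H.BC (((8 * ρ0)⁻¹ ^ 2 / 2) ^ 2) := by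
  classical
  intro X Q hXQ
  set δ := (8 * ρ0)⁻¹ ^ 2 / 2 with hδ
  have δ0 : 0 ≤ δ := by positivity
  have δ1 : δ ≤ 1 := by
    have : (8 * ρ0)⁻¹ ≤ 1 := inv_le_one_of_one_le₀ (by linarith)
    have : (8 * ρ0)⁻¹ ^ 2 ≤ 1 := pow_le_one₀ (by positivity) this
    linarith
  have hpos : 0 < tau (X \ Q) (H.cA univ) := by
    refine lt_of_lt_of_le (by positivity) (tau_ge_of_cut (ε := 1) zero_le_one _ _ _ rfl
      (cA_nonneg _) (cA_symm _) fun I hI hne w w1 w0 => ?_)
    rw [En_cA]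
    refine mul_le_mul_of_nonneg_left ?_ (by norm_num)
    obtain ⟨e, he⟩ := nonempty_iff_ne_empty.mpr fun h => (hR.conn I h).elim hne.ne_empty
      fun h' => hXQ (univ_subset_iff.mp (h' ▸ hI))
    refine le_trans ?_ (single_le_sum (f := fun e => (w (H.s e) - w (H.t e)) ^ 2)
      (fun _ _ => sq_nonneg _) (mem_univ e))
    rcases mem_btw.mp he with ⟨a1, a2⟩ | ⟨a1, a2⟩
    · simp [w1 _ a1, w0 _ (notMem_empty _) (mem_compl.mp a2)]
    · simp [w1 _ a2, w0 _ (notMem_empty _) (mem_compl.mp a1)]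
  have hs := sum_tau_le (Z := X \ Q) (P := (X ∪ Q)ᶜ) (Q := Q)
    (disjoint_left.mpr fun v => by simp only [mem_sdiff, mem_compl, mem_union]; grind)
    sdiff_disjoint (disjoint_left.mpr fun v => by simp only [mem_compl, mem_union]; grind)
    ((H.fam X Q).image (· \ Q)) (fun R hR => by
      obtain ⟨R', hR', rfl⟩ := mem_image.mp hR
      exact sdiff_subset_sdiff (mem_fam.mp hR').1 subset_rfl) (cA_nonneg (H := H) univ)
  rw [sum_image fun R hR R' hR' h => by
    ext v
    have a1 : v ∈ R → v ∈ X := fun h => (mem_fam.mp hR).1 h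
    have a2 : v ∈ R' → v ∈ X := fun h => (mem_fam.mp hR').1 h
    have a3 : v ∈ Q ∩ X → v ∈ R := fun h => (mem_fam.mp hR).2.1 h
    have a4 : v ∈ Q ∩ X → v ∈ R' := fun h => (mem_fam.mp hR').2.1 h
    have a5 : v ∈ R \ Q ↔ v ∈ R' \ Q := by rw [show R \ Q = R' \ Q from h]
    simp only [mem_inter, mem_sdiff] at a3 a4 a5
    grind] at hs
  refine le_of_mul_le_mul_right ?_ hpos
  rw [one_mul, sum_mul]
  refine le_trans (sum_le_sum fun R hR' => ?_) hs
  obtain ⟨hRX, hQR, g1, g2⟩ := mem_fam.mp hR'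
  have m1 : ∀ v, v ∈ R → v ∈ X := fun v h => hRX h
  have m2 : ∀ v, v ∈ Q → v ∈ X → v ∈ R := fun v h h' => hQR (mem_inter.mpr ⟨h, h'⟩)
  have e1 : (X \ Q) \ (R \ Q) = X \ R := by
    ext v; simp only [mem_sdiff]; grind
  have s1 := side h1 hR (Y := X \ R) (P := (X ∪ Q)ᶜ)
    (disjoint_left.mpr fun v => by simp only [mem_sdiff, mem_compl, mem_union]; grind) g2
  have s2 := side h1 hR (Y := R \ Q) (P := Q) sdiff_disjoint (fun v hv => by
    rw [sdiff_union_self_eq_union]; exact g1 v (mem_sdiff.mp hv).1)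
  have f1 := tau_union_le (Y1 := X \ R) (Y2 := R \ Q)
    (sdiff_disjoint.mono_right sdiff_subset) (cA_nonneg (H := H) univ)
  have e2 : X \ R ∪ R \ Q = X \ Q := by
    ext v; simp only [mem_sdiff, mem_union]; grind
  rw [e2] at f1
  rw [e1]
  have c1 : (H.btw (X \ R) (X \ R ∪ (X ∪ Q)ᶜ)ᶜ).card ≤ (H.cutE X Q R).card := by
    refine card_le_card fun e => ?_
    simp only [cutE, mem_btw, mem_sdiff, mem_compl, mem_union, mem_inter, mem_tch]
    grind
  have c2 : (H.btw (R \ Q) (R \ Q ∪ Q)ᶜ).card ≤ (H.cutE X Q R).card := by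
    refine card_le_card fun e => ?_
    simp only [cutE, mem_btw, mem_sdiff, mem_compl, mem_union, mem_inter, mem_tch]
    grind
  have p1 := tau_nonneg (X \ R) (cA_nonneg (H := H) univ)
  have p2 := tau_nonneg (R \ Q) (cA_nonneg (H := H) univ)
  have d1 := pow_le_pow_of_le_one δ0 δ1 c1
  have d2 := pow_le_pow_of_le_one δ0 δ1 c2
  calc (δ ^ 2) ^ (H.cutE X Q R).card * tau (X \ Q) (H.cA univ)
      ≤ (δ ^ 2) ^ (H.cutE X Q R).card * (tau (X \ R) (H.cA univ) * tau (R \ Q) (H.cA univ)) :=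
        mul_le_mul_of_nonneg_left f1 (by positivity)
    _ = (δ ^ (H.cutE X Q R).card * tau (X \ R) (H.cA univ)) *
          (δ ^ (H.cutE X Q R).card * tau (R \ Q) (H.cA univ)) := by
        rw [← pow_mul, mul_comm 2, pow_mul]; ring
    _ ≤ _ := mul_le_mul ((mul_le_mul_of_nonneg_right d1 p1).trans s1)
        ((mul_le_mul_of_nonneg_right d2 p2).trans s2) (by positivity)
        (le_trans (by positivity) s1)

end Gr

end Pool.Agent.Lib.MP_08beec_co.Ub
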