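import Mathlib

/-!
Numerical inequalities for the contour estimates.
-/

namespace Pool.Agent.Lib.MP_08beec_co.Ub

/-- the parameters of the contour argument -/
structure Par (κ x q θ Θ L : ℝ) : Prop where
  k0 : 0 < κ
  kx : κ * x = 1
  x1 : 1 ≤ x
  q2 : 2 ≤ q
  th : (16 * x ^ 2) ^ 2 ≤ θ
  Th : ∀ n : ℕ, n * κ ^ 2 ≤ 1 → θ ^ n ≤ Θ
  cL : 16 * x ^ 2 ≤ L
  h1 : q * (16 * x ^ 2) ^ 2 * Θ ≤ L ^ 2
  h2 : 6 * (16 * x ^ 2) ^ 3 * Θ * L ≤ q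

lemma exists_par {κ : ℝ} (h0 : 0 < κ) (h1 : κ ≤ 1) :
    ∃ q0 : ℝ, ∀ q, q0 ≤ q → ∃ x θ Θ L, Par κ x q θ Θ L := by
  set x := κ⁻¹ with hx
  have x1 : 1 ≤ x := (one_le_inv₀ h0).mpr h1
  set c := 16 * x ^ 2 with hc
  have c1 : 16 ≤ c := by nlinarith
  set Θ := (c ^ 2) ^ ⌈x ^ 2⌉₊ with hΘ
  have c2 : 1 ≤ c ^ 2 := by nlinarith
  have T1 : 1 ≤ Θ := one_le_pow₀ c2
  set N := 6 * c ^ 3 * Θ with hN
  have c3 : 1 ≤ c ^ 3 := one_le_pow₀ (by linarith)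
  have N1 : 6 ≤ N := by nlinarith
  refine ⟨N ^ 2 * c ^ 2 * Θ, fun q hq => ⟨x, c ^ 2, Θ, q / N, ?_⟩⟩
  have hN0 : 0 < N := by linarith
  have e1 : N * c ≤ N ^ 2 * c ^ 2 * Θ := by
    have : 1 ≤ N * c := by nlinarith
    calc N * c ≤ (N * c) ^ 2 := by nlinarith
      _ ≤ (N * c) ^ 2 * Θ := le_mul_of_one_le_right (by positivity) T1
      _ = _ := by ring
  have hq0 : 0 < q := by nlinarith
  refine ⟨h0, mul_inv_cancel₀ h0.ne', x1, by nlinarith, le_rfl, fun n hn => ?_, ?_, ?_, ?_⟩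
  · refine pow_le_pow_right₀ c2 ?_
    have : (n : ℝ) ≤ x ^ 2 := by
      have h2 : κ ^ 2 * x ^ 2 = 1 := by rw [← mul_pow, mul_inv_cancel₀ h0.ne', one_pow]
      nlinarith [sq_nonneg x]
    exact_mod_cast this.trans (Nat.le_ceil _)
  · rw [le_div_iff₀ hN0]; linarith
  · rw [div_pow, le_div_iff₀ (by positivity)]
    calc q * c ^ 2 * Θ * N ^ 2 = q * (N ^ 2 * c ^ 2 * Θ) := by ring
      _ ≤ q * q := mul_le_mul_of_nonneg_left hq hq0.le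
      _ = q ^ 2 := by ring
  · rw [← hN, mul_div_cancel₀ _ hN0.ne']

namespace Par

variable {κ x q θ Θ L : ℝ} (p : Par κ x q θ Θ L)
include p

lemma q0 : 0 < q := by linarith [p.q2]

lemma x0 : 0 < x := by linarith [p.x1]

lemma c16 : 16 ≤ 16 * x ^ 2 := by nlinarith [p.x1]

lemma th1 : 1 ≤ θ := by nlinarith [p.c16, p.th]

lemma Th1 : 1 ≤ Θ := by simpa using p.Th 0 (by simp)

lemma L1 : 1 ≤ L := by linarith [p.c16, p.cL]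

lemma y0 : 0 ≤ q⁻¹ * L * (16 * x ^ 2) := by
  have := p.q0; have := p.L1; positivity

lemma y1 : 6 * Θ * (q⁻¹ * L * (16 * x ^ 2)) ≤ 1 := by
  have h0 := p.q0
  have h1 := p.c16
  have h2 := p.h2
  have h3 := p.Th1
  have h4 := p.L1
  set c := 16 * x ^ 2
  have : 6 * Θ * (q⁻¹ * L * c) = (6 * c * Θ * L) / q := by field_simp
  rw [this, div_le_one h0]
  have h5 : c ≤ c ^ 3 := by nlinarith [mul_nonneg (by linarith : 0 ≤ c) (by nlinarith : 0 ≤ c ^ 2 - 1)]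
  have h6 : 0 ≤ 6 * Θ * L := by positivity
  nlinarith

lemma y2 : q⁻¹ * L * (16 * x ^ 2) ≤ 1 := by nlinarith [p.y0, p.y1, p.Th1]

lemma y3 : Θ * (q⁻¹ * L * (16 * x ^ 2)) ≤ 1 := by nlinarith [p.y0, p.y1, p.Th1]

lemma kap {A B : ℝ} {m M : ℕ} (hA : 0 ≤ A) (hm : m ≤ M) (h : A * x ^ M ≤ B) : A ≤ B * κ ^ m := by
  have h1 : x ^ m ≤ x ^ M := pow_le_pow_right₀ p.x1 hm
  have h2 : x ^ m * κ ^ m = 1 := by rw [← mul_pow, mul_comm, p.kx, one_pow]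
  have h3 : 0 ≤ κ ^ m := pow_nonneg p.k0.le _
  calc A = A * x ^ m * κ ^ m := by rw [mul_assoc, h2, mul_one]
    _ ≤ B * κ ^ m := mul_le_mul_of_nonneg_right ((mul_le_mul_of_nonneg_left h1 hA).trans h) h3

lemma nC {s a b b1 b2 k k2 m : ℕ} (e1 : b2 + a ≤ b + s) (e2 : b1 ≤ s) (e3 : k2 ≤ k + s)
    (e4 : m ≤ s + a) :
    q⁻¹ ^ s * ((Θ * L) ^ b1 * (x ^ b2 * 2 ^ k2) * 8 ^ s) ≤ x ^ b * 2 ^ k * κ ^ m := by
  have h0 := p.q0; have h1 := p.x0; have h2 := p.Th1; have h3 := p.L1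
  refine p.kap (by positivity) e4 ?_
  have f1 : (Θ * L) ^ b1 ≤ (Θ * L) ^ s := pow_le_pow_right₀ (by nlinarith) e2
  have f2 : x ^ b2 * x ^ (s + a) ≤ x ^ (b + 2 * s) := by
    rw [← pow_add]; exact pow_le_pow_right₀ p.x1 (by omega)
  have f3 : (2 : ℝ) ^ k2 ≤ 2 ^ (k + s) := pow_le_pow_right₀ (by norm_num) e3
  have f4 : (Θ * (q⁻¹ * L * (16 * x ^ 2))) ^ s ≤ 1 := pow_le_one₀ (by positivity) p.y3
  calc q⁻¹ ^ s * ((Θ * L) ^ b1 * (x ^ b2 * 2 ^ k2) * 8 ^ s) * x ^ (s + a)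
      = q⁻¹ ^ s * 8 ^ s * ((Θ * L) ^ b1 * (x ^ b2 * x ^ (s + a)) * 2 ^ k2) := by ring
    _ ≤ q⁻¹ ^ s * 8 ^ s * ((Θ * L) ^ s * x ^ (b + 2 * s) * 2 ^ (k + s)) := by gcongr
    _ = (Θ * (q⁻¹ * L * (16 * x ^ 2))) ^ s * (x ^ b * 2 ^ k) := by
        rw [show (16 : ℝ) = 8 * 2 by norm_num]
        simp only [mul_pow, pow_add, ← pow_mul]; ring
    _ ≤ 1 * (x ^ b * 2 ^ k) := by gcongr
    _ = _ := one_mul _

lemma core {s a b2 k2 : ℕ} (e1 : b2 ≤ s + a) (e2 : k2 ≤ s + a) :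
    q⁻¹ ^ s * L ^ s * (x ^ b2 * 2 ^ k2) * 8 ^ s * x ^ (s + a) ≤
      (q⁻¹ * L * (16 * x ^ 2)) ^ s * (16 * x ^ 2) ^ a := by
  have h0 := p.q0; have h1 := p.x0; have h3 := p.L1
  have f2 : x ^ b2 ≤ x ^ (s + a) := pow_le_pow_right₀ p.x1 e1
  have f3 : (2 : ℝ) ^ k2 ≤ 2 ^ (s + a) := pow_le_pow_right₀ (by norm_num) e2
  have f4 : (2 : ℝ) ^ a ≤ 16 ^ a := pow_le_pow_left₀ (by norm_num) (by norm_num) _
  calc q⁻¹ ^ s * L ^ s * (x ^ b2 * 2 ^ k2) * 8 ^ s * x ^ (s + a)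
      ≤ q⁻¹ ^ s * L ^ s * (x ^ (s + a) * 2 ^ (s + a)) * 8 ^ s * x ^ (s + a) := by gcongr
    _ = (q⁻¹ * L * (16 * x ^ 2)) ^ s * ((x ^ 2) ^ a * 2 ^ a) := by
        rw [show (16 : ℝ) = 8 * 2 by norm_num]
        simp only [mul_pow, pow_add, ← pow_mul]; ring
    _ ≤ (q⁻¹ * L * (16 * x ^ 2)) ^ s * ((x ^ 2) ^ a * 16 ^ a) := by gcongr
    _ = _ := by rw [mul_pow 16, mul_comm (16 ^ a)]

lemma nP {s a aR b2 k2 m : ℕ} (e1 : b2 ≤ s + a) (e2 : k2 ≤ s + a) (e4 : m ≤ s + a) :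
    q⁻¹ ^ s * (L ^ (s + aR) * Θ * (x ^ b2 * 2 ^ k2) * 8 ^ s) ≤ Θ * L ^ (a + aR) * κ ^ m := by
  have h0 := p.q0; have h1 := p.x0; have h2 := p.Th1; have h3 := p.L1
  refine p.kap (by positivity) e4 ?_
  have f1 := p.core e1 e2
  have f4 : (q⁻¹ * L * (16 * x ^ 2)) ^ s ≤ 1 := pow_le_one₀ p.y0 p.y2
  have f5 : (16 * x ^ 2) ^ a ≤ L ^ a := pow_le_pow_left₀ (by positivity) p.cL _
  calc q⁻¹ ^ s * (L ^ (s + aR) * Θ * (x ^ b2 * 2 ^ k2) * 8 ^ s) * x ^ (s + a)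
      = Θ * L ^ aR * (q⁻¹ ^ s * L ^ s * (x ^ b2 * 2 ^ k2) * 8 ^ s * x ^ (s + a)) := by
        rw [pow_add L]; ring
    _ ≤ Θ * L ^ aR * ((q⁻¹ * L * (16 * x ^ 2)) ^ s * (16 * x ^ 2) ^ a) := by gcongr
    _ ≤ Θ * L ^ aR * (1 * L ^ a) := by gcongr
    _ = _ := by rw [pow_add L]; ring

lemma nA {s b2 k2 m : ℕ} (e0 : 1 ≤ s) (e1 : b2 ≤ s) (e2 : k2 ≤ s) (e4 : m ≤ s) :
    q⁻¹ ^ s * (3 * (L ^ s * Θ) * (x ^ b2 * 2 ^ k2) * 8 ^ s) ≤ 1 / 2 * κ ^ m := by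
  have h0 := p.q0; have h1 := p.x0; have h2 := p.Th1; have h3 := p.L1
  refine p.kap (by positivity) e4 ?_
  have f1 := p.core (a := 0) e1 e2
  have f4 : (q⁻¹ * L * (16 * x ^ 2)) ^ s ≤ q⁻¹ * L * (16 * x ^ 2) := by
    simpa using pow_le_pow_of_le_one p.y0 p.y2 e0
  simp only [add_zero, pow_zero, mul_one] at f1
  calc q⁻¹ ^ s * (3 * (L ^ s * Θ) * (x ^ b2 * 2 ^ k2) * 8 ^ s) * x ^ s
      = 3 * Θ * (q⁻¹ ^ s * L ^ s * (x ^ b2 * 2 ^ k2) * 8 ^ s * x ^ s) := by ring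
    _ ≤ 3 * Θ * (q⁻¹ * L * (16 * x ^ 2)) :=
        mul_le_mul_of_nonneg_left (f1.trans f4) (by positivity)
    _ ≤ 1 / 2 := by linarith [p.y1]

lemma nB {s a aR b2 k2 m : ℕ} {T T' : ℝ} (e1 : b2 ≤ s + a) (e2 : k2 ≤ s + a) (e4 : m ≤ s + a)
    (hT' : 0 ≤ T') (hT : 1 ≤ T)
    (h : (a = 1 ∧ s = 1 ∧ θ * T' ≤ T) ∨ (T' ≤ Θ ∧ (2 ≤ a ∨ (a = 1 ∧ 2 ≤ s)))) :
    q⁻¹ ^ s * (L ^ (s + aR) * T' * (x ^ b2 * 2 ^ k2 * q) * 8 ^ s) ≤ L ^ (a + aR) * T * κ ^ m := by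
  have h0 := p.q0; have h1 := p.x0; have h2 := p.Th1; have h3 := p.L1
  refine p.kap (by positivity) e4 ?_
  have f1 := p.core e1 e2
  have hy0 := p.y0
  have key : q * T' * ((q⁻¹ * L * (16 * x ^ 2)) ^ s * (16 * x ^ 2) ^ a) ≤ L ^ a * T := by
    have c0 : 0 ≤ 16 * x ^ 2 := by positivity
    rcases h with ⟨rfl, rfl, h⟩ | ⟨h, h' | ⟨rfl, h'⟩⟩
    · calc q * T' * ((q⁻¹ * L * (16 * x ^ 2)) ^ 1 * (16 * x ^ 2) ^ 1)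
          = L * ((16 * x ^ 2) ^ 2 * T') := by field_simp
        _ ≤ L * (θ * T') := by gcongr; exact p.th
        _ ≤ L ^ 1 * T := by rw [pow_one]; gcongr
    · obtain ⟨a, rfl⟩ := Nat.exists_eq_add_of_le h'
      have f4 : (q⁻¹ * L * (16 * x ^ 2)) ^ s ≤ 1 := pow_le_one₀ p.y0 p.y2
      have f5 : (16 * x ^ 2) ^ a ≤ L ^ a := pow_le_pow_left₀ c0 p.cL _
      calc q * T' * ((q⁻¹ * L * (16 * x ^ 2)) ^ s * (16 * x ^ 2) ^ (2 + a))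
          ≤ q * Θ * (1 * (16 * x ^ 2) ^ (2 + a)) := by gcongr
        _ = q * (16 * x ^ 2) ^ 2 * Θ * (16 * x ^ 2) ^ a * 1 := by rw [pow_add]; ring
        _ ≤ L ^ 2 * L ^ a * T := by gcongr; exact p.h1
        _ = _ := by rw [pow_add]
    · have f4 : (q⁻¹ * L * (16 * x ^ 2)) ^ s ≤ (q⁻¹ * L * (16 * x ^ 2)) ^ 2 :=
        pow_le_pow_of_le_one p.y0 p.y2 h'
      have f6 : (16 * x ^ 2) ^ 3 * Θ * L ≤ q := by
        have : 0 ≤ (16 * x ^ 2) ^ 3 * Θ * L := by positivity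
        linarith [p.h2]
      calc q * T' * ((q⁻¹ * L * (16 * x ^ 2)) ^ s * (16 * x ^ 2) ^ 1)
          ≤ q * Θ * ((q⁻¹ * L * (16 * x ^ 2)) ^ 2 * (16 * x ^ 2) ^ 1) := by gcongr
        _ = L * (((16 * x ^ 2) ^ 3 * Θ * L) / q) := by field_simp
        _ ≤ L * 1 := by gcongr; exact (div_le_one h0).mpr f6
        _ ≤ L ^ 1 * T := by rw [pow_one]; gcongr
  calc q⁻¹ ^ s * (L ^ (s + aR) * T' * (x ^ b2 * 2 ^ k2 * q) * 8 ^ s) * x ^ (s + a)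
      = L ^ aR * (q * T' * (q⁻¹ ^ s * L ^ s * (x ^ b2 * 2 ^ k2) * 8 ^ s * x ^ (s + a))) := by
        rw [pow_add L]; ring
    _ ≤ L ^ aR * (q * T' * ((q⁻¹ * L * (16 * x ^ 2)) ^ s * (16 * x ^ 2) ^ a)) := by gcongr
    _ ≤ L ^ aR * (L ^ a * T) := by gcongr
    _ = _ := by rw [pow_add L]; ring

end Par

end Pool.Agent.Lib.MP_08beec_co.Ub
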