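import Pool.Agent.Lib.MP_08beec_co.UbCone
import Pool.Agent.Lib.MP_08beec_co.UbNum

/-!
The four statements of the contour induction and the comparison lemmas.
-/

namespace Pool.Agent.Lib.MP_08beec_co.Ub

open Finset

set_option linter.unusedSectionVars false

variable {V E Ω : Type} [Fintype V] [DecidableEq V] [Fintype E] [DecidableEq E]

namespace Gr

/-- exposed vertices of `D` -/
def ex (H : Gr V E) (D : Finset V) : Finset V := D ∩ H.nbr Dᶜ

/-- admissible wired region -/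
def Adm (H : Gr V E) (U : Finset V) (A : Finset E) (T : Finset V) (r : V) : Prop :=
  H.tch U ⊆ A ∧ (∀ v ∈ H.nbr U, v ∈ U ∨ v = r ∨ v ∈ T) ∧ U ≠ univ

/-- number of small cuts at a terminal -/
noncomputable def pot (H : Gr V E) (D : Finset V) (t : V) : ℕ :=
  ((H.fam (D.erase t) Dᶜ).filter fun R => (H.btw (D \ R) (D \ R)ᶜ).card ≤ 2).card

/-- wiring one more vertex changes little -/
def StA (H : Gr V E) (ρ : Ω → Setoid V) (q : ℝ) (n : ℕ) : Prop :=
  ∀ (U : Finset V) (A : Finset E) (T : Finset V) (r y : V) (d : ℕ), U.card < n → H.Adm U A T r →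
    y ∈ U → A.card ≤ d + 1 →
    Ab ρ q d (wire ρ r T * H.Zp ρ q A - wire ρ r (insert y T) * H.Zp ρ q A)
      ((1 / 2 : ℝ) • (wire ρ r (insert y T) * H.Zp ρ q A))

/-- free regions -/
def StB (H : Gr V E) (ρ : Ω → Setoid V) (q θ L : ℝ) (n : ℕ) : Prop :=
  ∀ (D : Finset V) (t r : V) (d : ℕ), D.card < n → t ∈ H.ex D → (H.tch D).card ≤ d + 1 →
    Le ρ q d (H.Zp ρ q (H.inn D))
      ((L ^ (H.btw D Dᶜ).card * θ ^ H.pot D t) • (wire ρ r (H.ex D) * H.Zp ρ q (H.inn D)))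

/-- constrained regions -/
def StC (H : Gr V E) (ρ : Ω → Setoid V) (q x : ℝ) (n : ℕ) : Prop :=
  ∀ (X G T Tc : Finset V) (r : V) (d : ℕ), X.card < n → Disjoint X G →
    Tc ⊆ X ∩ H.nbr (X ∪ G)ᶜ → (∀ v ∈ X ∩ H.nbr (X ∪ G)ᶜ, v = r ∨ v ∈ T) →
    (∀ v ∈ G ∩ H.nbr X, v = r ∨ v ∈ T) → (H.ar X G).card ≤ d →
    Ab ρ q d (wire ρ r T * H.Cs ρ q X G Tc)
      ((x ^ (H.btw X (X ∪ G)ᶜ).card * 2 ^ Tc.card) • (wire ρ r T * H.Zp ρ q (H.ar X G)))

/-- regions with some wired vertices -/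
def StP (H : Gr V E) (ρ : Ω → Setoid V) (q Θ L : ℝ) (n : ℕ) : Prop :=
  ∀ (D T : Finset V) (r : V) (d : ℕ), (D \ insert r T).card < n → (D ∩ insert r T).Nonempty →
    (H.inn D).card + (H.btw (D \ insert r T) Dᶜ).card ≤ d →
    Le ρ q d (wire ρ r T * H.Zp ρ q (H.inn D))
      ((Θ * L) ^ (H.btw (D \ insert r T) Dᶜ).card •
        (wire ρ r (T ∪ H.ex D) * H.Zp ρ q (H.inn D)))

variable {H : Gr V E} {ρ : Ω → Setoid V} {κ x q θ Θ L : ℝ} {n : ℕ}

lemma nbr_mono {X Y : Finset V} (h : X ⊆ Y) : H.nbr X ⊆ H.nbr Y := fun v hv => by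
  obtain ⟨e, w, hw, hj⟩ := mem_nbr'.mp hv
  exact mem_nbr'.mpr ⟨e, w, h hw, hj⟩

lemma tch_mono {X Y : Finset V} (h : X ⊆ Y) : H.tch X ⊆ H.tch Y := fun e he => by
  rw [mem_tch] at he ⊢; exact he.imp (h ·) (h ·)

lemma cmp1 (hA : H.StA ρ q n) {U : Finset V} {A : Finset E} {T : Finset V} {r : V} {d : ℕ}
    (hU : U.card < n) (adm : H.Adm U A T r) (hd : A.card ≤ d + 1) (T' : Finset V) (hT : T' ⊆ U) :
    Le ρ q d (wire ρ r (T ∪ T') * H.Zp ρ q A)
      ((2 : ℝ) ^ T'.card • (wire ρ r T * H.Zp ρ q A)) := by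
  induction T' using Finset.induction_on with
  | empty => simpa using Le.refl _ _
  | insert y T' hy ih =>
    have ih' := ih ((subset_insert _ _).trans hT)
    have h1 := hA (U \ T') A (T ∪ T') r y d ((card_le_card sdiff_subset).trans_lt hU)
      ⟨(tch_mono sdiff_subset).trans adm.1, fun v hv => by
        have := adm.2.1 v (nbr_mono sdiff_subset hv)
        simp only [mem_sdiff, mem_union]
        tauto, fun h => adm.2.2 (eq_univ_of_forall fun v => (mem_sdiff.mp (h ▸ mem_univ v)).1)⟩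
      (mem_sdiff.mpr ⟨hT (mem_insert_self _ _), hy⟩) hd
    have h2 : Le ρ q d (wire ρ r (T ∪ insert y T') * H.Zp ρ q A)
        ((2 : ℝ) • (wire ρ r (T ∪ T') * H.Zp ρ q A)) := by
      rw [union_insert]
      refine (h1.2.smul 2 (by norm_num)).congr ?_
      funext ω
      simp only [Pi.smul_apply, Pi.add_apply, Pi.sub_apply, smul_eq_mul]
      ring
    refine h2.trans ?_
    rw [card_insert_of_notMem hy, pow_succ', mul_smul]
    exact ih'.smul (by norm_num)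

lemma cmp2 (hq : 2 ≤ q) (hA : H.StA ρ q n) {U : Finset V} {A : Finset E} {T : Finset V} {r : V}
    {d : ℕ} (hU : U.card < n) (adm : H.Adm U A T r) (hd : A.card ≤ d + 1) {F : Finset E}
    (hF : F ⊆ A) (hE : ∀ v ∈ H.ends F, v ∈ U ∨ v = r ∨ v ∈ T) :
    Le ρ q d (wire ρ r (T ∪ H.ends F) * H.Zp ρ q (A \ F))
      ((8 : ℝ) ^ F.card • (wire ρ r T * H.Zp ρ q A)) ∧
    (F.Nonempty → Cone ρ q d (wire ρ r T * H.Zp ρ q A)) := by
  rcases F.eq_empty_or_nonempty with rfl | hne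
  · refine ⟨?_, fun h => absurd h (by simp)⟩
    simpa [ends] using Le.refl _ _
  have h1 := cmp1 hA hU adm hd (H.ends F ∩ U) inter_subset_right
  have e1 : wire ρ r (T ∪ H.ends F ∩ U) = wire ρ r (T ∪ H.ends F) := by
    refine wire_congr (fun v hv => ?_) (fun v hv => ?_)
    · simp only [mem_union, mem_inter] at hv ⊢; tauto
    · have := hE v
      simp only [mem_union, mem_inter] at hv ⊢; tauto
  have e2 : wire ρ r (T ∪ H.ends F) * H.Zp ρ q A =
      (1 - q⁻¹) ^ F.card • (wire ρ r (T ∪ H.ends F) * H.Zp ρ q (A \ F)) := by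
    rw [← smul_mul_assoc, ← wire_Zp (H := H) fun v hv => Or.inr (mem_union_right _ hv), mul_assoc,
      ← Zp_union disjoint_sdiff, union_sdiff_of_subset hF]
  rw [e1, e2] at h1
  have hc : (A \ F).card ≤ d := by
    have := card_sdiff_add_card_eq_card hF
    have := card_pos.mpr hne
    omega
  have p1 : Cone ρ q d (wire ρ r (T ∪ H.ends F) * H.Zp ρ q (A \ F)) := cone_wZ _ _ _ hc
  have hω : (1 / 2 : ℝ) ≤ 1 - q⁻¹ := by
    have : q⁻¹ ≤ 1 / 2 := by rw [one_div]; exact inv_anti₀ (by norm_num) hq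
    linarith
  have p2 : Cone ρ q d (wire ρ r T * H.Zp ρ q A) := by
    have := (Cone.add h1 (p1.smul ((1 - q⁻¹) ^ F.card) (pow_nonneg (by linarith) _))).smul
      (((2 : ℝ) ^ (H.ends F ∩ U).card)⁻¹) (by positivity)
    refine this.congr ?_
    rw [sub_add_cancel, smul_smul, inv_mul_cancel₀ (by positivity), one_smul]
  refine ⟨?_, fun _ => p2⟩
  have h2 : Le ρ q d (wire ρ r (T ∪ H.ends F) * H.Zp ρ q (A \ F))
      ((2 ^ F.card * (1 - q⁻¹) ^ F.card) • (wire ρ r (T ∪ H.ends F) * H.Zp ρ q (A \ F))) := by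
    have := Le.of_coef p1 (a := 1) (b := 2 ^ F.card * (1 - q⁻¹) ^ F.card) (by
      rw [← mul_pow]; exact one_le_pow₀ (by linarith))
    rwa [one_smul] at this
  refine h2.trans ?_
  rw [mul_smul]
  refine (h1.smul (by positivity)).trans ?_
  rw [smul_smul]
  refine Le.of_coef p2 ?_
  have h3 : (H.ends F ∩ U).card ≤ 2 * F.card := (card_le_card inter_subset_left).trans (card_ends F)
  calc (2 : ℝ) ^ F.card * 2 ^ (H.ends F ∩ U).card ≤ 2 ^ F.card * 2 ^ (2 * F.card) := by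
        gcongr; norm_num
    _ = 8 ^ F.card := by rw [pow_mul, ← mul_pow]; norm_num

lemma card_tch (D : Finset V) : (H.tch D).card = (H.inn D).card + (H.btw D Dᶜ).card := by
  rw [← card_union_of_disjoint]
  · congr 1
    ext e
    simp only [mem_tch, mem_union, mem_inn, mem_btw, mem_compl]
    tauto
  · refine disjoint_left.mpr fun e => ?_
    simp only [mem_inn, mem_btw, mem_compl]
    tauto

lemma ex_nonempty (hC : H.Conn) {D : Finset V} (h0 : D ≠ ∅) (h1 : D ≠ univ) :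
    (H.ex D).Nonempty := by
  have : H.btw D Dᶜ ≠ ∅ := fun h => (hC D h).elim h0 h1
  obtain ⟨e, he⟩ := nonempty_iff_ne_empty.mpr this
  rcases mem_btw.mp he with ⟨h1, h2⟩ | ⟨h1, h2⟩
  · exact ⟨_, mem_inter.mpr ⟨h1, mem_nbr.mpr ⟨e, Or.inl ⟨rfl, h2⟩⟩⟩⟩
  · exact ⟨_, mem_inter.mpr ⟨h2, mem_nbr.mpr ⟨e, Or.inr ⟨rfl, h1⟩⟩⟩⟩

lemma erase_sdiff_ne {D : Finset V} {t : V} (ht : t ∈ D) : D.erase t \ Dᶜ ≠ univ := fun h => by
  have := h ▸ mem_univ t
  simp at this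

lemma cutE_sub {D R : Finset V} {t : V} (hR : R ⊆ D.erase t) :
    H.cutE (D.erase t) Dᶜ R ⊆ H.btw (D \ R) (D \ R)ᶜ := by
  intro e he
  simp only [cutE, mem_inter, mem_btw, mem_union, mem_compl, mem_sdiff] at he ⊢
  tauto

lemma pot_le (p : Par κ x q θ Θ L) (hBC : H.BC κ) {D : Finset V} {t : V} (ht : t ∈ D) :
    θ ^ H.pot D t ≤ Θ := by
  apply p.Th
  refine le_trans ?_ (hBC (D.erase t) Dᶜ (erase_sdiff_ne ht))
  have k1 : κ ≤ 1 := by nlinarith [p.kx, p.x1, p.k0]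
  calc (H.pot D t : ℝ) * κ ^ 2
      = ∑ R ∈ (H.fam (D.erase t) Dᶜ).filter fun R => (H.btw (D \ R) (D \ R)ᶜ).card ≤ 2, κ ^ 2 := by
        rw [sum_const, nsmul_eq_mul, pot]
    _ ≤ ∑ R ∈ (H.fam (D.erase t) Dᶜ).filter fun R => (H.btw (D \ R) (D \ R)ᶜ).card ≤ 2,
          κ ^ (H.cutE (D.erase t) Dᶜ R).card := by
        refine sum_le_sum fun R hR => ?_
        rw [mem_filter] at hR
        exact pow_le_pow_of_le_one p.k0.le k1
          ((card_le_card (cutE_sub (mem_fam.mp hR.1).1)).trans hR.2)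
    _ ≤ _ := sum_le_sum_of_subset_of_nonneg (filter_subset _ _) fun _ _ _ => pow_nonneg p.k0.le _

lemma StB.weak (p : Par κ x q θ Θ L) (hC : H.Conn) (hBC : H.BC κ) (hB : H.StB ρ q θ L n)
    {D : Finset V} (r : V) {d : ℕ} (hn : D.card < n) (hD : D ≠ univ)
    (hd : (H.tch D).card ≤ d + 1) :
    Le ρ q d (H.Zp ρ q (H.inn D))
      ((L ^ (H.btw D Dᶜ).card * Θ) • (wire ρ r (H.ex D) * H.Zp ρ q (H.inn D))) := by
  by_cases h0 : D = ∅
  · subst h0
    have e1 : H.inn ∅ = ∅ := by ext e; simp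
    have e2 : H.btw ∅ ∅ᶜ = ∅ := by ext e; simp
    have e3 : H.ex ∅ = ∅ := by simp [ex]
    rw [e1, e2, e3, wire_empty, card_empty, pow_zero, one_mul, one_mul]
    have := Le.of_coef (ρ := ρ) (q := q) ((cone_Zp (H := H) ∅).mono (Nat.zero_le d)) p.Th1
    rwa [one_smul] at this
  · obtain ⟨t, ht⟩ := ex_nonempty hC h0 hD
    refine (hB D t r d hn ht hd).trans (Le.of_coef (cone_wZ _ _ _ ?_) ?_)
    · have h1 := card_tch (H := H) D
      have h2 := card_nbr_le (H := H) (X := D) (Y := Dᶜ) disjoint_compl_right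
      have h3 : 0 < (D ∩ H.nbr Dᶜ).card := card_pos.mpr ⟨t, ht⟩
      omega
    · exact mul_le_mul_of_nonneg_left (pot_le p hBC (mem_inter.mp ht).1)
        (pow_nonneg (by linarith [p.L1]) _)

end Gr

end Pool.Agent.Lib.MP_08beec_co.Ub
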