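import Pool.Agent.Lib.MP_08beec_co.UbGraph

/-!
The algebra of spin-equality indicators, the filtered cone, and the cluster decomposition.
-/

namespace Pool.Agent.Lib.MP_08beec_co.Ub

open Finset

set_option linter.unusedSectionVars false

variable {V E Ω : Type} [Fintype V] [DecidableEq V] [Fintype E] [DecidableEq E]

open Classical in
/-- indicator of a proposition -/
noncomputable def ind (p : Prop) : ℝ := if p then 1 else 0

lemma ind_pos {p : Prop} (h : p) : ind p = 1 := if_pos h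

lemma ind_neg {p : Prop} (h : ¬ p) : ind p = 0 := if_neg h

lemma ind_congr {p p' : Prop} (h : p ↔ p') : ind p = ind p' := by rw [propext h]

lemma ind_and (p p' : Prop) : ind (p ∧ p') = ind p * ind p' := by
  by_cases h : p <;> by_cases h' : p' <;> simp [ind, h, h']

lemma ind_and_not (p p' : Prop) : ind (p ∧ p') = ind p - ind (p ∧ ¬ p') := by
  by_cases h : p <;> by_cases h' : p' <;> simp [ind, h, h']

/-- indicator that `a` and `b` are equivalent -/
noncomputable def dl (ρ : Ω → Setoid V) (a b : V) : Ω → ℝ := fun ω => ind (ρ ω a b)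

/-- the edge weight -/
noncomputable def et (ρ : Ω → Setoid V) (q : ℝ) (a b : V) : Ω → ℝ := fun ω => dl ρ a b ω - q⁻¹

/-- indicator that all of `T` is equivalent to `r` -/
noncomputable def wire (ρ : Ω → Setoid V) (r : V) (T : Finset V) : Ω → ℝ :=
  fun ω => ind (∀ t ∈ T, ρ ω r t)

/-- the cone generated by monomials with at most `d` edge weights -/
inductive Cone (ρ : Ω → Setoid V) (q : ℝ) : ℕ → (Ω → ℝ) → Prop
  | one : Cone ρ q 0 1
  | add {d g h} : Cone ρ q d g → Cone ρ q d h → Cone ρ q d (g + h)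
  | smul {d g} (c : ℝ) : 0 ≤ c → Cone ρ q d g → Cone ρ q d (c • g)
  | del {d g} (a b : V) : Cone ρ q d g → Cone ρ q d (dl ρ a b * g)
  | eta {d g} (a b : V) : Cone ρ q d g → Cone ρ q (d + 1) (et ρ q a b * g)
  | succ {d g} : Cone ρ q d g → Cone ρ q (d + 1) g

variable {ρ : Ω → Setoid V} {q : ℝ}

lemma Cone.mono {d d' : ℕ} {g : Ω → ℝ} (h : Cone ρ q d g) (hd : d ≤ d') : Cone ρ q d' g := by
  induction hd with
  | refl => exact h
  | step _ ih => exact ih.succ

lemma Cone.one' (d : ℕ) : Cone ρ q d 1 := Cone.one.mono (Nat.zero_le _)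

lemma Cone.zero (d : ℕ) : Cone ρ q d 0 := by
  simpa using Cone.smul 0 le_rfl (Cone.one' (ρ := ρ) (q := q) d)

lemma Cone.congr {d : ℕ} {g h : Ω → ℝ} (hg : Cone ρ q d g) (e : g = h) : Cone ρ q d h := e ▸ hg

lemma Cone.mul {d d' : ℕ} {g h : Ω → ℝ} (hg : Cone ρ q d g) (hh : Cone ρ q d' h) :
    Cone ρ q (d + d') (g * h) := by
  induction hg with
  | one => simpa using hh
  | add _ _ ih1 ih2 => rw [add_mul]; exact ih1.add ih2
  | smul c hc _ ih => rw [smul_mul_assoc]; exact ih.smul c hc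
  | del a b _ ih => rw [mul_assoc]; exact ih.del a b
  | eta a b _ ih => rw [mul_assoc, Nat.add_right_comm]; exact ih.eta a b
  | succ _ ih => rw [Nat.add_right_comm]; exact ih.succ

lemma Cone.sum {ι : Type} {d : ℕ} (s : Finset ι) (f : ι → Ω → ℝ) (h : ∀ i ∈ s, Cone ρ q d (f i)) :
    Cone ρ q d (∑ i ∈ s, f i) := by
  classical
  induction s using Finset.induction_on with
  | empty => simpa using Cone.zero d
  | insert a s ha ih =>
    rw [sum_insert ha]
    exact (h a (mem_insert_self _ _)).add (ih fun i hi => h i (mem_insert_of_mem hi))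

lemma wire_empty (r : V) : wire ρ r ∅ = 1 := by
  funext ω; exact ind_pos (by simp)

lemma wire_insert (r a : V) (T : Finset V) : wire ρ r (insert a T) = dl ρ r a * wire ρ r T := by
  funext ω
  simp only [wire, dl, forall_mem_insert, Pi.mul_apply, ind_and]

lemma wire_union (r : V) (T T' : Finset V) :
    wire ρ r T * wire ρ r T' = wire ρ r (T ∪ T') := by
  funext ω
  simp only [wire, forall_mem_union, Pi.mul_apply, ind_and]

lemma wire_congr {r : V} {T T' : Finset V} (h : ∀ v ∈ T, v = r ∨ v ∈ T')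
    (h' : ∀ v ∈ T', v = r ∨ v ∈ T) : wire ρ r T = wire ρ r T' := by
  funext ω
  have : (∀ t ∈ T, ρ ω r t) ↔ ∀ t ∈ T', ρ ω r t := by
    constructor
    · intro H t ht
      rcases h' t ht with rfl | h1
      · exact (ρ ω).refl _
      · exact H t h1
    · intro H t ht
      rcases h t ht with rfl | h1
      · exact (ρ ω).refl _
      · exact H t h1
  exact ind_congr this

lemma wire_root (r t : V) (T : Finset V) :
    dl ρ r t * wire ρ t T = wire ρ r (insert t T) := by
  funext ω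
  simp only [wire, dl, forall_mem_insert, Pi.mul_apply, ← ind_and]
  refine ind_congr (and_congr_right fun h1 => ?_)
  exact ⟨fun H v hv => (ρ ω).trans h1 (H v hv), fun H v hv => (ρ ω).trans ((ρ ω).symm h1) (H v hv)⟩

lemma Cone.wire_mul {d : ℕ} {g : Ω → ℝ} (h : Cone ρ q d g) (r : V) (T : Finset V) :
    Cone ρ q d (wire ρ r T * g) := by
  induction T using Finset.induction_on with
  | empty => rw [wire_empty, one_mul]; exact h
  | insert a T _ ih => rw [wire_insert, mul_assoc]; exact ih.del r a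

/-- `g ≤ h` -/
def Le (ρ : Ω → Setoid V) (q : ℝ) (d : ℕ) (g h : Ω → ℝ) : Prop := Cone ρ q d (h - g)

/-- `|g| ≤ h` -/
def Ab (ρ : Ω → Setoid V) (q : ℝ) (d : ℕ) (g h : Ω → ℝ) : Prop :=
  Cone ρ q d (h - g) ∧ Cone ρ q d (h + g)

lemma Le.refl (d : ℕ) (g : Ω → ℝ) : Le ρ q d g g := by
  unfold Le; rw [sub_self]; exact Cone.zero d

lemma Le.trans {d : ℕ} {f g h : Ω → ℝ} (h1 : Le ρ q d f g) (h2 : Le ρ q d g h) : Le ρ q d f h :=
  (Cone.add h2 h1).congr (by ring)

lemma Le.mono {d d' : ℕ} {g h : Ω → ℝ} (h1 : Le ρ q d g h) (hd : d ≤ d') : Le ρ q d' g h :=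
  Cone.mono h1 hd

lemma Le.smul {d : ℕ} {g h : Ω → ℝ} (h1 : Le ρ q d g h) {c : ℝ} (hc : 0 ≤ c) :
    Le ρ q d (c • g) (c • h) := (Cone.smul c hc h1).congr (smul_sub _ _ _)

lemma Le.mul_cone {d d' : ℕ} {g h f : Ω → ℝ} (h1 : Le ρ q d g h) (hf : Cone ρ q d' f) :
    Le ρ q (d + d') (g * f) (h * f) := (Cone.mul h1 hf).congr (by ring)

lemma Le.wire_mul {d : ℕ} {g h : Ω → ℝ} (h1 : Le ρ q d g h) (r : V) (T : Finset V) :
    Le ρ q d (wire ρ r T * g) (wire ρ r T * h) := (Cone.wire_mul h1 r T).congr (by ring)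

lemma Le.of_coef {d : ℕ} {g : Ω → ℝ} (hg : Cone ρ q d g) {a b : ℝ} (h : a ≤ b) :
    Le ρ q d (a • g) (b • g) := (Cone.smul (b - a) (sub_nonneg.mpr h) hg).congr (sub_smul _ _ _)

lemma Ab.le {d : ℕ} {g h : Ω → ℝ} (h1 : Ab ρ q d g h) : Le ρ q d g h := h1.1

lemma Ab.mono {d d' : ℕ} {g h : Ω → ℝ} (h1 : Ab ρ q d g h) (hd : d ≤ d') : Ab ρ q d' g h :=
  ⟨h1.1.mono hd, h1.2.mono hd⟩

lemma Ab.trans {d : ℕ} {f g h : Ω → ℝ} (h1 : Ab ρ q d f g) (h2 : Le ρ q d g h) : Ab ρ q d f h :=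
  ⟨(Cone.add h2 h1.1).congr (by ring), (Cone.add h2 h1.2).congr (by ring)⟩

lemma Ab.of_le {d : ℕ} {g h : Ω → ℝ} (hg : Cone ρ q d g) (h1 : Le ρ q d g h) : Ab ρ q d g h :=
  ⟨h1, (Cone.add h1 (Cone.add hg hg)).congr (by ring)⟩

lemma Ab.mul {d d' : ℕ} {g h g' h' : Ω → ℝ} (h1 : Ab ρ q d g h) (h2 : Ab ρ q d' g' h') :
    Ab ρ q (d + d') (g * g') (h * h') := by
  constructor
  · refine (Cone.smul (1 / 2) (by norm_num) ((h1.2.mul h2.1).add (h1.1.mul h2.2))).congr ?_
    funext ω; simp only [Pi.smul_apply, Pi.add_apply, Pi.mul_apply, Pi.sub_apply, smul_eq_mul]; ring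
  · refine (Cone.smul (1 / 2) (by norm_num) ((h1.2.mul h2.2).add (h1.1.mul h2.1))).congr ?_
    funext ω; simp only [Pi.smul_apply, Pi.add_apply, Pi.mul_apply, Pi.sub_apply, smul_eq_mul]; ring

lemma Ab.mul_cone {d d' : ℕ} {g h f : Ω → ℝ} (h1 : Ab ρ q d g h) (hf : Cone ρ q d' f) :
    Ab ρ q (d + d') (g * f) (h * f) :=
  ⟨(Cone.mul h1.1 hf).congr (by ring), (Cone.mul h1.2 hf).congr (by ring)⟩

lemma Ab.sub {d : ℕ} {g h g' h' : Ω → ℝ} (h1 : Ab ρ q d g h) (h2 : Ab ρ q d g' h') :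
    Ab ρ q d (g - g') (h + h') :=
  ⟨(h1.1.add h2.2).congr (by ring), (h1.2.add h2.1).congr (by ring)⟩

lemma Ab.smul {d : ℕ} {g h : Ω → ℝ} (h1 : Ab ρ q d g h) (c : ℝ) :
    Ab ρ q d (c • g) (|c| • h) := by
  rcases le_total 0 c with hc | hc
  · rw [abs_of_nonneg hc]
    exact ⟨(h1.1.smul c hc).congr (smul_sub _ _ _), (h1.2.smul c hc).congr (smul_add _ _ _)⟩
  · rw [abs_of_nonpos hc]
    refine ⟨(h1.2.smul (-c) (by linarith)).congr ?_, (h1.1.smul (-c) (by linarith)).congr ?_⟩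
    · funext ω; simp only [Pi.smul_apply, Pi.add_apply, Pi.sub_apply, smul_eq_mul]; ring
    · funext ω; simp only [Pi.smul_apply, Pi.add_apply, Pi.sub_apply, smul_eq_mul]; ring

/-- summing bounds against a weighted count -/
lemma Ab.sum {ι : Type} {d : ℕ} (s : Finset ι) (f : ι → Ω → ℝ) (w : ι → ℝ) {h : Ω → ℝ} {c : ℝ}
    (hh : Cone ρ q d h) (hc : 0 ≤ c) (hw : ∑ i ∈ s, w i ≤ 1)
    (hf : ∀ i ∈ s, Ab ρ q d (f i) ((c * w i) • h)) : Ab ρ q d (∑ i ∈ s, f i) (c • h) := by
  have h1 : Ab ρ q d (∑ i ∈ s, f i) (∑ i ∈ s, (c * w i) • h) := by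
    constructor
    · rw [← sum_sub_distrib]; exact Cone.sum s _ fun i hi => (hf i hi).1
    · rw [← sum_add_distrib]; exact Cone.sum s _ fun i hi => (hf i hi).2
  refine h1.trans ?_
  rw [← sum_smul, ← mul_sum]
  exact Le.of_coef hh (by nlinarith)

/-- wiring costs a factor `q` and one degree -/
lemma le_wire_root (hq : 0 < q) {d : ℕ} {g : Ω → ℝ} (hg : Cone ρ q d g) (a b : V) :
    Le ρ q (d + 1) g (q • (dl ρ a b * g)) := by
  refine ((hg.eta a b).smul q hq.le).congr ?_
  funext ω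
  simp only [Pi.smul_apply, Pi.mul_apply, Pi.sub_apply, smul_eq_mul, et]
  field_simp

namespace Gr

/-- product of the edge weights -/
noncomputable def Zp (H : Gr V E) (ρ : Ω → Setoid V) (q : ℝ) (A : Finset E) : Ω → ℝ :=
  ∏ e ∈ A, et ρ q (H.s e) (H.t e)

/-- indicator that the edges of `O` are monochromatic -/
noncomputable def dO (H : Gr V E) (ρ : Ω → Setoid V) (O : Finset E) : Ω → ℝ :=
  ∏ e ∈ O, dl ρ (H.s e) (H.t e)

/-- constrained sum over open edge sets -/
noncomputable def Sm (H : Gr V E) (ρ : Ω → Setoid V) (q : ℝ) (A : Finset E)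
    (P : Finset E → Prop) : Ω → ℝ :=
  ∑ O ∈ A.powerset, (ind (P O) * (-q⁻¹) ^ (A \ O).card) • H.dO ρ O

variable {H : Gr V E}

lemma cone_Zp (A : Finset E) : Cone ρ q A.card (H.Zp ρ q A) := by
  induction A using Finset.induction_on with
  | empty => simpa [Zp] using Cone.one
  | insert a A ha ih => rw [Zp, prod_insert ha, card_insert_of_notMem ha]; exact ih.eta _ _

lemma cone_wZ (r : V) (T : Finset V) (A : Finset E) {d : ℕ} (hd : A.card ≤ d) :
    Cone ρ q d (wire ρ r T * H.Zp ρ q A) := ((cone_Zp A).mono hd).wire_mul r T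

lemma Zp_union {A B : Finset E} (h : Disjoint A B) :
    H.Zp ρ q (A ∪ B) = H.Zp ρ q A * H.Zp ρ q B := prod_union h

lemma Sm_congr {A : Finset E} {P P' : Finset E → Prop} (h : ∀ O ⊆ A, P O ↔ P' O) :
    H.Sm ρ q A P = H.Sm ρ q A P' := by
  unfold Sm
  refine sum_congr rfl fun O hO => ?_
  rw [ind_congr (h O (mem_powerset.mp hO))]

lemma Sm_true {A : Finset E} {P : Finset E → Prop} (h : ∀ O ⊆ A, P O) :
    H.Sm ρ q A P = H.Zp ρ q A := by
  have : H.Zp ρ q A = ∏ e ∈ A, (dl ρ (H.s e) (H.t e) + fun _ => -q⁻¹) := by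
    refine prod_congr rfl fun e _ => ?_
    funext ω; simp [et, sub_eq_add_neg]
  rw [this, prod_add, Sm]
  refine sum_congr rfl fun O hO => ?_
  rw [ind_pos (h O (mem_powerset.mp hO)), prod_const, dO]
  funext ω
  simp [mul_comm]

lemma Sm_split (A : Finset E) (P Q : Finset E → Prop) :
    H.Sm ρ q A (fun O => P O ∧ Q O) = H.Sm ρ q A P - H.Sm ρ q A (fun O => P O ∧ ¬ Q O) := by
  unfold Sm
  rw [← sum_sub_distrib]
  refine sum_congr rfl fun O _ => ?_
  rw [ind_and_not, sub_mul, sub_smul]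

lemma Sm_prod {A B : Finset E} (h : Disjoint A B) (P Q : Finset E → Prop) :
    H.Sm ρ q (A ∪ B) (fun O => P (O ∩ A) ∧ Q (O ∩ B)) = H.Sm ρ q A P * H.Sm ρ q B Q := by
  unfold Sm
  rw [sum_mul_sum, ← sum_product']
  symm
  refine sum_bij' (fun x _ => x.1 ∪ x.2) (fun O _ => (O ∩ A, O ∩ B)) ?_ ?_ ?_ ?_ ?_
  · intro x hx
    simp only [mem_product, mem_powerset] at hx ⊢
    exact union_subset_union hx.1 hx.2
  · intro O _
    simp only [mem_product, mem_powerset]
    exact ⟨inter_subset_right, inter_subset_right⟩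
  · intro x hx
    simp only [mem_product, mem_powerset] at hx
    have h1 : (x.1 ∪ x.2) ∩ A = x.1 := by
      rw [union_inter_distrib_right, inter_eq_left.mpr hx.1,
        disjoint_iff_inter_eq_empty.mp (h.symm.mono_left hx.2), union_empty]
    have h2 : (x.1 ∪ x.2) ∩ B = x.2 := by
      rw [union_inter_distrib_right, inter_eq_left.mpr hx.2,
        disjoint_iff_inter_eq_empty.mp (h.mono_left hx.1), empty_union]
    rw [h1, h2]
  · intro O hO
    simp only [mem_powerset] at hO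
    rw [← inter_union_distrib_left, inter_eq_left.mpr hO]
  · intro x hx
    simp only [mem_product, mem_powerset] at hx
    have h1 : (x.1 ∪ x.2) ∩ A = x.1 := by
      rw [union_inter_distrib_right, inter_eq_left.mpr hx.1,
        disjoint_iff_inter_eq_empty.mp (h.symm.mono_left hx.2), union_empty]
    have h2 : (x.1 ∪ x.2) ∩ B = x.2 := by
      rw [union_inter_distrib_right, inter_eq_left.mpr hx.2,
        disjoint_iff_inter_eq_empty.mp (h.mono_left hx.1), empty_union]
    have h3 : ((A ∪ B) \ (x.1 ∪ x.2)).card = (A \ x.1).card + (B \ x.2).card := by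
      rw [← card_union_of_disjoint (h.mono sdiff_subset sdiff_subset)]
      congr 1
      ext e
      have : e ∈ A → e ∉ B := fun h' => disjoint_left.mp h h'
      have : e ∈ x.1 → e ∈ A := fun h' => hx.1 h'
      have : e ∈ x.2 → e ∈ B := fun h' => hx.2 h'
      simp only [mem_sdiff, mem_union]
      grind
    have h4 : H.dO ρ (x.1 ∪ x.2) = H.dO ρ x.1 * H.dO ρ x.2 := prod_union (h.mono hx.1 hx.2)
    beta_reduce
    rw [h1, h2, h3, h4, ind_and, smul_mul_smul_comm, pow_add]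
    congr 1; ring

lemma Sm_closed (F : Finset E) : H.Sm ρ q F (fun O => O = ∅) = (-q⁻¹) ^ F.card • 1 := by
  unfold Sm
  rw [sum_eq_single ∅]
  · simp [dO, ind_pos]
  · intro O _ hO; rw [ind_neg hO, zero_mul, zero_smul]
  · simp

lemma ar_split {X G R : Finset V} (hXG : Disjoint X G) (hR : R ⊆ X) :
    H.ar X G = H.inn R ∪ (H.cl X G R ∪ H.ar (X \ R) G) := by
  ext e
  have h1 : H.s e ∈ R → H.s e ∈ X := fun h => hR h
  have h2 : H.t e ∈ R → H.t e ∈ X := fun h => hR h
  have h3 : H.s e ∈ X → H.s e ∉ G := fun h => disjoint_left.mp hXG h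
  have h4 : H.t e ∈ X → H.t e ∉ G := fun h => disjoint_left.mp hXG h
  simp only [cl, mem_union, mem_ar, mem_inn, mem_btw, mem_sdiff]
  grind

lemma disj_inn_cl {X G R : Finset V} (hXG : Disjoint X G) (hR : R ⊆ X) :
    Disjoint (H.inn R) (H.cl X G R ∪ H.ar (X \ R) G) := by
  refine disjoint_left.mpr fun e => ?_
  have h1 : H.s e ∈ R → H.s e ∈ X := fun h => hR h
  have h2 : H.t e ∈ R → H.t e ∈ X := fun h => hR h
  have h3 : H.s e ∈ X → H.s e ∉ G := fun h => disjoint_left.mp hXG h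
  have h4 : H.t e ∈ X → H.t e ∉ G := fun h => disjoint_left.mp hXG h
  simp only [cl, mem_union, mem_ar, mem_inn, mem_btw, mem_sdiff]
  grind

lemma disj_cl_ar {X G R : Finset V} (hXG : Disjoint X G) (hR : R ⊆ X) :
    Disjoint (H.cl X G R) (H.ar (X \ R) G) := by
  refine disjoint_left.mpr fun e => ?_
  have h1 : H.s e ∈ R → H.s e ∈ X := fun h => hR h
  have h2 : H.t e ∈ R → H.t e ∈ X := fun h => hR h
  have h3 : H.s e ∈ X → H.s e ∉ G := fun h => disjoint_left.mp hXG h
  have h4 : H.t e ∈ X → H.t e ∉ G := fun h => disjoint_left.mp hXG h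
  simp only [cl, mem_union, mem_ar, mem_inn, mem_btw, mem_sdiff]
  grind

lemma card_ar_split {X G R : Finset V} (hXG : Disjoint X G) (hR : R ⊆ X) :
    (H.ar X G).card = (H.inn R).card + ((H.cl X G R).card + (H.ar (X \ R) G).card) := by
  rw [ar_split hXG hR, card_union_of_disjoint (disj_inn_cl hXG hR),
    card_union_of_disjoint (disj_cl_ar hXG hR)]

lemma Zp_ar_sdiff {X G R : Finset V} (hXG : Disjoint X G) (hR : R ⊆ X) :
    H.Zp ρ q (H.inn R) * H.Zp ρ q (H.ar (X \ R) G) = H.Zp ρ q (H.ar X G \ H.cl X G R) := by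
  rw [← Zp_union ((disj_inn_cl hXG hR).mono_right subset_union_right)]
  congr 1
  ext e
  have h1 : H.s e ∈ R → H.s e ∈ X := fun h => hR h
  have h2 : H.t e ∈ R → H.t e ∈ X := fun h => hR h
  have h3 : H.s e ∈ X → H.s e ∉ G := fun h => disjoint_left.mp hXG h
  have h4 : H.t e ∈ X → H.t e ∉ G := fun h => disjoint_left.mp hXG h
  simp only [cl, mem_union, mem_ar, mem_inn, mem_btw, mem_sdiff]
  grind

/-- constrained sum: all of `Tc` is grounded -/
noncomputable def Cs (H : Gr V E) (ρ : Ω → Setoid V) (q : ℝ) (X G Tc : Finset V) : Ω → ℝ :=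
  H.Sm ρ q (H.ar X G) fun O => ∀ t ∈ Tc, H.Gd O G t

/-- the cluster decomposition -/
theorem dec (hC : H.Conn) {X G Q : Finset V} (Tc : Finset V) (hXG : Disjoint X G)
    (hQG : Disjoint Q G) (hXQ : X \ Q ≠ univ) :
    H.Sm ρ q (H.ar X G) (H.Ev1 G Q Tc) =
      ∑ R ∈ H.fam X Q, if Disjoint R Tc then (-q⁻¹) ^ (H.cl X G R).card •
        (H.Zp ρ q (H.inn R) * H.Cs ρ q (X \ R) G (Tc ∪ H.nt X Q R)) else 0 := by
  classical
  have h1 : H.Sm ρ q (H.ar X G) (H.Ev1 G Q Tc) =
      ∑ R ∈ H.fam X Q, H.Sm ρ q (H.ar X G) (H.Ev2 X G Q Tc R) := by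
    unfold Sm
    rw [sum_comm]
    refine sum_congr rfl fun O hO => ?_
    have hO' := mem_powerset.mp hO
    by_cases h : H.Ev1 G Q Tc O
    · obtain ⟨R, hR, h2⟩ := exists_ev2 hC hXG hQG hXQ hO' h
      rw [ind_pos h, sum_eq_single R, ind_pos h2]
      · intro R' hR' hne
        rw [ind_neg, zero_mul, zero_smul]
        exact fun h3 => hne (Subset.antisymm (ev2_sub hXG hO' hR' hR h3 h2)
          (ev2_sub hXG hO' hR hR' h2 h3))
      · exact fun h => absurd hR h
    · rw [ind_neg h, zero_mul, zero_smul]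
      refine (sum_eq_zero fun R hR => ?_).symm
      rw [ind_neg fun h2 => h (ev1_of_ev2 hXG hQG hO' hR h2), zero_mul, zero_smul]
  rw [h1]
  refine sum_congr rfl fun R hR => ?_
  have hRX := (mem_fam.mp hR).1
  split_ifs with hd
  · have h2 := Sm_prod (H := H) (ρ := ρ) (q := q) (disj_cl_ar (H := H) hXG hRX) (fun O => O = ∅)
      (fun O => ∀ t ∈ Tc ∪ H.nt X Q R, H.Gd O G t)
    have h3 := Sm_prod (H := H) (ρ := ρ) (q := q) (disj_inn_cl (H := H) hXG hRX) (fun _ => True)
      (fun O => O ∩ H.cl X G R = ∅ ∧ ∀ t ∈ Tc ∪ H.nt X Q R, H.Gd (O ∩ H.ar (X \ R) G) G t)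
    rw [h2, Sm_closed, Sm_true (fun _ _ => trivial), ← ar_split hXG hRX] at h3
    rw [Cs, ← mul_smul_comm, ← one_mul (H.Sm ρ q (H.ar (X \ R) G) _), ← smul_mul_assoc, ← h3]
    refine Sm_congr fun O _ => ?_
    rw [inter_assoc, inter_assoc, union_inter_cancel_left, union_inter_cancel_right,
      ← disjoint_iff_inter_eq_empty]
    simp only [Ev2, hd, true_and]
  · unfold Sm
    refine sum_eq_zero fun O _ => ?_
    rw [ind_neg fun h => hd h.1, zero_mul, zero_smul]

/-- grounded vertices may be wired for free -/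
lemma wire_Cs {X G Tc T T' : Finset V} {r : V} (hXG : Disjoint X G) (hT' : T' ⊆ Tc) (hX : T' ⊆ X)
    (hG : ∀ v ∈ G ∩ H.nbr X, v = r ∨ v ∈ T) :
    wire ρ r T * H.Cs ρ q X G Tc = wire ρ r (T ∪ T') * H.Cs ρ q X G Tc := by
  classical
  unfold Cs Sm
  rw [mul_sum, mul_sum]
  refine sum_congr rfl fun O hO => ?_
  have hO' := mem_powerset.mp hO
  by_cases h : ∀ t ∈ Tc, H.Gd O G t
  · funext ω
    simp only [Pi.mul_apply, Pi.smul_apply, smul_eq_mul]
    by_cases h1 : ∀ e ∈ O, ρ ω (H.s e) (H.t e)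
    · by_cases h2 : ∀ t ∈ T, ρ ω r t
      · have key : ∀ v, H.Gd O G v → v ∈ X ∨ v ∈ H.nbr X → ρ ω r v := by
          intro v hv
          induction hv with
          | base v hv =>
            rintro (h3 | h3)
            · exact absurd hv (disjoint_left.mp hXG h3)
            · rcases hG v (mem_inter.mpr ⟨hv, h3⟩) with rfl | h4
              · exact (ρ ω).refl _
              · exact h2 v h4
          | step v w e he hj _ ih =>
            intro _
            have h4 := (hj.ar.mp (hO' he)).1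
            have h5 : ρ ω r w := ih (by
              rcases h4 with h4 | h4
              · exact Or.inr (mem_nbr'.mpr ⟨e, v, h4, hj.symm⟩)
              · exact Or.inl h4)
            rcases hj with ⟨rfl, rfl⟩ | ⟨rfl, rfl⟩
            · exact (ρ ω).trans h5 ((ρ ω).symm (h1 e he))
            · exact (ρ ω).trans h5 (h1 e he)
        have h3 : ∀ t ∈ T ∪ T', ρ ω r t := by
          intro t ht
          rcases mem_union.mp ht with ht | ht
          · exact h2 t ht
          · exact key t (h t (hT' ht)) (Or.inl (hX ht))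
        simp only [wire, ind_pos h2, ind_pos h3]
      · have h3 : ¬ ∀ t ∈ T ∪ T', ρ ω r t := fun h3 => h2 fun t ht => h3 t (mem_union_left _ ht)
        simp only [wire, ind_neg h2, ind_neg h3]
    · push Not at h1
      obtain ⟨e, he, h1⟩ := h1
      have : H.dO ρ O ω = 0 := by
        rw [dO, Finset.prod_apply]
        exact prod_eq_zero he (ind_neg h1)
      simp [this]
  · simp [ind_neg h]

/-- edges with wired ends are loops -/
lemma wire_Zp {F : Finset E} {T : Finset V} {r : V} (h : ∀ v ∈ H.ends F, v = r ∨ v ∈ T) :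
    wire ρ r T * H.Zp ρ q F = (1 - q⁻¹) ^ F.card • wire ρ r T := by
  classical
  funext ω
  simp only [Pi.mul_apply, Pi.smul_apply, smul_eq_mul, wire]
  by_cases h2 : ∀ t ∈ T, ρ ω r t
  · have key : ∀ v ∈ H.ends F, ρ ω r v := fun v hv => by
      rcases h v hv with rfl | h3
      · exact (ρ ω).refl _
      · exact h2 v h3
    rw [ind_pos h2, Zp, Finset.prod_apply, one_mul, mul_one, ← prod_const]
    refine prod_congr rfl fun e he => ?_
    have : ρ ω (H.s e) (H.t e) := (ρ ω).trans ((ρ ω).symm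
      (key _ (mem_ends.mpr ⟨e, he, Or.inl rfl⟩))) (key _ (mem_ends.mpr ⟨e, he, Or.inr rfl⟩))
    simp [et, dl, ind_pos this]
  · simp [ind_neg h2]

end Gr

end Pool.Agent.Lib.MP_08beec_co.Ub
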