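import Pool.Agent.Lib.MP_08beec_co.UbCone

/-!
Determinants of grounded Laplacians: the matrix-tree expansion and its consequences.
-/

namespace Pool.Agent.Lib.MP_08beec_co.Ub

open Finset Matrix

set_option linter.unusedSectionVars false

variable {ι : Type} [Fintype ι] [DecidableEq ι]

/-- the Laplacian with Dirichlet condition outside `Y`, extended by the identity -/
noncomputable def Lp (Y : Finset ι) (c : ι → ι → ℝ) : Matrix ι ι ℝ := Matrix.of fun i j =>
  if i ∈ Y then (if i = j then ∑ l, c i l else 0) - (if j ∈ Y then c i j else 0)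
  else if i = j then 1 else 0

/-- weighted number of forests rooted outside `Y` -/
noncomputable def tau (Y : Finset ι) (c : ι → ι → ℝ) : ℝ := (Lp Y c).det

lemma det_clear {A B : Matrix ι ι ℝ} (v : ι) {a : ℝ} (ha : a ≠ 0)
    (hB : ∀ j, B v j = if v = j then a else 0) (hA : ∀ j, A v j = B v j)
    (h : ∀ i j, j ≠ v → A i j = B i j) : A.det = B.det := by
  refine det_eq_of_forall_row_eq_smul_add_const (fun i => (A i v - B i v) / a) v
    (by simp [hA]) fun i j => ?_
  rw [hB]
  by_cases hj : v = j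
  · subst hj; rw [if_pos rfl]; field_simp; ring
  · rw [if_neg hj, h i j (Ne.symm hj)]; ring

/-- the orbit leaves `Y` -/
inductive Out (Y : Finset ι) (f : ι → ι) : ι → Prop
  | base (v : ι) : v ∉ Y → Out Y f v
  | step (v : ι) : Out Y f (f v) → Out Y f v

/-- all orbits leave `Y` -/
def Acyc (Y : Finset ι) (f : ι → ι) : Prop := ∀ v, Out Y f v

lemma Out.mono {Y Y' : Finset ι} {f : ι → ι} (h : Y' ⊆ Y) {v : ι} (hv : Out Y f v) :
    Out Y' f v := by
  induction hv with
  | base v hv => exact .base v fun h' => hv (h h')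
  | step v _ ih => exact .step v ih

lemma Out.congr {Y : Finset ι} {f g : ι → ι} (h : ∀ i ∈ Y, f i = g i) {v : ι} (hv : Out Y f v) :
    Out Y g v := by
  induction hv with
  | base v hv => exact .base v hv
  | step v _ ih =>
    by_cases hv : v ∈ Y
    · exact .step v (h v hv ▸ ih)
    · exact .base v hv

lemma acyc_congr {Y : Finset ι} {f g : ι → ι} (h : ∀ i ∈ Y, f i = g i) : Acyc Y f ↔ Acyc Y g :=
  ⟨fun H v => (H v).congr h, fun H v => (H v).congr fun i hi => (h i hi).symm⟩

/-- the matrix of a functional graph -/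
def Nf (Y : Finset ι) (f : ι → ι) : Matrix ι ι ℝ := Matrix.of fun i j =>
  (if i = j then 1 else 0) - (if i ∈ Y ∧ j ∈ Y ∧ f i = j then 1 else 0)

lemma det_Nf (Y : Finset ι) (f : ι → ι) : (Nf Y f).det = ind (Acyc Y f) := by
  by_cases h : Acyc Y f
  · rw [ind_pos h]
    induction hn : Y.card generalizing Y with
    | zero =>
      rw [card_eq_zero] at hn
      subst hn
      have : Nf (∅ : Finset ι) f = 1 := by
        ext i j; simp [Nf, one_apply]
      rw [this, det_one]
    | succ n ih =>
      obtain ⟨v0, hv0⟩ := card_pos.mp (show 0 < Y.card by omega)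
      have key : ∀ v, Out Y f v → v ∈ Y → ∃ u ∈ Y, f u ∉ Y := by
        intro v hv
        induction hv with
        | base v hv => exact fun h => absurd h hv
        | step v _ ih =>
          intro hv
          by_cases h' : f v ∈ Y
          · exact ih h'
          · exact ⟨v, hv, h'⟩
      obtain ⟨v, hv, hf⟩ := key v0 (h v0) hv0
      rw [← ih (Y.erase v) (fun u => (h u).mono (erase_subset _ _))
        (by rw [card_erase_of_mem hv, hn]; rfl)]
      refine det_clear v one_ne_zero (fun j => by simp [Nf]) (fun j => ?_) fun i j hj => ?_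
      · simp only [Nf, of_apply, mem_erase]
        grind
      · simp only [Nf, of_apply, mem_erase]
        grind
  · rw [ind_neg h]
    refine exists_mulVec_eq_zero_iff.mp ⟨fun v => ind (¬ Out Y f v), ?_, ?_⟩
    · intro h0
      apply h
      intro v
      by_contra hv
      have := congrFun h0 v
      rw [ind_pos hv] at this
      simp at this
    · funext i
      simp only [mulVec, dotProduct, Nf, of_apply, sub_mul, sum_sub_distrib, ite_mul, one_mul,
        zero_mul, sum_ite_eq, mem_univ, if_true, Pi.zero_apply]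
      rw [sum_eq_single (f i)]
      · by_cases hi : Out Y f i
        · rw [ind_neg (not_not.mpr hi)]
          split_ifs with h'
          · cases hi with
            | base _ h2 => exact absurd h'.1 h2
            | step _ h2 => rw [ind_neg (not_not.mpr h2), sub_zero]
          · simp
        · have h1 : i ∈ Y := by
            by_contra h1; exact hi (.base i h1)
          have h2 : ¬ Out Y f (f i) := fun h2 => hi (.step i h2)
          have h3 : f i ∈ Y := by
            by_contra h3; exact h2 (.base _ h3)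
          rw [ind_pos hi, if_pos ⟨h1, h3, rfl⟩, ind_pos h2, sub_self]
      · intro j _ hj
        rw [if_neg fun h => hj h.2.2.symm]
      · simp

/-- maps that are the identity outside `Y` -/
def Fs (Y : Finset ι) : Finset (ι → ι) := Fintype.piFinset fun i => if i ∈ Y then univ else {i}

lemma mem_Fs {Y : Finset ι} {f : ι → ι} : f ∈ Fs Y ↔ ∀ i, i ∉ Y → f i = i := by
  simp only [Fs, Fintype.mem_piFinset]
  refine forall_congr' fun i => ?_
  split_ifs with h <;> simp [h]

theorem tau_eq (Y : Finset ι) (c : ι → ι → ℝ) :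
    tau Y c = ∑ f ∈ Fs Y, (∏ i ∈ Y, c i (f i)) * ind (Acyc Y f) := by
  have h1 : Lp Y c = fun i => ∑ l ∈ (if i ∈ Y then univ else {i}),
      (if i ∈ Y then c i l else 1) • fun j =>
        ((if i = j then 1 else 0) - (if i ∈ Y ∧ j ∈ Y ∧ l = j then 1 else 0) : ℝ) := by
    ext i j
    simp only [Lp, of_apply, Finset.sum_apply, Pi.smul_apply, smul_eq_mul]
    by_cases hi : i ∈ Y
    · simp only [hi, if_true, true_and, mul_sub, sum_sub_distrib]
      congr 1
      · split_ifs <;> simp
      · by_cases hj : j ∈ Y <;> simp [hj]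
    · simp [hi]
  have h2 := (detRowAlternating (n := ι) (R := ℝ)).toMultilinearMap.map_sum_finset
    (fun i l => (if i ∈ Y then c i l else 1) • fun j =>
        ((if i = j then 1 else 0) - (if i ∈ Y ∧ j ∈ Y ∧ l = j then 1 else 0) : ℝ))
    (fun i => if i ∈ Y then univ else {i})
  rw [tau, h1]
  refine h2.trans (sum_congr rfl fun f _ => ?_)
  rw [MultilinearMap.map_smul_univ, ← det_Nf, smul_eq_mul, prod_ite_mem_eq]
  rfl

lemma ind_nonneg (p : Prop) : 0 ≤ ind p := by
  by_cases h : p
  · rw [ind_pos h]; norm_num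
  · rw [ind_neg h]

lemma ind_le {p p' : Prop} (h : p → p') : ind p ≤ ind p' := by
  by_cases h1 : p
  · rw [ind_pos h1, ind_pos (h h1)]
  · rw [ind_neg h1]; exact ind_nonneg _

lemma tau_nonneg (Y : Finset ι) {c : ι → ι → ℝ} (hc : ∀ i j, 0 ≤ c i j) : 0 ≤ tau Y c := by
  rw [tau_eq]
  exact sum_nonneg fun f _ => mul_nonneg (prod_nonneg fun i _ => hc _ _) (ind_nonneg _)

lemma tau_mul {Y1 Y2 : Finset ι} (h : Disjoint Y1 Y2) (c1 c2 : ι → ι → ℝ) :
    tau Y1 c1 * tau Y2 c2 = ∑ f ∈ Fs (Y1 ∪ Y2),
      (∏ i ∈ Y1, c1 i (f i)) * (∏ i ∈ Y2, c2 i (f i)) * ind (Acyc Y1 f ∧ Acyc Y2 f) := by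
  have hd : ∀ i, i ∈ Y1 → i ∉ Y2 := fun i hi => disjoint_left.mp h hi
  rw [tau_eq, tau_eq, sum_mul_sum, ← sum_product']
  refine sum_bij' (fun x _ => fun i => if i ∈ Y1 then x.1 i else x.2 i)
    (fun f _ => (fun i => if i ∈ Y1 then f i else i, fun i => if i ∈ Y2 then f i else i))
    ?_ ?_ ?_ ?_ ?_
  · intro x hx
    simp only [mem_product, mem_Fs, mem_union] at hx ⊢
    grind
  · intro f hf
    simp only [mem_product, mem_Fs, mem_union] at hf ⊢
    grind
  · intro x hx
    simp only [mem_product, mem_Fs] at hx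
    ext i <;> simp only <;> grind
  · intro f hf
    simp only [mem_Fs, mem_union] at hf
    funext i
    grind
  · intro x _
    have e1 : ∀ i ∈ Y1, x.1 i = if i ∈ Y1 then x.1 i else x.2 i := fun i hi => by rw [if_pos hi]
    have e2 : ∀ i ∈ Y2, x.2 i = if i ∈ Y1 then x.1 i else x.2 i := fun i hi => by
      rw [if_neg fun h' => hd i h' hi]
    rw [ind_and, ← ind_congr (acyc_congr e1), ← ind_congr (acyc_congr e2),
      prod_congr rfl fun i hi => congrArg (c1 i) (e1 i hi),
      prod_congr rfl fun i hi => congrArg (c2 i) (e2 i hi)]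
    ring

/-- Fischer's inequality -/
lemma tau_union_le {Y1 Y2 : Finset ι} (h : Disjoint Y1 Y2) {c : ι → ι → ℝ}
    (hc : ∀ i j, 0 ≤ c i j) : tau (Y1 ∪ Y2) c ≤ tau Y1 c * tau Y2 c := by
  rw [tau_mul h, tau_eq]
  refine sum_le_sum fun f _ => ?_
  rw [prod_union h]
  exact mul_le_mul_of_nonneg_left (ind_le fun H => ⟨fun v => (H v).mono subset_union_left,
    fun v => (H v).mono subset_union_right⟩)
    (mul_nonneg (prod_nonneg fun i _ => hc _ _) (prod_nonneg fun i _ => hc _ _))

/-- restriction of the targets -/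
def res (c : ι → ι → ℝ) (W : Finset ι) : ι → ι → ℝ := fun i j => if j ∈ W then c i j else 0

lemma prod_res (c : ι → ι → ℝ) (W Y : Finset ι) (f : ι → ι) :
    ∏ i ∈ Y, res c W i (f i) = (∏ i ∈ Y, c i (f i)) * ind (∀ i ∈ Y, f i ∈ W) := by
  by_cases h : ∀ i ∈ Y, f i ∈ W
  · rw [ind_pos h, mul_one]
    exact prod_congr rfl fun i hi => if_pos (h i hi)
  · rw [ind_neg h, mul_zero]
    push Not at h
    obtain ⟨i, hi, h⟩ := h
    exact prod_eq_zero hi (if_neg h)

/-- forests with two root sets, sorted by the basins -/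
lemma sum_tau_le {Z P Q : Finset ι} (hP : Disjoint Z P) (hQ : Disjoint Z Q) (hPQ : Disjoint P Q)
    (𝓕 : Finset (Finset ι)) (h𝓕 : ∀ R ∈ 𝓕, R ⊆ Z) {c : ι → ι → ℝ} (hc : ∀ i j, 0 ≤ c i j) :
    ∑ R ∈ 𝓕, tau (Z \ R) (res c (Z \ R ∪ P)) * tau R (res c (R ∪ Q)) ≤ tau Z c := by
  classical
  let G : Finset ι → (ι → ι) → Prop := fun R f =>
    ((∀ i ∈ Z \ R, f i ∈ Z \ R ∪ P) ∧ ∀ i ∈ R, f i ∈ R ∪ Q) ∧ Acyc (Z \ R) f ∧ Acyc R f
  have h1 : ∀ R ∈ 𝓕, tau (Z \ R) (res c (Z \ R ∪ P)) * tau R (res c (R ∪ Q)) =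
      ∑ f ∈ Fs Z, (∏ i ∈ Z, c i (f i)) * ind (G R f) := by
    intro R hR
    rw [tau_mul sdiff_disjoint, sdiff_union_of_subset (h𝓕 R hR)]
    refine sum_congr rfl fun f _ => ?_
    rw [prod_res, prod_res, ← prod_sdiff (h𝓕 R hR)]
    simp only [G, ind_and]
    ring
  rw [sum_congr rfl h1, sum_comm, tau_eq]
  refine sum_le_sum fun f _ => ?_
  rw [← mul_sum]
  refine mul_le_mul_of_nonneg_left ?_ (prod_nonneg fun i _ => hc _ _)
  have hP' : ∀ i, i ∈ Z → i ∉ P := fun i hi => disjoint_left.mp hP hi
  have hQ' : ∀ i, i ∈ Z → i ∉ Q := fun i hi => disjoint_left.mp hQ hi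
  have hPQ' : ∀ i, i ∈ P → i ∉ Q := fun i hi => disjoint_left.mp hPQ hi
  have uniq : ∀ R ∈ 𝓕, ∀ R' ∈ 𝓕, G R f → G R' f → R ⊆ R' := by
    intro R hR R' _ g g' v hv
    have hRZ : ∀ i, i ∈ R → i ∈ Z := fun i hi => h𝓕 R hR hi
    have key : ∀ v, Out R f v → v ∈ R → v ∈ R' := by
      intro v hv
      induction hv with
      | base v hv => exact fun h => absurd h hv
      | step v _ ih =>
        intro hv
        by_contra hn
        have a1 := g.1.2 v hv
        have a2 := g'.1.1 v (mem_sdiff.mpr ⟨hRZ v hv, hn⟩)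
        simp only [mem_union, mem_sdiff] at a1 a2
        grind
    exact key v (g.2.2 v) hv
  by_cases hex : ∃ R ∈ 𝓕, G R f
  · obtain ⟨R, hR, g⟩ := hex
    have hRZ : ∀ i, i ∈ R → i ∈ Z := fun i hi => h𝓕 R hR hi
    have k1 : ∀ v, Out R f v → (v ∈ R ∨ v ∉ Z) → Out Z f v := by
      intro v hv
      induction hv with
      | base v hv => exact fun h => .base v (h.resolve_left hv)
      | step v _ ih =>
        rintro (hv | hv)
        · refine .step v (ih ?_)
          have a1 := g.1.2 v hv
          simp only [mem_union] at a1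
          grind
        · exact .base v hv
    have k2 : ∀ v, Out (Z \ R) f v → (v ∈ Z \ R ∨ v ∉ Z) → Out Z f v := by
      intro v hv
      induction hv with
      | base v hv => exact fun h => .base v (h.resolve_left hv)
      | step v _ ih =>
        rintro (hv | hv)
        · refine .step v (ih ?_)
          have a1 := g.1.1 v hv
          simp only [mem_union] at a1
          grind
        · exact .base v hv
    have hac : Acyc Z f := fun v => by
      by_cases h : v ∈ R
      · exact k1 v (g.2.2 v) (Or.inl h)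
      · exact k2 v (g.2.1 v) (by simp only [mem_sdiff]; grind)
    rw [sum_eq_single R, ind_pos g, ind_pos hac]
    · intro R' hR' hne
      exact ind_neg fun g' => hne (Subset.antisymm (uniq R' hR' R hR g' g) (uniq R hR R' hR' g g'))
    · exact fun h => absurd hR h
  · rw [sum_eq_zero fun R hR => ind_neg fun g => hex ⟨R, hR, g⟩]
    exact ind_nonneg _

end Pool.Agent.Lib.MP_08beec_co.Ub
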