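import Pool.Agent.Lib.MP_08beec_co.UbCone
import Pool.Agent.Lib.MP_08beec_co.FlowBasic

/-!
The Potts functional for a real number of colours.
-/

namespace Pool.Agent.Lib.MP_08beec_co.Ub

open Finset Polynomial

set_option linter.unusedSectionVars false

variable {V : Type} [Fintype V] [DecidableEq V]

lemma finite_setoid : Finite (Setoid V) :=
  Finite.of_injective (fun s : Setoid V => s.r) fun _ _ h => Setoid.ext fun a b =>
    iff_of_eq (congrFun (congrFun h a) b)

/-- all equivalence relations -/
noncomputable def allS (V : Type) [Fintype V] [DecidableEq V] : Finset (Setoid V) :=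
  @univ _ (@Fintype.ofFinite _ finite_setoid)

lemma mem_allS (ω : Setoid V) : ω ∈ allS V := @mem_univ _ (@Fintype.ofFinite _ finite_setoid) ω

/-- number of colourings with a given kernel, as a polynomial in the number of colours -/
noncomputable def wt (ω : Setoid V) : ℝ[X] := descPochhammer ℝ (Nat.card (Quotient ω))

/-- sum over colourings with `q` colours -/
noncomputable def ell (q : ℝ) (g : Setoid V → ℝ) : ℝ := ∑ ω ∈ allS V, (wt ω).eval q * g ω

lemma ell_add (q : ℝ) (g h : Setoid V → ℝ) : ell q (g + h) = ell q g + ell q h := by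
  simp only [ell, Pi.add_apply, mul_add, sum_add_distrib]

lemma ell_sub (q : ℝ) (g h : Setoid V → ℝ) : ell q (g - h) = ell q g - ell q h := by
  simp only [ell, Pi.sub_apply, mul_sub, sum_sub_distrib]

lemma ell_smul (q c : ℝ) (g : Setoid V → ℝ) : ell q (c • g) = c * ell q g := by
  simp only [ell, Pi.smul_apply, smul_eq_mul, mul_sum]
  exact sum_congr rfl fun _ _ => by ring

lemma ell_nat {α : Type} [Fintype α] [DecidableEq α] (g : Setoid V → ℝ) :
    ell (Fintype.card α) g = ∑ σ : V → α, g (Setoid.ker σ) := by
  classical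
  rw [← sum_fiberwise_of_maps_to (s := univ) (t := allS V) (g := fun σ : V → α => Setoid.ker σ)
    fun σ _ => mem_allS _, ell]
  refine sum_congr rfl fun ω _ => ?_
  rw [sum_congr rfl fun σ hσ => by rw [(mem_filter.mp hσ).2], sum_const, nsmul_eq_mul]
  congr 1
  have eqv : {σ : V → α // Setoid.ker σ = ω} ≃ (Quotient ω ↪ α) :=
    { toFun := fun σ => ⟨Quotient.lift σ.1 fun a b hab => by
          have : Setoid.ker σ.1 a b := σ.2.symm ▸ hab
          exact this, fun a b => by
          induction a using Quotient.inductionOn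
          induction b using Quotient.inductionOn
          intro h
          apply Quotient.sound
          have : Setoid.ker σ.1 _ _ := h
          exact σ.2 ▸ this⟩
      invFun := fun f => ⟨fun v => f (Quotient.mk _ v), Setoid.ext fun a b => by
        rw [Setoid.ker_def, f.injective.eq_iff]
        exact Quotient.eq⟩
      left_inv := fun σ => by ext v; rfl
      right_inv := fun f => by ext c; induction c using Quotient.inductionOn; rfl }
  rw [← Fintype.card_subtype, Fintype.card_congr eqv, Fintype.card_embedding_eq, wt,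
    descPochhammer_eval_eq_descFactorial, Nat.card_eq_fintype_card]

lemma poly_eq {P Q : ℝ[X]} (h : ∀ k : ℕ, 0 < k → P.eval (k : ℝ) = Q.eval (k : ℝ)) : P = Q := by
  apply Polynomial.eq_of_infinite_eval_eq
  exact Set.infinite_of_injective_forall_mem (f := fun n : ℕ => ((n + 1 : ℕ) : ℝ))
    (fun a b h => by simpa using h) fun n => h _ (Nat.succ_pos n)

lemma ell_one (q : ℝ) : ell q (1 : Setoid V → ℝ) = q ^ Fintype.card V := by
  have : ∑ ω ∈ allS V, wt ω = X ^ Fintype.card V := poly_eq fun k _ => by
    have := ell_nat (V := V) (α := Fin k) 1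
    simp only [ell, Pi.one_apply, mul_one, Fintype.card_fin, sum_const, card_univ, Fintype.card_fun,
      nsmul_eq_mul, Nat.cast_pow] at this
    rw [eval_finsetSum, this, eval_pow, eval_X]
  have h2 := congrArg (eval q) this
  rw [eval_finsetSum, eval_pow, eval_X] at h2
  simpa [ell] using h2

/-- `h` does not depend on the vertex `b` -/
def Indep (b : V) (h : Setoid V → ℝ) : Prop :=
  ∀ ω ω' : Setoid V, (∀ x y, x ≠ b → y ≠ b → (ω x y ↔ ω' x y)) → h ω = h ω'

lemma ell_dl (q : ℝ) {a b : V} (hab : a ≠ b) {h : Setoid V → ℝ} (hi : Indep b h) :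
    q * ell q (dl id a b * h) = ell q h := by
  have : X * ∑ ω ∈ allS V, wt ω * C ((dl id a b * h) ω) = ∑ ω ∈ allS V, wt ω * C (h ω) :=
    poly_eq fun k _ => by
      have h1 := ell_nat (V := V) (α := Fin k) (dl id a b * h)
      have h2 := ell_nat (V := V) (α := Fin k) h
      simp only [ell, Fintype.card_fin] at h1 h2
      simp only [eval_mul, eval_X, eval_finsetSum, eval_C]
      rw [h1, h2]
      let Φ : (V → Fin k) × Fin k → (V → Fin k) × Fin k := fun x => (Function.update x.1 b x.2, x.1 b)
      have hΦ : Function.Involutive Φ := fun x => by simp [Φ]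
      have h3 := Equiv.sum_comp (hΦ.toPerm Φ) fun x => (dl id a b * h) (Setoid.ker x.1)
      rw [Fintype.sum_prod_type, Fintype.sum_prod_type] at h3
      simp only [sum_const, card_univ, Fintype.card_fin, nsmul_eq_mul, ← mul_sum] at h3
      rw [← h3]
      refine sum_congr rfl fun σ _ => ?_
      have h4 : ∀ c, (dl id a b * h) (Setoid.ker (hΦ.toPerm Φ (σ, c)).1) =
          if σ a = c then h (Setoid.ker σ) else 0 := by
        intro c
        change ind (Function.update σ b c a = Function.update σ b c b) *
          h (Setoid.ker (Function.update σ b c)) = _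
        rw [Function.update_of_ne hab, Function.update_self,
          hi (Setoid.ker (Function.update σ b c)) (Setoid.ker σ) fun x y hx hy => by
            rw [Setoid.ker_def, Setoid.ker_def, Function.update_of_ne hx, Function.update_of_ne hy]]
        split_ifs with h5
        · rw [ind_pos h5, one_mul]
        · rw [ind_neg h5, zero_mul]
      simp only [h4, sum_ite_eq, mem_univ, if_true]
  have h2 := congrArg (eval q) this
  simpa only [eval_mul, eval_X, eval_finsetSum, eval_C, ell] using h2

lemma ell_et {q : ℝ} (hq : q ≠ 0) {a b : V} (hab : a ≠ b) {h : Setoid V → ℝ} (hi : Indep b h) :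
    ell q (et id q a b * h) = 0 := by
  have : et id q a b * h = dl id a b * h - q⁻¹ • h := by
    funext ω; simp [et, sub_mul]
  rw [this, ell_sub, ell_smul, ← ell_dl q hab hi, inv_mul_cancel_left₀ hq, sub_self]

lemma ell_flow {E : Type} [Fintype E] [DecidableEq E] (G : Gr V E) {F : ℤ[X]}
    (hF : IsFlowPolynomial G.s G.t F) {q : ℝ} (hq : q ≠ 0) :
    q ^ Fintype.card V * aeval q F = q ^ Fintype.card E * ell q (G.Zp id q univ) := by
  have : X ^ Fintype.card V * F.map (Int.castRingHom ℝ) =
      ∑ ω ∈ allS V, wt ω * ∏ e, (C (dl id (G.s e) (G.t e) ω) * X - 1) := poly_eq fun k hk => by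
    have : NeZero k := ⟨hk.ne'⟩
    have h1 := ell_nat (V := V) (α := ZMod k) fun ω => ∏ e, (dl id (G.s e) (G.t e) ω * k - 1)
    simp only [ell, ZMod.card] at h1
    simp only [eval_mul, eval_pow, eval_X, eval_finsetSum, eval_prod, eval_sub, eval_C, eval_one]
    rw [h1]
    have h2 := congrArg (Int.cast (R := ℝ)) (potts G.s G.t k)
    have h3 : (F.map (Int.castRingHom ℝ)).eval (k : ℝ) = ((F.eval (k : ℤ) : ℤ) : ℝ) := by
      simp
    rw [h3, hF k hk]
    push_cast at h2 ⊢
    rw [h2]
    refine sum_congr rfl fun σ _ => prod_congr rfl fun e _ => ?_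
    change _ = ind (σ (G.s e) = σ (G.t e)) * _ - 1
    split_ifs with h
    · rw [ind_pos h, one_mul]
    · rw [ind_neg h, zero_mul]
  have h2 := congrArg (eval q) this
  simp only [eval_mul, eval_pow, eval_X, eval_finsetSum, eval_prod, eval_sub, eval_C,
    eval_one] at h2
  rw [aeval_def, eval₂_eq_eval_map, algebraMap_int_eq, h2, ell, mul_sum]
  refine sum_congr rfl fun ω _ => ?_
  rw [mul_left_comm, Gr.Zp, Finset.prod_apply, ← card_univ, ← prod_const, ← prod_mul_distrib]
  congr 1
  refine prod_congr rfl fun e _ => ?_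
  simp only [et]
  field_simp

end Pool.Agent.Lib.MP_08beec_co.Ub
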