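import Mathlib

/-!
Edge sets, reachability and the family of two-sided cuts used in the upper bound for real flow
roots.
-/

namespace Pool.Agent.Lib.MP_08beec_co.Ub

open Finset

set_option linter.unusedSectionVars false

/-- an oriented multigraph -/
structure Gr (V E : Type) where
  s : E → V
  t : E → V

variable {V E : Type} [Fintype V] [DecidableEq V] [Fintype E] [DecidableEq E]

namespace Gr

variable (H : Gr V E)

/-- `e` joins `a` and `b` -/
def J (e : E) (a b : V) : Prop := (H.s e = a ∧ H.t e = b) ∨ (H.s e = b ∧ H.t e = a)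

/-- edges with both ends in `X` -/
def inn (X : Finset V) : Finset E := {e | H.s e ∈ X ∧ H.t e ∈ X}

/-- edges with an end in `X` -/
def tch (X : Finset V) : Finset E := {e | H.s e ∈ X ∨ H.t e ∈ X}

/-- edges between `X` and `Y` -/
def btw (X Y : Finset V) : Finset E := {e | (H.s e ∈ X ∧ H.t e ∈ Y) ∨ (H.s e ∈ Y ∧ H.t e ∈ X)}

/-- edges with an end in `X` and both ends in `X ∪ G` -/
def ar (X G : Finset V) : Finset E :=
  {e | (H.s e ∈ X ∨ H.t e ∈ X) ∧ (H.s e ∈ X ∨ H.s e ∈ G) ∧ (H.t e ∈ X ∨ H.t e ∈ G)}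

/-- vertices with a neighbour in `Y` -/
def nbr (Y : Finset V) : Finset V :=
  {v | ∃ e, (H.s e = v ∧ H.t e ∈ Y) ∨ (H.t e = v ∧ H.s e ∈ Y)}

/-- ends of the edges of `F` -/
def ends (F : Finset E) : Finset V := F.image H.s ∪ F.image H.t

/-- `v` is joined to `G` by edges of `O` -/
inductive Gd (O : Finset E) (G : Finset V) : V → Prop
  | base (v : V) : v ∈ G → Gd O G v
  | step (v w : V) (e : E) : e ∈ O → H.J e v w → Gd O G w → Gd O G v

/-- every vertex of `Y` is joined to `P` inside `Y ∪ P` -/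
def Good (P Y : Finset V) : Prop := ∀ v ∈ Y, H.Gd (H.inn (Y ∪ P)) P v

open Classical in
/-- the two-sided cuts of the region `X` with inner roots `Q` -/
noncomputable def fam (X Q : Finset V) : Finset (Finset V) :=
  X.powerset.filter fun R => Q ∩ X ⊆ R ∧ H.Good Q R ∧ H.Good (X ∪ Q)ᶜ (X \ R)

/-- the cut edges that are counted -/
def cutE (X Q R : Finset V) : Finset E := H.btw (R ∪ Q) (R ∪ Q)ᶜ ∩ H.tch (X \ Q)

/-- connectedness -/
def Conn : Prop := ∀ Z : Finset V, H.btw Z Zᶜ = ∅ → Z = ∅ ∨ Z = univ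

/-- no cut has exactly one edge -/
def NoBr : Prop := ∀ Z : Finset V, (H.btw Z Zᶜ).card ≠ 1

/-- weighted count of cuts -/
def BC (κ : ℝ) : Prop :=
  ∀ X Q : Finset V, X \ Q ≠ univ → ∑ R ∈ H.fam X Q, κ ^ (H.cutE X Q R).card ≤ 1

variable {H}

@[simp] lemma mem_inn {X : Finset V} {e : E} : e ∈ H.inn X ↔ H.s e ∈ X ∧ H.t e ∈ X := by
  simp [inn]

@[simp] lemma mem_tch {X : Finset V} {e : E} : e ∈ H.tch X ↔ H.s e ∈ X ∨ H.t e ∈ X := by
  simp [tch]

@[simp] lemma mem_btw {X Y : Finset V} {e : E} :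
    e ∈ H.btw X Y ↔ (H.s e ∈ X ∧ H.t e ∈ Y) ∨ (H.s e ∈ Y ∧ H.t e ∈ X) := by
  simp [btw]

@[simp] lemma mem_ar {X G : Finset V} {e : E} :
    e ∈ H.ar X G ↔
      (H.s e ∈ X ∨ H.t e ∈ X) ∧ (H.s e ∈ X ∨ H.s e ∈ G) ∧ (H.t e ∈ X ∨ H.t e ∈ G) := by
  simp [ar]

lemma mem_nbr {Y : Finset V} {v : V} :
    v ∈ H.nbr Y ↔ ∃ e, (H.s e = v ∧ H.t e ∈ Y) ∨ (H.t e = v ∧ H.s e ∈ Y) := by
  simp [nbr]

lemma mem_nbr' {Y : Finset V} {v : V} : v ∈ H.nbr Y ↔ ∃ e w, w ∈ Y ∧ H.J e v w := by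
  rw [mem_nbr]
  constructor
  · rintro ⟨e, ⟨h1, h2⟩ | ⟨h1, h2⟩⟩
    · exact ⟨e, _, h2, Or.inl ⟨h1, rfl⟩⟩
    · exact ⟨e, _, h2, Or.inr ⟨rfl, h1⟩⟩
  · rintro ⟨e, w, hw, ⟨h1, h2⟩ | ⟨h1, h2⟩⟩
    · exact ⟨e, Or.inl ⟨h1, h2 ▸ hw⟩⟩
    · exact ⟨e, Or.inr ⟨h2, h1 ▸ hw⟩⟩

lemma mem_ends {F : Finset E} {v : V} : v ∈ H.ends F ↔ ∃ e ∈ F, H.s e = v ∨ H.t e = v := by
  simp only [ends, mem_union, mem_image]
  constructor
  · rintro (⟨e, he, h⟩ | ⟨e, he, h⟩)
    · exact ⟨e, he, Or.inl h⟩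
    · exact ⟨e, he, Or.inr h⟩
  · rintro ⟨e, he, h | h⟩
    · exact Or.inl ⟨e, he, h⟩
    · exact Or.inr ⟨e, he, h⟩

lemma card_ends (F : Finset E) : (H.ends F).card ≤ 2 * F.card := by
  have h1 := card_union_le (F.image H.s) (F.image H.t)
  have h2 : (F.image H.s).card ≤ F.card := card_image_le
  have h3 : (F.image H.t).card ≤ F.card := card_image_le
  unfold ends; omega

lemma J.symm {e : E} {a b : V} (h : H.J e a b) : H.J e b a := Or.symm h

lemma J_self (e : E) : H.J e (H.s e) (H.t e) := Or.inl ⟨rfl, rfl⟩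

lemma J.inn {e : E} {a b : V} (h : H.J e a b) {X : Finset V} :
    e ∈ H.inn X ↔ a ∈ X ∧ b ∈ X := by
  rcases h with ⟨rfl, rfl⟩ | ⟨rfl, rfl⟩ <;> simp [and_comm]

lemma J.btw {e : E} {a b : V} (h : H.J e a b) {X Y : Finset V} :
    e ∈ H.btw X Y ↔ (a ∈ X ∧ b ∈ Y) ∨ (a ∈ Y ∧ b ∈ X) := by
  rcases h with ⟨rfl, rfl⟩ | ⟨rfl, rfl⟩ <;> (simp only [mem_btw]; try tauto)

lemma J.tch {e : E} {a b : V} (h : H.J e a b) {X : Finset V} :
    e ∈ H.tch X ↔ a ∈ X ∨ b ∈ X := by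
  rcases h with ⟨rfl, rfl⟩ | ⟨rfl, rfl⟩ <;> simp [or_comm]

lemma J.ar {e : E} {a b : V} (h : H.J e a b) {X G : Finset V} :
    e ∈ H.ar X G ↔ (a ∈ X ∨ b ∈ X) ∧ (a ∈ X ∨ a ∈ G) ∧ (b ∈ X ∨ b ∈ G) := by
  rcases h with ⟨rfl, rfl⟩ | ⟨rfl, rfl⟩ <;> (simp only [mem_ar]; try tauto)

lemma Gd.mono {O O' : Finset E} {G G' : Finset V} (hO : O ⊆ O') (hG : G ⊆ G') {v : V}
    (h : H.Gd O G v) : H.Gd O' G' v := by
  induction h with
  | base v hv => exact .base v (hG hv)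
  | step v w e he hj _ ih => exact .step v w e (hO he) hj ih

lemma inn_mono {X Y : Finset V} (h : X ⊆ Y) : H.inn X ⊆ H.inn Y := fun e he => by
  rw [mem_inn] at he ⊢; exact ⟨h he.1, h he.2⟩

/-- a terminal count: vertices of `X` adjacent to `Y` are at most the edges between -/
lemma card_nbr_le {X Y : Finset V} (hd : Disjoint X Y) :
    (X ∩ H.nbr Y).card ≤ (H.btw X Y).card := by
  refine le_trans (card_le_card fun v hv => ?_)
    (card_image_le (f := fun e => if H.s e ∈ X then H.s e else H.t e))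
  rw [mem_inter, mem_nbr] at hv
  obtain ⟨hv, e, ⟨h1, h2⟩ | ⟨h1, h2⟩⟩ := hv
  · exact mem_image.mpr ⟨e, mem_btw.mpr (Or.inl ⟨h1 ▸ hv, h2⟩), by rw [if_pos (h1 ▸ hv), h1]⟩
  · exact mem_image.mpr ⟨e, mem_btw.mpr (Or.inr ⟨h2, h1 ▸ hv⟩), by
      rw [if_neg (disjoint_right.mp hd h2), h1]⟩

/-- the event decomposed: `Tc` is grounded, `Q` is not -/
def Ev1 (H : Gr V E) (G Q Tc : Finset V) (O : Finset E) : Prop :=
  (∀ t ∈ Tc, H.Gd O G t) ∧ ∀ v ∈ Q, ¬ H.Gd O G v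

/-- new terminals after removing `R` -/
def nt (H : Gr V E) (X Q R : Finset V) : Finset V := (X \ R) ∩ H.nbr (R ∪ Q)

/-- closed edges around `R` -/
def cl (H : Gr V E) (X G R : Finset V) : Finset E := H.btw R ((X \ R) ∪ G)

/-- the event for a given removed set `R` -/
def Ev2 (H : Gr V E) (X G Q Tc R : Finset V) (O : Finset E) : Prop :=
  Disjoint R Tc ∧ Disjoint O (H.cl X G R) ∧
    ∀ t ∈ Tc ∪ H.nt X Q R, H.Gd (O ∩ H.ar (X \ R) G) G t

lemma mem_fam {X Q R : Finset V} : R ∈ H.fam X Q ↔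
    R ⊆ X ∧ Q ∩ X ⊆ R ∧ H.Good Q R ∧ H.Good (X ∪ Q)ᶜ (X \ R) := by
  simp [fam]

lemma not_gd_of_ev2 {X G R : Finset V} {O : Finset E} (hXG : Disjoint X G) (hO : O ⊆ H.ar X G)
    (hR : R ⊆ X) (h : Disjoint O (H.cl X G R)) {v : V} (hv : v ∈ R) : ¬ H.Gd O G v := by
  intro hg
  induction hg with
  | base v hv' => exact disjoint_left.mp hXG (hR hv) hv'
  | step v w e he hj _ ih =>
    apply ih
    by_contra hw
    have h1 := (hj.ar.mp (hO he)).2.2
    refine disjoint_left.mp h he (hj.btw.mpr (Or.inl ⟨hv, ?_⟩))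
    simp only [mem_union, mem_sdiff]
    tauto

lemma ev1_of_ev2 {X G Q Tc R : Finset V} {O : Finset E} (hXG : Disjoint X G) (hQG : Disjoint Q G)
    (hO : O ⊆ H.ar X G) (hR : R ∈ H.fam X Q) (h : H.Ev2 X G Q Tc R O) : H.Ev1 G Q Tc O := by
  obtain ⟨hRX, hQR, -, -⟩ := mem_fam.mp hR
  refine ⟨fun t ht => (h.2.2 t (mem_union_left _ ht)).mono inter_subset_left subset_rfl,
    fun v hv => ?_⟩
  by_cases hX : v ∈ X
  · exact not_gd_of_ev2 hXG hO hRX h.2.1 (hQR (mem_inter.mpr ⟨hv, hX⟩))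
  · intro hg
    cases hg with
    | base _ hv' => exact disjoint_left.mp hQG hv hv'
    | step _ w e he hj _ =>
      have h1 := (hj.ar.mp (hO he)).2.1
      have h2 := disjoint_left.mp hQG hv
      tauto

lemma ev2_sub {X G Q Tc R R' : Finset V} {O : Finset E} (hXG : Disjoint X G)
    (hO : O ⊆ H.ar X G) (hR : R ∈ H.fam X Q) (hR' : R' ∈ H.fam X Q) (h : H.Ev2 X G Q Tc R O)
    (h' : H.Ev2 X G Q Tc R' O) : R ⊆ R' := by
  obtain ⟨hRX, -, hg, -⟩ := mem_fam.mp hR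
  obtain ⟨-, hQR', -, -⟩ := mem_fam.mp hR'
  have key : ∀ v, H.Gd (H.inn (R ∪ Q)) Q v → v ∈ R' ∪ Q := by
    intro v hv
    induction hv with
    | base v hv => exact mem_union_right _ hv
    | step v w e he hj _ ih =>
      have hv := (hj.inn.mp he).1
      rcases mem_union.mp hv with hv | hv
      · by_contra hn
        have hn' : v ∉ R' := fun h => hn (mem_union_left _ h)
        have h1 : v ∈ H.nt X Q R' :=
          mem_inter.mpr ⟨mem_sdiff.mpr ⟨hRX hv, hn'⟩, mem_nbr'.mpr ⟨e, w, ih, hj⟩⟩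
        exact not_gd_of_ev2 hXG hO hRX h.2.1 hv
          ((h'.2.2 v (mem_union_right _ h1)).mono inter_subset_left subset_rfl)
      · exact mem_union_right _ hv
  intro v hv
  rcases mem_union.mp (key v (hg v hv)) with h1 | h1
  · exact h1
  · exact hQR' (mem_inter.mpr ⟨h1, hRX hv⟩)

lemma exists_ev2 (hC : H.Conn) {X G Q Tc : Finset V} {O : Finset E} (hXG : Disjoint X G)
    (hQG : Disjoint Q G) (hXQ : X \ Q ≠ univ)
    (hO : O ⊆ H.ar X G) (h : H.Ev1 G Q Tc O) : ∃ R ∈ H.fam X Q, H.Ev2 X G Q Tc R O := by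
  classical
  set Z : Finset V := X.filter fun v => ¬ H.Gd O G v with hZ
  set R : Finset V := Z.filter fun v => H.Gd (H.inn (Z ∪ Q)) Q v with hR
  have mZ : ∀ v, v ∈ Z ↔ v ∈ X ∧ ¬ H.Gd O G v := fun v => by simp [hZ]
  have mR : ∀ v, v ∈ R ↔ v ∈ Z ∧ H.Gd (H.inn (Z ∪ Q)) Q v := fun v => by simp [hR]
  have hRX : R ⊆ X := fun v hv => ((mZ v).mp ((mR v).mp hv).1).1
  have hQR : Q ∩ X ⊆ R := fun v hv => by
    rw [mem_inter] at hv
    exact (mR v).mpr ⟨(mZ v).mpr ⟨hv.2, h.2 v hv.1⟩, .base v hv.1⟩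
  -- absorbing step
  have habs : ∀ v w e, v ∈ Z → w ∈ R ∪ Q → H.J e v w → v ∈ R := by
    intro v w e hv hw hj
    rcases mem_union.mp hw with hw | hw
    · exact (mR v).mpr ⟨hv, .step v w e (hj.inn.mpr ⟨mem_union_left _ hv,
        mem_union_left _ ((mR w).mp hw).1⟩) hj ((mR w).mp hw).2⟩
    · exact (mR v).mpr ⟨hv, .step v w e (hj.inn.mpr ⟨mem_union_left _ hv,
        mem_union_right _ hw⟩) hj (.base w hw)⟩
  -- grounded vertices are grounded outside `R`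
  have hK : ∀ v, H.Gd O G v → H.Gd (O ∩ H.ar (X \ R) G) G v := by
    intro v hv
    induction hv with
    | base v hv => exact .base v hv
    | step v w e he hj hw ih =>
      refine .step v w e (mem_inter.mpr ⟨he, ?_⟩) hj ih
      have h1 := hj.ar.mp (hO he)
      have h2 : v ∉ R := fun hv => ((mZ v).mp ((mR v).mp hv).1).2 (.step v w e he hj hw)
      have h3 : w ∉ R := fun hv => ((mZ w).mp ((mR w).mp hv).1).2 hw
      rw [hj.ar]
      simp only [mem_sdiff]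
      tauto
  refine ⟨R, mem_fam.mpr ⟨hRX, hQR, ?_, ?_⟩, ?_, ?_, ?_⟩
  · have key : ∀ v, H.Gd (H.inn (Z ∪ Q)) Q v → v ∈ Z ∪ Q →
        v ∈ R ∪ Q ∧ H.Gd (H.inn (R ∪ Q)) Q v := by
      intro v hv
      induction hv with
      | base v hv => exact fun _ => ⟨mem_union_right _ hv, .base v hv⟩
      | step v w e he hj hw ih =>
        intro hv
        obtain ⟨h1, h2⟩ := ih (hj.inn.mp he).2
        have h3 : v ∈ R ∪ Q := by
          rcases mem_union.mp hv with hv | hv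
          · exact mem_union_left _ (habs v w e hv h1 hj)
          · exact mem_union_right _ hv
        exact ⟨h3, .step v w e (hj.inn.mpr ⟨h3, h1⟩) hj h2⟩
    intro v hv
    exact (key v ((mR v).mp hv).2 (mem_union_left _ ((mR v).mp hv).1)).2
  · set P := (X ∪ Q)ᶜ with hP
    have hGP : G ⊆ P := fun v hv => by
      simp only [hP, mem_compl, mem_union, not_or]
      exact ⟨disjoint_right.mp hXG hv, disjoint_right.mp hQG hv⟩
    have hK' : ∀ v, H.Gd O G v → H.Gd (H.inn (X \ R ∪ P)) P v := by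
      intro v hv
      refine (hK v hv).mono (fun e he => ?_) hGP
      have h1 := mem_ar.mp (mem_inter.mp he).2
      rw [mem_inn]
      simp only [mem_union]
      exact ⟨h1.2.1.imp_right (hGP ·), h1.2.2.imp_right (hGP ·)⟩
    set B : Finset V := (X \ R).filter fun v => ¬ H.Gd (H.inn (X \ R ∪ P)) P v with hB
    have mB : ∀ v, v ∈ B ↔ (v ∈ X ∧ v ∉ R) ∧ ¬ H.Gd (H.inn (X \ R ∪ P)) P v := fun v => by
      simp [hB]
    have hcl : ∀ v w e, v ∈ B → H.J e v w → w ∈ B := by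
      intro v w e hv hj
      obtain ⟨⟨hv1, hv2⟩, hv3⟩ := (mB v).mp hv
      have hvZ : v ∈ Z := (mZ v).mpr ⟨hv1, fun hg => hv3 (hK' v hg)⟩
      have hw : w ∉ R ∪ Q := fun hw => hv2 (habs v w e hvZ hw hj)
      have hvm : v ∈ X \ R ∪ P := mem_union_left _ (mem_sdiff.mpr ⟨hv1, hv2⟩)
      have hwP : w ∉ P := fun hw => hv3 (.step v w e
        (hj.inn.mpr ⟨hvm, mem_union_right _ hw⟩) hj (.base w hw))
      have hwX : w ∈ X ∧ w ∉ R := by
        simp only [hP, mem_compl, mem_union, not_or, not_and, not_not] at hw hwP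
        refine ⟨?_, hw.1⟩
        by_contra hx
        exact hw.2 (hwP hx)
      exact (mB w).mpr ⟨hwX, fun hg => hv3 (.step v w e
        (hj.inn.mpr ⟨hvm, mem_union_left _ (mem_sdiff.mpr hwX)⟩) hj hg)⟩
    have hB0 : H.btw B Bᶜ = ∅ := by
      refine eq_empty_of_forall_notMem fun e he => ?_
      rcases mem_btw.mp he with ⟨h1, h2⟩ | ⟨h1, h2⟩
      · exact mem_compl.mp h2 (hcl _ _ e h1 (J_self e))
      · exact mem_compl.mp h1 (hcl _ _ e h2 (J_self e).symm)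
    rcases hC B hB0 with h0 | h0
    · intro v hv
      by_contra hn
      have : v ∈ B := (mB v).mpr ⟨mem_sdiff.mp hv, hn⟩
      simp [h0] at this
    · exfalso
      apply hXQ
      refine eq_univ_of_forall fun v => ?_
      have h1 := ((mB v).mp (h0 ▸ mem_univ v)).1
      exact mem_sdiff.mpr ⟨h1.1, fun hq => h1.2 (hQR (mem_inter.mpr ⟨hq, h1.1⟩))⟩
  · exact disjoint_left.mpr fun v hv ht => ((mZ v).mp ((mR v).mp hv).1).2 (h.1 v ht)
  · refine disjoint_left.mpr fun e he he' => ?_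
    have key : ∀ v w, H.J e v w → v ∈ R → w ∈ X \ R ∪ G → False := by
      intro v w hj hv hw
      have hv' := ((mZ v).mp ((mR v).mp hv).1).2
      rcases mem_union.mp hw with hw | hw
      · rw [mem_sdiff] at hw
        by_cases hg : H.Gd O G w
        · exact hv' (.step v w e he hj hg)
        · exact hw.2 (habs w v e ((mZ w).mpr ⟨hw.1, hg⟩) (mem_union_left _ hv) hj.symm)
      · exact hv' (.step v w e he hj (.base w hw))
    rcases mem_btw.mp he' with ⟨h1, h2⟩ | ⟨h1, h2⟩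
    · exact key _ _ (J_self e) h1 h2
    · exact key _ _ (J_self e).symm h2 h1
  · intro t ht
    apply hK
    rcases mem_union.mp ht with ht | ht
    · exact h.1 t ht
    · obtain ⟨h1, h2⟩ := mem_inter.mp ht
      rw [mem_sdiff] at h1
      obtain ⟨e, w, hw, hj⟩ := mem_nbr'.mp h2
      by_contra hn
      exact h1.2 (habs t w e ((mZ t).mpr ⟨h1.1, hn⟩) hw hj)

end Gr

end Pool.Agent.Lib.MP_08beec_co.Ub
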