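import Pool.Agent.Lib.MP_08beec_co.UbBond

/-!
Every graph of minimum degree three has a bridgeless induced subgraph of bounded resistance.
-/

namespace Pool.Agent.Lib.MP_08beec_co.Ub

open Finset

set_option linter.unusedSectionVars false

variable {V E : Type} [Fintype V] [DecidableEq V] [Fintype E] [DecidableEq E]

lemma coarea (F : Finset E) (lo hi : E → ℝ) (hle : ∀ e, lo e ≤ hi e) {t h N : ℝ} (hh : 0 ≤ h)
    (H : ∀ s, t ≤ s → s < t + h → N ≤ (F.filter fun e => lo e ≤ s ∧ s < hi e).card) :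
    h * N ≤ ∑ e ∈ F, (hi e - lo e) := by
  open MeasureTheory in
  have hint : ∀ e ∈ F, Integrable ((Set.Ico (lo e) (hi e)).indicator fun _ => (1 : ℝ)) volume :=
    fun e _ => (integrable_indicator_iff measurableSet_Ico).mpr
      (integrableOn_const (by simp))
  open MeasureTheory in
  calc h * N = ∫ _ in Set.Ico t (t + h), N := by
        rw [setIntegral_const, Real.volume_real_Ico_of_le (by linarith), smul_eq_mul]; ring
    _ ≤ ∫ s in Set.Ico t (t + h), ∑ e ∈ F, (Set.Ico (lo e) (hi e)).indicator (fun _ => (1 : ℝ)) s := by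
        refine setIntegral_mono_on (integrableOn_const (by simp))
          (integrable_finset_sum _ hint).integrableOn measurableSet_Ico fun s hs => ?_
        refine (H s hs.1 hs.2).trans (le_of_eq ?_)
        rw [card_filter]
        push_cast
        exact sum_congr rfl fun e _ => by simp [Set.indicator_apply]
    _ ≤ ∫ s, ∑ e ∈ F, (Set.Ico (lo e) (hi e)).indicator (fun _ => (1 : ℝ)) s :=
        setIntegral_le_integral (integrable_finset_sum _ hint) (Filter.Eventually.of_forall
          fun s => sum_nonneg fun e _ => Set.indicator_nonneg (fun _ _ => zero_le_one) _)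
    _ = _ := by
        rw [integral_finset_sum _ hint]
        refine sum_congr rfl fun e _ => ?_
        rw [integral_indicator measurableSet_Ico, setIntegral_const,
          Real.volume_real_Ico_of_le (hle e), smul_eq_mul, mul_one]

lemma rpow_concave {a b : ℝ} (ha : 0 ≤ a) (hab : a ≤ b) :
    (a + b) ^ (2 / 3 : ℝ) + a ^ (2 / 3 : ℝ) / 3 ≤ a ^ (2 / 3 : ℝ) + b ^ (2 / 3 : ℝ) := by
  rcases ha.eq_or_lt with rfl | ha'
  · simp
  have hb : 0 < b := by linarith
  have h1 : (a + b) ^ (2 / 3 : ℝ) = b ^ (2 / 3 : ℝ) * (1 + a / b) ^ (2 / 3 : ℝ) := by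
    rw [← Real.mul_rpow hb.le (by positivity)]
    congr 1; field_simp; ring
  have h2 := rpow_one_add_le_one_add_mul_self (s := a / b) (p := 2 / 3)
    (by have : 0 ≤ a / b := by positivity
        linarith) (by norm_num) (by norm_num)
  have h3 : b ^ (2 / 3 : ℝ) * (a / b) ≤ a ^ (2 / 3 : ℝ) := by
    have e1 : a ^ (2 / 3 : ℝ) = b ^ (2 / 3 : ℝ) * (a / b) ^ (2 / 3 : ℝ) := by
      rw [← Real.mul_rpow hb.le (by positivity)]
      congr 1; field_simp
    rw [e1]
    refine mul_le_mul_of_nonneg_left ?_ (by positivity)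
    exact Real.self_le_rpow_of_le_one (by positivity) ((div_le_one hb).mpr hab) (by norm_num)
  have h4 : 0 ≤ b ^ (2 / 3 : ℝ) := by positivity
  rw [h1]
  nlinarith [mul_le_mul_of_nonneg_left h2 h4]

namespace Gr

/-- sum of the degrees -/
def vol (G : Gr V E) (Y : Finset V) : ℕ := #{e | G.s e ∈ Y} + #{e | G.t e ∈ Y}

/-- bounded resistance inside `X` -/
def ResOn (G : Gr V E) (X : Finset V) (ρ0 : ℝ) : Prop :=
  ∀ w : V → ℝ, ∑ e ∈ G.inn X, (w (G.s e) - w (G.t e)) ^ 2 ≤ 1 → ∀ a ∈ X, ∀ b ∈ X, w a - w b ≤ ρ0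

/-- no bridge inside `X` -/
def NoBrOn (G : Gr V E) (X : Finset V) : Prop := ∀ Z ⊆ X, (G.btw Z (X \ Z)).card ≠ 1

variable {G : Gr V E}

lemma vol_mono {Y Y' : Finset V} (h : Y ⊆ Y') : G.vol Y ≤ G.vol Y' :=
  add_le_add (card_le_card fun e => by simp only [mem_filter, mem_univ, true_and]; exact fun h' => h h')
    (card_le_card fun e => by simp only [mem_filter, mem_univ, true_and]; exact fun h' => h h')

lemma vol_union {Y Y' : Finset V} (h : Disjoint Y Y') : G.vol (Y ∪ Y') = G.vol Y + G.vol Y' := by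
  have : ∀ v, v ∈ Y → v ∉ Y' := fun v hv => disjoint_left.mp h hv
  simp only [vol, card_filter, ← sum_add_distrib, mem_union]
  exact sum_congr rfl fun e _ => by grind

lemma vol_sdiff {X Y : Finset V} (h : Y ⊆ X) : G.vol Y + G.vol (X \ Y) = G.vol X := by
  rw [← vol_union disjoint_sdiff, union_sdiff_of_subset h]

lemma card_eq_sum (A : Finset E) : A.card = ∑ e, if e ∈ A then 1 else 0 := by
  simp

lemma vol_eq (Y : Finset V) : G.vol Y = 2 * (G.inn Y).card + (G.btw Y Yᶜ).card := by
  rw [card_eq_sum, card_eq_sum]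
  simp only [vol, card_filter, mul_sum, ← sum_add_distrib, mem_inn, mem_btw, mem_compl]
  exact sum_congr rfl fun e _ => by grind

lemma tch_le_vol (Y : Finset V) : (G.tch Y).card ≤ G.vol Y := by
  rw [card_eq_sum]
  simp only [vol, card_filter, ← sum_add_distrib, mem_tch]
  exact sum_le_sum fun e _ => by grind

lemma three_mul_le {X : Finset V} (h : ∀ v ∈ X, 3 ≤ G.vol {v}) : 3 * X.card ≤ G.vol X := by
  induction X using Finset.induction_on with
  | empty => simp
  | insert a X ha ih =>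
    rw [card_insert_of_notMem ha, insert_eq, vol_union (disjoint_singleton_left.mpr ha)]
    have := h a (mem_insert_self _ _)
    have := ih fun v hv => h v (mem_insert_of_mem hv)
    omega

lemma cut_add {X Y : Finset V} (h : Y ⊆ X) : (G.btw Y Yᶜ).card + (G.btw (X \ Y) (X \ Y)ᶜ).card =
    2 * (G.btw Y (X \ Y)).card + (G.btw X Xᶜ).card := by
  have : ∀ v, v ∈ Y → v ∈ X := fun v hv => h hv
  simp only [card_eq_sum (E := E), mul_sum, ← sum_add_distrib, mem_btw, mem_compl, mem_sdiff]
  exact sum_congr rfl fun e _ => by grind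

lemma exists_iso (hd : ∀ v, G.vol {v} = 0 ∨ 3 ≤ G.vol {v}) (e0 : E) :
    ∃ X : Finset V, X.Nonempty ∧ (∀ v ∈ X, 3 ≤ G.vol {v}) ∧ X.card ≤ (G.inn X).card ∧
      ∀ Y ⊆ X, Y.Nonempty → G.vol Y ≤ G.vol (X \ Y) →
        (G.vol Y : ℝ) ^ (2 / 3 : ℝ) / 18 ≤ (G.btw Y (X \ Y)).card := by
  classical
  let S : Finset (Finset V) := univ.filter fun X => X.Nonempty ∧ (∀ v ∈ X, 3 ≤ G.vol {v}) ∧
    ((G.btw X Xᶜ).card : ℝ) ≤ (G.vol X : ℝ) ^ (2 / 3 : ℝ) / 3
  have hs : ∀ e, 3 ≤ G.vol {G.s e} := fun e => (hd _).resolve_left (by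
    have : 0 < #{e' | G.s e' ∈ ({G.s e} : Finset V)} := card_pos.mpr ⟨e, by simp⟩
    unfold vol; omega)
  have ht : ∀ e, 3 ≤ G.vol {G.t e} := fun e => (hd _).resolve_left (by
    have : 0 < #{e' | G.t e' ∈ ({G.t e} : Finset V)} := card_pos.mpr ⟨e, by simp⟩
    unfold vol; omega)
  have hS : S.Nonempty := by
    refine ⟨univ.filter fun v => 3 ≤ G.vol {v}, mem_filter.mpr ⟨mem_univ _,
      ⟨G.s e0, by simp [hs]⟩, fun v hv => (mem_filter.mp hv).2, ?_⟩⟩
    have : G.btw (univ.filter fun v => 3 ≤ G.vol {v}) (univ.filter fun v => 3 ≤ G.vol {v})ᶜ = ∅ := by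
      ext e; simp [hs, ht]
    rw [this, card_empty, Nat.cast_zero]
    positivity
  obtain ⟨X, hX, hmin⟩ := exists_min_image S card hS
  obtain ⟨-, h1, h2, h3⟩ := mem_filter.mp hX
  refine ⟨X, h1, h2, ?_, fun Y hY hne hv => ?_⟩
  · have a1 := three_mul_le h2
    have a2 := vol_eq (G := G) X
    have a3 := card_pos.mpr h1
    have a4 : (G.vol X : ℝ) ^ (2 / 3 : ℝ) ≤ G.vol X :=
      Real.rpow_le_self_of_one_le (by exact_mod_cast (by omega : 1 ≤ G.vol X)) (by norm_num)
    have a5 : (3 * (G.btw X Xᶜ).card : ℝ) ≤ G.vol X := by linarith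
    have a6 : 3 * (G.btw X Xᶜ).card ≤ G.vol X := by exact_mod_cast a5
    omega
  · have key : ∀ Z ⊆ X, Z.Nonempty → Z.card < X.card →
        (G.vol Z : ℝ) ^ (2 / 3 : ℝ) / 3 ≤ (G.btw Z Zᶜ).card := by
      intro Z hZ hZ0 hlt
      by_contra hn
      have := hmin Z (mem_filter.mpr ⟨mem_univ _, hZ0, fun v hv => h2 v (hZ hv), (not_le.mp hn).le⟩)
      omega
    have b0 := three_mul_le fun v hv => h2 v (hY hv)
    have b1 := card_pos.mpr hne
    have b2 : (X \ Y).Nonempty := by
      rw [nonempty_iff_ne_empty]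
      intro h
      rw [h] at hv
      simp only [vol, notMem_empty, filter_false, card_empty] at hv b0
      omega
    have b3 := card_sdiff_add_card_eq_card hY
    have b4 := card_pos.mpr b2
    have k1 := key Y hY hne (by omega)
    have k2 := key (X \ Y) sdiff_subset b2 (by omega)
    have k3 := rpow_concave (Nat.cast_nonneg (G.vol Y)) (Nat.cast_le.mpr hv)
    rw [← Nat.cast_add, vol_sdiff hY] at k3
    have k4 : ((G.btw Y Yᶜ).card + (G.btw (X \ Y) (X \ Y)ᶜ).card : ℝ) =
      2 * (G.btw Y (X \ Y)).card + (G.btw X Xᶜ).card := by exact_mod_cast cut_add hY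
    linarith

lemma up_bound {X : Finset V} (h3 : ∀ v ∈ X, 3 ≤ G.vol {v})
    (hiso : ∀ Y ⊆ X, Y.Nonempty → G.vol Y ≤ G.vol (X \ Y) →
        (G.vol Y : ℝ) ^ (2 / 3 : ℝ) / 18 ≤ (G.btw Y (X \ Y)).card)
    {w : V → ℝ} (hw : ∑ e ∈ G.inn X, (w (G.s e) - w (G.t e)) ^ 2 ≤ 1) {t0 : ℝ}
    (h0 : 2 * G.vol (X.filter fun v => t0 < w v) ≤ G.vol X) : ∀ a ∈ X, w a ≤ t0 + 576 := by
  have key : ∀ (j : ℕ) (t : ℝ), t0 ≤ t → G.vol (X.filter fun v => t < w v) < 64 ^ j →
      ∀ a ∈ X, w a ≤ t + 576 * (1 - (1 / 2) ^ j) := by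
    intro j
    induction j with
    | zero =>
      intro t _ hv a ha
      by_contra hn
      have h1 : ({a} : Finset V) ⊆ X.filter fun v => t < w v := by
        simp only [pow_zero, sub_self, mul_zero, add_zero, not_le] at hn
        simp [ha, hn]
      have := vol_mono (G := G) h1
      have := h3 a ha
      omega
    | succ j ih =>
      intro t ht hv a ha
      have hh : (0 : ℝ) ≤ 288 * (1 / 2) ^ j := by positivity
      have := ih (t + 288 * (1 / 2) ^ j) (by linarith) ?_ a ha
      · rw [pow_succ]; linarith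
      by_contra hn
      push Not at hn
      have c1 := coarea (G.inn X ∩ G.tch (X.filter fun v => t < w v))
        (fun e => min (w (G.s e)) (w (G.t e))) (fun e => max (w (G.s e)) (w (G.t e)))
        (fun e => min_le_max) (t := t) (N := 16 ^ j / 18) hh (fun s hs1 hs2 => by
          have m1 : G.vol (X.filter fun v => t + 288 * (1 / 2) ^ j < w v) ≤
              G.vol (X.filter fun v => s < w v) := vol_mono fun v => by
            simp only [mem_filter]; exact fun h => ⟨h.1, by linarith [h.2]⟩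
          have m2 : G.vol (X.filter fun v => s < w v) ≤ G.vol (X.filter fun v => t0 < w v) :=
            vol_mono fun v => by
              simp only [mem_filter]; exact fun h => ⟨h.1, by linarith [h.2]⟩
          have m3 := vol_sdiff (G := G) (filter_subset (fun v => s < w v) X)
          have m4 : 0 < 64 ^ j := by positivity
          have m5 := hiso _ (filter_subset (fun v => s < w v) X) (by
            rw [nonempty_iff_ne_empty]
            intro h
            rw [h] at m1
            simp only [vol, notMem_empty, filter_false, card_empty] at m1 hn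
            omega) (by omega)
          have m6 : (16 : ℝ) ^ j ≤ (G.vol (X.filter fun v => s < w v) : ℝ) ^ (2 / 3 : ℝ) := by
            have : (16 : ℝ) ^ j = ((64 : ℝ) ^ j) ^ (2 / 3 : ℝ) := by
              rw [show (64 : ℝ) = 4 ^ 3 by norm_num, show (16 : ℝ) = 4 ^ 2 by norm_num, ← pow_mul,
                ← pow_mul, ← Real.rpow_natCast, ← Real.rpow_natCast, ← Real.rpow_mul (by norm_num)]
              congr 1; push_cast; ring
            rw [this]
            exact Real.rpow_le_rpow (by positivity) (by exact_mod_cast hn.trans m1) (by norm_num)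
          refine le_trans (by linarith) (m5.trans (Nat.cast_le.mpr (card_le_card fun e he => ?_)))
          simp only [mem_btw, mem_filter, mem_sdiff, mem_inter, mem_inn, mem_tch, min_le_iff,
            lt_max_iff, not_and, not_lt] at he ⊢
          rcases he with ⟨a1, a2, a3⟩ | ⟨⟨a2, a3⟩, a1⟩
          · exact ⟨⟨⟨a1.1, a2⟩, Or.inl ⟨a1.1, by linarith [a1.2]⟩⟩, Or.inr (a3 a2), Or.inl a1.2⟩
          · exact ⟨⟨⟨a2, a1.1⟩, Or.inr ⟨a1.1, by linarith [a1.2]⟩⟩, Or.inl (a3 a2), Or.inr a1.2⟩)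
      have c2 := sq_sum_le_card_mul_sum_sq (s := G.inn X ∩ G.tch (X.filter fun v => t < w v))
        (f := fun e => max (w (G.s e)) (w (G.t e)) - min (w (G.s e)) (w (G.t e)))
      have c3 : ∑ e ∈ G.inn X ∩ G.tch (X.filter fun v => t < w v),
          (max (w (G.s e)) (w (G.t e)) - min (w (G.s e)) (w (G.t e))) ^ 2 ≤ 1 := by
        simp only [max_sub_min_eq_abs', sq_abs]
        exact (sum_le_sum_of_subset_of_nonneg inter_subset_left fun _ _ _ => sq_nonneg _).trans hw
      have c4 : ((G.inn X ∩ G.tch (X.filter fun v => t < w v)).card : ℝ) ≤ (8 ^ (j + 1)) ^ 2 := by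
        have := (card_le_card (inter_subset_right (s₁ := G.inn X))).trans
          (tch_le_vol (G := G) (X.filter fun v => t < w v))
        rw [← pow_mul, mul_comm, pow_mul]
        exact_mod_cast this.trans hv.le
      have c5 := c2.trans (mul_le_mul c4 c3 (sum_nonneg fun _ _ => sq_nonneg _) (by positivity))
      rw [mul_one] at c5
      have c6 := (abs_le_of_sq_le_sq' c5 (by positivity)).2
      have c7 : (288 * (1 / 2) ^ j * (16 ^ j / 18) : ℝ) = 16 * 8 ^ j := by
        rw [show (16 : ℝ) ^ j = 2 ^ j * 8 ^ j by rw [← mul_pow]; norm_num, one_div, inv_pow]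
        field_simp; norm_num
      have c8 : (0 : ℝ) < 8 ^ j := by positivity
      rw [c7] at c1
      rw [pow_succ] at c6
      linarith
  intro a ha
  have := key (G.vol (X.filter fun v => t0 < w v)) t0 le_rfl (Nat.lt_pow_self (by norm_num)) a ha
  have h2 : (0 : ℝ) ≤ (1 / 2) ^ G.vol (X.filter fun v => t0 < w v) := by positivity
  linarith

lemma resOn_of_iso {X : Finset V} (h3 : ∀ v ∈ X, 3 ≤ G.vol {v})
    (hiso : ∀ Y ⊆ X, Y.Nonempty → G.vol Y ≤ G.vol (X \ Y) →
        (G.vol Y : ℝ) ^ (2 / 3 : ℝ) / 18 ≤ (G.btw Y (X \ Y)).card) : G.ResOn X 1152 := by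
  intro w hw a ha b hb
  obtain ⟨m, hm, hmax⟩ := exists_max_image X w ⟨a, ha⟩
  obtain ⟨v0, hv0, hmin⟩ := exists_min_image
    (X.filter fun v => 2 * G.vol (X.filter fun u => w v < w u) ≤ G.vol X) w ⟨m, by
      refine mem_filter.mpr ⟨hm, ?_⟩
      rw [filter_false_of_mem fun u hu => not_lt.mpr (hmax u hu)]
      simp [vol]⟩
  have u1 := up_bound h3 hiso hw (mem_filter.mp hv0).2 a ha
  have u2 := up_bound h3 hiso (w := fun v => -w v) (t0 := -w v0) (by
    refine le_of_eq_of_le (sum_congr rfl fun e _ => ?_) hw; ring) (by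
    rcases (X.filter fun v => -w v0 < -w v).eq_empty_or_nonempty with h | h
    · rw [h]; simp [vol]
    · obtain ⟨v1, hv1, hm1⟩ := exists_max_image _ w h
      rw [mem_filter] at hv1
      have a1 : G.vol X < 2 * G.vol (X.filter fun u => w v1 < w u) := by
        by_contra hn
        have := hmin v1 (mem_filter.mpr ⟨hv1.1, not_lt.mp hn⟩)
        linarith [hv1.2]
      have a2 := vol_sdiff (G := G) (filter_subset (fun u => w v1 < w u) X)
      have a3 : G.vol (X.filter fun v => -w v0 < -w v) ≤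
          G.vol (X \ X.filter fun u => w v1 < w u) := vol_mono fun v hv => by
        have := hm1 v hv
        simp only [mem_filter, mem_sdiff, not_and, not_lt] at hv ⊢
        exact ⟨hv.1, fun _ => this⟩
      omega) b hb
  linarith

lemma ResOn.side {X Z : Finset V} {ρ0 : ℝ} (h : G.ResOn X ρ0) (hZ : Z ⊆ X)
    (h1 : (G.btw Z (X \ Z)).card = 1) : G.ResOn Z ρ0 := by
  obtain ⟨g, hg⟩ := card_eq_one.mp h1
  intro w hw a ha b hb
  have := h (fun v => if v ∈ Z then w v else w (G.yend Z g)) ?_ a (hZ ha) b (hZ hb)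
  · simpa [ha, hb] using this
  refine le_of_eq_of_le ?_ hw
  rw [← sum_subset (inn_mono hZ)]
  · refine sum_congr rfl fun e he => ?_
    rw [mem_inn] at he
    simp [he.1, he.2]
  · intro e he he'
    have h2 : e ∈ G.btw Z (X \ Z) → e = g := fun h => by rwa [hg, mem_singleton] at h
    simp only [mem_inn, mem_btw, mem_sdiff] at he he' h2
    by_cases a1 : G.s e ∈ Z
    · have a2 : G.t e ∉ Z := fun h => he' ⟨a1, h⟩
      obtain rfl := h2 (Or.inl ⟨a1, he.2, a2⟩)
      simp [a1, a2, yend]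
    · by_cases a2 : G.t e ∈ Z
      · obtain rfl := h2 (Or.inr ⟨⟨he.1, a1⟩, a2⟩)
        simp [a1, a2, yend]
      · simp [a1, a2]

lemma prune {ρ0 : ℝ} : ∀ (n : ℕ) (X : Finset V), X.card ≤ n → X.Nonempty → G.ResOn X ρ0 →
    X.card ≤ (G.inn X).card → ∃ X' : Finset V, G.ResOn X' ρ0 ∧ G.NoBrOn X' ∧ (G.inn X').Nonempty
  | 0, X, hn, h0, _, _ => by have := card_pos.mpr h0; omega
  | n + 1, X, hn, h0, hR, hc => by
    by_cases hN : G.NoBrOn X
    · exact ⟨X, hR, hN, card_pos.mp (by have := card_pos.mpr h0; omega)⟩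
    unfold NoBrOn at hN
    push Not at hN
    obtain ⟨Z, hZ, h1⟩ := hN
    have hm : ∀ v, v ∈ Z → v ∈ X := fun v hv => hZ hv
    have e1 : (G.inn X).card = (G.inn Z).card + (G.inn (X \ Z)).card + (G.btw Z (X \ Z)).card := by
      simp only [card_eq_sum (E := E), ← sum_add_distrib, mem_btw, mem_inn, mem_sdiff]
      exact sum_congr rfl fun e _ => by grind
    have e2 := card_sdiff_add_card_eq_card hZ
    obtain ⟨g, hg⟩ := card_pos.mp (show 0 < (G.btw Z (X \ Z)).card by omega)
    have n1 : Z.Nonempty := by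
      rcases mem_btw.mp hg with h | h
      · exact ⟨_, h.1⟩
      · exact ⟨_, h.2⟩
    have n2 : (X \ Z).Nonempty := by
      rcases mem_btw.mp hg with h | h
      · exact ⟨_, h.2⟩
      · exact ⟨_, h.1⟩
    have p1 := card_pos.mpr n1
    have p2 := card_pos.mpr n2
    by_cases hz : Z.card ≤ (G.inn Z).card
    · exact prune n Z (by omega) n1 (hR.side hZ h1) hz
    · refine prune n (X \ Z) (by omega) n2 (hR.side sdiff_subset ?_) (by omega)
      rw [← h1, Finset.sdiff_sdiff_eq_self hZ]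
      congr 1
      ext e; simp only [mem_btw]; grind

theorem exists_core (hd : ∀ v, G.vol {v} = 0 ∨ 3 ≤ G.vol {v}) (e0 : E) :
    ∃ X : Finset V, G.ResOn X 1152 ∧ G.NoBrOn X ∧ (G.inn X).Nonempty := by
  obtain ⟨X, h1, h2, h3, h4⟩ := exists_iso hd e0
  exact prune _ X le_rfl h1 (resOn_of_iso h2 h4) h3

/-- the induced subgraph -/
def sub (G : Gr V E) (X : Finset V) : Gr {v // v ∈ X} {e // e ∈ G.inn X} where
  s e := ⟨G.s e.1, (mem_inn.mp e.2).1⟩
  t e := ⟨G.t e.1, (mem_inn.mp e.2).2⟩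

lemma ResOn.sub {X : Finset V} {ρ0 : ℝ} (h : G.ResOn X ρ0) : (G.sub X).Res ρ0 := by
  intro w hw a b
  have := h (fun v => if hv : v ∈ X then w ⟨v, hv⟩ else 0) ?_ a a.2 b b.2
  · simpa using this
  refine le_of_eq_of_le ?_ hw
  rw [← sum_coe_sort]
  refine sum_congr rfl fun e _ => ?_
  have := mem_inn.mp e.2
  simp [Gr.sub, this.1, this.2]

lemma NoBrOn.sub {X : Finset V} (h : G.NoBrOn X) : (G.sub X).NoBr := by
  intro Z
  have := h (Z.map (Function.Embedding.subtype _)) fun v hv => by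
    obtain ⟨u, _, rfl⟩ := mem_map.mp hv
    exact u.2
  rw [← card_map (Function.Embedding.subtype _)]
  refine fun h' => this (h' ▸ congrArg card ?_)
  ext e
  simp only [mem_btw, mem_map, Function.Embedding.coe_subtype, mem_sdiff, mem_compl, Gr.sub,
    Subtype.exists, exists_and_right, exists_eq_right, mem_inn]
  grind

end Gr

end Pool.Agent.Lib.MP_08beec_co.Ub
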