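import Pool.Agent.Lib.MP_08beec_co.UbStepA
import Pool.Agent.Lib.MP_08beec_co.UbIso
import Pool.Agent.Lib.MP_08beec_co.UbEll

/-!
Positivity of the flow polynomial of bridgeless graphs for large real arguments.
-/

namespace Pool.Agent.Lib.MP_08beec_co.Ub

open Finset

set_option linter.unusedSectionVars false

variable {V : Type} [Fintype V] [DecidableEq V]

/-- contracted pairs -/
noncomputable def dL (C : List (V × V)) : Setoid V → ℝ := (C.map fun p => dl id p.1 p.2).prod

lemma dL_nil : dL ([] : List (V × V)) = 1 := rfl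

lemma dL_cons (p : V × V) (C : List (V × V)) : dL (p :: C) = dl id p.1 p.2 * dL C := by
  simp [dL]

namespace Gr

variable {E : Type} [Fintype E] [DecidableEq E]

/-- restriction to an edge set -/
def restr (G : Gr V E) (A : Finset E) : Gr V {e // e ∈ A} := ⟨fun e => G.s e, fun e => G.t e⟩

/-- renaming the vertices -/
def ren (G : Gr V E) (φ : V → V) : Gr V E := ⟨fun e => φ (G.s e), fun e => φ (G.t e)⟩

/-- adding an edge -/
def ext (G : Gr V E) (a b : V) : Gr V (Option E) :=
  ⟨fun e => e.elim a G.s, fun e => e.elim b G.t⟩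

/-- no bridge after contracting the pairs of `C` -/
def BL (G : Gr V E) (C : List (V × V)) : Prop :=
  ∀ Y : Finset V, (∀ p ∈ C, p.1 ∈ Y ↔ p.2 ∈ Y) → (G.btw Y Yᶜ).card ≠ 1

lemma Zp_restr (G : Gr V E) (A : Finset E) (q : ℝ) :
    (G.restr A).Zp id q univ = G.Zp id q A := prod_coe_sort A fun e => et id q (G.s e) (G.t e)

lemma Zp_ext (G : Gr V E) (a b : V) (q : ℝ) :
    (G.ext a b).Zp id q univ = et id q a b * G.Zp id q univ := Fintype.prod_option _

lemma bl_restr {G : Gr V E} (h : G.BL []) {A : Finset E} {C : List (V × V)}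
    (hC : ∀ Y : Finset V, (∀ p ∈ C, p.1 ∈ Y ↔ p.2 ∈ Y) → ∀ e, e ∉ A → (G.s e ∈ Y ↔ G.t e ∈ Y)) :
    (G.restr A).BL C := by
  intro Y hY h1
  apply h Y (by simp)
  rw [← h1, ← card_map (Function.Embedding.subtype _)]
  congr 1
  ext e
  have := hC Y hY e
  simp only [mem_btw, mem_map, Function.Embedding.coe_subtype, mem_compl, restr,
    Subtype.exists, exists_and_right, exists_eq_right]
  grind

lemma indep_Zp {G : Gr V E} {b : V} {A : Finset E} (h : ∀ e ∈ A, G.s e ≠ b ∧ G.t e ≠ b) (q : ℝ) :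
    Indep b (G.Zp id q A) := by
  intro ω ω' hω
  simp only [Zp, Finset.prod_apply, et, dl, id]
  exact prod_congr rfl fun e he => by rw [ind_congr (hω _ _ (h e he).1 (h e he).2)]

lemma et_symm (q : ℝ) (a b : V) : et (id : Setoid V → Setoid V) q a b = et id q b a := by
  funext ω
  simp only [et, dl, id]
  rw [ind_congr ⟨ω.symm, ω.symm⟩]

lemma ell_pendant {G : Gr V E} {q : ℝ} (hq : q ≠ 0) {A : Finset E} {v : V}
    (h : #{e ∈ A | G.s e = v} + #{e ∈ A | G.t e = v} = 1) : ell q (G.Zp id q A) = 0 := by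
  obtain ⟨e0, he0, h1, h2⟩ : ∃ e0 ∈ A, ((G.s e0 = v ∧ G.t e0 ≠ v) ∨ (G.t e0 = v ∧ G.s e0 ≠ v)) ∧
      ∀ e ∈ A.erase e0, G.s e ≠ v ∧ G.t e ≠ v := by
    rcases Nat.add_eq_one_iff.mp h with ⟨a1, a2⟩ | ⟨a2, a1⟩
    · obtain ⟨e0, a2⟩ := card_eq_one.mp a2
      rw [card_eq_zero, filter_eq_empty_iff] at a1
      have a3 : ∀ e, e ∈ A ∧ G.t e = v ↔ e = e0 := fun e => by
        rw [← mem_singleton (a := e0), ← a2, mem_filter]
      have a4 := (a3 e0).mpr rfl
      refine ⟨e0, a4.1, Or.inr ⟨a4.2, a1 a4.1⟩, fun e he => ?_⟩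
      rw [mem_erase] at he
      exact ⟨a1 he.2, fun h => he.1 ((a3 e).mp ⟨he.2, h⟩)⟩
    · obtain ⟨e0, a2⟩ := card_eq_one.mp a2
      rw [card_eq_zero, filter_eq_empty_iff] at a1
      have a3 : ∀ e, e ∈ A ∧ G.s e = v ↔ e = e0 := fun e => by
        rw [← mem_singleton (a := e0), ← a2, mem_filter]
      have a4 := (a3 e0).mpr rfl
      refine ⟨e0, a4.1, Or.inl ⟨a4.2, a1 a4.1⟩, fun e he => ?_⟩
      rw [mem_erase] at he
      exact ⟨fun h => he.1 ((a3 e).mp ⟨he.2, h⟩), a1 he.2⟩
  rw [Zp, ← mul_prod_erase _ _ he0]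
  rcases h1 with ⟨h3, h4⟩ | ⟨h3, h4⟩
  · rw [et_symm, h3]
    exact ell_et hq h4 (indep_Zp h2 q)
  · rw [h3]
    exact ell_et hq h4 (indep_Zp h2 q)

end Gr

/-- the statement proved by induction on the number of edges -/
def Main (V : Type) [Fintype V] [DecidableEq V] (q : ℝ) (n : ℕ) : Prop :=
  ∀ (E : Type) [Fintype E] [DecidableEq E] (G : Gr V E), Fintype.card E < n →
    ∀ C : List (V × V), 0 ≤ ell q (dL C * G.Zp id q univ) ∧
      (G.BL C → 0 < ell q (dL C * G.Zp id q univ))

lemma Main.sub {q : ℝ} {n : ℕ} (hM : Main V q n) {E : Type} [Fintype E] [DecidableEq E]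
    (G : Gr V E) {A : Finset E} (hA : A.card < n) (C : List (V × V)) :
    0 ≤ ell q (dL C * G.Zp id q A) ∧ (G.BL [] → (∀ Y : Finset V, (∀ p ∈ C, p.1 ∈ Y ↔ p.2 ∈ Y) →
      ∀ e, e ∉ A → (G.s e ∈ Y ↔ G.t e ∈ Y)) → 0 < ell q (dL C * G.Zp id q A)) := by
  have := hM _ (G.restr A) (by rwa [Fintype.card_coe]) C
  rw [Gr.Zp_restr] at this
  exact ⟨this.1, fun h h' => this.2 (Gr.bl_restr h h')⟩

lemma sound {q : ℝ} {n : ℕ} (hM : Main V q n) {W : Type} [Fintype W] [DecidableEq W] (ι : W → V)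
    {d : ℕ} {g : Setoid V → ℝ} (hg : Cone (fun ω => Setoid.comap ι ω) q d g) :
    ∀ (E : Type) [Fintype E] [DecidableEq E] (G : Gr V E), Fintype.card E + d < n →
      ∀ C : List (V × V), 0 ≤ ell q (g * (dL C * G.Zp id q univ)) := by
  induction hg with
  | one => intro E _ _ G h C; rw [one_mul]; exact (hM E G h C).1
  | add _ _ ih1 ih2 =>
    intro E _ _ G h C
    rw [add_mul, ell_add]
    exact add_nonneg (ih1 E G h C) (ih2 E G h C)
  | smul c hc _ ih =>
    intro E _ _ G h C
    rw [smul_mul_assoc, ell_smul]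
    exact mul_nonneg hc (ih E G h C)
  | @del d g a b _ ih =>
    intro E _ _ G h C
    have := ih E G h ((ι a, ι b) :: C)
    rw [dL_cons] at this
    refine this.trans_eq (congrArg _ ?_)
    change _ = dl id (ι a) (ι b) * g * _
    ring
  | @eta d g a b _ ih =>
    intro E _ _ G h C
    have := ih (Option E) (G.ext (ι a) (ι b)) (by rw [Fintype.card_option]; omega) C
    rw [Gr.Zp_ext] at this
    refine this.trans_eq (congrArg _ ?_)
    change _ = et id q (ι a) (ι b) * g * _
    ring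
  | succ _ ih => intro E _ _ G h C; exact ih E G (by omega) C

lemma sound' {q : ℝ} {n : ℕ} (hM : Main V q n) {W : Type} [Fintype W] [DecidableEq W] (ι : W → V)
    {d : ℕ} {g : Setoid V → ℝ} (hg : Cone (fun ω => Setoid.comap ι ω) q d g)
    {E : Type} [Fintype E] [DecidableEq E] (G : Gr V E) {A : Finset E} (h : A.card + d < n) :
    0 ≤ ell q (g * G.Zp id q A) := by
  have := sound hM ι hg _ (G.restr A) (by rwa [Fintype.card_coe]) []
  rwa [dL_nil, one_mul, Gr.Zp_restr] at this

lemma wire_eq_dL {W : Type} [Fintype W] [DecidableEq W] (ι : W → V) (r : W) (T : Finset W) :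
    wire (fun ω => Setoid.comap ι ω) r T = dL (T.toList.map fun t => (ι r, ι t)) := by
  have : dL (T.toList.map fun t => (ι r, ι t)) = ∏ t ∈ T, dl id (ι r) (ι t) := by
    rw [dL, List.map_map, ← prod_map_toList]
    rfl
  rw [this]
  clear this
  induction T using Finset.induction_on with
  | empty => rw [wire_empty, prod_empty]
  | insert a T ha ih => rw [wire_insert, prod_insert ha, ih]; rfl

lemma main_nil {x q θ Θ L : ℝ} (p : Par (((8 * 1152 : ℝ)⁻¹ ^ 2 / 2) ^ 2) x q θ Θ L) {n : ℕ}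
    (hM : Main V q n) {E : Type} [Fintype E] [DecidableEq E] (G : Gr V E)
    (hE : Fintype.card E < n + 1) :
    0 ≤ ell q (G.Zp id q univ) ∧ (G.BL [] → 0 < ell q (G.Zp id q univ)) := by
  have q0 := p.q0
  have hω : 0 < 1 - q⁻¹ := by
    have : q⁻¹ < 1 := inv_lt_one_of_one_lt₀ (by linarith [p.q2])
    linarith
  rcases isEmpty_or_nonempty E with h0 | ⟨⟨e1⟩⟩
  · have : 0 < ell q (G.Zp id q univ) := by
      rw [Gr.Zp, univ_eq_empty, prod_empty, ell_one]; positivity
    exact ⟨this.le, fun _ => this⟩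
  have hcard : ∀ e0 : E, (univ.erase e0).card < n := fun e0 => by
    have := card_erase_lt_of_mem (mem_univ e0)
    rw [card_univ] at this
    omega
  by_cases hl : ∃ e, G.s e = G.t e
  · obtain ⟨e0, he0⟩ := hl
    have h1 := hM.sub G (hcard e0) []
    have h2 : G.Zp id q univ = (1 - q⁻¹) • G.Zp id q (univ.erase e0) := by
      rw [Gr.Zp, ← mul_prod_erase _ _ (mem_univ e0), he0]
      funext ω
      simp [et, dl, ind_pos trivial, Gr.Zp]
    rw [dL_nil, one_mul] at h1
    rw [h2, ell_smul]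
    refine ⟨mul_nonneg hω.le h1.1, fun hb => mul_pos hω (h1.2 hb fun Y _ e he => ?_)⟩
    obtain rfl : e = e0 := by simpa using he
    rw [he0]
  by_cases h1 : ∃ v, G.vol {v} = 1
  · obtain ⟨v, hv⟩ := h1
    refine ⟨(Gr.ell_pendant q0.ne' (v := v) (by simpa [Gr.vol] using hv)).ge, fun hb => ?_⟩
    have := Gr.vol_eq (G := G) {v}
    exact absurd (by omega) (hb {v} (by simp))
  by_cases h2 : ∃ v, G.vol {v} = 2
  · obtain ⟨v, hv⟩ := h2
    push Not at hl
    obtain ⟨e0, he0⟩ : ∃ e0, G.s e0 = v ∨ G.t e0 = v := by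
      by_contra hn
      push Not at hn
      simp [Gr.vol, hn] at hv
    have a1 := hM.sub G (hcard e0) [(G.s e0, G.t e0)]
    rw [dL_cons, dL_nil, mul_one] at a1
    have a2 : ell q (G.Zp id q (univ.erase e0)) = 0 := by
      refine Gr.ell_pendant q0.ne' (v := v) ?_
      have := hl e0
      simp only [Gr.vol, mem_singleton, card_filter] at hv ⊢
      rw [← add_sum_erase _ _ (mem_univ e0), ← add_sum_erase _ _ (mem_univ e0)] at hv
      grind
    have a3 : G.Zp id q univ = dl id (G.s e0) (G.t e0) * G.Zp id q (univ.erase e0) -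
        q⁻¹ • G.Zp id q (univ.erase e0) := by
      rw [Gr.Zp, ← mul_prod_erase _ _ (mem_univ e0)]
      funext ω
      simp [et, Gr.Zp, sub_mul]
    rw [a3, ell_sub, ell_smul, a2, mul_zero, sub_zero]
    refine ⟨a1.1, fun hb => a1.2 hb fun Y hY e he => ?_⟩
    obtain rfl : e = e0 := by simpa using he
    exact hY _ (List.mem_singleton_self _)
  push Not at h1 h2
  obtain ⟨X, hR, hN, ⟨e2, he2⟩⟩ := Gr.exists_core (G := G) (fun v => by
    have := h1 v
    have := h2 v
    omega) e1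
  let r : {v // v ∈ X} := ⟨G.s e2, (Gr.mem_inn.mp he2).1⟩
  have c1 := Gr.contour (ρ := fun ω => Setoid.comap (Subtype.val : {v // v ∈ X} → V) ω) p
    hR.sub.conn hN.sub (hR.sub.bc (by norm_num)) r
  have m1 : 0 < (G.inn X).card := card_pos.mpr ⟨e2, he2⟩
  have m2 : (G.inn X)ᶜ.card + (G.inn X).card = Fintype.card E := by
    rw [card_compl]
    have := card_le_univ (G.inn X)
    omega
  have c2 := sound' hM _ c1 G (A := (G.inn X)ᶜ) (by rw [Fintype.card_coe (G.inn X)]; omega)
  have c3 := hM.sub G (A := (G.inn X)ᶜ) (by omega)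
    (((G.sub X).ends univ).toList.map fun t => (r.1, t.1))
  have c4 : (G.sub X).Zp (fun ω => Setoid.comap (Subtype.val : {v // v ∈ X} → V) ω) q univ =
      G.Zp id q (G.inn X) := prod_coe_sort (G.inn X) fun e => et id q (G.s e) (G.t e)
  rw [sub_mul, ell_sub, smul_mul_assoc, ell_smul, c4, wire_eq_dL,
    ← Gr.Zp_union disjoint_compl_right, union_compl] at c2
  have c5 : (0 : ℝ) < 8 ^ Fintype.card {e // e ∈ G.inn X} := by positivity
  refine ⟨nonneg_of_mul_nonneg_right (by linarith [c3.1]) c5, fun hb => ?_⟩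
  have c6 := c3.2 hb (fun Y hY e he => by
    have he' : e ∈ G.inn X := by simpa using he
    have k : ∀ t ∈ (G.sub X).ends univ, (r.1 ∈ Y ↔ t.1 ∈ Y) := fun t ht =>
      hY (r.1, t.1) (List.mem_map.mpr ⟨t, mem_toList.mpr ht, rfl⟩)
    exact (k _ (Gr.mem_ends.mpr ⟨⟨e, he'⟩, mem_univ _, Or.inl rfl⟩)).symm.trans
      (k _ (Gr.mem_ends.mpr ⟨⟨e, he'⟩, mem_univ _, Or.inr rfl⟩)))
  exact (mul_pos_iff_of_pos_left c5).mp (by linarith)

lemma indep_dL {b : V} {C : List (V × V)} (h : ∀ p ∈ C, p.1 ≠ b ∧ p.2 ≠ b) : Indep b (dL C) := by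
  induction C with
  | nil => exact fun _ _ _ => rfl
  | cons p C ih =>
    intro ω ω' hω
    have h1 := h p List.mem_cons_self
    rw [dL_cons, Pi.mul_apply, Pi.mul_apply, ih (fun p hp => h p (List.mem_cons_of_mem _ hp)) ω ω' hω]
    simp only [dl, id]
    rw [ind_congr (hω _ _ h1.1 h1.2)]

lemma main_step {x q θ Θ L : ℝ} (p : Par (((8 * 1152 : ℝ)⁻¹ ^ 2 / 2) ^ 2) x q θ Θ L) {n : ℕ}
    (hM : Main V q n) : Main V q (n + 1) := by
  intro E _ _ G hE C
  have q0 := p.q0
  induction hk : C.length generalizing C G with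
  | zero =>
    rw [List.length_eq_zero_iff] at hk
    subst hk
    rw [dL_nil, one_mul]
    exact main_nil p hM G hE
  | succ k ih =>
    obtain ⟨⟨a, b⟩, C, rfl⟩ := List.exists_cons_of_length_eq_add_one hk
    have hk' : C.length = k := by simpa using hk
    rw [dL_cons]
    by_cases hab : a = b
    · subst hab
      have : dl (id : Setoid V → Setoid V) a a = 1 := funext fun ω => ind_pos (ω.refl _)
      rw [this, one_mul]
      have h1 := ih G C hk'
      exact ⟨h1.1, fun hb => h1.2 fun Y hY => hb Y (by simpa using hY)⟩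
    let φ : V → V := fun v => if v = b then a else v
    have hφ : ∀ v, φ v ≠ b := fun v => by
      simp only [φ]; split_ifs with h
      · exact hab
      · exact h
    have h1 := ih (G.ren φ) (C.map fun p => (φ p.1, φ p.2)) (by simpa using hk')
    have hrel : ∀ ω : Setoid V, ω a b → ∀ u v, ω (φ u) (φ v) ↔ ω u v := by
      intro ω h
      have k : ∀ u, ω (φ u) u := fun u => by
        simp only [φ]; split_ifs with h'
        · exact h' ▸ h
        · exact ω.refl _
      exact fun u v => ⟨fun h' => ω.trans (ω.symm (k u)) (ω.trans h' (k v)),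
        fun h' => ω.trans (k u) (ω.trans h' (ω.symm (k v)))⟩
    have e1 : dl id a b * dL C * G.Zp id q univ =
        dl id a b * (dL (C.map fun p => (φ p.1, φ p.2)) * (G.ren φ).Zp id q univ) := by
      funext ω
      simp only [Pi.mul_apply]
      by_cases h : ω a b
      · rw [mul_assoc]
        congr 2
        · clear h1 hk hk'
          induction C with
          | nil => rfl
          | cons p C ih2 =>
            rw [List.map_cons, dL_cons, dL_cons, Pi.mul_apply, Pi.mul_apply, ih2]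
            simp only [dl, id]
            rw [ind_congr (hrel ω h _ _)]
        · simp only [Gr.Zp, Finset.prod_apply, et, dl, id, Gr.ren]
          exact prod_congr rfl fun e _ => by rw [ind_congr (hrel ω h _ _)]
      · have : dl id a b ω = 0 := ind_neg h
        simp [this]
    have hi : Indep b (dL (C.map fun p => (φ p.1, φ p.2)) * (G.ren φ).Zp id q univ) := by
      intro ω ω' hω
      rw [Pi.mul_apply, Pi.mul_apply, indep_dL (fun p hp => by
        obtain ⟨p', _, rfl⟩ := List.mem_map.mp hp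
        exact ⟨hφ _, hφ _⟩) ω ω' hω, Gr.indep_Zp (fun e _ => ⟨hφ _, hφ _⟩) q ω ω' hω]
    rw [← ell_dl q hab hi] at h1
    simp only at e1 ⊢
    rw [e1]
    refine ⟨nonneg_of_mul_nonneg_right h1.1 q0, fun hb =>
      (mul_pos_iff_of_pos_left q0).mp (h1.2 fun Y hY h2 => ?_)⟩
    refine hb (univ.filter fun v => φ v ∈ Y) (fun p hp => ?_) ?_
    · simp only [mem_filter, mem_univ, true_and]
      rcases List.mem_cons.mp hp with rfl | hp
      · simp [φ, hab]
      · exact hY _ (List.mem_map.mpr ⟨p, hp, rfl⟩)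
    · rw [← h2]
      congr 1
      ext e
      simp [Gr.ren]

theorem flow_pos : ∃ q0 : ℝ, ∀ q, q0 ≤ q → ∀ (V E : Type) [Fintype V] [DecidableEq V] [Fintype E]
    [DecidableEq E] (G : Gr V E) (F : Polynomial ℤ), IsFlowPolynomial G.s G.t F → G.NoBr →
    0 < Polynomial.aeval q F := by
  obtain ⟨q0, h⟩ := exists_par (κ := ((8 * 1152 : ℝ)⁻¹ ^ 2 / 2) ^ 2) (by positivity) (by norm_num)
  refine ⟨q0, fun q hq V E _ _ _ _ G F hF hN => ?_⟩
  obtain ⟨x, θ, Θ, L, p⟩ := h q hq
  have hM : ∀ n, Main V q n := fun n => by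
    induction n with
    | zero => exact fun _ _ _ _ h => absurd h (Nat.not_lt_zero _)
    | succ n ih => exact main_step p ih
  have h1 := (hM _ E G (Nat.lt_succ_self _) []).2 fun Y _ => hN Y
  rw [dL_nil, one_mul] at h1
  have q0 := p.q0
  have h2 := ell_flow G hF q0.ne'
  exact (mul_pos_iff_of_pos_left (pow_pos q0 (Fintype.card V))).mp (h2 ▸ by positivity)

end Pool.Agent.Lib.MP_08beec_co.Ub
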