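import Pool.Agent.Lib.MP_08beec_co.UbDet

/-!
Star-mesh elimination, contraction and lower bounds for tree counts from cut conditions.
-/

namespace Pool.Agent.Lib.MP_08beec_co.Ub

open Finset Matrix

set_option linter.unusedSectionVars false

variable {ι : Type} [Fintype ι] [DecidableEq ι]

/-- twice the Dirichlet energy -/
def En (c : ι → ι → ℝ) (w : ι → ℝ) : ℝ := ∑ i, ∑ j, c i j * (w i - w j) ^ 2

/-- effective conductance between any set of nodes and the other nodes is at least `ε` -/
def CutC (c : ι → ι → ℝ) (A P : Finset ι) (ε : ℝ) : Prop :=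
  ∀ I ⊆ P, I.Nonempty → ∀ w : ι → ℝ, (∀ i ∈ I, w i = 1) → (∀ i, i ∉ A → i ∉ I → w i = 0) →
    2 * ε ≤ En c w

/-- star-mesh transform -/
noncomputable def mesh (c : ι → ι → ℝ) (v : ι) : ι → ι → ℝ := fun i j =>
  if i = v ∨ j = v then 0 else c i j + c i v * c v j / ∑ l ∈ univ.erase v, c v l

lemma sum_erase_ite (v : ι) (g : ι → ℝ) :
    ∑ l, (if l = v then 0 else g l) = ∑ l ∈ univ.erase v, g l := by
  rw [← add_sum_erase _ _ (mem_univ v), if_pos rfl, zero_add]
  exact sum_congr rfl fun l hl => if_neg (mem_erase.mp hl).1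

lemma tau_mesh {Y : Finset ι} {c : ι → ι → ℝ} {v : ι} (hv : v ∈ Y)
    (hd : ∑ l ∈ univ.erase v, c v l ≠ 0) :
    tau Y c = (∑ l ∈ univ.erase v, c v l) * tau (Y.erase v) (mesh c v) := by
  set d := ∑ l ∈ univ.erase v, c v l with hdd
  have hs : ∑ l, c v l = c v v + d := (add_sum_erase _ _ (mem_univ v)).symm
  have hrow : ∀ i, i ≠ v → ∑ l, mesh c v i l = ∑ l, c i l := by
    intro i hi
    simp only [mesh, hi, false_or]
    rw [sum_erase_ite, sum_add_distrib, ← sum_div, ← mul_sum, ← hdd, mul_div_cancel_right₀ _ hd,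
      ← add_sum_erase _ _ (mem_univ v), add_comm]
  have hBv : (Lp (Y.erase v) (mesh c v)) v = fun j => if v = j then 1 else 0 := by
    funext j; simp [Lp]
  have h1 : (updateRow (Lp (Y.erase v) (mesh c v)) v (Lp Y c v)).det = (Lp Y c).det := by
    refine det_eq_of_forall_row_eq_smul_add_const
      (fun i => if i ≠ v ∧ i ∈ Y then c i v / d else 0) v (by simp) fun i j => ?_
    by_cases hi : i = v
    · subst hi; simp
    · rw [updateRow_ne hi]
      by_cases hY : i ∈ Y
      · simp only [Lp, of_apply, mem_erase, hi, hY, hv, ne_eq, not_false_eq_true, and_self, if_true,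
          hrow i hi, hs]
        by_cases hj : j = v
        · subst hj
          simp only [hi, if_false, not_true_eq_false, false_and, hv, if_true]
          field_simp
          ring
        · have hj' : ¬ v = j := fun h => hj h.symm
          simp only [hj, hj', not_false_eq_true, true_and, mesh, hi, or_self, if_false, ← hdd]
          split_ifs <;> ring
      · simp [Lp, hY]
  have h2 : (updateRow (Lp (Y.erase v) (mesh c v)) v (Lp Y c v)).det =
      (updateRow (Lp (Y.erase v) (mesh c v)) v (d • Lp (Y.erase v) (mesh c v) v)).det := by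
    rw [← det_transpose, ← det_transpose (updateRow _ v (d • _))]
    refine det_clear v hd (fun j => ?_) (fun j => ?_) fun i j hj => ?_
    · rw [transpose_apply]
      by_cases hj : j = v
      · subst hj; simp [hBv]
      · have hj' : ¬ v = j := fun h => hj h.symm
        rw [updateRow_ne hj, if_neg hj']
        simp [Lp, hj]
    · rw [transpose_apply, transpose_apply]
      by_cases hj : j = v
      · subst hj
        simp only [updateRow_self, hBv, Pi.smul_apply, if_true, smul_eq_mul, mul_one]
        simp [Lp, hv, hs]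
      · rw [updateRow_ne hj, updateRow_ne hj]
    · rw [transpose_apply, transpose_apply, updateRow_ne hj, updateRow_ne hj]
  rw [tau, ← h1, h2, det_updateRow_smul, updateRow_eq_self, tau]

lemma tau_zero {Y : Finset ι} {c : ι → ι → ℝ} (hc : ∀ i j, 0 ≤ c i j) {v : ι} (hv : v ∈ Y)
    (hd : ∑ l ∈ univ.erase v, c v l = 0) : tau Y c = 0 := by
  have h0 := (sum_eq_zero_iff_of_nonneg fun l _ => hc v l).mp hd
  refine det_eq_zero_of_row_eq_zero v fun j => ?_
  simp only [Lp, of_apply, hv, if_true]
  by_cases hj : v = j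
  · subst hj
    rw [if_pos rfl, if_pos hv, ← add_sum_erase _ _ (mem_univ v), hd]; ring
  · rw [if_neg hj, h0 j (mem_erase.mpr ⟨Ne.symm hj, mem_univ _⟩)]; simp

lemma En_split (c : ι → ι → ℝ) (hs : ∀ i j, c i j = c j i) (w : ι → ℝ) (v : ι) :
    En c w = ∑ i ∈ univ.erase v, ∑ j ∈ univ.erase v, c i j * (w i - w j) ^ 2 +
      2 * ∑ j ∈ univ.erase v, c v j * (w v - w j) ^ 2 := by
  unfold En
  rw [← add_sum_erase _ _ (mem_univ v), ← add_sum_erase _ _ (mem_univ v)]
  have : ∀ i ∈ univ.erase v, ∑ j, c i j * (w i - w j) ^ 2 =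
      c v i * (w v - w i) ^ 2 + ∑ j ∈ univ.erase v, c i j * (w i - w j) ^ 2 := by
    intro i _
    rw [← add_sum_erase _ _ (mem_univ v), hs i v]; ring
  rw [sum_congr rfl this, sum_add_distrib]
  ring

lemma En_mesh {c : ι → ι → ℝ} (hs : ∀ i j, c i j = c j i) (v : ι)
    (hd : ∑ l ∈ univ.erase v, c v l ≠ 0) (w : ι → ℝ) :
    En (mesh c v) w = En c (Function.update w v
      ((∑ l ∈ univ.erase v, c v l * w l) / ∑ l ∈ univ.erase v, c v l)) := by
  have hs' : ∀ i j, mesh c v i j = mesh c v j i := fun i j => by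
    simp only [mesh, or_comm (a := i = v), hs i j, hs i v, hs j v, mul_comm]
  rw [En_split _ hs' _ v, En_split _ hs _ v]
  set d := ∑ l ∈ univ.erase v, c v l with hdd
  set S1 := ∑ l ∈ univ.erase v, c v l * w l with h1
  set S2 := ∑ l ∈ univ.erase v, c v l * w l ^ 2 with h2
  have e1 : ∑ j ∈ univ.erase v, mesh c v v j * (w v - w j) ^ 2 = 0 :=
    sum_eq_zero fun j _ => by simp [mesh]
  have e2 : ∑ i ∈ univ.erase v, ∑ j ∈ univ.erase v, mesh c v i j * (w i - w j) ^ 2 =
      ∑ i ∈ univ.erase v, ∑ j ∈ univ.erase v, c i j * (w i - w j) ^ 2 +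
        (2 * d * S2 - 2 * S1 ^ 2) / d := by
    have : 2 * d * S2 - 2 * S1 ^ 2 =
        ∑ i ∈ univ.erase v, ∑ j ∈ univ.erase v, c v i * c v j * (w i - w j) ^ 2 := by
      have a1 : d * S2 = ∑ i ∈ univ.erase v, ∑ j ∈ univ.erase v, c v i * (c v j * w j ^ 2) :=
        sum_mul_sum _ _ _ _
      have a2 : S2 * d = ∑ i ∈ univ.erase v, ∑ j ∈ univ.erase v, c v i * w i ^ 2 * c v j :=
        sum_mul_sum _ _ _ _
      have a3 : S1 * S1 = ∑ i ∈ univ.erase v, ∑ j ∈ univ.erase v, c v i * w i * (c v j * w j) :=
        sum_mul_sum _ _ _ _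
      calc 2 * d * S2 - 2 * S1 ^ 2 = d * S2 + S2 * d - 2 * (S1 * S1) := by ring
        _ = _ := by
          rw [a1, a2, a3, mul_sum, ← sum_add_distrib, ← sum_sub_distrib]
          refine sum_congr rfl fun i _ => ?_
          rw [mul_sum, ← sum_add_distrib, ← sum_sub_distrib]
          exact sum_congr rfl fun j _ => by ring
    rw [this, sum_div, ← sum_add_distrib]
    refine sum_congr rfl fun i hi => ?_
    rw [sum_div, ← sum_add_distrib]
    refine sum_congr rfl fun j hj => ?_
    simp only [mesh, (mem_erase.mp hi).1, (mem_erase.mp hj).1, or_self, if_false, ← hdd, hs i v]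
    ring
  have e3 : ∑ i ∈ univ.erase v, ∑ j ∈ univ.erase v, c i j *
      (Function.update w v (S1 / d) i - Function.update w v (S1 / d) j) ^ 2 =
      ∑ i ∈ univ.erase v, ∑ j ∈ univ.erase v, c i j * (w i - w j) ^ 2 :=
    sum_congr rfl fun i hi => sum_congr rfl fun j hj => by
      rw [Function.update_of_ne (mem_erase.mp hi).1, Function.update_of_ne (mem_erase.mp hj).1]
  have e4 : ∑ j ∈ univ.erase v, c v j *
      (Function.update w v (S1 / d) v - Function.update w v (S1 / d) j) ^ 2 =
      (S1 / d) ^ 2 * d - 2 * (S1 / d) * S1 + S2 := by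
    rw [hdd, h1, h2, mul_sum, mul_sum, ← sum_sub_distrib, ← sum_add_distrib]
    refine sum_congr rfl fun j hj => ?_
    rw [Function.update_of_ne (mem_erase.mp hj).1, Function.update_self]
    ring
  rw [e1, e2, e3, e4]
  field_simp
  ring

/-- merge `i` into `j` -/
def ctr (c : ι → ι → ℝ) (i j : ι) : ι → ι → ℝ := fun k l =>
  if k = i ∨ l = i then 0 else c k l + (if l = j then c k i else 0) + (if k = j then c i l else 0)

lemma En_ctr {c : ι → ι → ℝ} (hs : ∀ i j, c i j = c j i) {i j : ι} (hij : j ≠ i) (w : ι → ℝ) :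
    En (ctr c i j) w = En c (Function.update w i (w j)) := by
  have hs' : ∀ k l, ctr c i j k l = ctr c i j l k := fun k l => by
    simp only [ctr, or_comm (a := k = i), hs k l, hs k i, hs l i]
    split_ifs <;> ring
  rw [En_split _ hs' _ i, En_split _ hs _ i]
  have hj : j ∈ univ.erase i := mem_erase.mpr ⟨hij, mem_univ _⟩
  have e1 : ∑ l ∈ univ.erase i, ctr c i j i l * (w i - w l) ^ 2 = 0 :=
    sum_eq_zero fun j _ => by simp [ctr]
  have e2 : ∑ k ∈ univ.erase i, ∑ l ∈ univ.erase i, ctr c i j k l * (w k - w l) ^ 2 =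
      ∑ k ∈ univ.erase i, ∑ l ∈ univ.erase i, c k l * (w k - w l) ^ 2 +
        (∑ k ∈ univ.erase i, ∑ l ∈ univ.erase i, if l = j then c k i * (w k - w l) ^ 2 else 0) +
        ∑ k ∈ univ.erase i, ∑ l ∈ univ.erase i, if k = j then c i l * (w k - w l) ^ 2 else 0 := by
    simp only [← sum_add_distrib]
    refine sum_congr rfl fun k hk => sum_congr rfl fun l hl => ?_
    simp only [ctr, (mem_erase.mp hk).1, (mem_erase.mp hl).1, or_self, if_false]
    split_ifs <;> ring
  have e3 : (∑ k ∈ univ.erase i, ∑ l ∈ univ.erase i, if l = j then c k i * (w k - w l) ^ 2 else 0)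
      = ∑ k ∈ univ.erase i, c i k * (w j - w k) ^ 2 := by
    refine sum_congr rfl fun k _ => ?_
    rw [sum_ite_eq', if_pos hj, hs k i]; ring
  have e4 : (∑ k ∈ univ.erase i, ∑ l ∈ univ.erase i, if k = j then c i l * (w k - w l) ^ 2 else 0)
      = ∑ k ∈ univ.erase i, c i k * (w j - w k) ^ 2 := by
    rw [sum_comm]
    refine sum_congr rfl fun k _ => ?_
    rw [sum_ite_eq', if_pos hj]
  have e5 : ∑ k ∈ univ.erase i, ∑ l ∈ univ.erase i, c k l *
      (Function.update w i (w j) k - Function.update w i (w j) l) ^ 2 =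
      ∑ k ∈ univ.erase i, ∑ l ∈ univ.erase i, c k l * (w k - w l) ^ 2 :=
    sum_congr rfl fun k hk => sum_congr rfl fun l hl => by
      rw [Function.update_of_ne (mem_erase.mp hk).1, Function.update_of_ne (mem_erase.mp hl).1]
  have e6 : ∑ l ∈ univ.erase i, c i l *
      (Function.update w i (w j) i - Function.update w i (w j) l) ^ 2 =
      ∑ k ∈ univ.erase i, c i k * (w j - w k) ^ 2 :=
    sum_congr rfl fun l hl => by
      rw [Function.update_of_ne (mem_erase.mp hl).1, Function.update_self]
  rw [e1, e2, e3, e4, e5, e6]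
  ring

/-- the determinant with the row of `i` replaced by an arrow to `j` -/
noncomputable def Dr (Y : Finset ι) (c : ι → ι → ℝ) (i j : ι) : ℝ :=
  (updateRow (Lp Y c) i fun k => (if i = k then 1 else 0) - if k ∈ Y ∧ j = k then 1 else 0).det

lemma tau_eq_sum_Dr {Y : Finset ι} (c : ι → ι → ℝ) {i : ι} (hi : i ∈ Y) :
    tau Y c = ∑ l, c i l * Dr Y c i l := by
  have h1 : Lp Y c i = ∑ l, c i l • fun k =>
      ((if i = k then 1 else 0) - if k ∈ Y ∧ l = k then 1 else 0 : ℝ) := by
    funext k
    simp only [Lp, of_apply, hi, if_true, Finset.sum_apply, Pi.smul_apply, smul_eq_mul, mul_sub,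
      sum_sub_distrib]
    congr 1
    · split_ifs <;> simp
    · by_cases hk : k ∈ Y <;> simp [hk]
  calc tau Y c = (updateRow (Lp Y c) i (Lp Y c i)).det := by rw [updateRow_eq_self, tau]
    _ = cramer (Lp Y c)ᵀ (Lp Y c i) i := (cramer_transpose_apply _ _ _).symm
    _ = _ := by
      conv_lhs => enter [2]; rw [h1]
      rw [map_sum, Finset.sum_apply]
      refine sum_congr rfl fun l _ => ?_
      rw [map_smul, Pi.smul_apply, cramer_transpose_apply, smul_eq_mul, Dr]

lemma sum_ctr (c : ι → ι → ℝ) {i j k : ι} (hij : j ≠ i) (hk : k ≠ i) :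
    ∑ l, ctr c i j k l = ∑ l, c k l + if k = j then ∑ l, c i l - c i i else 0 := by
  simp only [ctr, hk, false_or]
  rw [sum_erase_ite, sum_add_distrib, sum_add_distrib, sum_ite_eq',
    if_pos (mem_erase.mpr ⟨hij, mem_univ _⟩), ← add_sum_erase _ (c k) (mem_univ i),
    ← add_sum_erase _ (c i) (mem_univ i)]
  split_ifs <;> simp [add_comm]

lemma Dr_out {Y : Finset ι} (c : ι → ι → ℝ) {i j : ι} (hi : i ∈ Y) (hj : j ∉ Y) :
    Dr Y c i j = tau (Y.erase i) (ctr c i j) := by
  have hij : j ≠ i := fun h => hj (h ▸ hi)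
  refine det_clear i one_ne_zero (fun k => by simp [Lp]) (fun k => ?_) fun k l hl => ?_
  · rw [updateRow_self, if_neg (fun h : k ∈ Y ∧ j = k => hj (h.2 ▸ h.1))]
    simp [Lp]
  · by_cases hk : k = i
    · subst hk
      rw [updateRow_self, if_neg (fun h : l ∈ Y ∧ j = l => hj (h.2 ▸ h.1))]
      simp [Lp]
    · rw [updateRow_ne hk]
      simp only [Lp, of_apply, mem_erase, sum_ctr c hij hk]
      simp only [ctr]
      grind

lemma Dr_in {Y : Finset ι} (c : ι → ι → ℝ) {i j : ι} (hi : i ∈ Y) (hj : j ∈ Y) (hij : j ≠ i) :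
    Dr Y c i j + Dr Y c j i = tau (Y.erase i) (ctr c i j) := by
  set u : ι → ℝ := fun k => (if i = k then 1 else 0) - if k ∈ Y ∧ j = k then 1 else 0 with hu
  set M := Lp Y c with hM
  have h1 : Dr Y c i j = (updateRow (updateRow M i u) j (M j)).det := by
    rw [Dr, ← updateRow_ne (M := M) (b := u) hij, updateRow_eq_self]
  have h2 : Dr Y c j i = (updateRow (updateRow M i u) j (M i)).det := by
    have e1 : (fun k => (if j = k then 1 else 0) - if k ∈ Y ∧ i = k then 1 else 0 : ι → ℝ) =
        (-1 : ℝ) • u := by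
      funext k
      simp only [hu, Pi.smul_apply, smul_eq_mul]
      grind
    have e2 : updateRow (updateRow M i u) j (M i) =
        (updateRow M j u).submatrix (Equiv.swap i j) id := by
      ext k l
      simp only [submatrix_apply, id, updateRow_apply, Equiv.swap_apply_def]
      grind
    rw [Dr, e1, det_updateRow_smul, e2, det_permute, Equiv.Perm.sign_swap hij.symm]
    simp [hM]
  rw [h1, h2, ← det_updateRow_add, ← det_updateCol_add_self _ hij]
  refine det_clear i one_ne_zero (fun k => by simp [Lp]) (fun k => ?_) fun k l hl => ?_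
  · simp only [updateCol_apply, updateRow_apply, hu, Lp, of_apply, mem_erase]
    grind
  · by_cases hk : k = i
    · subst hk
      simp only [updateCol_apply, updateRow_apply, hu, Lp, of_apply, mem_erase]
      grind
    · simp only [updateCol_apply, updateRow_apply, hk, hM, Lp, of_apply, mem_erase,
        sum_ctr c hij hk, Pi.add_apply]
      simp only [ctr]
      grind

theorem tau_ge_of_cut {ε : ℝ} (hε : 0 ≤ ε) : ∀ (n : ℕ) (Y : Finset ι) (c : ι → ι → ℝ),
    Y.card = n → (∀ i j, 0 ≤ c i j) → (∀ i j, c i j = c j i) → CutC c ∅ Y ε →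
    (ε / 2) ^ n ≤ tau Y c
  | 0, Y, c, hn, _, _, _ => by
    rw [card_eq_zero] at hn
    subst hn
    have : Lp (∅ : Finset ι) c = 1 := by
      ext i j; simp [Lp, one_apply]
    rw [tau, this, det_one, pow_zero]
  | n + 1, Y, c, hn, hc, hs, hcut => by
    have ih : ∀ i ∈ Y, ∀ j, j ≠ i → (ε / 2) ^ n ≤ tau (Y.erase i) (ctr c i j) := by
      intro i hi j hij
      refine tau_ge_of_cut hε n _ _ (by rw [card_erase_of_mem hi, hn]; rfl) (fun k l => ?_)
        (fun k l => ?_) fun I hI hne w h1 h0 => ?_
      · have := hc k l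
        have := hc k i
        have := hc i l
        unfold ctr
        split_ifs <;> linarith
      · simp only [ctr, or_comm (a := k = i), hs k l, hs k i, hs l i]
        split_ifs <;> ring
      · rw [En_ctr hs hij]
        have hiI : i ∉ I := fun h => by simpa using hI h
        by_cases hj : j ∈ I
        · refine hcut (insert i I) (insert_subset hi (hI.trans (erase_subset _ _)))
            (insert_nonempty _ _) _ (fun k hk => ?_) fun k h hk => ?_
          · rw [Function.update_apply]
            rw [mem_insert] at hk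
            grind
          · rw [mem_insert, not_or] at hk
            rw [Function.update_of_ne hk.1, h0 k h hk.2]
        · refine hcut I (hI.trans (erase_subset _ _)) hne _ (fun k hk => ?_) fun k h hk => ?_
          · rw [Function.update_of_ne (ne_of_mem_of_not_mem hk hiI), h1 k hk]
          · rw [Function.update_apply]
            split_ifs
            · exact h0 j (notMem_empty _) hj
            · exact h0 k h hk
    have hdeg : ∀ i ∈ Y, ε ≤ ∑ l ∈ univ.erase i, c i l := by
      intro i hi
      have := hcut {i} (singleton_subset_iff.mpr hi) (singleton_nonempty _)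
        (fun k => if k = i then 1 else 0) (by simp) (by simp +contextual)
      rw [En_split _ hs _ i, sum_eq_zero, zero_add, sum_congr rfl (g := c i)] at this
      · linarith
      · intro l hl; simp [(mem_erase.mp hl).1]
      · intro k hk
        exact sum_eq_zero fun l hl => by simp [(mem_erase.mp hl).1, (mem_erase.mp hk).1]
    have hb : 0 ≤ (ε / 2) ^ n := by positivity
    have key : ∑ i ∈ Y, (tau Y c + tau Y c) =
        ∑ i ∈ Y, ∑ l, c i l * (if l ∈ Y then Dr Y c i l + Dr Y c l i else 2 * Dr Y c i l) := by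
      have a1 : ∀ i ∈ Y, tau Y c = ∑ l, (if l ∈ Y then c i l * Dr Y c i l else 0) +
          ∑ l, (if l ∈ Y then 0 else c i l * Dr Y c i l) := by
        intro i hi
        rw [tau_eq_sum_Dr c hi, ← sum_add_distrib]
        exact sum_congr rfl fun l _ => by split_ifs <;> simp
      have a2 : ∑ i ∈ Y, ∑ l, (if l ∈ Y then c i l * Dr Y c i l else 0) =
          ∑ i ∈ Y, ∑ l, (if l ∈ Y then c i l * Dr Y c l i else 0) := by
        simp only [sum_ite_mem_eq]
        rw [sum_comm]
        exact sum_congr rfl fun i _ => sum_congr rfl fun l _ => by rw [hs]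
      rw [sum_add_distrib]
      conv_lhs => rw [sum_congr rfl a1, sum_add_distrib]
      conv_lhs => enter [2]; rw [a2]
      simp only [← sum_add_distrib]
      refine sum_congr rfl fun i _ => sum_congr rfl fun l _ => ?_
      split_ifs <;> ring
    have low : ∀ i ∈ Y, ε * (ε / 2) ^ n ≤
        ∑ l, c i l * (if l ∈ Y then Dr Y c i l + Dr Y c l i else 2 * Dr Y c i l) := by
      intro i hi
      have h0 : Dr Y c i i = 0 := det_eq_zero_of_row_eq_zero i fun k => by
        rw [updateRow_self]; grind
      rw [← add_sum_erase _ _ (mem_univ i), if_pos hi, h0, add_zero, mul_zero, zero_add]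
      refine (mul_le_mul_of_nonneg_right (hdeg i hi) hb).trans ?_
      rw [sum_mul]
      refine sum_le_sum fun l hl => mul_le_mul_of_nonneg_left ?_ (hc _ _)
      have h1 := ih i hi l (mem_erase.mp hl).1
      split_ifs with h
      · rwa [Dr_in c hi h (mem_erase.mp hl).1]
      · rw [Dr_out c hi h]; linarith
    have h3 := sum_le_sum low
    rw [← key, sum_const, sum_const, hn, nsmul_eq_mul, nsmul_eq_mul] at h3
    have h4 := le_of_mul_le_mul_left h3 (by positivity)
    rw [pow_succ]
    linarith

theorem tau_ge_of_cutC {ε : ℝ} (hε : 0 ≤ ε) (A : Finset ι) : ∀ (P : Finset ι) (c : ι → ι → ℝ),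
    Disjoint A P → (∀ i j, 0 ≤ c i j) → (∀ i j, c i j = c j i) → CutC c A P ε →
    (ε / 2) ^ P.card * tau A c ≤ tau (A ∪ P) c := by
  induction A using Finset.induction_on with
  | empty =>
    intro P c _ hc hs hcut
    have : Lp (∅ : Finset ι) c = 1 := by
      ext i j; simp [Lp, one_apply]
    rw [tau, this, det_one, mul_one, empty_union]
    exact tau_ge_of_cut hε _ _ _ rfl hc hs hcut
  | insert v A hv ih =>
    intro P c hd hc hs hcut
    have hvP : v ∉ P := disjoint_left.mp hd (mem_insert_self _ _)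
    by_cases h0 : ∑ l ∈ univ.erase v, c v l = 0
    · rw [tau_zero hc (mem_insert_self _ _) h0, mul_zero]
      exact tau_nonneg _ hc
    have hpos : 0 ≤ ∑ l ∈ univ.erase v, c v l := sum_nonneg fun l _ => hc _ _
    rw [tau_mesh (mem_insert_self _ _) h0, tau_mesh (mem_union_left _ (mem_insert_self _ _)) h0,
      erase_insert hv, insert_union, erase_insert (by simp [hv, hvP]), mul_left_comm]
    refine mul_le_mul_of_nonneg_left (ih P _ (hd.mono_left (subset_insert _ _)) (fun i j => ?_)
      (fun i j => ?_) fun I hI hne w h1 h2 => ?_) hpos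
    · have := hc i j
      have := hc i v
      have := hc v j
      unfold mesh
      split_ifs
      · exact le_rfl
      · positivity
    · simp only [mesh, or_comm (a := i = v), hs i j, hs i v, hs j v, mul_comm]
    · rw [En_mesh hs v h0]
      refine hcut I hI hne _ (fun k hk => ?_) fun k h hk => ?_
      · rw [Function.update_of_ne (ne_of_mem_of_not_mem (hI hk) hvP), h1 k hk]
      · rw [mem_insert, not_or] at h
        rw [Function.update_of_ne h.1, h2 k h.2 hk]

end Pool.Agent.Lib.MP_08beec_co.Ub
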