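import Pool.Agent.Lib.MP_08beec_co.UbStepB

/-!
The wiring step and the conclusion of the contour induction.
-/

namespace Pool.Agent.Lib.MP_08beec_co.Ub

open Finset

set_option linter.unusedSectionVars false

variable {V E Ω : Type} [Fintype V] [DecidableEq V] [Fintype E] [DecidableEq E]

namespace Gr

variable {H : Gr V E} {ρ : Ω → Setoid V} {κ x q θ Θ L : ℝ} {n : ℕ}

lemma free_diff (p : Par κ x q θ Θ L) (hC : H.Conn) (hBC : H.BC κ) (hA : H.StA ρ q n)
    (hB : H.StB ρ q θ L (n + 1)) {R : Finset V} {y : V} (r : V) (hn : R.card < n + 1) (hy : y ∈ R)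
    (hR : R ≠ univ) :
    Ab ρ q ((H.tch R).card - 1) (H.Zp ρ q (H.inn R) - dl ρ r y * H.Zp ρ q (H.inn R))
      ((3 * (L ^ (H.btw R Rᶜ).card * Θ)) •
        (wire ρ r (insert y (H.ex R)) * H.Zp ρ q (H.inn R))) := by
  have h0 : R ≠ ∅ := ne_empty_of_mem hy
  have c1 := card_tch (H := H) R
  have c2 : 1 ≤ (H.btw R Rᶜ).card :=
    card_pos.mpr (nonempty_iff_ne_empty.mpr fun h => (hC R h).elim h0 hR)
  have hd : (H.inn R).card ≤ (H.tch R).card - 1 := by omega
  have T1 := p.Th1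
  have L1 := p.L1
  have hF : 0 ≤ L ^ (H.btw R Rᶜ).card * Θ := by positivity
  have b1 := hB.weak p hC hBC r (d := (H.tch R).card - 1) hn hR (by omega)
  have pY := cone_wZ (H := H) (ρ := ρ) (q := q) r (insert y (H.ex R)) _ hd
  have b2 : Le ρ q ((H.tch R).card - 1) (wire ρ r (H.ex R) * H.Zp ρ q (H.inn R))
      ((2 : ℝ) • (wire ρ r (insert y (H.ex R)) * H.Zp ρ q (H.inn R))) := by
    by_cases hyx : y ∈ H.ex R
    · rw [insert_eq_of_mem hyx] at pY ⊢
      have := Le.of_coef pY (show (1 : ℝ) ≤ 2 by norm_num)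
      rwa [one_smul] at this
    · obtain ⟨t, ht⟩ := ex_nonempty hC h0 hR
      have mex : ∀ v w e, H.J e v w → v ∈ R → w ∉ R → v ∈ H.ex R :=
        fun v w e hj hv hw => mem_inter.mpr ⟨hv, mem_nbr'.mpr ⟨e, w, mem_compl.mpr hw, hj⟩⟩
      have h1 := hA (R \ H.ex R) (H.inn R) (H.ex R) r y ((H.tch R).card - 1) (by
          have : (R \ H.ex R).card < R.card := card_lt_card
            ⟨sdiff_subset, fun h => (mem_sdiff.mp (h (mem_inter.mp ht).1)).2 ht⟩
          omega) ⟨fun e he => by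
          have k1 := mex _ _ e (J_self e)
          have k2 := mex _ _ e (J_self e).symm
          simp only [mem_tch, mem_sdiff, mem_inn] at he ⊢
          grind, fun v hv => by
          obtain ⟨e, w, hw, hj⟩ := mem_nbr'.mp hv
          have k1 := mex _ _ e hj.symm
          simp only [mem_sdiff] at hw ⊢
          grind, fun h => (mem_sdiff.mp (h ▸ mem_univ t)).2 ht⟩
        (mem_sdiff.mpr ⟨hy, hyx⟩) (by omega)
      refine (h1.1.add (pY.smul (1 / 2) (by norm_num))).congr ?_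
      funext ω
      simp only [Pi.smul_apply, Pi.add_apply, Pi.sub_apply, smul_eq_mul]
      ring
  have a1 := Ab.of_le ((cone_Zp _).mono hd) (b1.trans (b2.smul hF))
  have b3 : Le ρ q ((H.tch R).card - 1) (dl ρ r y * H.Zp ρ q (H.inn R))
      ((L ^ (H.btw R Rᶜ).card * Θ) • (wire ρ r (insert y (H.ex R)) * H.Zp ρ q (H.inn R))) := by
    refine (Cone.del r y b1).congr ?_
    rw [wire_insert, mul_sub, mul_smul_comm, mul_assoc]
  have a2 := Ab.of_le (((cone_Zp _).mono hd).del r y) b3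
  have a3 := a1.sub a2
  rw [smul_smul, ← add_smul] at a3
  rwa [show 3 * (L ^ (H.btw R Rᶜ).card * Θ) =
    L ^ (H.btw R Rᶜ).card * Θ * 2 + L ^ (H.btw R Rᶜ).card * Θ by ring]

lemma stepA (p : Par κ x q θ Θ L) (hC : H.Conn) (hBC : H.BC κ) (hA : H.StA ρ q n)
    (hB : H.StB ρ q θ L (n + 1)) (hCn : H.StC ρ q x n) : H.StA ρ q (n + 1) := by
  intro U A T r y d hn adm hy hd
  have hXG : Disjoint U Uᶜ := disjoint_compl_right
  have hA0 : H.ar U Uᶜ = H.tch U := by
    ext e; simp only [mem_ar, mem_tch, mem_compl]; grind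
  have hGb : ∀ v ∈ Uᶜ ∩ H.nbr U, v = r ∨ v ∈ T := fun v hv =>
    (adm.2.1 v (mem_inter.mp hv).2).resolve_left (mem_compl.mp (mem_inter.mp hv).1)
  have x0 := p.x0
  have T1 := p.Th1
  have L1 := p.L1
  have hUn : (U.erase y).card < n := by have := card_erase_lt_of_mem hy; omega
  have adm' : H.Adm (U.erase y) (H.ar U Uᶜ) (insert y T) r := by
    refine ⟨hA0 ▸ tch_mono (erase_subset _ _), fun v hv => ?_, fun h => ?_⟩
    · have := adm.2.1 v (nbr_mono (erase_subset _ _) hv)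
      simp only [mem_erase, mem_insert]
      grind
    · have := h ▸ mem_univ y
      simp at this
  have hends : ∀ F ⊆ H.tch U, ∀ v ∈ H.ends F, v ∈ U.erase y ∨ v = r ∨ v ∈ insert y T := by
    intro F hF v hv
    obtain ⟨e, he, w, hj⟩ := mem_ends'.mp hv
    have h1 := hj.tch.mp (hF he)
    have h2 : w ∈ U → v ∈ U ∨ v = r ∨ v ∈ T := fun h => adm.2.1 v (mem_nbr'.mpr ⟨e, w, h, hj⟩)
    simp only [mem_erase, mem_insert]
    grind
  obtain ⟨e0, he0⟩ := nonempty_iff_ne_empty.mpr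
    fun h => (hC U h).elim (ne_empty_of_mem hy) adm.2.2
  have he1 : {e0} ⊆ H.tch U := by
    simp only [singleton_subset_iff, mem_tch, mem_btw] at he0 ⊢
    grind
  have c0 : 1 ≤ (H.tch U).card := card_pos.mpr ⟨e0, he1 (mem_singleton_self _)⟩
  have hp : Cone ρ q ((H.ar U Uᶜ).card - 1) (wire ρ r (insert y T) * H.Zp ρ q (H.ar U Uᶜ)) :=
    (cmp2 p.q2 hA hUn adm' (by omega) (hA0 ▸ he1) (hends _ he1)).2 (singleton_nonempty _)
  have hXQ : U \ {y} ≠ univ := fun h => by
    have := h ▸ mem_univ y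
    simp at this
  have e1 : wire ρ r T * H.Zp ρ q (H.ar U Uᶜ) - wire ρ r (insert y T) * H.Zp ρ q (H.ar U Uᶜ) =
      (1 - dl ρ r y) * (wire ρ r T * H.Sm ρ q (H.ar U Uᶜ) (H.Ev1 Uᶜ {y} ∅)) := by
    have h1 := Sm_split (H := H) (ρ := ρ) (q := q) (H.ar U Uᶜ) (fun _ => True)
      (fun O => H.Gd O Uᶜ y)
    rw [Sm_true (P := fun _ => True) fun _ _ => trivial] at h1
    have h2 : H.Sm ρ q (H.ar U Uᶜ) (fun O => True ∧ H.Gd O Uᶜ y) = H.Cs ρ q U Uᶜ {y} :=
      Sm_congr fun O _ => by simp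
    have h3 : H.Sm ρ q (H.ar U Uᶜ) (fun O => True ∧ ¬ H.Gd O Uᶜ y) =
        H.Sm ρ q (H.ar U Uᶜ) (H.Ev1 Uᶜ {y} ∅) := Sm_congr fun O _ => by simp [Ev1]
    have h4 := wire_Cs (H := H) (ρ := ρ) (q := q) (T' := {y}) (Tc := {y}) hXG subset_rfl
      (singleton_subset_iff.mpr hy) hGb
    have h5 : dl ρ r y * wire ρ r (T ∪ {y}) = wire ρ r (T ∪ {y}) := by
      rw [← wire_insert, insert_eq_of_mem (by simp)]
    have h6 : (1 - dl ρ r y) * (wire ρ r T * H.Cs ρ q U Uᶜ {y}) = 0 := by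
      rw [h4, sub_mul, one_mul, ← mul_assoc, h5, sub_self]
    rw [h2, h3] at h1
    rw [h1] at h6
    rw [wire_insert]
    linear_combination h6
  have key : Ab ρ q ((H.ar U Uᶜ).card - 1)
      (wire ρ r T * H.Zp ρ q (H.ar U Uᶜ) - wire ρ r (insert y T) * H.Zp ρ q (H.ar U Uᶜ))
      ((1 / 2 : ℝ) • (wire ρ r (insert y T) * H.Zp ρ q (H.ar U Uᶜ))) := by
    rw [e1, dec hC ∅ hXG (disjoint_singleton_left.mpr (by simpa using hy)) hXQ, mul_sum, mul_sum]
    refine Ab.sum _ _ (fun R => κ ^ (H.cutE U {y} R).card) hp (by norm_num) (hBC _ _ hXQ)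
      fun R hR => ?_
    obtain ⟨hRX, hQR, -, -⟩ := mem_fam.mp hR
    have hyR : y ∈ R := hQR (by simp [hy])
    have hRu : R ≠ univ := fun h => adm.2.2 (eq_univ_of_forall fun v => hRX (h ▸ mem_univ v))
    have hRt : R ∪ {y} = R := union_eq_left.mpr (by simpa using hyR)
    have hN : H.nt U {y} R = (U \ R) ∩ H.nbr R := by rw [nt, hRt]
    have hc : (U \ R) ∪ Uᶜ = Rᶜ := by
      ext v
      have : v ∈ R → v ∈ U := fun h => hRX h
      simp only [mem_union, mem_sdiff, mem_compl]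
      grind
    have hcl : H.cl U Uᶜ R = H.btw R Rᶜ := by rw [cl, hc]
    have hXG' : Disjoint (U \ R) Uᶜ := hXG.mono_left sdiff_subset
    have hGb' : ∀ v ∈ Uᶜ ∩ H.nbr (U \ R), v = r ∨ v ∈ T := fun v hv =>
      hGb v (inter_subset_inter_left (nbr_mono sdiff_subset) hv)
    rw [if_pos (disjoint_empty_right _), empty_union]
    have e2 : (1 - dl ρ r y) * (wire ρ r T * ((-q⁻¹) ^ (H.cl U Uᶜ R).card •
        (H.Zp ρ q (H.inn R) * H.Cs ρ q (U \ R) Uᶜ (H.nt U {y} R)))) =
        (-q⁻¹) ^ (H.cl U Uᶜ R).card • ((H.Zp ρ q (H.inn R) - dl ρ r y * H.Zp ρ q (H.inn R)) *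
          (wire ρ r (T ∪ H.nt U {y} R) * H.Cs ρ q (U \ R) Uᶜ (H.nt U {y} R))) := by
      rw [← wire_Cs (T' := H.nt U {y} R) hXG' subset_rfl inter_subset_left hGb', mul_smul_comm,
        mul_smul_comm]
      congr 1
      ring
    rw [e2]
    have a1 := free_diff p hC hBC hA hB r ((card_le_card hRX).trans_lt hn) hyR hRu
    have a2 := hCn (U \ R) Uᶜ (T ∪ H.nt U {y} R) (H.nt U {y} R) r (H.ar (U \ R) Uᶜ).card (by
        have : (U \ R).card < U.card := card_lt_card
          ⟨sdiff_subset, fun h => (mem_sdiff.mp (h hy)).2 hyR⟩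
        omega) hXG' (by rw [hc, compl_compl, hN])
      (by rw [hc, compl_compl, ← hN]; exact fun v hv => Or.inr (mem_union_right _ hv))
      (fun v hv => (hGb' v hv).imp_right (mem_union_left _)) le_rfl
    rw [hc, compl_compl] at a2
    have c1 := card_tch (H := H) R
    have c2 : 1 ≤ (H.btw R Rᶜ).card := card_pos.mpr (nonempty_iff_ne_empty.mpr
      fun h => (hC R h).elim (ne_empty_of_mem hyR) hRu)
    have c4 := card_ar_split (H := H) hXG hRX
    have c5 : (H.btw (U \ R) R).card ≤ (H.btw R Rᶜ).card := by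
      refine card_le_card fun e => ?_
      simp only [mem_btw, mem_sdiff, mem_compl]
      grind
    have c6 : (H.nt U {y} R).card ≤ (H.btw (U \ R) R).card := hN ▸ card_nbr_le sdiff_disjoint
    have c7 : (H.cutE U {y} R).card ≤ (H.btw R Rᶜ).card := by
      rw [cutE, hRt]; exact card_le_card inter_subset_left
    refine glue p.q2 hA hXG hRX hUn adm' (by omega) (by rw [hcl] at c4; omega) ?_ ?_ ?_
      (by positivity) (by positivity) a1 a2 hp ?_
    · refine hends _ ?_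
      rw [← hA0, ar_split hXG hRX]
      exact subset_union_left.trans subset_union_right
    · intro v hv
      simp only [mem_union, mem_insert] at hv ⊢
      rw [hcl]
      rcases hv with (hv | hv) | hv | hv
      · grind
      · obtain ⟨h1, h2⟩ := mem_inter.mp hv
        obtain ⟨e, w, hw, hj⟩ := mem_nbr'.mp h2
        exact Or.inr (Or.inr (mem_ends'.mpr ⟨e, hj.btw.mpr (Or.inl ⟨h1, hw⟩), w, hj⟩))
      · grind
      · rw [hN] at hv
        obtain ⟨h1, h2⟩ := mem_inter.mp hv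
        obtain ⟨e, w, hw, hj⟩ := mem_nbr'.mp h2
        exact Or.inr (Or.inr (mem_ends'.mpr
          ⟨e, hj.btw.mpr (Or.inr ⟨mem_compl.mpr (mem_sdiff.mp h1).2, hw⟩), w, hj⟩))
    · intro v hv
      simp only [mem_union, mem_insert] at hv ⊢
      rw [hcl] at hv
      rcases hv with hv | hv
      · grind
      · obtain ⟨e, he, w, hj⟩ := mem_ends'.mp hv
        rcases hj.btw.mp he with ⟨h2, h3⟩ | ⟨h2, h3⟩
        · exact Or.inr (Or.inl (Or.inr (mem_inter.mpr ⟨h2, mem_nbr'.mpr ⟨e, w, h3, hj⟩⟩)))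
        · by_cases h4 : v ∈ U
          · exact Or.inr (Or.inr (Or.inr (hN ▸ mem_inter.mpr
              ⟨mem_sdiff.mpr ⟨h4, mem_compl.mp h2⟩, mem_nbr'.mpr ⟨e, w, h3, hj⟩⟩)))
          · have := hGb v (mem_inter.mpr ⟨mem_compl.mpr h4, mem_nbr'.mpr ⟨e, w, hRX h3, hj⟩⟩)
            grind
    · rw [hcl]
      exact p.nA c2 c5 (c6.trans c5) c7
  rw [hA0] at key
  have k2 := (key.mul_cone (cone_Zp (H := H) (A \ H.tch U))).mono (d' := d) (by
    have := card_sdiff_add_card_eq_card adm.1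
    omega)
  rwa [smul_mul_assoc, sub_mul, mul_assoc, mul_assoc, ← Zp_union disjoint_sdiff,
    union_sdiff_of_subset adm.1] at k2

theorem all_steps (p : Par κ x q θ Θ L) (hC : H.Conn) (hN : H.NoBr) (hBC : H.BC κ) (n : ℕ) :
    H.StA ρ q n ∧ H.StB ρ q θ L n ∧ H.StC ρ q x n ∧ H.StP ρ q Θ L n := by
  induction n with
  | zero =>
    exact ⟨fun _ _ _ _ _ _ h => absurd h (Nat.not_lt_zero _),
      fun _ _ _ _ h => absurd h (Nat.not_lt_zero _),
      fun _ _ _ _ _ _ h => absurd h (Nat.not_lt_zero _),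
      fun _ _ _ _ h => absurd h (Nat.not_lt_zero _)⟩
  | succ n ih =>
    obtain ⟨hA, hB, hCn, hP⟩ := ih
    have hB' := stepB p hC hN hBC hA hB hCn
    have hC' := stepC p hC hBC hA hP hCn
    exact ⟨stepA p hC hBC hA hB' hCn, hB', hC', stepP p hC hBC hA hB' hC'⟩

/-- the partition function dominates the contracted one, in degree below the number of edges -/
theorem contour (p : Par κ x q θ Θ L) (hC : H.Conn) (hN : H.NoBr) (hBC : H.BC κ) (r : V) :
    Le ρ q (Fintype.card E - 1) (wire ρ r (H.ends univ))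
      ((8 : ℝ) ^ Fintype.card E • H.Zp ρ q univ) := by
  have := (cmp2 p.q2 (all_steps (ρ := ρ) p hC hN hBC ((univ.erase r).card + 1)).1
    (U := univ.erase r) (A := univ) (T := ∅) (r := r) (d := Fintype.card E - 1) (Nat.lt_succ_self _)
    ⟨subset_univ _, fun v _ => by simp only [mem_erase, mem_univ]; grind, fun h => by
      have := h ▸ mem_univ r
      simp at this⟩ (by rw [card_univ]; omega) subset_rfl
    (fun v _ => by simp only [mem_erase, mem_univ]; grind)).1
  simpa [wire_empty, Zp] using this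

end Gr

end Pool.Agent.Lib.MP_08beec_co.Ub
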