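import Pool.Agent.Lib.MP_08beec_co.UbStepP

/-!
The step for free regions.
-/

namespace Pool.Agent.Lib.MP_08beec_co.Ub

open Finset

set_option linter.unusedSectionVars false

variable {V E Ω : Type} [Fintype V] [DecidableEq V] [Fintype E] [DecidableEq E]

namespace Gr

variable {H : Gr V E} {ρ : Ω → Setoid V} {κ x q θ Θ L : ℝ} {n : ℕ}

lemma card_btw_compl {D R : Finset V} (hR : R ⊆ D) :
    (H.btw (D \ R) (D \ R)ᶜ).card = (H.btw R (D \ R)).card + (H.btw (D \ R) Dᶜ).card := by
  have h1 : ∀ v, v ∈ R → v ∈ D := fun v h => hR h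
  rw [← card_union_of_disjoint]
  · congr 1
    ext e
    simp only [mem_union, mem_btw, mem_sdiff, mem_compl]
    grind
  · refine disjoint_left.mpr fun e => ?_
    simp only [mem_btw, mem_sdiff, mem_compl]
    grind

lemma Gd.trans {O : Finset E} {a : V} {G : Finset V} {v : V} (h : H.Gd O {a} v) (h' : H.Gd O G a) :
    H.Gd O G v := by
  induction h with
  | base v hv => rwa [mem_singleton.mp hv]
  | step v w e he hj _ ih => exact .step v w e he hj ih

lemma erase_union_compl {D : Finset V} {t : V} (ht : t ∈ D) : (D.erase t ∪ Dᶜ)ᶜ = {t} := by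
  ext v
  simp only [mem_compl, mem_union, mem_erase, mem_singleton]
  grind

lemma pot_lt {D R : Finset V} {t t' y : V} {g : E} (ht : t ∈ D) (hR : R ∈ H.fam (D.erase t) Dᶜ)
    (hg : H.btw R (D \ R) = {g}) (ha : (H.btw (D \ R) Dᶜ).card = 1) (hj : H.J g t' y)
    (ht' : t' ∈ R) (hy : y ∈ D \ R) : H.pot R t' + 1 ≤ H.pot D t := by
  classical
  obtain ⟨hRX, -, g1, g2⟩ := mem_fam.mp hR
  have hRD : R ⊆ D := hRX.trans (erase_subset _ _)
  have htR : t ∉ R := fun h => by simpa using hRX h
  rw [erase_union_compl ht] at g2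
  have c1 := card_btw_compl (H := H) hRD
  rw [hg, ha, card_singleton] at c1
  unfold pot
  rw [← card_insert_of_notMem (a := R)]
  swap
  · intro h
    have := (mem_fam.mp (mem_filter.mp h).1).1 ht'
    simp at this
  refine card_le_card fun R' hR' => ?_
  rcases mem_insert.mp hR' with rfl | hR'
  · exact mem_filter.mpr ⟨hR, by omega⟩
  obtain ⟨hR1, hR2⟩ := mem_filter.mp hR'
  obtain ⟨hR'R, -, g3, g4⟩ := mem_fam.mp hR1
  rw [erase_union_compl ht'] at g4
  have hsub : R' ⊆ R := hR'R.trans (erase_subset _ _)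
  have ht'' : t' ∉ R' := fun h => by simpa using hR'R h
  have honly : ∀ e v w, H.J e v w → v ∈ R → w ∈ D \ R → v = t' := by
    intro e v w hj' hv hw
    have : e ∈ H.btw R (D \ R) := hj'.btw.mpr (Or.inl ⟨hv, hw⟩)
    rw [hg, mem_singleton] at this
    subst this
    have h1 := (mem_sdiff.mp hw).2
    have h2 := (mem_sdiff.mp hy).2
    unfold J at hj hj'
    grind
  refine mem_filter.mpr ⟨mem_fam.mpr ⟨hsub.trans hRX, ?_, ?_, ?_⟩, ?_⟩
  · intro v hv
    simp only [mem_inter, mem_compl, mem_erase] at hv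
    exact absurd hv.2.2 hv.1
  · have key : ∀ v, H.Gd (H.inn (R' ∪ Rᶜ)) Rᶜ v → v ∈ R' → H.Gd (H.inn (R' ∪ Dᶜ)) Dᶜ v := by
      intro v hv
      induction hv with
      | base v hv => exact fun h => absurd (hsub h) (mem_compl.mp hv)
      | step v w e he hj' _ ih =>
        intro hv
        by_cases hw : w ∈ R'
        · exact .step v w e (hj'.inn.mpr ⟨mem_union_left _ hv, mem_union_left _ hw⟩) hj' (ih hw)
        · have h1 : w ∉ R := by
            have := (hj'.inn.mp he).2
            simp only [mem_union, mem_compl] at this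
            grind
          have h2 : w ∈ Dᶜ := mem_compl.mpr fun h =>
            ht'' (honly e v w hj' (hsub hv) (mem_sdiff.mpr ⟨h, h1⟩) ▸ hv)
          exact .step v w e (hj'.inn.mpr ⟨mem_union_left _ hv, mem_union_right _ h2⟩) hj'
            (.base w h2)
    exact fun v hv => key v (g3 v hv) hv
  · rw [erase_union_compl ht]
    have s1 : D.erase t \ R ∪ {t} ⊆ D.erase t \ R' ∪ {t} :=
      union_subset_union (sdiff_subset_sdiff subset_rfl hsub) subset_rfl
    have s2 : R.erase t' \ R' ∪ {t'} ⊆ D.erase t \ R' ∪ {t} := by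
      intro v hv
      have : v ∈ R → v ∈ D := fun h => hRD h
      simp only [mem_union, mem_sdiff, mem_erase, mem_singleton] at hv ⊢
      grind
    have k1 : ∀ v ∈ D \ R, H.Gd (H.inn (D.erase t \ R' ∪ {t})) {t} v := by
      intro v hv
      by_cases h : v = t
      · exact .base v (mem_singleton.mpr h)
      · refine (g2 v ?_).mono (inn_mono s1) subset_rfl
        simp only [mem_sdiff, mem_erase] at hv ⊢
        grind
    have k2 : H.Gd (H.inn (D.erase t \ R' ∪ {t})) {t} t' := by
      refine .step t' y g (hj.inn.mpr ⟨s2 (by simp), s1 ?_⟩) hj (k1 y hy)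
      simp only [mem_union, mem_sdiff, mem_erase, mem_singleton] at hy ⊢
      grind
    intro v hv
    by_cases h : v ∈ R
    · by_cases h' : v = t'
      · exact h' ▸ k2
      · refine ((g4 v ?_).mono (inn_mono s2) subset_rfl).trans k2
        simp only [mem_sdiff, mem_erase] at hv ⊢
        grind
    · exact k1 v (mem_sdiff.mpr ⟨(erase_subset _ _) (mem_sdiff.mp hv).1, h⟩)
  · have m1 : g ∈ H.btw (D \ R) (D \ R)ᶜ := hj.btw.mpr (Or.inr ⟨by simp [ht'], hy⟩)
    have m2 : g ∈ H.btw (R \ R') (R \ R')ᶜ := hj.btw.mpr (Or.inl ⟨mem_sdiff.mpr ⟨ht', ht''⟩, by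
      have := (mem_sdiff.mp hy).2
      simp [this]⟩)
    have s3 : H.btw (D \ R') (D \ R')ᶜ ⊆
        (H.btw (D \ R) (D \ R)ᶜ).erase g ∪ (H.btw (R \ R') (R \ R')ᶜ).erase g := by
      intro e he
      have hne : e ≠ g := by
        rintro rfl
        have h1 := hj.btw.mp he
        have h2 : y ∉ R' := fun h => (mem_sdiff.mp hy).2 (hsub h)
        have h3 := hRD ht'
        have h4 := (mem_sdiff.mp hy).1
        simp only [mem_sdiff, mem_compl] at h1
        grind
      have h1 : ∀ v, v ∈ R → v ∈ D := fun v h => hRD h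
      have h2 : ∀ v, v ∈ R' → v ∈ R := fun v h => hsub h
      simp only [mem_union, mem_erase, mem_btw, mem_sdiff, mem_compl] at he ⊢
      grind
    have := (card_le_card s3).trans (card_union_le _ _)
    rw [card_erase_of_mem m1, card_erase_of_mem m2] at this
    omega

lemma stepB (p : Par κ x q θ Θ L) (hC : H.Conn) (hN : H.NoBr) (hBC : H.BC κ) (hA : H.StA ρ q n)
    (hB : H.StB ρ q θ L n) (hCn : H.StC ρ q x n) : H.StB ρ q θ L (n + 1) := by
  intro D t r d hn ht hd
  obtain ⟨htD, htn⟩ := mem_inter.mp ht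
  obtain ⟨e0, w0, hw0, hj0⟩ := mem_nbr'.mp htn
  have hXG : Disjoint (D.erase t) {t} := by simp
  have hD : D.erase t ∪ {t} = D := by
    ext v; simp only [mem_union, mem_erase, mem_singleton]; grind
  have hne : ({t} : Finset V).Nonempty := singleton_nonempty t
  have x0 := p.x0
  have T1 := p.Th1
  have L1 := p.L1
  have t1 := p.th1
  have q0 := p.q0
  have hcX : (D.erase t).card < D.card := card_erase_lt_of_mem htD
  obtain ⟨e1, e2⟩ := inn_split (H := H) hXG
  rw [hD] at e1
  have c0 := card_tch (H := H) D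
  have c00 : (H.inn D).card = (H.ar (D.erase t) {t}).card + (H.inn {t}).card := by
    rw [e1, card_union_of_disjoint e2]
  have ha : 1 ≤ (H.btw D Dᶜ).card := card_pos.mpr ⟨e0, hj0.btw.mpr (Or.inl ⟨htD, hw0⟩)⟩
  have key : Ab ρ q ((H.ar (D.erase t) {t}).card + (H.btw D Dᶜ).card - 1)
      (H.Zp ρ q (H.ar (D.erase t) {t})) ((L ^ (H.btw D Dᶜ).card * θ ^ H.pot D t) •
        (wire ρ r ({t} ∪ H.ex (D.erase t ∪ {t})) * H.Zp ρ q (H.ar (D.erase t) {t}))) := by
    conv => enter [4]; rw [dec2 hC hXG hne]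
    refine Ab.sum _ _ (fun R => κ ^ (H.cutE (D.erase t) (D.erase t ∪ {t})ᶜ R).card)
      (cone_wZ _ _ _ (by omega))
      (by positivity) (hBC _ _ (sdiff_compl_ne hXG hne)) fun R hR => ?_
    have hRX := (mem_fam.mp hR).1
    have hRD : R ⊆ D := hRX.trans (erase_subset _ _)
    have htR : t ∉ R := fun h => by simpa using hRX h
    have hRu : R ≠ univ := fun h => htR (h ▸ mem_univ t)
    have hcl : H.cl (D.erase t) {t} R = H.btw R (D \ R) := by
      unfold cl
      congr 1
      ext v; simp only [mem_union, mem_erase, mem_singleton, mem_sdiff]; grind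
    have c1 := card_tch (H := H) R
    have c2 := card_btw_R (H := H) hXG hRX
    have c3 := card_btw_sdiff (H := H) (X := D) (Q := Dᶜ) disjoint_compl_right hRD
    have c4 := card_ar_split (H := H) hXG hRX
    have c5 := card_b2 (H := H) (D.erase t) {t} R
    have c6 := card_btw_compl (H := H) hRD
    have c7 := hN (D \ R)
    have c8 : 1 ≤ (H.btw (D \ R) Dᶜ).card :=
      card_pos.mpr ⟨e0, hj0.btw.mpr (Or.inl ⟨mem_sdiff.mpr ⟨htD, htR⟩, hw0⟩)⟩
    have c9 : (H.btw (D.erase t \ R) Dᶜ).card ≤ (H.btw (D \ R) Dᶜ).card := by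
      refine card_le_card fun e => ?_
      simp only [mem_btw, mem_sdiff, mem_erase, mem_compl]
      grind
    have c10 := card_cutE (H := H) (G := {t}) hRX
    have c11 := card_nt (H := H) (X := D.erase t) (G := {t}) (R := R)
    have c12 : (H.inn R).card ≤ (H.tch R).card - 1 := by
      by_cases h0 : R = ∅
      · have : H.inn R = ∅ := by ext e; simp [h0]
        simp [this]
      · have : H.btw R Rᶜ ≠ ∅ := fun h => (hC R h).elim h0 hRu
        have := card_pos.mpr (nonempty_iff_ne_empty.mpr this)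
        omega
    rw [← hcl] at c6
    have hRn : R.card < n := by have := card_le_card hRX; omega
    obtain ⟨T', hT0, a1, hT⟩ : ∃ T', 0 ≤ T' ∧ Le ρ q ((H.tch R).card - 1) (H.Zp ρ q (H.inn R))
        ((L ^ (H.btw R Rᶜ).card * T') • (wire ρ r (H.ex R) * H.Zp ρ q (H.inn R))) ∧
        (((H.btw (D \ R) Dᶜ).card = 1 ∧ (H.cl (D.erase t) {t} R).card = 1 ∧
          θ * T' ≤ θ ^ H.pot D t) ∨ (T' ≤ Θ ∧ (2 ≤ (H.btw (D \ R) Dᶜ).card ∨
            ((H.btw (D \ R) Dᶜ).card = 1 ∧ 2 ≤ (H.cl (D.erase t) {t} R).card)))) := by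
      by_cases h11 : (H.btw (D \ R) Dᶜ).card = 1 ∧ (H.cl (D.erase t) {t} R).card = 1
      · obtain ⟨g, hg⟩ := card_eq_one.mp h11.2
        rw [hcl] at hg
        obtain ⟨t', y, hj, ht', hy⟩ : ∃ t' y, H.J g t' y ∧ t' ∈ R ∧ y ∈ D \ R := by
          have : g ∈ H.btw R (D \ R) := hg ▸ mem_singleton_self g
          rcases mem_btw.mp this with h | h
          · exact ⟨_, _, J_self g, h⟩
          · exact ⟨_, _, (J_self g).symm, h.symm⟩
        have h1 := pot_lt htD (by rwa [hD] at hR) hg h11.1 hj ht' hy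
        refine ⟨θ ^ H.pot R t', by positivity, hB R t' r _ hRn (mem_inter.mpr ⟨ht',
          mem_nbr'.mpr ⟨g, y, mem_compl.mpr (mem_sdiff.mp hy).2, hj⟩⟩) (by omega),
          Or.inl ⟨h11.1, h11.2, ?_⟩⟩
        rw [← pow_succ']
        exact pow_le_pow_right₀ t1 h1
      · exact ⟨Θ, by positivity, hB.weak p hC hBC r hRn hRu (by omega), Or.inr ⟨le_rfl, by omega⟩⟩
    have a2 := hCn.nt (T := ∅) (r := t) hXG hRX
      (by have := card_le_card (sdiff_subset (s := D.erase t) (t := R)); omega) (by simp)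
    rw [wire_empty, one_mul, empty_union] at a2
    have a3 := (a2.mono (Nat.le_succ _)).trans ((le_wire_root q0 (cone_wZ t _ _ le_rfl) r t).smul
      (by positivity))
    rw [smul_smul, ← mul_assoc, wire_root, insert_eq] at a3
    refine glue2 p.q2 hA hXG hRX hne (by simp) ?_ (by omega) ?_ (by positivity) (by positivity)
      (Ab.of_le ((cone_Zp _).mono c12) a1) a3 ?_
    · have := card_le_card (sdiff_subset (s := D.erase t) (t := H.ex (D.erase t ∪ {t})))
      omega
    · rw [hD] at c2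
      omega
    · rw [hD] at c2 c5 c10 c11 ⊢
      rw [c2, c3]
      exact p.nB (by omega) (by omega) (by omega) hT0 (one_le_pow₀ t1) hT
  have k2 := (key.le.mul_cone (cone_Zp (H := H) (H.inn {t}))).mono (d' := d) (by omega)
  rw [smul_mul_assoc, mul_assoc, ← Zp_union e2, ← e1, hD,
    union_eq_right.mpr (singleton_subset_iff.mpr ht)] at k2
  exact k2

end Gr

end Pool.Agent.Lib.MP_08beec_co.Ub
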