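import Pool.Agent.Lib.MP_08beec_co.UbCmp

/-!
The step for constrained regions.
-/

namespace Pool.Agent.Lib.MP_08beec_co.Ub

open Finset

set_option linter.unusedSectionVars false

variable {V E Ω : Type} [Fintype V] [DecidableEq V] [Fintype E] [DecidableEq E]

namespace Gr

variable {H : Gr V E} {ρ : Ω → Setoid V} {κ x q θ Θ L : ℝ} {n : ℕ}

lemma abs_u (hq : 0 < q) (s : ℕ) : |(-q⁻¹) ^ s| = q⁻¹ ^ s := by
  rw [abs_pow, abs_neg, abs_of_pos (inv_pos.mpr hq)]

lemma mem_ends' {F : Finset E} {v : V} : v ∈ H.ends F ↔ ∃ e ∈ F, ∃ w, H.J e v w := by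
  rw [mem_ends]
  constructor
  · rintro ⟨e, he, rfl | rfl⟩
    · exact ⟨e, he, _, J_self e⟩
    · exact ⟨e, he, _, (J_self e).symm⟩
  · rintro ⟨e, he, w, ⟨h, -⟩ | ⟨-, h⟩⟩
    · exact ⟨e, he, Or.inl h⟩
    · exact ⟨e, he, Or.inr h⟩

/-- the common end of each estimate: two bounded factors are compared with the whole region -/
lemma glue (hq : 2 ≤ q) (hA : H.StA ρ q n) {X G R U T T1 T2 : Finset V} {r : V} {d d1 d2 : ℕ}
    (hXG : Disjoint X G) (hR : R ⊆ X) (hU : U.card < n) (adm : H.Adm U (H.ar X G) T r)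
    (hd : (H.ar X G).card ≤ d + 1) (hd' : d1 + d2 ≤ d)
    (hE : ∀ v ∈ H.ends (H.cl X G R), v ∈ U ∨ v = r ∨ v ∈ T)
    (h1 : ∀ v ∈ T1 ∪ T2, v = r ∨ v ∈ T ∪ H.ends (H.cl X G R))
    (h2 : ∀ v ∈ T ∪ H.ends (H.cl X G R), v = r ∨ v ∈ T1 ∪ T2)
    {g1 g2 : Ω → ℝ} {c1 c2 c : ℝ} (hc1 : 0 ≤ c1) (hc2 : 0 ≤ c2)
    (a1 : Ab ρ q d1 g1 (c1 • (wire ρ r T1 * H.Zp ρ q (H.inn R))))
    (a2 : Ab ρ q d2 g2 (c2 • (wire ρ r T2 * H.Zp ρ q (H.ar (X \ R) G))))
    (hp : Cone ρ q d (wire ρ r T * H.Zp ρ q (H.ar X G)))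
    (hc : q⁻¹ ^ (H.cl X G R).card * (c1 * c2 * 8 ^ (H.cl X G R).card) ≤ c) :
    Ab ρ q d ((-q⁻¹) ^ (H.cl X G R).card • (g1 * g2)) (c • (wire ρ r T * H.Zp ρ q (H.ar X G))) := by
  have hF : H.cl X G R ⊆ H.ar X G := by
    rw [ar_split hXG hR]; exact subset_union_left.trans subset_union_right
  have k1 := (cmp2 hq hA hU adm hd hF hE).1
  have k2 := (a1.mul a2).mono hd'
  rw [smul_mul_smul_comm, mul_mul_mul_comm, wire_union, wire_congr h1 h2, Zp_ar_sdiff hXG hR] at k2
  have k3 := (k2.trans (k1.smul (mul_nonneg hc1 hc2))).smul ((-q⁻¹) ^ (H.cl X G R).card)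
  rw [abs_u (by linarith), smul_smul, smul_smul, mul_assoc] at k3
  exact k3.trans (Le.of_coef hp hc)

lemma card_btw_le {A B : Finset E} {S1 S2 : Finset E} (h : A ∪ B ⊆ S1 ∪ S2) (hd : Disjoint A B) :
    A.card + B.card ≤ S1.card + S2.card := by
  rw [← card_union_of_disjoint hd]
  exact (card_le_card h).trans (card_union_le _ _)

lemma stepC (p : Par κ x q θ Θ L) (hC : H.Conn) (hBC : H.BC κ) (hA : H.StA ρ q n)
    (hP : H.StP ρ q Θ L n) (hCn : H.StC ρ q x n) : H.StC ρ q x (n + 1) := by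
  intro X G T Tc r d hX hXG hTc hEx hGb hd
  have hp : Cone ρ q d (wire ρ r T * H.Zp ρ q (H.ar X G)) := cone_wZ _ _ _ hd
  have x0 := p.x0
  induction Tc using Finset.induction_on with
  | empty =>
    have : H.Cs ρ q X G ∅ = H.Zp ρ q (H.ar X G) := Sm_true (by simp)
    rw [this, card_empty, pow_zero, mul_one]
    refine Ab.of_le hp ?_
    have := Le.of_coef hp (one_le_pow₀ p.x1 (n := (H.btw X (X ∪ G)ᶜ).card))
    rwa [one_smul] at this
  | insert t Tc ht ih =>
    have hTc' := (subset_insert _ _).trans hTc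
    have ih' := ih hTc'
    have htX := hTc (mem_insert_self _ _)
    have htX' := (mem_inter.mp htX).1
    have e1 : H.Cs ρ q X G (insert t Tc) =
        H.Cs ρ q X G Tc - H.Sm ρ q (H.ar X G) (H.Ev1 G {t} Tc) := by
      have := Sm_split (H := H) (ρ := ρ) (q := q) (H.ar X G) (fun O => ∀ t ∈ Tc, H.Gd O G t)
        (fun O => H.Gd O G t)
      rw [Cs, Cs, Sm_congr (P' := fun O => (∀ t ∈ Tc, H.Gd O G t) ∧ H.Gd O G t)
        (fun O _ => by rw [forall_mem_insert, and_comm]), this]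
      congr 1
      exact Sm_congr fun O _ => by simp [Ev1]
    have hXQ : X \ {t} ≠ univ := fun h => by
      have := h ▸ mem_univ t
      simp at this
    rw [e1, dec hC Tc hXG (disjoint_singleton_left.mpr (disjoint_left.mp hXG htX')) hXQ, mul_sub,
      mul_sum]
    have h2 := Ab.sum (ρ := ρ) (q := q) (d := d) (H.fam X {t}) (fun R => wire ρ r T *
      if Disjoint R Tc then (-q⁻¹) ^ (H.cl X G R).card •
        (H.Zp ρ q (H.inn R) * H.Cs ρ q (X \ R) G (Tc ∪ H.nt X {t} R)) else 0)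
      (fun R => κ ^ (H.cutE X {t} R).card)
      (c := x ^ (H.btw X (X ∪ G)ᶜ).card * 2 ^ Tc.card) hp (by positivity) (hBC X {t} hXQ) ?_
    · have h3 := ih'.sub h2
      rw [← add_smul] at h3
      rw [card_insert_of_notMem ht, pow_succ, ← mul_assoc, mul_two]
      exact h3
    intro R hR
    obtain ⟨hRX, hQR, -, -⟩ := mem_fam.mp hR
    have htR : t ∈ R := hQR (by simp [htX'])
    have k0 := p.k0
    split_ifs with hdis
    swap
    · rw [mul_zero]
      have := hp.smul (x ^ (H.btw X (X ∪ G)ᶜ).card * 2 ^ Tc.card * κ ^ (H.cutE X {t} R).card)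
        (by positivity)
      exact ⟨by rwa [sub_zero], by rwa [add_zero]⟩
    have hXG' : Disjoint (X \ R) G := hXG.mono_left sdiff_subset
    have hRt : R ∪ {t} = R := union_eq_left.mpr (by simpa using htR)
    have hN : H.nt X {t} R = (X \ R) ∩ H.nbr R := by rw [nt, hRt]
    have hGb' : ∀ v ∈ G ∩ H.nbr (X \ R), v = r ∨ v ∈ T := fun v hv =>
      hGb v (inter_subset_inter_left (nbr_mono sdiff_subset) hv)
    have e2 : wire ρ r T * ((-q⁻¹) ^ (H.cl X G R).card •
        (H.Zp ρ q (H.inn R) * H.Cs ρ q (X \ R) G (Tc ∪ H.nt X {t} R))) =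
        (-q⁻¹) ^ (H.cl X G R).card • ((wire ρ r T * H.Zp ρ q (H.inn R)) *
          (wire ρ r (T ∪ H.nt X {t} R) * H.Cs ρ q (X \ R) G (Tc ∪ H.nt X {t} R))) := by
      rw [← wire_Cs (T' := H.nt X {t} R) hXG' subset_union_right inter_subset_left hGb', mul_smul_comm,
        mul_mul_mul_comm, wire_union, union_self]
    rw [e2]
    have hb1 : (H.btw (R \ insert r T) Rᶜ).card ≤ (H.cl X G R).card := by
      refine card_le_card fun e he => ?_
      have key : ∀ v w, H.J e v w → v ∈ R \ insert r T → w ∉ R → e ∈ H.cl X G R := by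
        intro v w hj hv hw
        rw [mem_sdiff, mem_insert] at hv
        refine hj.btw.mpr (Or.inl ⟨hv.1, ?_⟩)
        by_contra hn
        refine hv.2 (hEx v (mem_inter.mpr ⟨hRX hv.1, mem_nbr'.mpr ⟨e, w, ?_, hj⟩⟩))
        simp only [mem_union, mem_sdiff, mem_compl] at hn ⊢
        grind
      rcases mem_btw.mp he with ⟨h1, h2⟩ | ⟨h1, h2⟩
      · exact key _ _ (J_self e) h1 (mem_compl.mp h2)
      · exact key _ _ (J_self e).symm h2 (mem_compl.mp h1)
    have htT : t ∈ insert r T := mem_insert.mpr (hEx t htX)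
    have a1 := hP R T r ((H.inn R).card + (H.cl X G R).card) (by
        have : (R \ insert r T).card < X.card := card_lt_card
          ⟨sdiff_subset.trans hRX, fun h => (mem_sdiff.mp (h htX')).2 htT⟩
        omega) ⟨t, mem_inter.mpr ⟨htR, htT⟩⟩ (by omega)
    have hcompl : ((X \ R) ∪ G)ᶜ = (X ∪ G)ᶜ ∪ R := by
      ext v
      have : v ∈ R → v ∈ X := fun h => hRX h
      have : v ∈ X → v ∉ G := fun h => disjoint_left.mp hXG h
      simp only [mem_compl, mem_union, mem_sdiff]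
      grind
    have hnb : ∀ v, v ∈ H.nbr ((X ∪ G)ᶜ ∪ R) ↔ v ∈ H.nbr (X ∪ G)ᶜ ∨ v ∈ H.nbr R := by
      intro v
      simp only [mem_nbr', mem_union (s := (X ∪ G)ᶜ)]
      constructor
      · rintro ⟨e, w, h | h, hj⟩
        · exact Or.inl ⟨e, w, h, hj⟩
        · exact Or.inr ⟨e, w, h, hj⟩
      · rintro (⟨e, w, h, hj⟩ | ⟨e, w, h, hj⟩)
        · exact ⟨e, w, Or.inl h, hj⟩
        · exact ⟨e, w, Or.inr h, hj⟩
    have a2 := hCn (X \ R) G (T ∪ H.nt X {t} R) (Tc ∪ H.nt X {t} R) r (H.ar (X \ R) G).card (by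
        have : (X \ R).card < X.card := card_lt_card
          ⟨sdiff_subset, fun h => (mem_sdiff.mp (h htX')).2 htR⟩
        omega) hXG' (by
        intro v hv
        rw [hcompl, mem_inter, hnb]
        rcases mem_union.mp hv with hv | hv
        · have h1 := mem_inter.mp (hTc' hv)
          exact ⟨mem_sdiff.mpr ⟨h1.1, disjoint_right.mp hdis hv⟩, Or.inl h1.2⟩
        · rw [hN, mem_inter] at hv
          exact ⟨hv.1, Or.inr hv.2⟩) (by
        intro v hv
        rw [hcompl, mem_inter, hnb] at hv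
        rcases hv.2 with h1 | h1
        · exact (hEx v (mem_inter.mpr ⟨(mem_sdiff.mp hv.1).1, h1⟩)).imp_right (mem_union_left _)
        · exact Or.inr (mem_union_right _ (hN ▸ mem_inter.mpr ⟨hv.1, h1⟩)))
      (fun v hv => (hGb' v hv).imp_right (mem_union_left _)) le_rfl
    have L0 : 0 ≤ Θ * L := mul_nonneg (by linarith [p.Th1]) (by linarith [p.L1])
    refine glue p.q2 hA (U := X \ insert r T) hXG hRX ?_ ⟨?_, ?_, ?_⟩ (by omega) ?_ ?_ ?_ ?_
      (pow_nonneg L0 _) (by positivity) (Ab.of_le (cone_wZ _ _ _ (by omega)) a1) a2 hp ?_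
    · have : (X \ insert r T).card < X.card := card_lt_card
          ⟨sdiff_subset, fun h => (mem_sdiff.mp (h htX')).2 htT⟩
      omega
    · intro e he
      have key : ∀ v w, H.J e v w → v ∈ X \ insert r T → e ∈ H.ar X G := by
        intro v w hj hv
        rw [mem_sdiff, mem_insert] at hv
        refine hj.ar.mpr ⟨Or.inl hv.1, Or.inl hv.1, ?_⟩
        by_contra hn
        refine hv.2 (hEx v (mem_inter.mpr ⟨hv.1, mem_nbr'.mpr ⟨e, w, ?_, hj⟩⟩))
        simpa only [mem_union, mem_compl] using hn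
      rcases mem_tch.mp he with h1 | h1
      · exact key _ _ (J_self e) h1
      · exact key _ _ (J_self e).symm h1
    · intro v hv
      obtain ⟨e, w, hw, hj⟩ := mem_nbr'.mp hv
      rw [mem_sdiff, mem_insert] at hw
      by_cases h1 : v ∈ X
      · rw [mem_sdiff, mem_insert]; grind
      · by_cases h2 : v ∈ G
        · exact Or.inr (hGb v (mem_inter.mpr ⟨h2, mem_nbr'.mpr ⟨e, w, hw.1, hj⟩⟩))
        · refine absurd (hEx w (mem_inter.mpr ⟨hw.1, mem_nbr'.mpr ⟨e, v, ?_, hj.symm⟩⟩)) hw.2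
          simp [h1, h2]
    · intro h
      have := h ▸ mem_univ r
      simp at this
    · have := card_ar_split (H := H) hXG hRX
      omega
    · intro v hv
      obtain ⟨e, he, w, hj⟩ := mem_ends'.mp hv
      by_cases h1 : v ∈ X
      · rw [mem_sdiff, mem_insert]; grind
      · rcases hj.btw.mp he with ⟨h2, _⟩ | ⟨h2, h3⟩
        · exact absurd (hRX h2) h1
        · have h4 : v ∈ G := by
            simp only [mem_union, mem_sdiff] at h2; grind
          exact Or.inr (hGb v (mem_inter.mpr ⟨h4, mem_nbr'.mpr ⟨e, w, hRX h3, hj⟩⟩))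
    · intro v hv
      simp only [mem_union] at hv ⊢
      rcases hv with (hv | hv) | hv | hv
      · grind
      · obtain ⟨h1, h2⟩ := mem_inter.mp hv
        obtain ⟨e, w, hw, hj⟩ := mem_nbr'.mp h2
        by_cases h3 : w ∈ X \ R ∪ G
        · exact Or.inr (Or.inr (mem_ends'.mpr ⟨e, hj.btw.mpr (Or.inl ⟨h1, h3⟩), w, hj⟩))
        · have := hEx v (mem_inter.mpr ⟨hRX h1, mem_nbr'.mpr ⟨e, w, by
            simp only [mem_union, mem_sdiff, mem_compl] at h3 hw ⊢; grind, hj⟩⟩)
          grind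
      · grind
      · rw [hN] at hv
        obtain ⟨h1, h2⟩ := mem_inter.mp hv
        obtain ⟨e, w, hw, hj⟩ := mem_nbr'.mp h2
        exact Or.inr (Or.inr (mem_ends'.mpr
          ⟨e, hj.btw.mpr (Or.inr ⟨mem_union_left _ h1, hw⟩), w, hj⟩))
    · intro v hv
      simp only [mem_union] at hv ⊢
      rcases hv with hv | hv
      · grind
      · obtain ⟨e, he, w, hj⟩ := mem_ends'.mp hv
        rcases hj.btw.mp he with ⟨h2, h3⟩ | ⟨h2, h3⟩
        · refine Or.inr (Or.inl (Or.inr (mem_inter.mpr ⟨h2, mem_nbr'.mpr ⟨e, w, ?_, hj⟩⟩)))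
          rcases mem_union.mp h3 with h3 | h3
          · exact mem_compl.mpr (mem_sdiff.mp h3).2
          · exact mem_compl.mpr fun h4 => disjoint_left.mp hXG (hRX h4) h3
        · rcases mem_union.mp h2 with h2 | h2
          · exact Or.inr (Or.inr (Or.inr (hN ▸ mem_inter.mpr ⟨h2, mem_nbr'.mpr ⟨e, w, h3, hj⟩⟩)))
          · have := hGb v (mem_inter.mpr ⟨h2, mem_nbr'.mpr ⟨e, w, hRX h3, hj⟩⟩)
            grind
    · refine p.nC (a := (H.btw R (X ∪ G)ᶜ).card) ?_ hb1 ?_ ?_
      · rw [hcompl]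
        refine card_btw_le (fun e => ?_) (disjoint_left.mpr fun e => ?_)
        · have : H.s e ∈ R → H.s e ∈ X := fun h => hRX h
          have : H.t e ∈ R → H.t e ∈ X := fun h => hRX h
          simp only [cl, mem_union, mem_btw, mem_sdiff, mem_compl]
          grind
        · have : H.s e ∈ R → H.s e ∈ X := fun h => hRX h
          have : H.t e ∈ R → H.t e ∈ X := fun h => hRX h
          simp only [mem_union, mem_btw, mem_sdiff, mem_compl]
          grind
      · refine (card_union_le _ _).trans (Nat.add_le_add_left ?_ _)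
        rw [hN]
        refine (card_nbr_le sdiff_disjoint).trans (card_le_card fun e => ?_)
        simp only [cl, mem_union, mem_btw, mem_sdiff]
        grind
      · refine le_trans (card_le_card fun e => ?_) (card_union_le _ _)
        rw [cutE, hRt]
        simp only [cl, mem_union, mem_btw, mem_sdiff, mem_compl, mem_inter]
        grind

end Gr

end Pool.Agent.Lib.MP_08beec_co.Ub
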