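import Pool.Agent.Lib.MP_08beec_co.UbStepC

/-!
The steps for free regions and for regions with some wired vertices.
-/

namespace Pool.Agent.Lib.MP_08beec_co.Ub

open Finset

set_option linter.unusedSectionVars false

variable {V E Ω : Type} [Fintype V] [DecidableEq V] [Fintype E] [DecidableEq E]

namespace Gr

variable {H : Gr V E} {ρ : Ω → Setoid V} {κ x q θ Θ L : ℝ} {n : ℕ}

lemma sdiff_compl_ne {X G : Finset V} (hXG : Disjoint X G) (hG : G.Nonempty) :
    X \ (X ∪ G)ᶜ ≠ univ := fun h => by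
  obtain ⟨g, hg⟩ := hG
  exact disjoint_left.mp hXG (mem_sdiff.mp (h ▸ mem_univ g)).1 hg

lemma dec2 (hC : H.Conn) {X G : Finset V} (hXG : Disjoint X G) (hG : G.Nonempty) :
    H.Zp ρ q (H.ar X G) = ∑ R ∈ H.fam X (X ∪ G)ᶜ, (-q⁻¹) ^ (H.cl X G R).card •
      (H.Zp ρ q (H.inn R) * H.Cs ρ q (X \ R) G (H.nt X (X ∪ G)ᶜ R)) := by
  have hQG : Disjoint (X ∪ G)ᶜ G := disjoint_left.mpr fun v hv hg =>
    mem_compl.mp hv (mem_union_right _ hg)
  have := dec (ρ := ρ) (q := q) hC ∅ hXG hQG (sdiff_compl_ne hXG hG)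
  rw [Sm_true] at this
  · simpa using this
  · intro O hO
    refine ⟨by simp, fun v hv hg => ?_⟩
    rw [mem_compl, mem_union] at hv
    cases hg with
    | base _ h => exact hv (Or.inr h)
    | step _ w e he hj _ => exact hv (hj.ar.mp (hO he)).2.1

lemma compl_sdiff_union {X G R : Finset V} (hXG : Disjoint X G) (hR : R ⊆ X) :
    ((X \ R) ∪ G)ᶜ = R ∪ (X ∪ G)ᶜ := by
  ext v
  have : v ∈ R → v ∈ X := fun h => hR h
  have : v ∈ X → v ∉ G := fun h => disjoint_left.mp hXG h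
  simp only [mem_compl, mem_union, mem_sdiff]
  grind

/-- the constrained factor in the second decomposition -/
lemma StC.nt (hCn : H.StC ρ q x n) {X G R T : Finset V} {r : V} (hXG : Disjoint X G) (hR : R ⊆ X)
    (hn : (X \ R).card < n) (hG : ∀ v ∈ G, v = r ∨ v ∈ T) :
    Ab ρ q (H.ar (X \ R) G).card (wire ρ r T * H.Cs ρ q (X \ R) G (H.nt X (X ∪ G)ᶜ R))
      ((x ^ (H.btw (X \ R) (R ∪ (X ∪ G)ᶜ)).card * 2 ^ (H.nt X (X ∪ G)ᶜ R).card) •
        (wire ρ r (T ∪ H.nt X (X ∪ G)ᶜ R) * H.Zp ρ q (H.ar (X \ R) G))) := by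
  have hXG' : Disjoint (X \ R) G := hXG.mono_left sdiff_subset
  rw [wire_Cs (T' := H.nt X (X ∪ G)ᶜ R) hXG' subset_rfl inter_subset_left
    fun v hv => hG v (mem_inter.mp hv).1]
  have := hCn (X \ R) G (T ∪ H.nt X (X ∪ G)ᶜ R) (H.nt X (X ∪ G)ᶜ R) r _ hn hXG'
    (by rw [compl_sdiff_union hXG hR]; exact subset_rfl)
    (by rw [compl_sdiff_union hXG hR]; exact fun v hv => Or.inr (mem_union_right _ hv))
    (fun v hv => (hG v (mem_inter.mp hv).1).imp_right (mem_union_left _)) le_rfl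
  rwa [compl_sdiff_union hXG hR] at this

lemma glue2 (hq : 2 ≤ q) (hA : H.StA ρ q n) {X G R T : Finset V} {r : V} {d d1 d2 : ℕ}
    (hXG : Disjoint X G) (hR : R ⊆ X) (hG0 : G.Nonempty) (hG : ∀ v ∈ G, v = r ∨ v ∈ T)
    (hU : (X \ H.ex (X ∪ G)).card < n)
    (hd : (H.ar X G).card ≤ d) (hd' : d1 + d2 ≤ d)
    {g1 g2 : Ω → ℝ} {c1 c2 c : ℝ} (hc1 : 0 ≤ c1) (hc2 : 0 ≤ c2)
    (a1 : Ab ρ q d1 g1 (c1 • (wire ρ r (H.ex R) * H.Zp ρ q (H.inn R))))
    (a2 : Ab ρ q d2 g2 (c2 • (wire ρ r (T ∪ H.nt X (X ∪ G)ᶜ R) * H.Zp ρ q (H.ar (X \ R) G))))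
    (hc : q⁻¹ ^ (H.cl X G R).card * (c1 * c2 * 8 ^ (H.cl X G R).card) ≤ c) :
    Ab ρ q d ((-q⁻¹) ^ (H.cl X G R).card • (g1 * g2))
      (c • (wire ρ r (T ∪ H.ex (X ∪ G)) * H.Zp ρ q (H.ar X G))) := by
  have mex : ∀ v w e, H.J e v w → v ∈ X ∪ G → w ∉ X ∪ G → v ∈ H.ex (X ∪ G) :=
    fun v w e hj hv hw => mem_inter.mpr ⟨hv, mem_nbr'.mpr ⟨e, w, mem_compl.mpr hw, hj⟩⟩
  refine glue hq hA (U := X \ H.ex (X ∪ G)) hXG hR hU ⟨?_, ?_, ?_⟩ (by omega) hd' ?_ ?_ ?_
    hc1 hc2 a1 a2 (cone_wZ _ _ _ hd) hc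
  · intro e he
    have key : ∀ v w, H.J e v w → v ∈ X \ H.ex (X ∪ G) → e ∈ H.ar X G := by
      intro v w hj hv
      rw [mem_sdiff] at hv
      refine hj.ar.mpr ⟨Or.inl hv.1, Or.inl hv.1, ?_⟩
      by_contra hn
      exact hv.2 (mex v w e hj (mem_union_left _ hv.1) (by simpa only [mem_union] using hn))
    rcases mem_tch.mp he with h1 | h1
    · exact key _ _ (J_self e) h1
    · exact key _ _ (J_self e).symm h1
  · intro v hv
    obtain ⟨e, w, hw, hj⟩ := mem_nbr'.mp hv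
    rw [mem_sdiff] at hw
    have h1 := mex w v e hj.symm (mem_union_left _ hw.1)
    have h2 := hG v
    simp only [mem_union, mem_sdiff] at h1 ⊢
    grind
  · intro h
    obtain ⟨g, hg⟩ := hG0
    exact disjoint_left.mp hXG (mem_sdiff.mp (h ▸ mem_univ g)).1 hg
  · intro v hv
    obtain ⟨e, he, w, hj⟩ := mem_ends'.mp hv
    have h1 := hj.btw.mp he
    have h2 := hG v
    have h3 : v ∈ R → v ∈ X := fun h => hR h
    simp only [mem_union, mem_sdiff] at h1 ⊢
    grind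
  · intro v hv
    simp only [mem_union] at hv ⊢
    rcases hv with hv | hv | hv
    · obtain ⟨h1, h2⟩ := mem_inter.mp hv
      obtain ⟨e, w, hw, hj⟩ := mem_nbr'.mp h2
      by_cases h3 : w ∈ X ∪ G
      · refine Or.inr (Or.inr (mem_ends'.mpr ⟨e, hj.btw.mpr (Or.inl ⟨h1, ?_⟩), w, hj⟩))
        simp only [mem_union, mem_sdiff, mem_compl] at h3 hw ⊢
        grind
      · exact Or.inr (Or.inl (Or.inr (mex v w e hj (mem_union_left _ (hR h1)) h3)))
    · grind
    · obtain ⟨h1, h2⟩ := mem_inter.mp hv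
      obtain ⟨e, w, hw, hj⟩ := mem_nbr'.mp h2
      rcases mem_union.mp hw with hw | hw
      · exact Or.inr (Or.inr (mem_ends'.mpr
          ⟨e, hj.btw.mpr (Or.inr ⟨mem_union_left _ h1, hw⟩), w, hj⟩))
      · exact Or.inr (Or.inl (Or.inr (mex v w e hj (mem_union_left _ (mem_sdiff.mp h1).1)
          (mem_compl.mp hw))))
  · intro v hv
    simp only [mem_union] at hv ⊢
    rcases hv with (hv | hv) | hv
    · grind
    · obtain ⟨h1, h2⟩ := mem_inter.mp hv
      obtain ⟨e, w, hw, hj⟩ := mem_nbr'.mp h2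
      by_cases h3 : v ∈ R
      · refine Or.inr (Or.inl (mem_inter.mpr ⟨h3, mem_nbr'.mpr ⟨e, w, mem_compl.mpr fun h4 =>
          mem_compl.mp hw (mem_union_left _ (hR h4)), hj⟩⟩))
      · rcases mem_union.mp h1 with h1 | h1
        · exact Or.inr (Or.inr (Or.inr (mem_inter.mpr ⟨mem_sdiff.mpr ⟨h1, h3⟩,
            mem_nbr'.mpr ⟨e, w, mem_union_right _ hw, hj⟩⟩)))
        · have := hG v h1
          grind
    · obtain ⟨e, he, w, hj⟩ := mem_ends'.mp hv
      rcases hj.btw.mp he with ⟨h2, h3⟩ | ⟨h2, h3⟩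
      · refine Or.inr (Or.inl (mem_inter.mpr ⟨h2, mem_nbr'.mpr ⟨e, w, ?_, hj⟩⟩))
        rcases mem_union.mp h3 with h3 | h3
        · exact mem_compl.mpr (mem_sdiff.mp h3).2
        · exact mem_compl.mpr fun h4 => disjoint_left.mp hXG (hR h4) h3
      · rcases mem_union.mp h2 with h2 | h2
        · exact Or.inr (Or.inr (Or.inr (mem_inter.mpr ⟨h2,
            mem_nbr'.mpr ⟨e, w, mem_union_left _ h3, hj⟩⟩)))
        · have := hG v h2
          grind

lemma inn_split {X G : Finset V} (hXG : Disjoint X G) :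
    H.inn (X ∪ G) = H.ar X G ∪ H.inn G ∧ Disjoint (H.ar X G) (H.inn G) := by
  constructor
  · ext e
    simp only [mem_union, mem_inn, mem_ar]
    grind
  · refine disjoint_left.mpr fun e => ?_
    have h3 : H.s e ∈ X → H.s e ∉ G := fun h => disjoint_left.mp hXG h
    have h4 : H.t e ∈ X → H.t e ∉ G := fun h => disjoint_left.mp hXG h
    simp only [mem_inn, mem_ar]
    grind

lemma card_btw_R {X G R : Finset V} (hXG : Disjoint X G) (hR : R ⊆ X) :
    (H.btw R Rᶜ).card = (H.cl X G R).card + (H.btw R (X ∪ G)ᶜ).card := by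
  have h1 : ∀ v, v ∈ R → v ∈ X := fun v h => hR h
  have h3 : ∀ v, v ∈ X → v ∉ G := fun v h => disjoint_left.mp hXG h
  rw [← card_union_of_disjoint]
  · congr 1
    ext e
    simp only [cl, mem_union, mem_btw, mem_sdiff, mem_compl]
    grind
  · refine disjoint_left.mpr fun e => ?_
    simp only [cl, mem_union, mem_btw, mem_sdiff, mem_compl]
    grind

lemma card_btw_sdiff {X Q R : Finset V} (hXQ : Disjoint X Q) (hR : R ⊆ X) :
    (H.btw X Q).card = (H.btw (X \ R) Q).card + (H.btw R Q).card := by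
  have h1 : ∀ v, v ∈ R → v ∈ X := fun v h => hR h
  have h3 : ∀ v, v ∈ X → v ∉ Q := fun v h => disjoint_left.mp hXQ h
  rw [← card_union_of_disjoint]
  · congr 1
    ext e
    simp only [mem_union, mem_btw, mem_sdiff]
    grind
  · refine disjoint_left.mpr fun e => ?_
    simp only [mem_btw, mem_sdiff]
    grind

lemma card_b2 (X G R : Finset V) : (H.btw (X \ R) (R ∪ (X ∪ G)ᶜ)).card ≤
    (H.cl X G R).card + (H.btw (X \ R) (X ∪ G)ᶜ).card := by
  refine le_trans (card_le_card fun e => ?_) (card_union_le _ _)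
  simp only [cl, mem_union, mem_btw, mem_sdiff, mem_compl]
  grind

lemma card_nt {X G R : Finset V} :
    (H.nt X (X ∪ G)ᶜ R).card ≤ (H.btw (X \ R) (R ∪ (X ∪ G)ᶜ)).card := by
  refine card_nbr_le (disjoint_left.mpr fun v => ?_)
  simp only [mem_union, mem_sdiff, mem_compl]
  grind

lemma card_cutE {X G R : Finset V} (hR : R ⊆ X) : (H.cutE X (X ∪ G)ᶜ R).card ≤
    (H.cl X G R).card + (H.btw (X \ R) (X ∪ G)ᶜ).card := by
  have h1 : ∀ v, v ∈ R → v ∈ X := fun v h => hR h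
  refine le_trans (card_le_card fun e => ?_) (card_union_le _ _)
  simp only [cutE, cl, mem_union, mem_btw, mem_sdiff, mem_compl, mem_inter, mem_tch]
  grind

lemma stepP (p : Par κ x q θ Θ L) (hC : H.Conn) (hBC : H.BC κ) (hA : H.StA ρ q n)
    (hB : H.StB ρ q θ L (n + 1)) (hCn : H.StC ρ q x (n + 1)) : H.StP ρ q Θ L (n + 1) := by
  intro D T r d hn hne hd
  set X := D \ insert r T with hX
  set G := D ∩ insert r T with hG
  have hXG : Disjoint X G := disjoint_sdiff_inter _ _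
  have hD : D = X ∪ G := (sdiff_union_inter _ _).symm
  have hGT : ∀ v ∈ G, v = r ∨ v ∈ T := fun v hv => mem_insert.mp (mem_inter.mp hv).2
  have mX : ∀ v ∈ D, v ∈ X ∨ v = r ∨ v ∈ T := fun v hv => by
    rw [hD, mem_union] at hv
    exact hv.imp_right (hGT v)
  clear_value X G
  subst hD
  have x0 := p.x0
  have T1 := p.Th1
  have L1 := p.L1
  by_cases hb : H.btw X (X ∪ G)ᶜ = ∅
  · rw [hb, card_empty, pow_zero, one_smul, wire_congr (T := T ∪ H.ex (X ∪ G)) (T' := T)]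
    · exact Le.refl _ _
    · intro v hv
      rcases mem_union.mp hv with hv | hv
      · exact Or.inr hv
      · obtain ⟨h1, h2⟩ := mem_inter.mp hv
        obtain ⟨e, w, hw, hj⟩ := mem_nbr'.mp h2
        refine (mX v h1).resolve_left fun h3 => ?_
        have : e ∈ H.btw X (X ∪ G)ᶜ := hj.btw.mpr (Or.inl ⟨h3, hw⟩)
        rw [hb] at this
        exact notMem_empty _ this
    · exact fun v hv => Or.inr (mem_union_left _ hv)
  have hb1 : 1 ≤ (H.btw X (X ∪ G)ᶜ).card := card_pos.mpr (nonempty_iff_ne_empty.mpr hb)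
  have hU : (X \ H.ex (X ∪ G)).card < n := by
    have : (X \ H.ex (X ∪ G)).card < X.card := by
      refine card_lt_card ⟨sdiff_subset, fun h => ?_⟩
      obtain ⟨e, he⟩ := nonempty_iff_ne_empty.mpr hb
      rcases mem_btw.mp he with ⟨h1, h2⟩ | ⟨h1, h2⟩
      · exact (mem_sdiff.mp (h h1)).2 (mem_inter.mpr
          ⟨mem_union_left _ h1, mem_nbr.mpr ⟨e, Or.inl ⟨rfl, h2⟩⟩⟩)
      · exact (mem_sdiff.mp (h h2)).2 (mem_inter.mpr
          ⟨mem_union_left _ h2, mem_nbr.mpr ⟨e, Or.inr ⟨rfl, h1⟩⟩⟩)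
    omega
  have hXQ : Disjoint X (X ∪ G)ᶜ := disjoint_left.mpr fun v hv h =>
    mem_compl.mp h (mem_union_left _ hv)
  have key : Ab ρ q ((H.ar X G).card + (H.btw X (X ∪ G)ᶜ).card) (wire ρ r T * H.Zp ρ q (H.ar X G))
      ((Θ * L ^ (H.btw X (X ∪ G)ᶜ).card) •
        (wire ρ r (T ∪ H.ex (X ∪ G)) * H.Zp ρ q (H.ar X G))) := by
    conv => enter [4]; rw [dec2 hC hXG hne, mul_sum]
    refine Ab.sum _ _ (fun R => κ ^ (H.cutE X (X ∪ G)ᶜ R).card) (cone_wZ _ _ _ (by omega))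
      (by positivity) (hBC _ _ (sdiff_compl_ne hXG hne)) fun R hR => ?_
    have hRX := (mem_fam.mp hR).1
    have hRu : R ≠ univ := fun h => by
      obtain ⟨g, hg⟩ := hne
      exact disjoint_left.mp hXG (hRX (h ▸ mem_univ g)) hg
    have c1 := card_tch (H := H) R
    have c2 := card_btw_R (H := H) hXG hRX
    have c3 := card_btw_sdiff (H := H) hXQ hRX
    have c4 := card_ar_split (H := H) hXG hRX
    have c5 := card_b2 (H := H) X G R
    have a1 := Ab.of_le ((cone_Zp _).mono (by omega)) (hB.weak p hC hBC r (d := (H.tch R).card)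
      ((card_le_card hRX).trans_lt hn) hRu (by omega))
    have a2 := hCn.nt hXG hRX ((card_le_card sdiff_subset).trans_lt hn) hGT
    rw [mul_smul_comm, mul_left_comm]
    refine glue2 p.q2 hA hXG hRX hne hGT hU (by omega) (by omega) (by positivity) (by positivity)
      a1 a2 ?_
    rw [c2, c3]
    exact p.nP c5 (card_nt.trans c5) (card_cutE hRX)
  obtain ⟨e1, e2⟩ := inn_split (H := H) hXG
  have k2 := (key.le.mul_cone (cone_Zp (H := H) (H.inn G))).mono (d' := d) (by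
    rw [e1, card_union_of_disjoint e2] at hd; omega)
  rw [smul_mul_assoc, mul_assoc, mul_assoc, ← Zp_union e2, ← e1] at k2
  refine k2.trans (Le.of_coef (cone_wZ _ _ _ (by omega)) ?_)
  rw [mul_pow]
  exact mul_le_mul_of_nonneg_right (le_self_pow₀ T1 (by omega)) (by positivity)

end Gr

end Pool.Agent.Lib.MP_08beec_co.Ub
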