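import Mathlib
import Pool.Agent.Lib.MP_08beec_co.Pair

/-!
A formal Gaussian functional on polynomials, used to compare two recurrences for the sum of the
flow polynomials over all pairings.
-/

namespace Pool.Agent.Lib.MP_08beec_co

open Finset MvPolynomial

/-- Moments of a centred Gaussian with variance `q`. -/
def gm (q : ℝ) : ℕ → ℝ
  | 0 => 1
  | 1 => 0
  | k + 2 => q * ((k : ℝ) + 1) * gm q k

lemma gm_succ (q : ℝ) (k : ℕ) : gm q (k + 1) = q * (k : ℝ) * gm q (k - 1) := by
  cases k with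
  | zero => simp [gm]
  | succ k => simp [gm]

variable {κ : Type} [Fintype κ] [DecidableEq κ]

/-- The Gaussian functional. -/
noncomputable def EE (q : ℝ) : MvPolynomial κ ℝ →ₗ[ℝ] ℝ :=
  (basisMonomials κ ℝ).constr ℝ fun s => ∏ a, gm q (s a)

omit [DecidableEq κ] in
lemma EE_monomial (q : ℝ) (s : κ →₀ ℕ) (c : ℝ) :
    EE q (monomial s c) = c * ∏ a, gm q (s a) := by
  have : (monomial s c : MvPolynomial κ ℝ) = c • basisMonomials κ ℝ s := by
    simp [coe_basisMonomials, smul_monomial]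
  rw [this, map_smul, EE, Module.Basis.constr_basis, smul_eq_mul]

omit [DecidableEq κ] in
lemma EE_one (q : ℝ) : EE q (1 : MvPolynomial κ ℝ) = 1 := by
  rw [← C_1, ← monomial_zero', EE_monomial]; simp [gm]

lemma EE_X_mul (q : ℝ) (a : κ) (P : MvPolynomial κ ℝ) :
    EE q (X a * P) = q * EE q (pderiv a P) := by
  induction P using MvPolynomial.induction_on' with
  | add p r hp hr => simp only [mul_add, map_add, hp, hr]
  | monomial s c =>
    rw [pderiv_monomial, X, monomial_mul, EE_monomial, EE_monomial,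
      ← mul_prod_erase univ _ (mem_univ a), ← mul_prod_erase univ _ (mem_univ a)]
    have e : ∏ b ∈ univ.erase a, gm q ((Finsupp.single a 1 + s : κ →₀ ℕ) b) =
        ∏ b ∈ univ.erase a, gm q ((s - Finsupp.single a 1 : κ →₀ ℕ) b) := by
      refine prod_congr rfl fun b hb => ?_
      have := (mem_erase.mp hb).1
      simp [Finsupp.single_apply, this.symm]
    rw [e]
    simp only [Finsupp.coe_add, Pi.add_apply, Finsupp.single_eq_same, Finsupp.coe_tsub,
      Pi.sub_apply]
    rw [add_comm 1, gm_succ]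
    ring

/-- The centred field. -/
noncomputable def ph (a : κ) : MvPolynomial κ ℝ :=
  X a - C (Fintype.card κ : ℝ)⁻¹ * ∑ b, X b

/-- The dual derivation. -/
noncomputable def dl (a : κ) : Derivation ℝ (MvPolynomial κ ℝ) (MvPolynomial κ ℝ) :=
  (Fintype.card κ : ℝ) • pderiv a - ∑ b, pderiv b

lemma dl_apply (a : κ) (P : MvPolynomial κ ℝ) :
    dl a P = (Fintype.card κ : ℝ) • pderiv a P - ∑ b, pderiv b P := by
  have : ∀ s : Finset κ, (∑ b ∈ s, pderiv b : Derivation ℝ (MvPolynomial κ ℝ) (MvPolynomial κ ℝ)) P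
      = ∑ b ∈ s, pderiv b P := by
    intro s
    induction s using Finset.induction_on with
    | empty => simp
    | insert x s hx ih => rw [sum_insert hx, sum_insert hx, Derivation.add_apply, ih]
  rw [dl, Derivation.sub_apply, Derivation.smul_apply, this]

lemma dl_X (a b : κ) : dl a (X b : MvPolynomial κ ℝ) =
    C (if a = b then (Fintype.card κ : ℝ) else 0) - 1 := by
  rw [dl_apply]
  simp only [pderiv_X, Pi.single_apply]
  rw [sum_ite_eq univ b]
  by_cases h : a = b
  · subst h; simp [smul_eq_C_mul]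
  · simp [h, Ne.symm h]

lemma dl_ph (a b : κ) : dl a (ph b : MvPolynomial κ ℝ) =
    C (if a = b then (Fintype.card κ : ℝ) else 0) - 1 := by
  have : dl a (∑ b, X b : MvPolynomial κ ℝ) = 0 := by
    rw [map_sum]
    simp only [dl_X, sum_sub_distrib, ← map_sum]
    simp
  rw [ph, map_sub, ← smul_eq_C_mul, Derivation.map_smul, this, smul_zero, sub_zero, dl_X]

omit [DecidableEq κ] in
lemma sum_ph [Nonempty κ] : ∑ a : κ, (ph a : MvPolynomial κ ℝ) = 0 := by
  have h : (Fintype.card κ : ℝ) ≠ 0 := by exact_mod_cast Fintype.card_ne_zero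
  simp only [ph, sum_sub_distrib, sum_const, card_univ, nsmul_eq_mul]
  rw [← mul_assoc, ← map_natCast (C : ℝ →+* MvPolynomial κ ℝ), ← map_mul, mul_inv_cancel₀ h]
  simp

lemma ibp [Nonempty κ] (a : κ) (P : MvPolynomial κ ℝ) :
    EE (Fintype.card κ : ℝ) (ph a * P) = EE (Fintype.card κ : ℝ) (dl a P) := by
  have h : (Fintype.card κ : ℝ) ≠ 0 := by exact_mod_cast Fintype.card_ne_zero
  rw [ph, sub_mul, mul_assoc, ← smul_eq_C_mul, sum_mul, map_sub, map_smul, map_sum, dl_apply,
    map_sub, map_smul, map_sum]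
  simp only [EE_X_mul, smul_eq_mul, ← mul_sum]
  field_simp

/-- `P` is homogeneous of degree `d` in the centred fields. -/
def Hom (P : MvPolynomial κ ℝ) (d : ℕ) : Prop :=
  ∑ a, ph a * dl a P = C ((Fintype.card κ : ℝ) * d) * P

lemma Hom.one : Hom (1 : MvPolynomial κ ℝ) 0 := by simp [Hom]

lemma Hom.ph [Nonempty κ] (b : κ) : Hom (ph b) 1 := by
  unfold Hom
  simp only [dl_ph, mul_sub, mul_one, sum_sub_distrib, sum_ph, sub_zero]
  rw [sum_eq_single b]
  · simp [mul_comm]
  · intro c _ hc; simp [hc]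
  · simp

lemma Hom.mul {P Q : MvPolynomial κ ℝ} {d e : ℕ} (hP : Hom P d) (hQ : Hom Q e) :
    Hom (P * Q) (d + e) := by
  unfold Hom at *
  have : ∀ a, Pool.Agent.Lib.MP_08beec_co.ph a * dl a (P * Q) =
      P * (Pool.Agent.Lib.MP_08beec_co.ph a * dl a Q) +
        Q * (Pool.Agent.Lib.MP_08beec_co.ph a * dl a P) := by
    intro a
    rw [Derivation.leibniz, smul_eq_mul, smul_eq_mul]; ring
  simp only [this, sum_add_distrib, ← mul_sum, hP, hQ]
  push_cast
  simp only [mul_add, map_add]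
  ring

lemma Hom.pow {P : MvPolynomial κ ℝ} {d : ℕ} (hP : Hom P d) (n : ℕ) : Hom (P ^ n) (d * n) := by
  induction n with
  | zero => simpa using Hom.one
  | succ n ih => rw [pow_succ, Nat.mul_succ]; exact ih.mul hP

lemma Hom.sum {ι : Type} (s : Finset ι) {P : ι → MvPolynomial κ ℝ} {d : ℕ}
    (hP : ∀ i, Hom (P i) d) : Hom (∑ i ∈ s, P i) d := by
  unfold Hom at *
  simp only [map_sum, mul_sum]
  rw [sum_comm]
  exact sum_congr rfl fun i _ => hP i

lemma Hom.prod [Nonempty κ] (S : Finset κ) :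
    Hom (∏ a ∈ S, Pool.Agent.Lib.MP_08beec_co.ph a) S.card := by
  induction S using Finset.induction_on with
  | empty => simpa using Hom.one
  | insert x s hx ih =>
    rw [prod_insert hx, card_insert_of_notMem hx, add_comm]
    exact (Hom.ph x).mul ih

/-- Power sums of the centred fields. -/
noncomputable def pp (κ : Type) [Fintype κ] (k : ℕ) : MvPolynomial κ ℝ := ∑ a, ph a ^ k

lemma Hom.pp3 [Nonempty κ] (n : ℕ) : Hom (pp κ 3 ^ n) (3 * n) := by
  have : Hom (pp κ 3) 3 := Hom.sum _ fun a => by simpa using (Hom.ph a).pow 3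
  exact this.pow n

lemma euler [Nonempty κ] {P : MvPolynomial κ ℝ} {d : ℕ} (hP : Hom P d) :
    EE (Fintype.card κ : ℝ) (pp κ 2 * P) =
      (Fintype.card κ : ℝ) * ((Fintype.card κ : ℝ) - 1 + d) * EE (Fintype.card κ : ℝ) P := by
  have : ∀ a : κ, EE (Fintype.card κ : ℝ) (ph a ^ 2 * P) =
      EE (Fintype.card κ : ℝ) (ph a * dl a P) +
        ((Fintype.card κ : ℝ) - 1) * EE (Fintype.card κ : ℝ) P := by
    intro a
    rw [pow_two, mul_assoc, ibp, Derivation.leibniz, dl_ph, map_add, if_pos rfl, smul_eq_mul,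
      smul_eq_mul, ← C_1, ← map_sub, mul_comm P, ← smul_eq_C_mul, map_smul, smul_eq_mul]
  rw [pp, sum_mul, map_sum]
  simp only [this, sum_add_distrib, ← map_sum]
  rw [hP, ← smul_eq_C_mul, map_smul]
  simp only [sum_const, card_univ, nsmul_eq_mul, smul_eq_mul]
  ring

lemma dl_pp3 (a : κ) : dl a (pp κ 3) =
    3 * (C (Fintype.card κ : ℝ) * ph a ^ 2 - pp κ 2) := by
  rw [pp, map_sum]
  simp only [Derivation.leibniz_pow, dl_ph, smul_eq_mul, nsmul_eq_mul, mul_sub, sum_sub_distrib,
    mul_one, pp, ← mul_sum]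
  congr 1
  rw [sum_eq_single a]
  · simp [mul_comm]
  · intro c _ hc; simp [hc.symm]
  · simp

lemma dl_pp3_pow (a : κ) (n : ℕ) : dl a (pp κ 3 ^ (n + 1)) =
    C (3 * ((n : ℝ) + 1)) * ((C (Fintype.card κ : ℝ) * ph a ^ 2 - pp κ 2) * pp κ 3 ^ n) := by
  rw [Derivation.leibniz_pow, dl_pp3]
  simp only [Nat.add_sub_cancel, smul_eq_mul, nsmul_eq_mul, map_mul, map_add, map_natCast, C_1,
    map_ofNat]
  push_cast
  ring

end Pool.Agent.Lib.MP_08beec_co
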