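import Pool.Agent.Lib.MP_08beec_co.Wick
import Pool.Agent.Lib.MP_08beec_co.AvgMoments

/-!
The two recurrences agree, hence the sum of the flow polynomials over all pairings of cubic
vertices takes negative values.
-/

namespace Pool.Agent.Lib.MP_08beec_co

open Finset MvPolynomial

/-- Gaussian moments with `j` distinct colours inserted. -/
noncomputable def dd (q : ℝ) : ℕ → ℕ → ℝ
  | 0, 0 => 1
  | n + 1, 0 => q * (q - 1) * (q - 2) / 2 * dd q n 3
  | 0, j + 1 => - (j : ℝ) * dd q 0 (j - 1)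
  | n + 1, j + 1 => - (j : ℝ) * dd q (n + 1) (j - 1) -
      3 * ((n : ℝ) + 1) * q * ((q - ((j : ℝ) + 1)) / ((j : ℝ) + 1)) * dd q n (j + 2) -
      3 * ((n : ℝ) + 1) * q * (q + 3 * (n : ℝ) + (j : ℝ) - 1) * dd q n j
termination_by n k => (n, k)
decreasing_by all_goals first
  | exact Prod.Lex.left _ _ (Nat.lt_succ_self _)
  | exact Prod.Lex.right _ (by omega)

lemma dd_one_two (q : ℝ) (n : ℕ) :
    dd q n 1 = 0 ∧ (q - 1) * dd q n 2 = - (q + 3 * n - 1) * dd q n 0 := by
  induction n with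
  | zero =>
    refine ⟨by rw [dd]; simp, ?_⟩
    have a : dd q 0 0 = 1 := by rw [dd]
    have b : dd q 0 2 = - 1 := by
      rw [show dd q 0 2 = dd q 0 (1 + 1) from rfl, dd, Nat.sub_self, a]; simp
    rw [a, b]
    simp
  | succ n ih =>
    constructor
    · rw [dd]
      simp only [Nat.cast_zero, zero_add]
      linear_combination (-3 * ((n : ℝ) + 1) * q) * ih.2
    · have a : dd q (n + 1) 0 = q * (q - 1) * (q - 2) / 2 * dd q n 3 := by rw [dd]
      rw [show dd q (n + 1) 2 = dd q (n + 1) (1 + 1) from rfl]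
      conv_lhs => rw [dd, Nat.sub_self, ih.1]
      push_cast
      linear_combination (3 * ((n : ℝ) + 1)) * a

section

variable {κ : Type} [Fintype κ] [DecidableEq κ] [Nonempty κ]

lemma H_step (a : κ) (k : ℕ) (G : MvPolynomial κ ℝ) :
    EE (Fintype.card κ : ℝ) (ph a ^ (k + 1) * G) =
      k * ((Fintype.card κ : ℝ) - 1) * EE (Fintype.card κ : ℝ) (ph a ^ (k - 1) * G) +
        EE (Fintype.card κ : ℝ) (ph a ^ k * dl a G) := by
  rw [pow_succ', mul_assoc, ibp, Derivation.leibniz, Derivation.leibniz_pow, dl_ph, if_pos rfl,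
    map_add, add_comm]
  congr 1
  rw [← smul_eq_mul, ← map_smul]
  congr 1
  simp only [smul_eq_mul, nsmul_eq_mul, smul_eq_C_mul, map_mul, map_sub, map_natCast, C_1]
  ring

lemma H_eq (n k : ℕ) : ∀ a : κ, EE (Fintype.card κ : ℝ) (ph a ^ k * pp κ 3 ^ n) =
    (Fintype.card κ : ℝ) ^ n * hh (Fintype.card κ : ℝ) n k := by
  fun_induction hh (Fintype.card κ : ℝ) n k with
  | case1 => intro a; simp [EE_one]
  | case2 n ih =>
    intro a
    rw [pow_zero, one_mul, pow_succ', pp, sum_mul, map_sum, ← pp]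
    simp only [ih, sum_const, card_univ, nsmul_eq_mul, Nat.succ_eq_add_one]
    ring
  | case3 k ih =>
    intro a
    rw [H_step, ih]
    simp
  | case4 n k ih1 ih2 ih3 =>
    intro a
    have e : ph a ^ k * dl a (pp κ 3 ^ (n + 1)) = (3 * ((n : ℝ) + 1)) •
        ((Fintype.card κ : ℝ) • (ph a ^ (k + 2) * pp κ 3 ^ n) -
          pp κ 2 * (ph a ^ k * pp κ 3 ^ n)) := by
      rw [dl_pp3_pow, smul_eq_C_mul, smul_eq_C_mul]; ring
    have hm : Hom (ph a ^ k * pp κ 3 ^ n) (1 * k + 3 * n) := ((Hom.ph a).pow k).mul (Hom.pp3 n)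
    rw [H_step, e, map_smul, map_sub, map_smul, euler hm, ih1, ih2, ih3]
    simp only [smul_eq_mul, Nat.succ_eq_add_one]
    push_cast
    ring

omit [Nonempty κ] in
lemma dl_prod (a : κ) (S : Finset κ) (ha : a ∉ S) :
    dl a (∏ b ∈ S, ph b) = - ∑ b ∈ S, ∏ c ∈ S.erase b, ph c := by
  induction S using Finset.induction_on with
  | empty => simp
  | insert x s hx ih =>
    have h1 : a ≠ x := fun e => ha (e ▸ mem_insert_self x s)
    have h2 : a ∉ s := fun e => ha (mem_insert_of_mem e)
    rw [prod_insert hx, Derivation.leibniz, ih h2, dl_ph, if_neg h1, sum_insert hx,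
      erase_insert hx]
    have : ∑ b ∈ s, ∏ c ∈ (insert x s).erase b, ph c =
        ph x * ∑ b ∈ s, ∏ c ∈ s.erase b, (ph c : MvPolynomial κ ℝ) := by
      rw [mul_sum]
      refine sum_congr rfl fun b hb => ?_
      have hbx : x ≠ b := fun e => hx (e ▸ hb)
      rw [erase_insert_of_ne hbx, prod_insert (fun h => hx (mem_of_mem_erase h))]
    rw [this]
    simp only [smul_eq_mul, map_zero]
    ring

lemma D_step0 (S : Finset κ) (a : κ) (ha : a ∈ S) (G : MvPolynomial κ ℝ) (j : ℕ) (u : ℝ)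
    (hS : S.card = j + 1)
    (hu : ∀ T : Finset κ, T.card + 1 = j → EE (Fintype.card κ : ℝ) ((∏ b ∈ T, ph b) * G) = u) :
    EE (Fintype.card κ : ℝ) ((∏ b ∈ S, ph b) * G) =
      - (j : ℝ) * u + EE (Fintype.card κ : ℝ) ((∏ b ∈ S.erase a, ph b) * dl a G) := by
  have hc : (S.erase a).card = j := by rw [card_erase_of_mem ha, hS]; rfl
  rw [← mul_prod_erase S _ ha, mul_assoc, ibp, Derivation.leibniz,
    dl_prod a _ (notMem_erase a S), map_add, add_comm, smul_eq_mul, smul_eq_mul, mul_neg, mul_sum,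
    map_neg, map_sum]
  congr 1
  rw [sum_congr rfl (g := fun _ => u)]
  · simp [hc]
  · intro b hb
    rw [mul_comm]
    refine hu _ ?_
    rw [card_erase_add_one hb, hc]

lemma D_step (n : ℕ)
    (hp : ∀ T : Finset κ, EE (Fintype.card κ : ℝ) ((∏ b ∈ T, ph b) * pp κ 3 ^ n) =
      dd (Fintype.card κ : ℝ) n T.card)
    (S : Finset κ) (j : ℕ) (u : ℝ) (hS : S.card = j + 1)
    (hu : ∀ T : Finset κ, T.card + 1 = j →
      EE (Fintype.card κ : ℝ) ((∏ b ∈ T, ph b) * pp κ 3 ^ (n + 1)) = u) :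
    EE (Fintype.card κ : ℝ) ((∏ b ∈ S, ph b) * pp κ 3 ^ (n + 1)) =
      - (j : ℝ) * u - 3 * ((n : ℝ) + 1) * (Fintype.card κ : ℝ) *
        (((Fintype.card κ : ℝ) - ((j : ℝ) + 1)) / ((j : ℝ) + 1)) *
          dd (Fintype.card κ : ℝ) n (j + 2) -
      3 * ((n : ℝ) + 1) * (Fintype.card κ : ℝ) *
        ((Fintype.card κ : ℝ) + 3 * (n : ℝ) + (j : ℝ) - 1) * dd (Fintype.card κ : ℝ) n j := by
  set q : ℝ := (Fintype.card κ : ℝ) with hq
  have h1 : ∀ a ∈ S, EE q ((∏ b ∈ S, ph b) * pp κ 3 ^ (n + 1)) =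
      - (j : ℝ) * u - 3 * ((n : ℝ) + 1) * q * (q + 3 * (n : ℝ) + (j : ℝ) - 1) * dd q n j +
        3 * ((n : ℝ) + 1) * q * EE q (ph a * ((∏ b ∈ S, ph b) * pp κ 3 ^ n)) := by
    intro a ha
    have hc : (S.erase a).card = j := by rw [card_erase_of_mem ha, hS]; rfl
    have e : (∏ b ∈ S.erase a, ph b) * dl a (pp κ 3 ^ (n + 1)) = (3 * ((n : ℝ) + 1)) •
        (q • (ph a * ((∏ b ∈ S, ph b) * pp κ 3 ^ n)) -
          pp κ 2 * ((∏ b ∈ S.erase a, ph b) * pp κ 3 ^ n)) := by
      rw [dl_pp3_pow, smul_eq_C_mul, smul_eq_C_mul, ← mul_prod_erase S _ ha]; ring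
    have hm := (Hom.prod (S.erase a)).mul (Hom.pp3 (κ := κ) n)
    rw [D_step0 S a ha _ j u hS hu, e, map_smul, map_sub, map_smul, euler hm, hp, hc]
    simp only [smul_eq_mul]
    push_cast
    ring
  have h2 : ∑ a ∈ S, EE q (ph a * ((∏ b ∈ S, ph b) * pp κ 3 ^ n)) =
      - (q - ((j : ℝ) + 1)) * dd q n (j + 2) := by
    have z : ∑ a, EE q (ph a * ((∏ b ∈ S, ph b) * pp κ 3 ^ n)) = 0 := by
      rw [← map_sum, ← sum_mul, sum_ph]; simp
    rw [← sum_add_sum_compl S] at z
    have w : ∑ a ∈ Sᶜ, EE q (ph a * ((∏ b ∈ S, ph b) * pp κ 3 ^ n)) =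
        (q - ((j : ℝ) + 1)) * dd q n (j + 2) := by
      rw [sum_congr rfl (g := fun _ => dd q n (j + 2))]
      · rw [sum_const, card_compl, nsmul_eq_mul, Nat.cast_sub (card_le_univ S), hS]
        push_cast; rfl
      · intro a ha
        have ha' : a ∉ S := mem_compl.mp ha
        rw [← mul_assoc, ← prod_insert ha', hp, card_insert_of_notMem ha', hS]
    linarith
  have h3 := sum_congr rfl h1
  rw [sum_add_distrib, ← mul_sum, h2, sum_const, sum_const, hS, nsmul_eq_mul, nsmul_eq_mul] at h3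
  push_cast at h3
  have hj : (0 : ℝ) < (j : ℝ) + 1 := by positivity
  apply mul_left_cancel₀ hj.ne'
  rw [h3]
  field_simp
  ring

lemma D_eq (n : ℕ) : ∀ S : Finset κ, EE (Fintype.card κ : ℝ) ((∏ b ∈ S, ph b) * pp κ 3 ^ n) =
    dd (Fintype.card κ : ℝ) n S.card := by
  induction n with
  | zero =>
    intro S
    generalize hk : S.card = k
    induction k using Nat.strong_induction_on generalizing S with
    | _ k ih =>
      cases k with
      | zero =>
        obtain rfl : S = ∅ := card_eq_zero.mp hk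
        simp [EE_one, dd]
      | succ j =>
        obtain ⟨a, ha⟩ : S.Nonempty := card_pos.mp (by omega)
        rw [D_step0 S a ha _ j (dd (Fintype.card κ : ℝ) 0 (j - 1)) hk
          (fun T hT => ih (j - 1) (by omega) T (by omega)), dd]
        simp
  | succ n hp =>
    intro S
    generalize hk : S.card = k
    induction k using Nat.strong_induction_on generalizing S with
    | _ k ih =>
      cases k with
      | succ j =>
        rw [D_step n hp S j (dd (Fintype.card κ : ℝ) (n + 1) (j - 1)) hk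
          (fun T hT => ih (j - 1) (by omega) T (by omega)), dd]
      | zero =>
        obtain rfl : S = ∅ := card_eq_zero.mp hk
        set q : ℝ := (Fintype.card κ : ℝ) with hq
        have hq0 : q ≠ 0 := by rw [hq]; exact_mod_cast Fintype.card_ne_zero
        rw [prod_empty, one_mul, dd]
        set e0 := EE q (pp κ 3 ^ (n + 1)) with he0
        have pr : ∀ a b : κ, b ≠ a → EE q (ph a * (ph b * pp κ 3 ^ (n + 1))) =
            - e0 - 3 * ((n : ℝ) + 1) * q * ((q - 2) / 2) * dd q n 3 := by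
          intro a b hab
          have := D_step n hp {a, b} 1 e0 (card_pair hab.symm) (fun T hT => by
            obtain rfl : T = ∅ := card_eq_zero.mp (by omega)
            rw [prod_empty, one_mul])
          rw [prod_pair hab.symm, (dd_one_two _ n).1, mul_assoc] at this
          rw [this]
          push_cast
          ring
        have z : ∀ a : κ, EE q (ph a ^ 2 * pp κ 3 ^ (n + 1)) =
            (q - 1) * (e0 + 3 * ((n : ℝ) + 1) * q * ((q - 2) / 2) * dd q n 3) := by
          intro a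
          have z0 : ∑ b, EE q (ph a * (ph b * pp κ 3 ^ (n + 1))) = 0 := by
            rw [← map_sum, ← mul_sum, ← sum_mul, sum_ph]; simp
          rw [← add_sum_erase _ _ (mem_univ a),
            sum_congr rfl (fun b hb => pr a b (mem_erase.mp hb).1), sum_const,
            card_erase_of_mem (mem_univ a), card_univ, nsmul_eq_mul,
            Nat.cast_sub Fintype.card_pos, ← hq, ← mul_assoc, ← pow_two] at z0
          push_cast at z0
          linarith
        have eu := euler (Hom.pp3 (κ := κ) (n + 1))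
        rw [← hq, ← he0] at eu
        conv_lhs at eu => rw [pp, sum_mul, map_sum]
        simp only [z, sum_const, card_univ, nsmul_eq_mul] at eu
        rw [← hq] at eu
        push_cast at eu
        have hn : (3 * ((n : ℝ) + 1) * q) ≠ 0 := by positivity
        apply mul_left_cancel₀ hn
        linear_combination (-1) * eu

end

lemma dd_poly (n j : ℕ) : ∃ p : Polynomial ℝ, ∀ x, p.eval x = dd x n j := by
  induction n generalizing j with
  | zero =>
    induction j using Nat.strong_induction_on with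
    | _ j ih =>
      cases j with
      | zero => exact ⟨1, fun x => by simp [dd]⟩
      | succ j =>
        obtain ⟨p, hp⟩ := ih (j - 1) (by omega)
        exact ⟨Polynomial.C (- (j : ℝ)) * p, fun x => by rw [dd, ← hp]; simp⟩
  | succ n ihn =>
    induction j using Nat.strong_induction_on with
    | _ j ih =>
      cases j with
      | zero =>
        obtain ⟨p, hp⟩ := ihn 3
        refine ⟨Polynomial.X * (Polynomial.X - 1) * (Polynomial.X - 2) *
          Polynomial.C (1 / 2 : ℝ) * p, fun x => ?_⟩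
        rw [dd, ← hp]; simp; left; ring
      | succ j =>
        obtain ⟨p, hp⟩ := ih (j - 1) (by omega)
        obtain ⟨p2, hp2⟩ := ihn (j + 2)
        obtain ⟨p3, hp3⟩ := ihn j
        refine ⟨Polynomial.C (- (j : ℝ)) * p -
          Polynomial.C (3 * ((n : ℝ) + 1) / ((j : ℝ) + 1)) * Polynomial.X *
            (Polynomial.X - Polynomial.C ((j : ℝ) + 1)) * p2 -
          Polynomial.C (3 * ((n : ℝ) + 1)) * Polynomial.X *
            (Polynomial.X + Polynomial.C (3 * (n : ℝ) + j - 1)) * p3, fun x => ?_⟩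
        rw [dd, ← hp, ← hp2, ← hp3]
        simp only [Polynomial.eval_sub, Polynomial.eval_mul, Polynomial.eval_C, Polynomial.eval_X,
          Polynomial.eval_add]
        ring

lemma hh_eq_dd (x : ℝ) (n : ℕ) : x ^ n * hh x n 0 = dd x n 0 := by
  obtain ⟨p, hp⟩ := dd_poly n 0
  have hr : ∀ y : ℝ, (Polynomial.X ^ n * hh (Polynomial.X : Polynomial ℝ) n 0).eval y =
      y ^ n * hh y n 0 := by
    intro y
    have := hh_map (Polynomial.evalRingHom y) Polynomial.X n 0
    simp only [Polynomial.coe_evalRingHom, Polynomial.eval_X] at this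
    simp [this]
  have : Polynomial.X ^ n * hh (Polynomial.X : Polynomial ℝ) n 0 = p := by
    apply Polynomial.eq_of_infinite_eval_eq
    refine Set.infinite_of_injective_forall_mem (f := fun j : ℕ => ((j + 1 : ℕ) : ℝ))
      (fun i j h => by simpa using h) fun j => ?_
    have h1 := H_eq (κ := Fin (j + 1)) n 0 0
    have h2 := D_eq (κ := Fin (j + 1)) n ∅
    rw [Fintype.card_fin] at h1 h2
    rw [pow_zero] at h1
    rw [prod_empty, card_empty, h1] at h2
    simp only [Set.mem_ofPred_eq]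
    rw [hr, hp, h2]
  rw [← hr, this, hp]

/-- Normalising factors. -/
def Rr (x : ℝ) : ℕ → ℝ
  | 0 => 1
  | 1 => 1
  | m + 2 => (x - 1 + m) * Rr x m

lemma Rr_pos {x : ℝ} (hx : 1 < x) : ∀ m, 0 < Rr x m
  | 0 => by simp [Rr]
  | 1 => by simp [Rr]
  | m + 2 => by
    have := Rr_pos hx m
    have h : (0 : ℝ) ≤ m := Nat.cast_nonneg m
    rw [Rr]
    exact mul_pos (by linarith) this

lemma isT_dd {x : ℝ} (hx : 1 < x) :
    IsT x (fun n j => (-1) ^ j * dd x n j / (x ^ n * Rr x (3 * n + j))) := by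
  have hx0 : x ≠ 0 := by linarith
  have hR := fun m => (Rr_pos hx m).ne'
  refine ⟨by simp [dd, Rr], fun n => by simp [(dd_one_two x n).1], fun n => ?_, fun j => ?_,
    fun n j => ?_⟩
  · have a := (dd_one_two x n).2
    have b := hR (3 * n)
    have hn : (0 : ℝ) ≤ n := Nat.cast_nonneg n
    have c : x - 1 + 3 * n ≠ 0 := by linarith
    rw [Rr]
    push_cast
    simp only [add_zero]
    field_simp
    linear_combination a
  · have b := hR j
    have hn : (0 : ℝ) ≤ j := Nat.cast_nonneg j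
    have c : x - 1 + j ≠ 0 := by linarith
    simp only [mul_zero, zero_add]
    rw [Rr, dd]
    simp only [Nat.add_sub_cancel]
    push_cast
    field_simp
    ring
  · have b := hR (3 * n + j + 1)
    have hn : (0 : ℝ) ≤ n := Nat.cast_nonneg n
    have hj : (0 : ℝ) ≤ j := Nat.cast_nonneg j
    have c : x - 1 + (3 * n + j + 1 + 2) ≠ 0 := by linarith
    have c' : x - 1 + (3 * n + j + 1) ≠ 0 := by linarith
    have c'' : (j : ℝ) + 1 + 1 ≠ 0 := by linarith
    unfold JJ bb
    beta_reduce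
    rw [show 3 * (n + 1) + (j + 2) = 3 * n + j + 1 + 2 + 2 by ring,
      show 3 * (n + 1) + j = 3 * n + j + 1 + 2 by ring,
      show 3 * n + (j + 3) = 3 * n + j + 1 + 2 by ring,
      show 3 * n + (j + 1) = 3 * n + j + 1 by ring, Rr, Nat.cast_add (3 * n + j + 1) 2, Rr, dd]
    simp only [Nat.add_sub_cancel]
    push_cast
    rw [show (3 * ((n : ℝ) + 1) + j + x - 1) = x - 1 + (3 * n + j + 1 + 2) by ring,
      show x + 3 * (n : ℝ) + (j + 1) - 1 = x - 1 + (3 * n + j + 1) by ring,
      show (j : ℝ) + 2 = j + 1 + 1 by ring]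
    generalize x - 1 + (3 * (n : ℝ) + j + 1 + 2) = A at c
    generalize x - 1 + (3 * (n : ℝ) + j + 1) = B at c'
    field_simp
    ring

theorem hh_exists_neg {x : ℝ} (h6 : 6 < x) (hx : x < 4 + 2 * Real.sqrt 2) :
    ∃ n m : ℕ, 3 * n = 2 * m ∧ hh x n 0 < 0 := by
  have s2 : Real.sqrt 2 * Real.sqrt 2 = 2 := Real.mul_self_sqrt (by norm_num)
  have s0 : 0 ≤ Real.sqrt 2 := Real.sqrt_nonneg 2
  have s3 : Real.sqrt 2 < 3 / 2 := by nlinarith
  have h1 : 1 < x := by linarith
  have ht := isT_dd h1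
  obtain ⟨n, hn⟩ := ht.exists_neg h6 (by linarith) (by nlinarith)
  have hev : Even n := by
    by_contra hodd
    have := ht.isY.odd_zero h6 n 0 (by simpa using Nat.not_even_iff_odd.mp hodd)
    rcases mul_eq_zero.mp this with h | h
    · exact absurd h (pow_ne_zero _ (by norm_num))
    · exact absurd h hn.ne
  obtain ⟨r, hr⟩ := hev
  refine ⟨n, 3 * r, by omega, ?_⟩
  rw [← hh_eq_dd] at hn
  have hR := Rr_pos h1 (3 * n + 0)
  have hp : 0 < x ^ n := by positivity
  by_contra h
  push Not at h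
  have : 0 ≤ (-1) ^ 0 * (x ^ n * hh x n 0) / (x ^ n * Rr x (3 * n + 0)) := by positivity
  linarith

end Pool.Agent.Lib.MP_08beec_co
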